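import Pool.Agent.Work.MP_b19acb_nt.HH

/-!
# SumS (M): S_{<d}(k) is the coefficient of z^k in z/E_d(z)

`SS D [k] d = Σ_{i<d} ps D i k` (as `SS D [] i = 1`).  Let `Q_d = serQ (ee D d)`,
`E_d = ser (ee D d) = X * Q_d` (`X_mul_serQ`), `x = xx D d`.

Claim 1: `Q_{d+1} = Q_d * (1 + C x * E_d)`.  Indeed in characteristic 2
`Q_d^2 = Σ (ee D d i)^2 z^(2^(i+1)-2)` (`coeff_sq_even/odd`), so
`Q_d * (1 + x E_d) = Q_d + x z Q_d^2` has coefficient `ee D d (i+1) + x (ee D d i)^2` at
`z^(2^(i+1)-1)` and `ee D d 0 = 1` at `z^0` (`ee D d 0 = 1` for all `d`: lemma `ee_zero`).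

Claim 2: let `H_d = 1/Q_d = mk (hh (ee D d))`, `G_d = 1/(1 + x E_d) = mk (gg (fun i => x * ee D d i))`
(`gg_inv`; `ser (fun i => x * ee D d i) = C x * E_d`).  Then `H_{d+1} = H_d + z x G_d`: multiply by
`Q_{d+1} = Q_d (1 + x E_d)`:
`Q_d (1+xE_d) H_d + z x Q_d (1+xE_d) G_d = 1 + x E_d + x z Q_d = 1` since `z Q_d = E_d` and
`2 = 0`; inverses are unique.

So for `k ≥ 1`: `hh (ee D (d+1)) k = hh (ee D d) k + x * gg (..) (k-1) = hh (ee D d) k + ps D d k`.
Start: `ee D 0 = 1, 0, 0, ...`, `Q_0 = 1`, `hh (ee D 0) k = 0` for `k ≥ 1`.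
-/

namespace Pool.Agent.ZL

open Polynomial Finset

variable {K : Type*} [Field K] [CharP K 2] (D : K)

theorem ee_zero (d : ℕ) : ee D d 0 = 1 := by
  cases d <;> simp [ee]

theorem ee_succ (d i : ℕ) : ee D (d + 1) (i + 1) = ee D d (i + 1) + xx D d * (ee D d i) ^ 2 := by
  simp [ee]

private theorem coeff_serQ {R : Type*} [CommRing R] (c : ℕ → R) (n : ℕ) :
    PowerSeries.coeff n (serQ c) =
      if n + 1 = 2 ^ Nat.log 2 (n + 1) then c (Nat.log 2 (n + 1)) else 0 := by
  rw [serQ, PowerSeries.coeff_mk]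

private theorem serQ_succ (d : ℕ) : serQ (ee D (d + 1)) =
    serQ (ee D d) + PowerSeries.C (xx D d) * (PowerSeries.X * serQ (ee D d) ^ 2) := by
  ext n
  rw [map_add, PowerSeries.coeff_C_mul]
  rcases n with _ | m
  · rw [coeff_serQ, coeff_serQ, PowerSeries.coeff_zero_X_mul]
    simp [ee_zero]
  · rw [PowerSeries.coeff_succ_X_mul]
    rcases Nat.even_or_odd' m with ⟨j, rfl | rfl⟩
    · have e1 : 2 * j + 1 + 1 = (j + 1) * 2 := by ring
      have e2 : Nat.log 2 ((j + 1) * 2) = Nat.log 2 (j + 1) + 1 :=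
        Nat.log_mul_base (by norm_num) (by omega)
      rw [coeff_sq_even, coeff_serQ, coeff_serQ, coeff_serQ, e1, e2, ee_succ]
      by_cases h : j + 1 = 2 ^ Nat.log 2 (j + 1)
      · rw [if_pos (by rw [pow_succ]; omega), if_pos (by rw [pow_succ]; omega), if_pos h]
      · rw [if_neg (by rw [pow_succ]; omega), if_neg (by rw [pow_succ]; omega), if_neg h]
        simp
    · rw [coeff_sq_odd, coeff_serQ, coeff_serQ]
      have h : ¬ (2 * j + 1 + 1 + 1 = 2 ^ Nat.log 2 (2 * j + 1 + 1 + 1)) := by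
        intro h
        have h1 : Nat.log 2 (2 * j + 1 + 1 + 1) ≠ 0 := by
          rw [Ne, Nat.log_eq_zero_iff]
          omega
        obtain ⟨k, hk⟩ := Nat.exists_eq_succ_of_ne_zero h1
        rw [hk, pow_succ] at h
        omega
      rw [if_neg h, if_neg h]
      simp

private theorem ser_mul_left {R : Type*} [CommRing R] (x : R) (c : ℕ → R) :
    ser (fun i => x * c i) = PowerSeries.C x * ser c := by
  ext n
  rw [PowerSeries.coeff_C_mul, ser, ser, PowerSeries.coeff_mk, PowerSeries.coeff_mk]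
  split_ifs <;> simp

private theorem two_eq_zero_ps (F : PowerSeries K) : F + F = 0 := by
  ext n
  rw [map_add, map_zero]
  exact CharTwo.add_self_eq_zero _

private theorem step (d : ℕ) : (PowerSeries.mk fun n => hh (ee D (d + 1)) n) =
    (PowerSeries.mk fun n => hh (ee D d) n) + PowerSeries.X * (PowerSeries.C (xx D d) *
      PowerSeries.mk fun n => gg (fun i => xx D d * ee D d i) n) := by
  have h1 := hh_inv (ee D (d + 1)) (ee_zero D _)
  have h2 := hh_inv (ee D d) (ee_zero D _)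
  have h3 := gg_inv (fun i => xx D d * ee D d i)
  have h4 := X_mul_serQ (ee D d)
  have h5 := serQ_succ D d
  rw [ser_mul_left] at h3
  set Q := serQ (ee D d)
  set Q' := serQ (ee D (d + 1))
  set E := ser (ee D d)
  set H := PowerSeries.mk fun n => hh (ee D d) n
  set H' := PowerSeries.mk fun n => hh (ee D (d + 1)) n
  set G := PowerSeries.mk fun n => gg (fun i => xx D d * ee D d i) n
  set x := PowerSeries.C (xx D d)
  have h6 : Q' = Q * (1 + x * E) := by
    rw [h5, ← h4]
    ring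
  have h7 : Q' * (H + PowerSeries.X * (x * G)) = 1 := by
    calc Q' * (H + PowerSeries.X * (x * G))
        = (1 + x * E) * (Q * H) + x * (PowerSeries.X * Q) * ((1 + x * E) * G) := by
          rw [h6]; ring
      _ = 1 + (x * E + x * E) := by rw [h2, h3, h4]; ring
      _ = 1 := by rw [two_eq_zero_ps, add_zero]
  calc H' = H' * (Q' * (H + PowerSeries.X * (x * G))) := by rw [h7, mul_one]
    _ = (Q' * H') * (H + PowerSeries.X * (x * G)) := by ring
    _ = H + PowerSeries.X * (x * G) := by rw [h1, one_mul]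

theorem SS_single (d k : ℕ) (hk : 1 ≤ k) : SS D [k] d = hh (ee D d) k := by
  induction d with
  | zero =>
    have h1 : serQ (ee D 0) = (1 : PowerSeries K) := by
      ext n
      rw [coeff_serQ, PowerSeries.coeff_one]
      rcases n with _ | n
      · simp [ee]
      · rw [if_neg (Nat.succ_ne_zero n)]
        have h1 : Nat.log 2 (n + 1 + 1) ≠ 0 := by
          rw [Ne, Nat.log_eq_zero_iff]
          omega
        obtain ⟨k, hk⟩ := Nat.exists_eq_succ_of_ne_zero h1
        rw [hk]
        simp [ee]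
    have h2 := hh_inv (ee D 0) (ee_zero D _)
    rw [h1, one_mul] at h2
    have h3 := congrArg (PowerSeries.coeff k) h2
    rw [PowerSeries.coeff_mk, PowerSeries.coeff_one, if_neg (by omega)] at h3
    rw [h3]
    simp [SS]
  | succ d ih =>
    have h1 := congrArg (PowerSeries.coeff k) (step D d)
    obtain ⟨m, rfl⟩ : ∃ m, k = m + 1 := ⟨k - 1, by omega⟩
    rw [map_add, PowerSeries.coeff_mk, PowerSeries.coeff_mk, PowerSeries.coeff_succ_X_mul,
      PowerSeries.coeff_C_mul, PowerSeries.coeff_mk, ← ih] at h1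
    rw [h1]
    simp only [SS, sum_range_succ, ps, mul_one, Nat.add_sub_cancel]

end Pool.Agent.ZL
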