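import Pool.Agent.Work.MP_b19acb_nt.XU
import Pool.Agent.Work.MP_b19acb_nt.SumS

/-!
# Esh (M): the Carlitz coefficients e_{d,i} = x_{d-i}^(2^i) / (D_i x_d)

`esh D i d = x_{d-i}^(2^i)/x_d` for `i ≤ d`, 0 otherwise; `[i] = br D i`; `x_n = x_{n+1} [n+1]`
(`xx_succ_mul`), `x_n ≠ 0`.

`esh_rec`: if `i ≤ d`: `x_{d+1} = x_d/[d+1]`, so `esh (i+1) (d+1) = x_{d-i}^(2^(i+1)) [d+1]/x_d`;
`esh (i+1) d = x_{d-i}^(2^(i+1)) [d-i]^(2^(i+1))/x_d` (for `i < d` because
`x_{d-i-1} = x_{d-i} [d-i]`, for `i = d` both sides are 0 as `[0] = 0`);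
`[i+1] x_d (esh i d)^2 = [i+1] x_{d-i}^(2^(i+1))/x_d`; and `[d+1] = [d-i]^(2^(i+1)) + [i+1]`
(`br_add` with `d-i`, `i+1`).  If `i > d` everything is 0.
`esh_succ`: `x_{d-i}^(2^(i+1))/x_{d+1} = (x_{d-i}^(2^i)/x_d)^2 x_d^2/x_{d+1}` and
`x_d^2 = D x_{d+1} X_{d+1}` (`D_mul_xx_XX`).
`esh_prod`: induction on `M` with `esh_succ` (for all `d`; if `d = 0`, `M ≥ 1` both sides are 0 since
`XX D 0 = 0`): `∏_{i<M+1} (D X_{d+1-i})^(2^i) = D X_{d+1} (∏_{i<M} (D X_{d-i})^(2^i))^2`.
`carlitz`: induction on `d` (for all `i`): `ee D 0 0 = 1`, `ee D 0 (i+1) = 0`; step: `ee_succ`,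
`DD (i+1) = [i+1] (DD i)^2` and `esh_rec`.
-/

namespace Pool.Agent.ZL

open Polynomial Finset

variable {K : Type*} [Field K] [CharP K 2] (D : K) (hb : ∀ i, br D (i + 1) ≠ 0)

include hb

theorem DD_ne (i : ℕ) : DD D i ≠ 0 := by
  induction i with
  | zero => simp [DD]
  | succ i ih =>
    show br D (i + 1) * (DD D i) ^ 2 ≠ 0
    exact mul_ne_zero (hb i) (pow_ne_zero 2 ih)

theorem esh_zero (d : ℕ) : esh D 0 d = 1 := by
  unfold esh
  rw [if_pos (Nat.zero_le d), Nat.sub_zero, pow_zero, pow_one, div_self (xx_ne_zero D hb d)]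

theorem esh_rec (i d : ℕ) :
    esh D (i + 1) (d + 1) = esh D (i + 1) d + br D (i + 1) * xx D d * (esh D i d) ^ 2 := by
  by_cases hi : i ≤ d
  · have hx := xx_ne_zero D hb d
    have hx1 := xx_ne_zero D hb (d + 1)
    have h1 : esh D (i + 1) d = (xx D (d - i) * br D (d - i)) ^ 2 ^ (i + 1) / xx D d := by
      unfold esh
      by_cases hid : i + 1 ≤ d
      · rw [if_pos hid]
        obtain ⟨e, he⟩ : ∃ e, d - i = e + 1 := ⟨d - i - 1, by omega⟩
        rw [show d - (i + 1) = e by omega, he, xx_succ_mul D hb e]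
      · rw [if_neg hid, show d - i = 0 by omega, br_zero, mul_zero,
          zero_pow (pow_ne_zero _ two_ne_zero), zero_div]
    have h2 : esh D (i + 1) (d + 1) = (xx D (d - i)) ^ 2 ^ (i + 1) / xx D (d + 1) := by
      unfold esh
      rw [if_pos (by omega), show d + 1 - (i + 1) = d - i by omega]
    have h3 : esh D i d = (xx D (d - i)) ^ 2 ^ i / xx D d := by
      unfold esh
      rw [if_pos hi]
    have h4 : br D (d + 1) = (br D (d - i)) ^ 2 ^ (i + 1) + br D (i + 1) := by
      rw [← br_add, show d - i + (i + 1) = d + 1 by omega]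
    have h5 : (xx D (d + 1))⁻¹ = br D (d + 1) / xx D d := by
      have := xx_succ_mul D hb d
      have hbr := hb d
      rw [← this]
      field_simp
    rw [h1, h2, h3, div_eq_mul_inv _ (xx D (d + 1)), h5, h4, div_pow, ← pow_mul, ← pow_succ, mul_pow]
    field_simp
  · unfold esh
    rw [if_neg (by omega), if_neg (by omega), if_neg (by omega)]
    simp

theorem esh_succ (i d : ℕ) : esh D (i + 1) (d + 1) = D * XX D (d + 1) * (esh D i d) ^ 2 := by
  by_cases hi : i ≤ d
  · have hx := xx_ne_zero D hb d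
    have hx1 := xx_ne_zero D hb (d + 1)
    have h2 : esh D (i + 1) (d + 1) = (xx D (d - i)) ^ 2 ^ (i + 1) / xx D (d + 1) := by
      unfold esh
      rw [if_pos (by omega), show d + 1 - (i + 1) = d - i by omega]
    have h3 : esh D i d = (xx D (d - i)) ^ 2 ^ i / xx D d := by
      unfold esh
      rw [if_pos hi]
    have h4 := D_mul_xx_XX D hb d
    rw [h2, h3, div_pow, ← pow_mul, ← pow_succ, ← h4]
    have h5 : D * xx D (d + 1) * XX D (d + 1) ≠ 0 := by
      rw [h4]
      exact pow_ne_zero 2 hx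
    rw [mul_div_assoc', div_eq_div_iff hx1 h5]
    ring
  · unfold esh
    rw [if_neg (by omega), if_neg (by omega)]
    simp

theorem esh_prod (M d : ℕ) : esh D M d = ∏ i ∈ range M, (D * XX D (d - i)) ^ 2 ^ i := by
  induction M generalizing d with
  | zero => rw [esh_zero D hb, Finset.prod_range_zero]
  | succ M ih =>
    rw [Finset.prod_range_succ']
    cases d with
    | zero =>
      rw [Nat.sub_zero, XX_zero, mul_zero, pow_zero, pow_one, mul_zero]
      unfold esh
      rw [if_neg (by omega)]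
    | succ d =>
      rw [esh_succ D hb, ih, Nat.sub_zero, pow_zero, pow_one, mul_comm, ← Finset.prod_pow]
      congr 1
      refine Finset.prod_congr rfl fun i _ => ?_
      rw [← pow_mul, ← pow_succ, show d + 1 - (i + 1) = d - i by omega]

theorem carlitz (i d : ℕ) : DD D i * ee D d i = esh D i d := by
  induction d generalizing i with
  | zero =>
    cases i with
    | zero =>
      rw [esh_zero D hb, ee_zero]
      simp [DD]
    | succ i =>
      unfold esh
      rw [if_neg (by omega)]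
      simp [ee]
  | succ d ih =>
    cases i with
    | zero =>
      rw [esh_zero D hb, ee_zero]
      simp [DD]
    | succ i =>
      rw [esh_rec D hb, ← ih (i + 1), ← ih i, ee_succ]
      show br D (i + 1) * (DD D i) ^ 2 * _ = br D (i + 1) * (DD D i) ^ 2 * _ + _
      ring

end Pool.Agent.ZL
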