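import Pool.Agent.Work.MP_b19acb_nt.Zg
import Pool.Agent.Work.MP_b19acb_nt.Esh

/-!
# DenSS (M): denominators and growth of S_{<d}(s)/x_d^w

`O = S.O` is a subring containing `θ`, so `D`, `[i] = br D i`, `ℓ_d`, `D_i = DD D i` lie in `O` and are
nonzero (`br_ne'`).  `x_d⁻¹ = ℓ_d`.
`gg` claim: with `c i = x_d e_{d,i}`, for every `m` there is `e ∈ O`, `e ≠ 0` with
`e * gg c m * ℓ_d^m ∈ O` for all `d`: strong induction with `gg_rec`, because
`D_i c_i ℓ_d^(2^i) = (x_{d-i} ℓ_d)^(2^i) = (ℓ_d/ℓ_{d-i})^(2^i) ∈ O` for `i ≤ d` and `c_i = 0` for `i > d`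
(`carlitz`: `D_i e_{d,i} = esh D i d = x_{d-i}^(2^i)/x_d`; `ℓ_d/ℓ_{d-i}` is a product of brackets).
Take `e = (∏_{i ≤ m} D_i) * ∏_{m' < m} e_{m'}`.
`den_ps`: `ps D d n/x_d^n = gg c (n-1) ℓ_d^(n-1)`.
`den_SS`: induction on `s`: `SS (a::s) d ℓ_d^(a+w) = Σ_{i<d} (ps D i a ℓ_i^a) (SS s i ℓ_i^w) (ℓ_d/ℓ_i)^(a+w)`.
`gro_SS`: `‖φ (SS D s d)‖ ≤ 1` (`norm_SS_le`), `‖φ x_d‖⁻¹ = ‖φ ℓ_d‖ = ‖φ D‖^(2^d-1) =
‖φ θ‖^(2^(d+1)-2) ≤ ‖φ t_d‖⁻¹` (`norm_ell`, `norm_D`, `norm_t`); take `n = s.sum`.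
-/

namespace Pool.Agent.ZL

open Polynomial Finset Filter

variable {k L : Type*} [Field k] [CharP k 2] [NormedField L] [CompleteSpace L]
  [IsUltrametricDist L] [CharP L 2] (S : Setup k L)

namespace Setup

private theorem dn_D_mem : S.D ∈ S.O := S.O.add_mem (S.O.pow_mem S.θ_mem 2) S.θ_mem

theorem br_mem (i : ℕ) : br S.D i ∈ S.O :=
  S.O.sum_mem fun _ _ => S.O.pow_mem S.dn_D_mem _

theorem ell_mem (d : ℕ) : ell S.D d ∈ S.O :=
  S.O.prod_mem fun _ _ => S.br_mem _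

private theorem dn_DD_mem (i : ℕ) : DD S.D i ∈ S.O := by
  induction i with
  | zero => exact S.O.one_mem
  | succ i ih => exact S.O.mul_mem (S.br_mem _) (S.O.pow_mem ih 2)

private theorem dn_div_mem {i d : ℕ} (h : i ≤ d) : ell S.D d * xx S.D i ∈ S.O := by
  induction d, h using Nat.le_induction with
  | base =>
    unfold xx
    rw [mul_inv_cancel₀ (ell_ne_zero S.D S.br_ne' i)]
    exact S.O.one_mem
  | succ d _ ih =>
    rw [ell_succ, mul_right_comm]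
    exact S.O.mul_mem ih (S.br_mem _)

private theorem dn_add {ρ σ : ℕ → k} (h1 : S.Den ρ) (h2 : S.Den σ) :
    S.Den fun d => ρ d + σ d := by
  obtain ⟨e, he, he0, h⟩ := h1
  obtain ⟨f, hf, hf0, h'⟩ := h2
  refine ⟨e * f, S.O.mul_mem he hf, mul_ne_zero he0 hf0, fun d => ?_⟩
  have h3 : e * f * (ρ d + σ d) = f * (e * ρ d) + e * (f * σ d) := by ring
  rw [h3]
  exact S.O.add_mem (S.O.mul_mem hf (h d)) (S.O.mul_mem he (h' d))

private theorem dn_mul {ρ σ : ℕ → k} (h1 : S.Den ρ) (h2 : S.Den σ) :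
    S.Den fun d => ρ d * σ d := by
  obtain ⟨e, he, he0, h⟩ := h1
  obtain ⟨f, hf, hf0, h'⟩ := h2
  refine ⟨e * f, S.O.mul_mem he hf, mul_ne_zero he0 hf0, fun d => ?_⟩
  have h3 : e * f * (ρ d * σ d) = (e * ρ d) * (f * σ d) := by ring
  rw [h3]
  exact S.O.mul_mem (h d) (h' d)

private theorem dn_zero : S.Den fun _ => (0 : k) :=
  ⟨1, S.O.one_mem, one_ne_zero, fun _ => by rw [mul_zero]; exact S.O.zero_mem⟩

private theorem dn_sum {ι : Type*} (T : Finset ι) {ρ : ι → ℕ → k}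
    (h : ∀ i ∈ T, S.Den (ρ i)) : S.Den fun d => ∑ i ∈ T, ρ i d := by
  classical
  induction T using Finset.induction_on with
  | empty =>
    simp only [Finset.sum_empty]
    exact S.dn_zero
  | insert a T ha ih =>
    simp only [Finset.sum_insert ha]
    exact S.dn_add (h a (Finset.mem_insert_self a T))
      (ih fun i hi => h i (Finset.mem_insert_of_mem hi))

private theorem dn_c (i : ℕ) :
    S.Den fun d => (xx S.D d * ee S.D d i) * (ell S.D d) ^ 2 ^ i := by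
  refine ⟨DD S.D i, S.dn_DD_mem i, DD_ne S.D S.br_ne' i, fun d => ?_⟩
  have h1 := carlitz S.D S.br_ne' i d
  have h2 : DD S.D i * ((xx S.D d * ee S.D d i) * (ell S.D d) ^ 2 ^ i) =
      xx S.D d * esh S.D i d * (ell S.D d) ^ 2 ^ i := by
    rw [← h1]
    ring
  rw [h2]
  unfold esh
  by_cases hi : i ≤ d
  · rw [if_pos hi, mul_div_cancel₀ _ (xx_ne_zero S.D S.br_ne' d), ← mul_pow, mul_comm]
    exact S.O.pow_mem (S.dn_div_mem (Nat.sub_le d i)) _
  · rw [if_neg hi, mul_zero, zero_mul]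
    exact S.O.zero_mem

private theorem dn_gg (m : ℕ) :
    S.Den fun d => gg (fun i => xx S.D d * ee S.D d i) m * (ell S.D d) ^ m := by
  induction m using Nat.strong_induction_on with
  | _ m ih =>
    rcases Nat.eq_zero_or_pos m with rfl | hm
    · simp only [gg_zero, pow_zero, mul_one]
      exact ⟨1, S.O.one_mem, one_ne_zero, fun _ => by rw [mul_one]; exact S.O.one_mem⟩
    · have h1 : (fun d => gg (fun i => xx S.D d * ee S.D d i) m * (ell S.D d) ^ m) =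
          fun d => ∑ i ∈ range (m + 1), if 2 ^ i ≤ m then
            ((xx S.D d * ee S.D d i) * (ell S.D d) ^ 2 ^ i) *
            (gg (fun i => xx S.D d * ee S.D d i) (m - 2 ^ i) * (ell S.D d) ^ (m - 2 ^ i))
            else 0 := by
        funext d
        rw [gg_rec _ hm, Finset.sum_mul]
        refine Finset.sum_congr rfl fun i _ => ?_
        split_ifs with hi
        · have h2 : (ell S.D d) ^ m = (ell S.D d) ^ 2 ^ i * (ell S.D d) ^ (m - 2 ^ i) := by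
            rw [← pow_add]
            congr 1
            omega
          rw [h2]
          ring
        · rw [zero_mul]
      rw [h1]
      refine S.dn_sum _ fun i _ => ?_
      by_cases hi : 2 ^ i ≤ m
      · simp only [if_pos hi]
        have hpos : 0 < 2 ^ i := Nat.two_pow_pos i
        exact S.dn_mul (S.dn_c i) (ih (m - 2 ^ i) (by omega))
      · simp only [if_neg hi]
        exact S.dn_zero

theorem den_ps {n : ℕ} (hn : 1 ≤ n) : S.Den fun d => ps S.D d n / (xx S.D d) ^ n := by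
  obtain ⟨m, rfl⟩ : ∃ m, n = m + 1 := ⟨n - 1, by omega⟩
  have h1 : (fun d => ps S.D d (m + 1) / (xx S.D d) ^ (m + 1)) =
      fun d => gg (fun i => xx S.D d * ee S.D d i) m * (ell S.D d) ^ m := by
    funext d
    unfold ps
    rw [Nat.add_sub_cancel, pow_succ', mul_div_mul_left _ _ (xx_ne_zero S.D S.br_ne' d),
      div_eq_mul_inv]
    congr 1
    unfold xx
    rw [inv_pow, inv_inv]
  rw [h1]
  exact S.dn_gg m

theorem den_SS {s : List ℕ} (hs : ∀ a ∈ s, 1 ≤ a) :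
    S.Den fun d => SS S.D s d / (xx S.D d) ^ s.sum := by
  induction s with
  | nil =>
    refine ⟨1, S.O.one_mem, one_ne_zero, fun d => ?_⟩
    simp only [SS, List.sum_nil, pow_zero, div_one, mul_one]
    exact S.O.one_mem
  | cons a s ih =>
    obtain ⟨e, he, he0, h⟩ := S.den_ps (hs a List.mem_cons_self)
    obtain ⟨f, hf, hf0, h'⟩ := ih fun b hb => hs b (List.mem_cons_of_mem a hb)
    refine ⟨e * f, S.O.mul_mem he hf, mul_ne_zero he0 hf0, fun d => ?_⟩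
    have h3 : e * f * (SS S.D (a :: s) d / (xx S.D d) ^ (a :: s).sum) =
        ∑ i ∈ range d, (e * (ps S.D i a / (xx S.D i) ^ a)) *
          (f * (SS S.D s i / (xx S.D i) ^ s.sum)) * (ell S.D d * xx S.D i) ^ (a + s.sum) := by
      rw [SS, List.sum_cons, Finset.sum_div, Finset.mul_sum]
      refine Finset.sum_congr rfl fun i _ => ?_
      have hx := xx_ne_zero S.D S.br_ne' i
      have hd : (ell S.D d) = (xx S.D d)⁻¹ := by
        unfold xx
        rw [inv_inv]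
      have hxd := xx_ne_zero S.D S.br_ne' d
      rw [hd]
      rw [mul_pow, inv_pow, pow_add (xx S.D i)]
      field_simp
    rw [h3]
    refine S.O.sum_mem fun i hi => ?_
    exact S.O.mul_mem (S.O.mul_mem (h i) (h' i))
      (S.O.pow_mem (S.dn_div_mem (Finset.mem_range.1 hi).le) _)

theorem gro_SS {s : List ℕ} (hs : ∀ a ∈ s, 1 ≤ a) :
    S.Gro fun d => SS S.D s d / (xx S.D d) ^ s.sum := by
  refine ⟨s.sum, 1, Eventually.of_forall fun d => ?_⟩
  have h1 := S.norm_SS_le hs d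
  have hθ := S.hθ
  have h0 : 0 < ‖S.φ S.θ‖ := zero_lt_one.trans hθ
  have h2 : ‖S.φ (SS S.D s d / (xx S.D d) ^ s.sum)‖ =
      ‖S.φ (SS S.D s d)‖ * (‖S.φ S.θ‖ ^ (2 * (2 ^ d - 1))) ^ s.sum := by
    unfold xx
    rw [inv_pow, div_inv_eq_mul, map_mul, norm_mul, map_pow, norm_pow, map_ell,
      norm_ell (S.φ S.D) S.one_lt_D, norm_D, pow_mul ‖S.φ S.θ‖ 2 (2 ^ d - 1)]
  rw [h2, norm_t, mul_assoc, ← mul_pow]
  have h3 : ‖S.φ S.θ‖ ^ (2 * (2 ^ d - 1)) * ‖S.φ S.θ‖⁻¹ ^ 2 ^ (d + 1) ≤ 1 := by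
    have hle : 2 * (2 ^ d - 1) ≤ 2 ^ (d + 1) := by
      rw [pow_succ]
      omega
    calc ‖S.φ S.θ‖ ^ (2 * (2 ^ d - 1)) * ‖S.φ S.θ‖⁻¹ ^ 2 ^ (d + 1)
        ≤ ‖S.φ S.θ‖ ^ 2 ^ (d + 1) * ‖S.φ S.θ‖⁻¹ ^ 2 ^ (d + 1) :=
          mul_le_mul_of_nonneg_right (pow_le_pow_right₀ hθ.le hle) (by positivity)
      _ = 1 := by rw [← mul_pow, mul_inv_cancel₀ h0.ne', one_pow]
  exact mul_le_one₀ h1 (by positivity) (pow_le_one₀ (by positivity) h3)

theorem den_const (c : k) : S.Den fun _ => c := by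
  obtain ⟨e, he, he0, h⟩ := S.frac c
  exact ⟨e, he, he0, fun _ => h⟩

theorem gro_const (c : k) : S.Gro fun _ => c := by
  refine ⟨0, ‖S.φ c‖, Eventually.of_forall fun d => ?_⟩
  rw [pow_zero, mul_one]

end Setup

end Pool.Agent.ZL
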