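import Pool.Agent.Work.MP_b19acb_nt.RepA

/-!
# RepB (M): uniqueness, lower bounds, inverse, shift

`poly_lower`: `P ≠ 0`, `P = X^n (c + X R)`, `c ≠ 0`: `‖φ (R(t_d)) φ (t_d)‖ → 0`, so
`‖φ (c + t_d R(t_d))‖ = ‖φ c‖` for large `d` (ultrametric) and `‖φ P(t_d)‖ = ‖φ c‖ ‖t_d‖^n`.
In particular `P(t_d) ≠ 0` for large `d` (`poly_ne`).
`rep_lower`: `G ≠ 0`, `n` its order, `c` the coefficient of `X^n`: `trunc (n+1) G = c X^n`, so
`‖α d - φ(c t_d^n)‖ ≤ C ‖t_d‖^(n+1)`, hence `‖α d‖ ≥ (‖φ c‖/2) ‖t_d‖^n` for large `d`.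
`rep_unique`: `Rep (α - α) (G - H)`, so if `G ≠ H`, `rep_lower` contradicts the value `0`.
`rep_inv`: `c₀ = constantCoeff G ≠ 0`: `G * G⁻¹ = 1` (`PowerSeries.mul_inv_cancel`); `α d → φ c₀ ≠ 0`
(`M = 1`), so `‖(α d)⁻¹‖` is bounded.  With `P = trunc M G⁻¹`:
`(α d)⁻¹ - φ P(t_d) = (α d)⁻¹ (1 - α d φ(P(t_d)))` and `α d φ(P(t_d))` is represented by
`G * P = 1 + O(X^M)`.
`rep_shift`: `t_{d+1} = t_d^2`; `trunc (2M) (sq2 G)` and `(trunc M G)(X^2)` agree (`trunc` of `sq2 G` at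
`2M` has exactly the coefficients of `X^(2j)`, `j < M`), so the statement for `M` at `d+1` gives the one
for `2M` for the sequence `α (d+1)`, and for `M ≤ 2M` (`rep_of_le`: the difference of the two
truncations is divisible by `X^M`).
`sq2_add`, `sq2_mul`, `sq2_coe`: coefficientwise (`coeff_mul` with antidiagonals; or use
uniqueness... any proof).
-/

namespace Pool.Agent.ZL

open Polynomial Finset Filter

variable {k L : Type*} [Field k] [CharP k 2] [NormedField L] [CompleteSpace L]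
  [IsUltrametricDist L] [CharP L 2] (S : Setup k L)

theorem sq2_add {k : Type*} [Field k] (G H : PowerSeries k) : sq2 (G + H) = sq2 G + sq2 H := by
  ext n
  unfold sq2
  rw [map_add, PowerSeries.coeff_mk, PowerSeries.coeff_mk, PowerSeries.coeff_mk]
  split_ifs
  · rw [map_add]
  · rw [add_zero]

private theorem rb_even {k : Type*} [Field k] (G : PowerSeries k) (n : ℕ) :
    PowerSeries.coeff (2 * n) (sq2 G) = PowerSeries.coeff n G := by
  unfold sq2
  rw [PowerSeries.coeff_mk, if_pos (Dvd.intro _ rfl), Nat.mul_div_cancel_left _ (by norm_num)]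

private theorem rb_odd {k : Type*} [Field k] (G : PowerSeries k) {n : ℕ} (hn : ¬ 2 ∣ n) :
    PowerSeries.coeff n (sq2 G) = 0 := by
  unfold sq2
  rw [PowerSeries.coeff_mk, if_neg hn]

theorem sq2_mul {k : Type*} [Field k] (G H : PowerSeries k) : sq2 (G * H) = sq2 G * sq2 H := by
  ext n
  by_cases hn : 2 ∣ n
  · obtain ⟨m, rfl⟩ := hn
    rw [rb_even, PowerSeries.coeff_mul, PowerSeries.coeff_mul]
    have hinj : Function.Injective fun p : ℕ × ℕ => (2 * p.1, 2 * p.2) := by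
      intro p q h
      simp only [Prod.mk.injEq] at h
      exact Prod.ext (by omega) (by omega)
    have hsub : (antidiagonal m).image (fun p : ℕ × ℕ => (2 * p.1, 2 * p.2)) ⊆
        antidiagonal (2 * m) := by
      intro p hp
      obtain ⟨q, hq, rfl⟩ := Finset.mem_image.1 hp
      rw [HasAntidiagonal.mem_antidiagonal] at hq ⊢
      dsimp only
      omega
    rw [← Finset.sum_subset hsub, Finset.sum_image fun a _ b _ h => hinj h]
    · exact Finset.sum_congr rfl fun p _ => by rw [rb_even, rb_even]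
    · intro p hp hp'
      rw [HasAntidiagonal.mem_antidiagonal] at hp
      by_cases h1 : 2 ∣ p.1
      · exfalso
        obtain ⟨a, ha⟩ := h1
        have h2 : p.2 = 2 * (m - a) := by omega
        refine hp' (Finset.mem_image.2 ⟨(a, m - a), ?_, ?_⟩)
        · rw [HasAntidiagonal.mem_antidiagonal]
          dsimp only
          omega
        · exact Prod.ext ha.symm h2.symm
      · rw [rb_odd G h1, zero_mul]
  · rw [rb_odd _ hn, PowerSeries.coeff_mul]
    refine (Finset.sum_eq_zero fun p hp => ?_).symm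
    rw [HasAntidiagonal.mem_antidiagonal] at hp
    by_cases h1 : 2 ∣ p.1
    · rw [rb_odd H (n := p.2) (by omega), mul_zero]
    · rw [rb_odd G h1, zero_mul]

theorem sq2_zero {k : Type*} [Field k] : sq2 (0 : PowerSeries k) = 0 := by
  ext n
  unfold sq2
  rw [PowerSeries.coeff_mk, map_zero, map_zero, ite_self]

theorem sq2_coe {k : Type*} [Field k] (P : k[X]) :
    sq2 (P : PowerSeries k) = ((expand k 2 P : k[X]) : PowerSeries k) := by
  ext n
  unfold sq2
  rw [PowerSeries.coeff_mk, Polynomial.coeff_coe, Polynomial.coeff_coe,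
    Polynomial.coeff_expand (by norm_num)]

theorem sq2_one {k : Type*} [Field k] : sq2 (1 : PowerSeries k) = 1 := by
  have h := sq2_coe (1 : k[X])
  rwa [Polynomial.coe_one, map_one, Polynomial.coe_one] at h

theorem sq2_sum {k : Type*} [Field k] {ι : Type*} (T : Finset ι) (G : ι → PowerSeries k) :
    sq2 (∑ i ∈ T, G i) = ∑ i ∈ T, sq2 (G i) := by
  classical
  induction T using Finset.induction_on with
  | empty => rw [Finset.sum_empty, Finset.sum_empty, sq2_zero]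
  | insert a A ha ih => rw [Finset.sum_insert ha, Finset.sum_insert ha, sq2_add, ih]

namespace Setup

private theorem rb_tendsto (P : k[X]) :
    Tendsto (fun d => S.φ (P.eval (S.t d))) atTop (nhds (S.φ (P.coeff 0))) := by
  have h0 : Tendsto (fun d => S.φ (S.t d)) atTop (nhds 0) :=
    tendsto_zero_iff_norm_tendsto_zero.2 S.tendsto_t
  have h1 : Tendsto (fun d => (P.map S.φ).eval (S.φ (S.t d))) atTop
      (nhds ((P.map S.φ).eval 0)) :=
    ((P.map S.φ).continuous.tendsto 0).comp h0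
  have e1 : (fun d => (P.map S.φ).eval (S.φ (S.t d))) = fun d => S.φ (P.eval (S.t d)) := by
    funext d
    rw [eval_map, eval₂_hom]
  have e2 : (P.map S.φ).eval 0 = S.φ (P.coeff 0) := by
    rw [← coeff_zero_eq_eval_zero, coeff_map]
  rwa [e1, e2] at h1

private theorem rb_lower {P : k[X]} (hP : P ≠ 0) : ∃ c : ℝ, 0 < c ∧ ∀ᶠ d in atTop,
    c * ‖S.φ (S.t d)‖ ^ P.natTrailingDegree ≤ ‖S.φ (P.eval (S.t d))‖ := by
  have hdvd : X ^ P.natTrailingDegree ∣ P :=
    X_pow_dvd_iff.2 fun d hd => coeff_eq_zero_of_lt_natTrailingDegree hd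
  obtain ⟨R, hR⟩ := hdvd
  have hR0 : R.coeff 0 ≠ 0 := by
    have h1 : P.coeff P.natTrailingDegree ≠ 0 := by
      have := trailingCoeff_nonzero_iff_nonzero.2 hP
      exact this
    have h2 : P.coeff P.natTrailingDegree = R.coeff 0 := by
      conv_lhs => rw [hR]
      have h3 := coeff_X_pow_mul R P.natTrailingDegree 0
      rw [zero_add] at h3
      conv_lhs => rw [← hR]
      conv_rhs => rw [← h3]
      rw [← hR]
    rwa [h2] at h1
  have hpos : 0 < ‖S.φ (R.coeff 0)‖ :=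
    norm_pos_iff.2 ((map_ne_zero S.φ).2 hR0)
  have h1 := (S.rb_tendsto R).norm
  have h2 : ∀ᶠ d in atTop, ‖S.φ (R.coeff 0)‖ / 2 < ‖S.φ (R.eval (S.t d))‖ :=
    h1.eventually_const_lt (half_lt_self hpos)
  refine ⟨‖S.φ (R.coeff 0)‖ / 2, half_pos hpos, h2.mono fun d hd => ?_⟩
  have e : S.φ (P.eval (S.t d)) = S.φ (S.t d) ^ P.natTrailingDegree * S.φ (R.eval (S.t d)) := by
    conv_lhs => rw [hR]
    rw [eval_mul, eval_pow, eval_X, map_mul, map_pow]
  rw [e, norm_mul, norm_pow, mul_comm]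
  exact mul_le_mul_of_nonneg_left hd.le (pow_nonneg (norm_nonneg _) _)

theorem poly_lower {P : k[X]} (hP : P ≠ 0) : ∃ (n : ℕ) (c : ℝ), 0 < c ∧ ∀ᶠ d in atTop,
    c * ‖S.φ (S.t d)‖ ^ n ≤ ‖S.φ (P.eval (S.t d))‖ := by
  obtain ⟨c, hc, h⟩ := S.rb_lower hP
  exact ⟨_, c, hc, h⟩

theorem poly_ne {P : k[X]} (hP : P ≠ 0) : ∀ᶠ d in atTop, P.eval (S.t d) ≠ 0 := by
  obtain ⟨n, c, hc, h⟩ := S.poly_lower hP
  refine h.mono fun d hd h0 => ?_
  rw [h0, map_zero, norm_zero] at hd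
  exact absurd hd (not_le.2 (mul_pos hc (pow_pos (S.norm_t_pos d) n)))

/-- a lower bound with an explicit exponent -/
private theorem rb_rep_lower {α : ℕ → L} {G : PowerSeries k} (h : S.Rep α G) {n : ℕ}
    (hn : PowerSeries.coeff n G ≠ 0) :
    ∃ c : ℝ, 0 < c ∧ ∀ᶠ d in atTop, c * ‖S.φ (S.t d)‖ ^ n ≤ ‖α d‖ := by
  set P : k[X] := PowerSeries.trunc (n + 1) G with hPdef
  have hPn : P.coeff n ≠ 0 := by
    rw [hPdef, PowerSeries.coeff_trunc, if_pos (Nat.lt_succ_self n)]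
    exact hn
  have hP : P ≠ 0 := by
    intro h0
    rw [h0, coeff_zero] at hPn
    exact hPn rfl
  have hm : P.natTrailingDegree ≤ n := natTrailingDegree_le_of_ne_zero hPn
  obtain ⟨c, hc, h1⟩ := S.rb_lower hP
  obtain ⟨C, hC⟩ := h (n + 1)
  have h2 : Tendsto (fun d => max C 0 * ‖S.φ (S.t d)‖) atTop (nhds 0) := by
    have := S.tendsto_t.const_mul (max C 0)
    rwa [mul_zero] at this
  have h3 : ∀ᶠ d in atTop, max C 0 * ‖S.φ (S.t d)‖ < c / 2 :=
    h2.eventually_lt_const (half_pos hc)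
  refine ⟨c / 2, half_pos hc, ?_⟩
  filter_upwards [h1, hC, h3] with d h1 hC h3
  have ht0 : 0 ≤ ‖S.φ (S.t d)‖ := norm_nonneg _
  have ht1 : ‖S.φ (S.t d)‖ ≤ 1 := (S.norm_t_lt d).le
  have h4 : ‖S.φ (S.t d)‖ ^ n ≤ ‖S.φ (S.t d)‖ ^ P.natTrailingDegree :=
    pow_le_pow_of_le_one ht0 ht1 hm
  have h5 : c * ‖S.φ (S.t d)‖ ^ n ≤ ‖S.φ (P.eval (S.t d))‖ :=
    (mul_le_mul_of_nonneg_left h4 hc.le).trans h1
  have h6 : ‖α d - S.φ (P.eval (S.t d))‖ ≤ c / 2 * ‖S.φ (S.t d)‖ ^ n := by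
    refine hC.trans ?_
    calc C * ‖S.φ (S.t d)‖ ^ (n + 1) ≤ max C 0 * ‖S.φ (S.t d)‖ ^ (n + 1) :=
          mul_le_mul_of_nonneg_right (le_max_left _ _) (pow_nonneg ht0 _)
      _ = max C 0 * ‖S.φ (S.t d)‖ * ‖S.φ (S.t d)‖ ^ n := by rw [pow_succ]; ring
      _ ≤ c / 2 * ‖S.φ (S.t d)‖ ^ n := mul_le_mul_of_nonneg_right h3.le (pow_nonneg ht0 _)
  have h7 : ‖S.φ (P.eval (S.t d))‖ ≤ ‖α d‖ + ‖α d - S.φ (P.eval (S.t d))‖ := by
    have h8 := norm_sub_norm_le (S.φ (P.eval (S.t d))) (α d)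
    rw [norm_sub_rev] at h8
    linarith
  linarith

theorem rep_lower {α : ℕ → L} {G : PowerSeries k} (h : S.Rep α G) (hG : G ≠ 0) :
    ∃ (n : ℕ) (c : ℝ), 0 < c ∧ ∀ᶠ d in atTop, c * ‖S.φ (S.t d)‖ ^ n ≤ ‖α d‖ := by
  obtain ⟨n, hn⟩ : ∃ n, PowerSeries.coeff n G ≠ 0 := by
    by_contra hcon
    push Not at hcon
    exact hG (PowerSeries.ext fun n => by rw [hcon n, map_zero])
  obtain ⟨c, hc, h1⟩ := S.rb_rep_lower h hn
  exact ⟨n, c, hc, h1⟩

private theorem rb_sub {α β : ℕ → L} {G H : PowerSeries k} (h : S.Rep α G) (h' : S.Rep β H) :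
    S.Rep (fun d => α d - β d) (G - H) := by
  have h1 := S.rep_add h (S.rep_mul (S.rep_C (-1)) h')
  have e1 : (fun d => α d + S.φ (-1) * β d) = fun d => α d - β d := by
    funext d
    rw [map_neg, map_one]
    ring
  have e2 : G + PowerSeries.C (-1) * H = G - H := by
    rw [map_neg, map_one]
    ring
  rw [e1, e2] at h1
  exact h1

theorem rep_unique {α : ℕ → L} {G H : PowerSeries k} (h : S.Rep α G) (h' : S.Rep α H) :
    G = H := by
  by_contra hne
  obtain ⟨n, c, hc, h1⟩ := S.rep_lower (S.rb_sub h h') (sub_ne_zero.2 hne)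
  obtain ⟨d, hd⟩ := h1.exists
  rw [sub_self, norm_zero] at hd
  exact absurd hd (not_le.2 (mul_pos hc (pow_pos (S.norm_t_pos d) n)))

theorem rep_inv {α : ℕ → L} {G : PowerSeries k} (h : S.Rep α G)
    (hG : PowerSeries.constantCoeff G ≠ 0) : S.Rep (fun d => (α d)⁻¹) G⁻¹ := by
  intro M
  have hG0 : PowerSeries.coeff 0 G ≠ 0 := by
    rwa [PowerSeries.coeff_zero_eq_constantCoeff_apply]
  obtain ⟨c, hc, h1⟩ := S.rb_rep_lower h hG0
  set P : k[X] := PowerSeries.trunc M G⁻¹ with hPdef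
  have h2 := S.rb_sub (S.rep_C 1) (S.rep_mul h (S.rep_poly P))
  have hdvd : PowerSeries.X ^ M ∣ PowerSeries.C (1 : k) - G * (P : PowerSeries k) := by
    have e : PowerSeries.C (1 : k) - G * (P : PowerSeries k) =
        G * (G⁻¹ - (P : PowerSeries k)) := by
      rw [mul_sub, PowerSeries.mul_inv_cancel G hG, map_one]
    rw [e]
    refine Dvd.dvd.mul_left ?_ G
    rw [PowerSeries.X_pow_dvd_iff]
    intro m hm
    rw [map_sub, Polynomial.coeff_coe, hPdef, PowerSeries.coeff_trunc, if_pos hm, sub_self]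
  obtain ⟨C, hC⟩ := S.rep_dvd h2 hdvd
  refine ⟨c⁻¹ * C, ?_⟩
  filter_upwards [h1, hC] with d h1 hC
  rw [pow_zero, mul_one] at h1
  have hα : 0 < ‖α d‖ := hc.trans_le h1
  have hα0 : α d ≠ 0 := norm_pos_iff.1 hα
  have e : (α d)⁻¹ - S.φ (P.eval (S.t d)) =
      (α d)⁻¹ * (S.φ 1 - α d * S.φ (P.eval (S.t d))) := by
    rw [mul_sub, map_one, mul_one, ← mul_assoc, inv_mul_cancel₀ hα0, one_mul]
  rw [e, norm_mul, norm_inv, mul_assoc]
  exact mul_le_mul (inv_anti₀ hc h1) hC (norm_nonneg _) (inv_nonneg.2 hc.le)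

theorem rep_shift {α : ℕ → L} {G : PowerSeries k} (h : S.Rep α G) :
    S.Rep (fun d => α (d + 1)) (sq2 G) := by
  intro M
  obtain ⟨C, hC⟩ := h M
  have hC1 : ∀ᶠ d in atTop, ‖α (d + 1) - S.φ ((PowerSeries.trunc M G).eval (S.t (d + 1)))‖ ≤
      C * ‖S.φ (S.t (d + 1))‖ ^ M := (tendsto_add_atTop_nat 1).eventually hC
  have hdvd : X ^ M ∣ expand k 2 (PowerSeries.trunc M G) - PowerSeries.trunc M (sq2 G) := by
    rw [X_pow_dvd_iff]
    intro n hn
    rw [coeff_sub, coeff_expand (by norm_num), PowerSeries.coeff_trunc, PowerSeries.coeff_trunc,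
      if_pos hn, if_pos (lt_of_le_of_lt (Nat.div_le_self n 2) hn)]
    unfold sq2
    rw [PowerSeries.coeff_mk, sub_self]
  obtain ⟨C', hC'⟩ := S.poly_small hdvd
  refine ⟨max C 0 + C', ?_⟩
  filter_upwards [hC1] with d h1
  have ht0 : 0 ≤ ‖S.φ (S.t d)‖ := norm_nonneg _
  have e1 : (PowerSeries.trunc M G).eval (S.t (d + 1)) =
      (expand k 2 (PowerSeries.trunc M G)).eval (S.t d) := by
    rw [expand_eval, S.t_succ]
  have h2 : ‖α (d + 1) - S.φ ((PowerSeries.trunc M G).eval (S.t (d + 1)))‖ ≤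
      max C 0 * ‖S.φ (S.t d)‖ ^ M := by
    refine h1.trans ?_
    refine mul_le_mul (le_max_left _ _) ?_ (pow_nonneg (norm_nonneg _) _) (le_max_right _ _)
    exact pow_le_pow_left₀ (norm_nonneg _) (S.norm_t_succ_le d) M
  have h3 := hC' d
  rw [eval_sub, map_sub, ← e1] at h3
  have e2 : α (d + 1) - S.φ ((PowerSeries.trunc M (sq2 G)).eval (S.t d)) =
      (α (d + 1) - S.φ ((PowerSeries.trunc M G).eval (S.t (d + 1)))) +
      (S.φ ((PowerSeries.trunc M G).eval (S.t (d + 1))) -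
        S.φ ((PowerSeries.trunc M (sq2 G)).eval (S.t d))) := by ring
  show ‖α (d + 1) - S.φ ((PowerSeries.trunc M (sq2 G)).eval (S.t d))‖ ≤ _
  rw [e2, add_mul]
  exact (norm_add_le _ _).trans (add_le_add h2 h3)

end Setup

end Pool.Agent.ZL
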