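import Pool.Agent.Work.MP_b19acb_nt.Indep
import Pool.Agent.Work.MP_b19acb_nt.Lift
import Pool.Agent.Work.MP_b19acb_nt.DenSS

/-!
# MainT (M-L): a zeta-like tuple telescopes

`D = S.D`, `r = s.length`, `w = s.sum`, `w_j = (s.drop j).sum`, `σ_j = (s.take j).sum`, `w = σ_j + w_j`.
`main`: indices `0..r+1`.  For `j ≤ r`: `ρ_j d = SS D (s.drop j) d/x_d^(w_j)`, `g_j d =
φ(u_d)^(w_j) zg (s.take j).reverse d/φ(X_d)^(σ_j)`, `G_j = UU^(w_j) Gam (s.take j).reverse`; for
`j = r+1`: `ρ = c` (constant), `g d = (zeta [1]/φ(X_d))^w`, `G = (1 + Gam [1])^w` (`rep_Xi`).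
For `d ≥ 1`: `Σ_{j≤r} φ(ρ_j d) g_j d = φ(X_d)^(-w) Σ_j zg_j d φ(SS (s.drop j) d) = φ(X_d)^(-w) zeta s`
(`split`, `u_d = x_d/X_d`), and `φ c g_{r+1} d` is the same by `h`; so the sum over all `r+2` indices
vanishes (characteristic 2) for `d ≥ 1`, in particular it is `Small`.  `den_SS`, `gro_SS`,
`den_const`, `gro_const`.  `lift`: for large `d` there is a relation `Q^d` with `ρ_j d = Q^d_j(t_d)`.
Fix one such `d₁` and `P = Q^{d₁}`; `P_r ≠ 0` as `ρ_r = 1`.
For any relation `Q` (`Σ Q_j G_j = 0`): `Q_{r+1} P - P_{r+1} Q` has no component `r+1`: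
`Σ_{j≤r} (Q_{r+1} P_j - P_{r+1} Q_j) UU^(w_j) Γ_j = 0`; multiply by `Ee^w`, `UU^(w_j) Ee^(w_j) =
(C D * X)^(w_j)` (`UU_mul`), and use `indep`: `Q_{r+1} P_j = P_{r+1} Q_j` for all `j ≤ r`.  In the same
way `P_{r+1} ≠ 0` (otherwise `P` is a relation among `j ≤ r`, so `P_r = 0`).
So for large `d`, with `Q = Q^d`: `P_{r+1}(t_d) ρ_j d = Q_{r+1}(t_d) P_j(t_d) = c P_j(t_d)`; `j = r`:
`P_{r+1}(t_d) = c P_r(t_d)`, so `c ≠ 0` (`poly_ne`), and so `P_r(t_d) ρ_j d = P_j(t_d)`, that is
`SS D (s.drop j) d * P_r(t_d) = x_d^(w_j) P_j(t_d)` for large `d`.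
Downward induction on `j ≤ r`: `Tel D (s.drop j)`: `s.drop r = []` (`Φ = 1`); `s.drop j = s_j :: s.drop (j+1)`:
`rat_tel` with `Z = SS D (s.drop j)`, `SS_succ`.  For `j > r` the list is `[]`.

`zeta_like_iff`: `zeta_single` for `zeta [w]`: `zeta s = φ c * zeta [w]` gives
`zeta s = φ (c c') * zeta [1]^w`, `main`, `tel_map`, `classification`.  Conversely `fam_lim`.
-/

namespace Pool.Agent.ZL

open Polynomial Finset Filter

variable {k L : Type*} [Field k] [CharP k 2] [NormedField L] [CompleteSpace L]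
  [IsUltrametricDist L] [CharP L 2] (S : Setup k L)

namespace Setup

theorem take_pos {s : List ℕ} (hs : ∀ a ∈ s, 1 ≤ a) (j : ℕ) : ∀ a ∈ (s.take j).reverse, 1 ≤ a := by
  intro a ha
  exact hs a (List.mem_of_mem_take (List.mem_reverse.mp ha))

theorem drop_pos {s : List ℕ} (hs : ∀ a ∈ s, 1 ≤ a) (j : ℕ) : ∀ a ∈ s.drop j, 1 ≤ a := by
  intro a ha
  exact hs a (List.mem_of_mem_drop ha)

theorem sum_take_drop (s : List ℕ) (j : ℕ) : (s.take j).reverse.sum + (s.drop j).sum = s.sum := by
  rw [List.sum_reverse, ← List.sum_append, List.take_append_drop]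

/-- the linear relation between the normalised tails -/
theorem sum_zero {s : List ℕ} (hs : ∀ a ∈ s, 1 ≤ a) {c : k}
    (h : S.zeta s = S.φ c * S.zeta [1] ^ s.sum) {d : ℕ} (hd : 1 ≤ d) :
    (∑ j ∈ range (s.length + 1), S.φ (SS S.D (s.drop j) d / (xx S.D d) ^ (s.drop j).sum) *
      (S.φ (uu S.D d) ^ (s.drop j).sum * (S.zg (s.take j).reverse d /
        S.φ (XX S.D d) ^ (s.take j).reverse.sum))) +
      S.φ c * (S.zeta [1] / S.φ (XX S.D d)) ^ s.sum = 0 := by
  have hX : S.φ (XX S.D d) ≠ 0 := by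
    rw [_root_.map_ne_zero]
    exact XX_ne_zero _ S.br_ne' hd
  have hx : S.φ (xx S.D d) ≠ 0 := by
    rw [_root_.map_ne_zero]
    exact xx_ne_zero _ S.br_ne' d
  have h1 : ∀ j ∈ range (s.length + 1),
      S.φ (SS S.D (s.drop j) d / (xx S.D d) ^ (s.drop j).sum) *
      (S.φ (uu S.D d) ^ (s.drop j).sum * (S.zg (s.take j).reverse d /
        S.φ (XX S.D d) ^ (s.take j).reverse.sum)) =
      (S.zg (s.take j).reverse d * S.φ (SS S.D (s.drop j) d)) / S.φ (XX S.D d) ^ s.sum := by
    intro j _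
    rw [← sum_take_drop s j, uu, map_div₀, map_div₀, map_pow, div_pow, pow_add]
    field_simp
  rw [Finset.sum_congr rfl h1, ← Finset.sum_div, S.split hs d, h, div_pow, mul_div_assoc]
  exact CharTwo.add_self_eq_zero _

theorem indep' {s : List ℕ} (hs : ∀ a ∈ s, 1 ≤ a) (Q : ℕ → k[X])
    (h : ∑ j ∈ range (s.length + 1), (Q j : PowerSeries k) *
      (S.UU ^ (s.drop j).sum * S.Gam (s.take j).reverse) = 0) :
    ∀ j ≤ s.length, Q j = 0 := by
  have hD0 : S.D ≠ 0 := by
    intro h0
    have := S.one_lt_D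
    rw [h0, map_zero, norm_zero] at this
    linarith
  have h2 : ∑ j ∈ range (s.length + 1),
      ((Q j * ((C S.D * X) ^ (s.drop j).sum * S.Ee ^ (s.take j).reverse.sum) : k[X]) :
        PowerSeries k) * S.Gam (s.take j).reverse = 0 := by
    have h3 : ((S.Ee ^ s.sum : k[X]) : PowerSeries k) *
        (∑ j ∈ range (s.length + 1), (Q j : PowerSeries k) *
      (S.UU ^ (s.drop j).sum * S.Gam (s.take j).reverse)) = 0 := by rw [h, mul_zero]
    rw [← h3, Finset.mul_sum]
    refine Finset.sum_congr rfl fun j _ => ?_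
    rw [← sum_take_drop s j]
    have h4 : S.UU ^ (s.drop j).sum * ((S.Ee : k[X]) : PowerSeries k) ^ (s.drop j).sum =
        ((C S.D * X : k[X]) : PowerSeries k) ^ (s.drop j).sum := by
      rw [← mul_pow, S.UU_mul]
    rw [pow_add]
    simp only [Polynomial.coe_mul, Polynomial.coe_pow] at h4 ⊢
    rw [← h4]
    ring
  have h5 := S.indep hs _ h2
  intro j hj
  have h6 := h5 j hj
  have h7 : (C S.D * X : k[X]) ≠ 0 := mul_ne_zero (by rwa [Ne, C_eq_zero]) X_ne_zero
  have h8 : S.Ee ≠ 0 := by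
    intro h0
    have := S.Ee_ne (le_refl 1)
    rw [h0] at this
    simp at this
  rcases mul_eq_zero.mp h6 with h9 | h9
  · exact h9
  · exact absurd h9 (mul_ne_zero (pow_ne_zero _ h7) (pow_ne_zero _ h8))

theorem tel_nil : Tel S.D [] := ⟨1, fun d => by simp [SS]⟩

theorem main {s : List ℕ} (hs : ∀ a ∈ s, 1 ≤ a) {c : k}
    (h : S.zeta s = S.φ c * S.zeta [1] ^ s.sum) (j : ℕ) : Tel S.D (s.drop j) := by
  classical
  set r := s.length with hr
  let G : ℕ → PowerSeries k := fun j =>
    if j ≤ r then S.UU ^ (s.drop j).sum * S.Gam (s.take j).reverse else (1 + S.Gam [1]) ^ s.sum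
  let g : ℕ → ℕ → L := fun j d =>
    if j ≤ r then (S.φ (uu S.D d) ^ (s.drop j).sum * (S.zg (s.take j).reverse d /
        S.φ (XX S.D d) ^ (s.take j).reverse.sum))
    else (S.zeta [1] / S.φ (XX S.D d)) ^ s.sum
  let ρ : ℕ → ℕ → k := fun j d =>
    if j ≤ r then SS S.D (s.drop j) d / (xx S.D d) ^ (s.drop j).sum else c
  have hsplit : ∀ (A : Type _) [AddCommMonoid A] (f f' : ℕ → A) (x : A),
      (∀ j, f j = if j ≤ r then f' j else x) →
      ∑ j ∈ range (r + 2), f j = (∑ j ∈ range (r + 1), f' j) + x := by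
    intro A _ f f' x hf
    rw [Finset.sum_range_succ, hf (r + 1), if_neg (by omega)]
    congr 1
    refine Finset.sum_congr rfl fun j hj => ?_
    rw [hf j, if_pos (by rw [Finset.mem_range] at hj; omega)]
  have hlift := S.lift (range (r + 2)) G g ρ
    (by
      intro j _
      by_cases hj : j ≤ r
      · simp only [G, g, if_pos hj]
        exact S.rep_mul (S.rep_pow S.rep_UU _) (S.gam_rep (take_pos hs j))
      · simp only [G, g, if_neg hj]
        exact S.rep_pow S.rep_Xi _)
    (by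
      intro j _
      by_cases hj : j ≤ r
      · simp only [ρ, if_pos hj]
        exact S.den_SS (drop_pos hs j)
      · simp only [ρ, if_neg hj]
        exact S.den_const c)
    (by
      intro j _
      by_cases hj : j ≤ r
      · simp only [ρ, if_pos hj]
        exact S.gro_SS (drop_pos hs j)
      · simp only [ρ, if_neg hj]
        exact S.gro_const c)
    (by
      intro M
      refine ⟨0, ?_⟩
      filter_upwards [eventually_ge_atTop 1] with d hd
      rw [hsplit L _ (fun j => S.φ (SS S.D (s.drop j) d / (xx S.D d) ^ (s.drop j).sum) *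
        (S.φ (uu S.D d) ^ (s.drop j).sum * (S.zg (s.take j).reverse d /
        S.φ (XX S.D d) ^ (s.take j).reverse.sum)))
        (S.φ c * (S.zeta [1] / S.φ (XX S.D d)) ^ s.sum), S.sum_zero hs h hd]
      · simp
      · intro j
        by_cases hj : j ≤ r
        · simp only [ρ, g, if_pos hj]
        · simp only [ρ, g, if_neg hj])
  -- relations
  have hrel : ∀ Q : ℕ → k[X], ∑ i ∈ range (r + 2), (Q i : PowerSeries k) * G i = 0 →
      (∑ j ∈ range (r + 1), (Q j : PowerSeries k) *
        (S.UU ^ (s.drop j).sum * S.Gam (s.take j).reverse)) +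
        (Q (r + 1) : PowerSeries k) * (1 + S.Gam [1]) ^ s.sum = 0 := by
    intro Q hQ
    rw [← hQ, Finset.sum_range_succ _ (r + 1)]
    congr 1
    · refine Finset.sum_congr rfl fun j hj => ?_
      rw [Finset.mem_range] at hj
      simp only [G, if_pos (show j ≤ r by omega)]
    · simp only [G, if_neg (show ¬ r + 1 ≤ r by omega)]
  obtain ⟨d₁, P, hP, hPρ⟩ := hlift.exists
  have hPr : P r ≠ 0 := by
    intro h0
    have h1 := hPρ r (by rw [Finset.mem_range]; omega)
    rw [h0, eval_zero] at h1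
    simp only [ρ, if_pos (le_refl r)] at h1
    rw [hr, List.drop_length] at h1
    simp [SS] at h1
  have hcross : ∀ Q : ℕ → k[X], ∑ i ∈ range (r + 2), (Q i : PowerSeries k) * G i = 0 →
      ∀ j ≤ r, Q (r + 1) * P j = P (r + 1) * Q j := by
    intro Q hQ j hj
    have h1 := hrel Q hQ
    have h2 := hrel P hP
    have h3 : ∑ j ∈ range (r + 1), ((Q (r + 1) * P j - P (r + 1) * Q j : k[X]) : PowerSeries k) *
        (S.UU ^ (s.drop j).sum * S.Gam (s.take j).reverse) = 0 := by
      have h4 : (Q (r + 1) : PowerSeries k) * ((∑ j ∈ range (r + 1), (P j : PowerSeries k) *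
        (S.UU ^ (s.drop j).sum * S.Gam (s.take j).reverse)) +
        (P (r + 1) : PowerSeries k) * (1 + S.Gam [1]) ^ s.sum) -
        (P (r + 1) : PowerSeries k) * ((∑ j ∈ range (r + 1), (Q j : PowerSeries k) *
        (S.UU ^ (s.drop j).sum * S.Gam (s.take j).reverse)) +
        (Q (r + 1) : PowerSeries k) * (1 + S.Gam [1]) ^ s.sum) = 0 := by
        rw [h1, h2, mul_zero, mul_zero, sub_zero]
      rw [← h4, mul_add, mul_add, Finset.mul_sum, Finset.mul_sum]
      have h5 : ∀ a b x y : PowerSeries k, x = y → (a + x) - (b + y) = a - b := by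
        intro a b x y hxy
        rw [hxy]; ring
      rw [h5 _ _ _ _ (by ring), ← Finset.sum_sub_distrib]
      refine Finset.sum_congr rfl fun i _ => ?_
      push_cast
      ring
    have h6 := S.indep' hs _ h3 j hj
    exact sub_eq_zero.mp h6
  have hP1 : P (r + 1) ≠ 0 := by
    intro h0
    have h2 := hrel P hP
    rw [h0, Polynomial.coe_zero, zero_mul, add_zero] at h2
    exact hPr (S.indep' hs _ h2 r (le_refl r))
  -- the values
  have hval : ∀ᶠ d in atTop, c = c ∧ ∀ j ≤ r,
      (P (r + 1)).eval (S.t d) * (SS S.D (s.drop j) d / (xx S.D d) ^ (s.drop j).sum) =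
        c * (P j).eval (S.t d) := by
    filter_upwards [hlift] with d hd
    obtain ⟨Q, hQ, hQρ⟩ := hd
    refine ⟨rfl, fun j hj => ?_⟩
    have h1 := hQρ j (by rw [Finset.mem_range]; omega)
    have h2 := hQρ (r + 1) (by rw [Finset.mem_range]; omega)
    simp only [ρ, if_pos hj] at h1
    simp only [ρ, if_neg (show ¬ r + 1 ≤ r by omega)] at h2
    rw [h1, h2, ← eval_mul, ← eval_mul, hcross Q hQ j hj]
  have hr1 : ∀ᶠ d in atTop, (P (r + 1)).eval (S.t d) = c * (P r).eval (S.t d) := by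
    filter_upwards [hval] with d hd
    have h1 := hd.2 r (le_refl r)
    rw [hr, List.drop_length] at h1
    simpa [SS] using h1
  have hc : c ≠ 0 := by
    intro h0
    obtain ⟨d, hd1, hd2⟩ := (hr1.and (S.poly_ne hP1)).exists
    rw [h0, zero_mul] at hd1
    exact hd2 hd1
  have hfin : ∀ j ≤ r, ∀ᶠ d in atTop, SS S.D (s.drop j) d * (P r).eval (S.t d) =
      (xx S.D d) ^ (s.drop j).sum * (P j).eval (S.t d) := by
    intro j hj
    filter_upwards [hval, hr1] with d hd hd1
    have h1 := hd.2 j hj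
    rw [hd1, mul_assoc] at h1
    have h2 := mul_left_cancel₀ hc h1
    have hx : (xx S.D d) ^ (s.drop j).sum ≠ 0 := pow_ne_zero _ (xx_ne_zero _ S.br_ne' d)
    rw [← h2]
    field_simp
  -- downward induction
  have hind : ∀ m ≤ r, Tel S.D (s.drop (r - m)) := by
    intro m
    induction m with
    | zero =>
      intro _
      rw [Nat.sub_zero, hr, List.drop_length]
      exact S.tel_nil
    | succ m ih =>
      intro hm
      have ih' := ih (by omega)
      have hlt : r - (m + 1) < s.length := by omega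
      have hdrop : s.drop (r - (m + 1)) = s[r - (m + 1)] :: s.drop (r - m) := by
        rw [List.drop_eq_getElem_cons hlt]
        congr 2
        omega
      have h1 := hfin (r - (m + 1)) (by omega)
      rw [hdrop] at h1 ⊢
      refine (S.rat_tel (hs _ (List.getElem_mem hlt)) ih'
        (Z := SS S.D (s[r - (m + 1)] :: s.drop (r - m))) hPr
        (N := P (r - (m + 1))) ?_ ?_).1
      · filter_upwards [h1] with d hd
        rw [hd, List.sum_cons]
      · filter_upwards with d
        exact SS_succ _ _ _ _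
  by_cases hj : j ≤ r
  · have := hind (r - j) (by omega)
    rwa [show r - (r - j) = j by omega] at this
  · rw [List.drop_eq_nil_of_le (by omega)]
    exact S.tel_nil

theorem zeta_single_ne {n : ℕ} (hn : 1 ≤ n) : S.zeta [n] ≠ 0 := by
  obtain ⟨c, hc, h⟩ := S.zeta_single hn
  rw [h]
  refine mul_ne_zero ((_root_.map_ne_zero _).mpr hc) (pow_ne_zero _ ?_)
  intro h0
  have := S.norm_zeta_one
  rw [h0, norm_zero] at this
  exact zero_ne_one this

theorem zeta_like_iff {s : List ℕ} (hs : ∀ a ∈ s, 1 ≤ a) (hl : 2 ≤ s.length) :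
    (∃ c : k, S.zeta s = S.φ c * S.zeta [s.sum]) ↔ Fam s := by
  have hsum : 1 ≤ s.sum := by
    rcases s with _ | ⟨a, s⟩
    · simp at hl
    · have := hs a (by simp)
      rw [List.sum_cons]
      omega
  obtain ⟨c', hc', h'⟩ := S.zeta_single hsum
  constructor
  · rintro ⟨c, hc⟩
    have h1 : S.zeta s = S.φ (c * c') * S.zeta [1] ^ s.sum := by
      rw [hc, h', map_mul, mul_assoc]
    exact classification (S.φ S.D) S.one_lt_D hs hl fun j => S.tel_map (S.main hs h1 j)
  · intro h
    obtain ⟨c, _, hc⟩ := S.fam_lim h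
    refine ⟨c / c', ?_⟩
    rw [h', hc, ← mul_assoc, ← map_mul, div_mul_cancel₀ _ hc']

end Setup

end Pool.Agent.ZL
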