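import Mathlib

/-!
# MDefs: multizeta values of `F_2[t]`

`A = F_2[t]`, `K = F_2(t)`, and `K_∞ = F_2((1/t))` is Mathlib's completion
`RatFunc.CompletionAtInfty` of `K` at the place at infinity.
-/

namespace Pool.Agent.ZL

open Polynomial

noncomputable instance instDecEqRF : DecidableEq (RatFunc (ZMod 2)) := Classical.decEq _

/-- `K_∞ = F_2((1/t))`, the completion of `F_2(t)` at infinity -/
abbrev Kinf : Type := RatFunc.CompletionAtInfty (ZMod 2)

/-- the tuples `(a_1, ..., a_r)` of monic polynomials over `F_2` with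
`deg a_1 > deg a_2 > ... > deg a_r` -/
def Idx (r : ℕ) : Type :=
  {a : Fin r → (ZMod 2)[X] // (∀ i, (a i).Monic) ∧ StrictAnti fun i => (a i).natDegree}

/-- the element of `K_∞` defined by a polynomial -/
noncomputable def toKinf (a : (ZMod 2)[X]) : Kinf :=
  algebraMap (RatFunc (ZMod 2)) Kinf (algebraMap (ZMod 2)[X] (RatFunc (ZMod 2)) a)

/-- the multizeta value `ζ(s_1, ..., s_r)`, the sum of `1/(a_1^{s_1} ... a_r^{s_r})` over all monic
`a_i` with `deg a_1 > ... > deg a_r` -/
noncomputable def mzv (s : List ℕ) : Kinf :=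
  ∑' a : Idx s.length, ∏ i, ((toKinf (a.1 i))⁻¹) ^ s.get i

/-- `s` is zeta-like: the depth is at least 2 and `ζ(s)/ζ(weight)` lies in `K` -/
def ZetaLike (s : List ℕ) : Prop :=
  2 ≤ s.length ∧ ∃ c : RatFunc (ZMod 2), mzv s / mzv [s.sum] = algebraMap _ Kinf c

end Pool.Agent.ZL
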