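import Pool.Agent.Work.MP_b19acb_nt.Sig

/-!
# Scale (S): S_{<d}(2s) = S_{<d}(s)^2

`SS_cons`: by definition, `SS D (k :: s) d = Σ_{i<d} ps D i k * SS D s i`.  `SS_succ`:
`sum_range_succ`.  `SS_zero_cons`: empty sum.
`SS_two`: induction on `s`: `ps_two`, the induction hypothesis and additivity of squaring.
`SS_two_pow`: induction on `e`.  `geo_two`: induction on `k`:
`geo (2 * x) k = (geo x k).map (2 * ·)`; `geo_two_pow`: `geo (2^e * x) k = (geo x k).map (2^e * ·)`.
`sum_geo`: `(geo x k).sum = x (2^k - 1)`.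
-/

namespace Pool.Agent.ZL

open Polynomial Finset

theorem geo_succ (x k : ℕ) : geo x (k + 1) = x :: geo (2 * x) k := rfl

theorem geo_two_pow (e x k : ℕ) : geo (2 ^ e * x) k = (geo x k).map (2 ^ e * ·) := by
  induction k generalizing x with
  | zero => rfl
  | succ k ih =>
    rw [geo_succ, geo_succ, List.map_cons, ← ih (2 * x)]
    congr 2
    ring

theorem sum_geo (x k : ℕ) : (geo x k).sum = x * (2 ^ k - 1) := by
  induction k generalizing x with
  | zero => simp [geo]
  | succ k ih =>
    rw [geo_succ, List.sum_cons, ih]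
    have h : 1 ≤ 2 ^ k := Nat.one_le_two_pow
    obtain ⟨m, hm⟩ : ∃ m, 2 ^ k = m + 1 := ⟨2 ^ k - 1, by omega⟩
    rw [pow_succ, hm]
    have h2 : (m + 1) * 2 - 1 = 2 * m + 1 := by omega
    rw [h2, Nat.add_sub_cancel]
    ring

theorem mem_geo {x k a : ℕ} (h : a ∈ geo x k) (hx : 1 ≤ x) : 1 ≤ a := by
  induction k generalizing x with
  | zero => simp [geo] at h
  | succ k ih =>
    rw [geo_succ, List.mem_cons] at h
    rcases h with rfl | h
    · exact hx
    · exact ih h (by omega)

theorem length_geo (x k : ℕ) : (geo x k).length = k := by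
  induction k generalizing x with
  | zero => rfl
  | succ k ih => rw [geo_succ, List.length_cons, ih]

variable {K : Type*} [Field K] [CharP K 2] (D : K)

theorem SS_nil (d : ℕ) : SS D [] d = 1 := by
  rw [SS]

theorem SS_zero_cons (k : ℕ) (s : List ℕ) : SS D (k :: s) 0 = 0 := by
  rw [SS, Finset.range_zero, Finset.sum_empty]

theorem SS_succ (k : ℕ) (s : List ℕ) (d : ℕ) :
    SS D (k :: s) (d + 1) = SS D (k :: s) d + ps D d k * SS D s d := by
  rw [SS, SS, Finset.sum_range_succ]

theorem SS_two_pow {s : List ℕ} (hs : ∀ a ∈ s, 1 ≤ a) (e d : ℕ) :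
    SS D (s.map (2 ^ e * ·)) d = (SS D s d) ^ 2 ^ e := by
  induction s generalizing d with
  | nil => rw [List.map_nil, SS_nil, one_pow]
  | cons k s ih =>
    rw [List.map_cons, SS, SS, sum_pow_char_pow 2]
    refine Finset.sum_congr rfl fun i _ => ?_
    rw [ps_two_pow D i e (hs k (List.mem_cons_self)),
      ih (fun a ha => hs a (List.mem_cons_of_mem _ ha)), mul_pow]

end Pool.Agent.ZL
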