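import Pool.Agent.Work.MP_b19acb_nt.HH

/-!
# ABdeg (M): degrees and squares of A_k, B_k

`eps_natDegree`: induction: `natDegree (eps (i+2)) ≤ 1 + 2 (2^i - 1) = 2^(i+1) - 1`; `eps 1` is a
constant.
`AA`: `gg c n` with `c i = X * eps D i`: strong induction on `n` shows `natDegree ≤ n` and
coefficient of `X^n` equal to 1: `gg_rec`: the term `i = 0` is `X * gg c (n-1)`; the terms `i ≥ 1`
have degree `≤ 1 + (2^(i-1) - 1) + (n - 2^i) = n - 2^(i-1) < n`.  So `AA D k = X * gg c (k-1)` is
monic of degree `k`, with constant coefficient 0.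
`BB`: strong induction on `b` with `hh_rec`: `2*natDegree (BB D b) ≤ b - 1` for `b ≥ 1` and
`BB D 0 = 1`: the term `i` is `eps D (i+1) * BB D (b-(2^(i+1)-1))`, twice the degree is
`≤ 2(2^i-1) + (b-2^(i+1)+1) = b - 1` (also when `b = 2^(i+1)-1`).
`AA_two`: `gg_odd` with `n = k-1` (`2*k-1 = 2*(k-1)+1`, `c 0 = X`).  `BB_two`: `hh_even`.
(`K[X]` has characteristic 2.)
-/

namespace Pool.Agent.ZL

open Polynomial Finset

variable {K : Type*} [Field K] [CharP K 2] (D : K)

theorem eps_zero : eps D 0 = 1 := by simp [eps]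

theorem eps_natDegree (i : ℕ) : (eps D (i + 1)).natDegree ≤ 2 ^ i - 1 := by
  induction i with
  | zero =>
    have h : eps D (0 + 1) = C (D / br D 1) := by
      have h1 : br D 0 = 0 := by simp [br]
      simp [eps, h1]
    rw [h, natDegree_C]
    exact Nat.zero_le _
  | succ i ih =>
    have h : eps D (i + 1 + 1) = (C (D / br D (i + 1 + 1)) +
        C ((br D (i + 1)) ^ 2 / br D (i + 1 + 1)) * X) * (eps D (i + 1)) ^ 2 := by
      rw [eps]
    rw [h]
    have h1 : (C (D / br D (i + 1 + 1)) +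
        C ((br D (i + 1)) ^ 2 / br D (i + 1 + 1)) * X).natDegree ≤ 1 := by
      rw [add_comm]
      exact natDegree_linear_le
    have h2 : ((eps D (i + 1)) ^ 2).natDegree ≤ 2 * (2 ^ i - 1) :=
      natDegree_pow_le.trans (Nat.mul_le_mul_left 2 ih)
    refine natDegree_mul_le.trans ((Nat.add_le_add h1 h2).trans ?_)
    have h3 : 1 ≤ 2 ^ i := Nat.one_le_two_pow
    rw [pow_succ]
    omega

private theorem gg_deg (n : ℕ) :
    (gg (fun i => X * eps D i) n).natDegree ≤ n ∧ (gg (fun i => X * eps D i) n).coeff n = 1 := by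
  induction n using Nat.strong_induction_on with
  | _ n ih =>
    rcases Nat.eq_zero_or_pos n with rfl | hn
    · rw [gg_zero]
      simp
    · rw [gg_rec _ hn]
      have h0 : ∑ i ∈ range (n + 1), (if 2 ^ i ≤ n then (X * eps D i) *
            gg (fun i => X * eps D i) (n - 2 ^ i) else 0) =
          (∑ i ∈ range n, (if 2 ^ (i + 1) ≤ n then (X * eps D (i + 1)) *
            gg (fun i => X * eps D i) (n - 2 ^ (i + 1)) else 0)) +
          X * gg (fun i => X * eps D i) (n - 1) := by
        rw [sum_range_succ', pow_zero, if_pos (by omega), eps_zero, mul_one]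
      have hdeg : ∀ i ∈ range n, (if 2 ^ (i + 1) ≤ n then (X * eps D (i + 1)) *
            gg (fun i => X * eps D i) (n - 2 ^ (i + 1)) else 0).natDegree ≤ n - 1 := by
        intro i _
        split_ifs with h
        · have h1 := eps_natDegree D i
          have h2 := (ih (n - 2 ^ (i + 1)) (by
            have : 1 ≤ 2 ^ (i + 1) := Nat.one_le_two_pow
            omega)).1
          have h3 : (X * eps D (i + 1)).natDegree ≤ 1 + (2 ^ i - 1) :=
            natDegree_mul_le.trans (Nat.add_le_add natDegree_X_le h1)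
          refine natDegree_mul_le.trans ((Nat.add_le_add h3 h2).trans ?_)
          have h4 : 1 ≤ 2 ^ i := Nat.one_le_two_pow
          rw [pow_succ] at h ⊢
          omega
        · simp
      have hsum := natDegree_sum_le_of_forall_le (range n) _ hdeg
      have hg := ih (n - 1) (by omega)
      have hX : (X * gg (fun i => X * eps D i) (n - 1)).natDegree ≤ n := by
        refine natDegree_mul_le.trans ((Nat.add_le_add natDegree_X_le hg.1).trans ?_)
        omega
      show (∑ i ∈ range (n + 1), (if 2 ^ i ≤ n then (X * eps D i) *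
            gg (fun i => X * eps D i) (n - 2 ^ i) else 0)).natDegree ≤ n ∧
          (∑ i ∈ range (n + 1), (if 2 ^ i ≤ n then (X * eps D i) *
            gg (fun i => X * eps D i) (n - 2 ^ i) else 0)).coeff n = 1
      rw [h0]
      constructor
      · exact (natDegree_add_le _ _).trans (max_le (hsum.trans (by omega)) hX)
      · rw [coeff_add, coeff_eq_zero_of_natDegree_lt (lt_of_le_of_lt hsum (by omega)), zero_add]
        obtain ⟨m, rfl⟩ : ∃ m, n = m + 1 := ⟨n - 1, by omega⟩
        rw [coeff_X_mul]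
        exact hg.2

theorem AA_rec {k : ℕ} (hk : 2 ≤ k) :
    AA D k = ∑ i ∈ range k, if 2 ^ i < k then X * eps D i * AA D (k - 2 ^ i) else 0 := by
  rw [AA, gg_rec _ (by omega : 1 ≤ k - 1), mul_sum, show k - 1 + 1 = k by omega]
  refine sum_congr rfl fun i _ => ?_
  by_cases h : 2 ^ i < k
  · rw [if_pos h, if_pos (by omega), AA, show k - 2 ^ i - 1 = k - 1 - 2 ^ i by omega]
    ring
  · rw [if_neg h, if_neg (by omega), mul_zero]

theorem AA_one : AA D 1 = X := by
  rw [AA, Nat.sub_self, gg_zero, mul_one]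

theorem AA_monic {k : ℕ} (hk : 1 ≤ k) : (AA D k).Monic := by
  obtain ⟨m, rfl⟩ : ∃ m, k = m + 1 := ⟨k - 1, by omega⟩
  have h := gg_deg D m
  have h1 : (gg (fun i => X * eps D i) m).Monic := monic_of_natDegree_le_of_coeff_eq_one m h.1 h.2
  rw [AA, Nat.add_sub_cancel]
  exact monic_X.mul h1

theorem AA_natDegree {k : ℕ} (hk : 1 ≤ k) : (AA D k).natDegree = k := by
  obtain ⟨m, rfl⟩ : ∃ m, k = m + 1 := ⟨k - 1, by omega⟩
  have h := gg_deg D m
  have h2 : (gg (fun i => X * eps D i) m).natDegree = m := by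
    refine le_antisymm h.1 (le_natDegree_of_ne_zero ?_)
    rw [h.2]
    exact one_ne_zero
  have h1 : gg (fun i => X * eps D i) m ≠ 0 := by
    intro h0
    have := h.2
    rw [h0] at this
    simp at this
  rw [AA, Nat.add_sub_cancel, natDegree_X_mul h1, h2]

theorem AA_coeff_zero (k : ℕ) : (AA D k).coeff 0 = 0 := by
  rw [AA, mul_coeff_zero, coeff_X_zero, zero_mul]

theorem BB_zero : BB D 0 = 1 := hh_zero _

theorem BB_rec {b : ℕ} (hb : 1 ≤ b) :
    BB D b = ∑ i ∈ range (b + 1),
      if 2 ^ (i + 1) - 1 ≤ b then eps D (i + 1) * BB D (b - (2 ^ (i + 1) - 1)) else 0 :=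
  hh_rec _ (eps_zero D) hb

theorem BB_natDegree {b : ℕ} (hb : 1 ≤ b) : 2 * (BB D b).natDegree ≤ b - 1 := by
  induction b using Nat.strong_induction_on with
  | _ b ih =>
    rw [BB_rec D hb]
    have hdeg : ∀ i ∈ range (b + 1), (if 2 ^ (i + 1) - 1 ≤ b then
        eps D (i + 1) * BB D (b - (2 ^ (i + 1) - 1)) else 0).natDegree ≤ (b - 1) / 2 := by
      intro i _
      split_ifs with h
      · have h1 := eps_natDegree D i
        have h4 : 1 ≤ 2 ^ i := Nat.one_le_two_pow
        have h2 : 2 * (BB D (b - (2 ^ (i + 1) - 1))).natDegree ≤ b - (2 ^ (i + 1) - 1) := by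
          rcases Nat.eq_zero_or_pos (b - (2 ^ (i + 1) - 1)) with h0 | h0
          · rw [h0, BB_zero]
            simp
          · exact (ih _ (by rw [pow_succ]; omega) h0).trans (Nat.sub_le _ _)
        have h3 := natDegree_mul_le (p := eps D (i + 1)) (q := BB D (b - (2 ^ (i + 1) - 1)))
        rw [Nat.le_div_iff_mul_le (by norm_num)]
        rw [pow_succ] at h h2 h3 ⊢
        omega
      · simp
    have hsum := natDegree_sum_le_of_forall_le (range (b + 1)) _ hdeg
    have := (Nat.le_div_iff_mul_le (by norm_num : 0 < 2)).1 hsum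
    omega

theorem AA_two {k : ℕ} (hk : 1 ≤ k) : AA D (2 * k) = (AA D k) ^ 2 := by
  obtain ⟨m, rfl⟩ : ∃ m, k = m + 1 := ⟨k - 1, by omega⟩
  rw [AA, AA, show 2 * (m + 1) - 1 = 2 * m + 1 by omega, Nat.add_sub_cancel, gg_odd, eps_zero]
  ring

theorem BB_two (b : ℕ) : BB D (2 * b) = (BB D b) ^ 2 := hh_even _ (eps_zero D) b

end Pool.Agent.ZL
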