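import Pool.Agent.Work.MP_b19acb_nt.Defs

/-!
# TTeval (S-M): the operator T_w

`TT D w F = Σ_{j ≤ w/2} (D⁻¹)^j f_j X^(2j) (1+X)^(w-2j)`.
`TT_eval`: `F.eval σ = Σ_{j ≤ w/2} f_j σ^j` (`Polynomial.eval_eq_sum_range'`), and
`(1+u)^w σ^j = (D⁻¹)^j u^(2j) (1+u)^(w-2j)` for `2j ≤ w`.
`TT_X_mul`: shift of the index.  `TT_C_mul`: the terms `j` with `2j > w-2`, i.e. `j = w/2`
(if `w` is even), have coefficient 0 because `2*F.natDegree ≤ w - 2`.
-/

namespace Pool.Agent.ZL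

open Polynomial Finset

variable {K : Type*} [Field K] (D : K)

theorem TT_eval {w : ℕ} {F : K[X]} (hF : 2 * F.natDegree ≤ w) (u : K) (hu : 1 + u ≠ 0) :
    (TT D w F).eval u = (1 + u) ^ w * F.eval (D⁻¹ * u ^ 2 / (1 + u) ^ 2) := by
  have hlt : F.natDegree < w / 2 + 1 := by omega
  rw [eval_eq_sum_range' hlt, Finset.mul_sum]
  unfold TT
  rw [eval_finsetSum]
  refine Finset.sum_congr rfl fun j hj => ?_
  have hj' : 2 * j ≤ w := by
    have := Finset.mem_range.1 hj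
    omega
  rw [eval_mul, eval_mul, eval_C, eval_pow, eval_pow, eval_X, eval_add, eval_X, eval_one]
  have h1 : (1 + u) ^ w = (1 + u) ^ (2 * j) * (1 + u) ^ (w - 2 * j) := by
    rw [← pow_add, Nat.add_sub_cancel' hj']
  have h2 : (D⁻¹ * u ^ 2 / (1 + u) ^ 2) ^ j = (D⁻¹) ^ j * u ^ (2 * j) / (1 + u) ^ (2 * j) := by
    rw [div_pow, mul_pow, ← pow_mul, ← pow_mul]
  rw [h1, h2]
  have h3 : (1 + u) ^ (2 * j) ≠ 0 := pow_ne_zero _ hu
  field_simp

theorem TT_natDegree (w : ℕ) (F : K[X]) : (TT D w F).natDegree ≤ w := by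
  unfold TT
  refine natDegree_sum_le_of_forall_le _ _ fun j hj => ?_
  have hj' : 2 * j ≤ w := by
    have := Finset.mem_range.1 hj
    omega
  have h1 : ((1 + X : K[X]) ^ (w - 2 * j)).natDegree ≤ w - 2 * j := by
    refine (natDegree_pow_le).trans ?_
    have h2 : (1 + X : K[X]).natDegree ≤ 1 := by
      rw [add_comm]
      exact (natDegree_X_add_C (1 : K)).le
    calc (w - 2 * j) * (1 + X : K[X]).natDegree ≤ (w - 2 * j) * 1 := Nat.mul_le_mul_left _ h2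
      _ = w - 2 * j := mul_one _
  refine (natDegree_mul_le).trans ?_
  have h3 : (C ((D⁻¹) ^ j * F.coeff j) * X ^ (2 * j) : K[X]).natDegree ≤ 2 * j :=
    natDegree_C_mul_X_pow_le _ _
  omega

theorem TT_coeff_top {w : ℕ} {F : K[X]} (hF : 2 * F.natDegree ≤ w) :
    (TT D w F).coeff w = F.eval D⁻¹ := by
  have hlt : F.natDegree < w / 2 + 1 := by omega
  rw [eval_eq_sum_range' hlt]
  unfold TT
  rw [finsetSum_coeff]
  refine Finset.sum_congr rfl fun j hj => ?_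
  have hj' : 2 * j ≤ w := by
    have := Finset.mem_range.1 hj
    omega
  rw [mul_assoc, coeff_C_mul, coeff_X_pow_mul', if_pos hj', coeff_one_add_X_pow, Nat.choose_self,
    Nat.cast_one, mul_one, mul_comm]

theorem TT_add (w : ℕ) (F G : K[X]) : TT D w (F + G) = TT D w F + TT D w G := by
  unfold TT
  rw [← Finset.sum_add_distrib]
  refine Finset.sum_congr rfl fun j _ => ?_
  rw [coeff_add, mul_add, C_add]
  ring

theorem TT_C_mul' (w : ℕ) (c : K) (F : K[X]) : TT D w (C c * F) = C c * TT D w F := by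
  unfold TT
  rw [Finset.mul_sum]
  refine Finset.sum_congr rfl fun j _ => ?_
  rw [coeff_C_mul]
  simp only [C_mul]
  ring

theorem TT_X_mul {w : ℕ} (hw : 2 ≤ w) (F : K[X]) :
    TT D w (X * F) = C D⁻¹ * X ^ 2 * TT D (w - 2) F := by
  obtain ⟨m, rfl⟩ : ∃ m, w = m + 2 := ⟨w - 2, by omega⟩
  have h1 : (m + 2) / 2 + 1 = (m / 2 + 1) + 1 := by omega
  unfold TT
  rw [h1, Finset.sum_range_succ', Nat.add_sub_cancel, mul_coeff_zero, coeff_X_zero, zero_mul,
    mul_zero, C_0, zero_mul, zero_mul, add_zero, Finset.mul_sum]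
  refine Finset.sum_congr rfl fun j _ => ?_
  have h2 : m + 2 - 2 * (j + 1) = m - 2 * j := by omega
  have h3 : 2 * (j + 1) = 2 * j + 2 := by ring
  rw [coeff_X_mul, h2, h3, pow_succ (D⁻¹) j]
  simp only [C_mul]
  ring

theorem TT_lower {w : ℕ} (hw : 2 ≤ w) {F : K[X]} (hF : 2 * F.natDegree ≤ w - 2) :
    TT D w F = (1 + X) ^ 2 * TT D (w - 2) F := by
  obtain ⟨m, rfl⟩ : ∃ m, w = m + 2 := ⟨w - 2, by omega⟩
  rw [Nat.add_sub_cancel] at hF ⊢
  have h1 : (m + 2) / 2 + 1 = (m / 2 + 1) + 1 := by omega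
  have h0 : F.coeff (m / 2 + 1) = 0 := coeff_eq_zero_of_natDegree_lt (by omega)
  unfold TT
  rw [h1, Finset.sum_range_succ, h0, mul_zero, C_0, zero_mul, zero_mul, add_zero,
    Finset.mul_sum]
  refine Finset.sum_congr rfl fun j hj => ?_
  have hj' : 2 * j ≤ m := by
    have := Finset.mem_range.1 hj
    omega
  have h2 : m + 2 - 2 * j = (m - 2 * j) + 2 := by omega
  rw [h2, pow_add]
  ring

/-- `T_w((X + b) F) = (δ X^2 + b (1+X)^2) T_{w-2} F` -/
theorem TT_lin {w : ℕ} (hw : 2 ≤ w) {F : K[X]} (hF : 2 * F.natDegree ≤ w - 2) (b : K) :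
    TT D w ((X + C b) * F) = (C D⁻¹ * X ^ 2 + C b * (1 + X) ^ 2) * TT D (w - 2) F := by
  rw [add_mul, TT_add, TT_X_mul D hw, TT_C_mul', TT_lower D hw hF]
  ring

end Pool.Agent.ZL
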