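import Pool.Agent.Work.MP_b19acb_nt.AB
import Pool.Agent.Work.MP_b19acb_nt.ABdeg
import Pool.Agent.Work.MP_b19acb_nt.TTeval

/-!
# Rel (S-M): the functional equation of a telescoping polynomial

`hinj`: the `u_d`, `d ≥ 1`, are distinct.

`poly_eq_of_uu`: the polynomial `F - G` has infinitely many roots (`Polynomial.eq_of_infinite_eval_eq`;
the set contains the range of the injective map `n ↦ uu D (n + d0 + 1)`).

`TT_rel`: for `d ≥ 1`, with `w = a + s.sum`, `X = X_d`, `u = u_d`:
`(TT D w F).eval u * X^w = ((1+u)X)^w F.eval (σ u) = X_{d+1}^w F.eval u_{d+1} = SS D (a::s) (d+1)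
 = SS D (a::s) d + ps D d a * SS D s d = X^w F.eval u + X^a (AA D a).eval u * X^(s.sum) B.eval u`
(`TT_eval`, `XX_succ_eq`, `uu_succ`, `ps_eq`, `sum_range_succ`), `X ≠ 0`; then `poly_eq_of_uu`.
`TT_BB`: the case `s = []`, `F = BB D k`, `B = 1` (`SSk_eq`, `BB_natDegree`).
-/

namespace Pool.Agent.ZL

open Polynomial Finset

variable {K : Type*} [Field K] [CharP K 2] (D : K) (hb : ∀ i, br D (i + 1) ≠ 0)
  (hinj : Function.Injective fun d : ℕ => uu D (d + 1))

include hinj in
theorem poly_eq_of_uu {F G : K[X]} (d0 : ℕ)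
    (h : ∀ d, d0 ≤ d → 1 ≤ d → F.eval (uu D d) = G.eval (uu D d)) : F = G := by
  apply Polynomial.eq_of_infinite_eval_eq
  have hi : Function.Injective fun n : ℕ => uu D (n + d0 + 1) := by
    intro m n hmn
    have h1 : m + d0 = n + d0 := hinj hmn
    omega
  refine (Set.infinite_range_of_injective hi).mono ?_
  rintro _ ⟨n, rfl⟩
  exact h (n + d0 + 1) (by omega) (by omega)

include hb hinj

theorem TT_rel {a : ℕ} {s : List ℕ} {F B : K[X]} (ha : 1 ≤ a) (hF : TelF D (a :: s) F)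
    (hB : ∀ d, 1 ≤ d → SS D s d = (XX D d) ^ s.sum * B.eval (uu D d)) :
    TT D (a + s.sum) F = F + AA D a * B := by
  obtain ⟨hF1, hF2⟩ := hF
  rw [List.sum_cons] at hF1 hF2
  refine poly_eq_of_uu D hinj 1 fun d _ hd => ?_
  have hX := XX_ne_zero D hb hd
  have hu := one_add_uu_ne D hb hd
  have h1 := hF2 d hd
  have h2 := hF2 (d + 1) (by omega)
  have h3 : SS D (a :: s) (d + 1) = SS D (a :: s) d + ps D d a * SS D s d :=
    Finset.sum_range_succ _ _
  rw [h3, h1, hB d hd, ps_eq D hb hd ha, XX_succ_eq D hb hd, uu_succ D hb hd, mul_pow] at h2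
  rw [TT_eval D hF1 _ hu, eval_add, eval_mul]
  apply mul_left_cancel₀ (pow_ne_zero (a + s.sum) hX)
  rw [← mul_assoc, ← h2]
  ring

theorem TT_BB {k : ℕ} (hk : 1 ≤ k) : TT D k (BB D k) = BB D k + AA D k := by
  have h1 : TelF D [k] (BB D k) := by
    refine ⟨?_, fun d hd => ?_⟩
    · rw [List.sum_singleton]
      have := BB_natDegree D hk
      omega
    · rw [List.sum_singleton]
      exact SSk_eq D hb hd hk
  have h2 := TT_rel D hb hinj (B := 1) hk h1 (fun d _ => by
    rw [List.sum_nil, pow_zero, one_mul, eval_one]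
    rfl)
  rw [List.sum_nil, add_zero, mul_one] at h2
  exact h2

end Pool.Agent.ZL
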