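import Pool.Agent.Work.MP_b19acb_nt.LeadG
import Pool.Agent.Work.MP_b19acb_nt.Rel

/-!
# BBJ (M): coefficients of B_b

`q = ‖D‖⁻¹`, `δ = D⁻¹`; `hb = br_ne D hD`, `hinj = uu_inj D hD`.

`BBJ_one`: `BB b - 1 ∈ J_1`: strong induction with `BB_rec`: `eps 1 = 1` gives `BB (b-1)`; the other
terms are in `J_1` because `eps (i+1) ∈ J_{2^i-1} ⊂ J_1` for `i ≥ 1` (`eps_J`).  Hence
`‖(BB b).coeff 0‖ = 1`, all coefficients have norm `≤ 1`.

`BB_TT_coeff`: by `TT_BB`, `BB b = AA b + TT b (BB b)` (char 2), so for all `i`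
`(BB b).coeff i = (AA b).coeff i + Σ_{j ≤ b/2} δ^j (BB b).coeff j * (X^(2j) (1+X)^(b-2j)).coeff i`.

`BB_coeff_c`: `b = 2^k + c`, `c < 2^k`: `‖(BB b).coeff c‖ = 1`.  `κ(b) > b/2 > c`, so
`‖(AA b).coeff c‖ ≤ q^(κ(b)-c) ≤ q < 1` (`leadA_J`), the terms `j ≥ 1` have norm `≤ q`, and the term
`j = 0` is `(BB b).coeff 0 * ((1+X)^(2^k+c)).coeff c` with `(1+X)^(2^k+c) = (1+X^(2^k)) (1+X)^c` in
characteristic 2, whose coefficient of `X^c` is 1 (`c < 2^k`).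
-/

namespace Pool.Agent.ZL

open Polynomial Finset

variable {K : Type*} [NormedField K] [IsUltrametricDist K] [CharP K 2] (D : K) (hD : 1 < ‖D‖)

include hD

private theorem bj_inv : 0 ≤ ‖D‖⁻¹ ∧ ‖D‖⁻¹ ≤ 1 :=
  ⟨inv_nonneg.2 (norm_nonneg _), (inv_lt_one_of_one_lt₀ hD).le⟩

private theorem bj_eps_one : eps D 1 = 1 := by
  have h1 : eps D 1 = (C (D / br D 1) + C ((br D 0) ^ 2 / br D 1) * X) * (1 : K[X]) ^ 2 := rfl
  have hD0 : D ≠ 0 := by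
    rw [← norm_ne_zero_iff]
    exact (zero_lt_one.trans hD).ne'
  rw [h1, br_zero, br_one, div_self hD0]
  simp

private theorem bj_zero {b : ℕ} (h : Jn ‖D‖⁻¹ 1 (BB D b - 1)) : Jn ‖D‖⁻¹ 0 (BB D b) := by
  obtain ⟨q0, q1⟩ := bj_inv D hD
  have h1 := Jn_add q0 (Jn_mono q0 q1 (Nat.zero_le 1) h) (Jn_C_one (K := K) q0 q1)
  rwa [sub_add_cancel] at h1

theorem BBJ_one (b : ℕ) : Jn ‖D‖⁻¹ 1 (BB D b - 1) := by
  obtain ⟨q0, q1⟩ := bj_inv D hD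
  induction b using Nat.strong_induction_on with
  | _ b ih =>
    rcases Nat.eq_zero_or_pos b with rfl | hb
    · rw [BB_zero, sub_self]
      exact Jn_zero_poly q0 1
    · rw [BB_rec D hb, Finset.sum_range_succ', if_pos (by rw [zero_add, pow_one]; omega), zero_add, pow_one,
        bj_eps_one D hD, one_mul, add_sub_assoc]
      refine Jn_add q0 (Jn_sum q0 _ fun i _ => ?_) (ih _ (by omega))
      split_ifs with h
      · have h2 : 2 ^ (i + 1) = 2 * 2 ^ i := by rw [pow_succ, mul_comm]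
        have h3 : 2 ^ (i + 1 + 1) = 2 * 2 ^ (i + 1) := by rw [pow_succ, mul_comm]
        have h4 : 1 ≤ 2 ^ i := Nat.one_le_two_pow
        have h5 := Jn_mul q0 q1 (Jn_mono q0 q1 (by omega : 1 ≤ 2 ^ (i + 1) - 1)
          (eps_J D hD (i + 1))) (bj_zero D hD (ih (b - (2 ^ (i + 1 + 1) - 1)) (by omega)))
        exact h5
      · exact Jn_zero_poly q0 1

theorem BB_norm_le (b j : ℕ) : ‖(BB D b).coeff j‖ ≤ 1 := by
  have h := bj_zero D hD (BBJ_one D hD b) j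
  rwa [Nat.zero_sub, pow_zero] at h

private theorem bj_sub (b : ℕ) : ‖(BB D b).coeff 0 - 1‖ ≤ ‖D‖⁻¹ := by
  have h := BBJ_one D hD b 0
  rwa [coeff_sub, coeff_one_zero, Nat.sub_zero, pow_one] at h

theorem BB_norm_zero (b : ℕ) : ‖(BB D b).coeff 0‖ = 1 := by
  have h := bj_sub D hD b
  have h1 : ‖(BB D b).coeff 0 - 1‖ < 1 := h.trans_lt (inv_lt_one_of_one_lt₀ hD)
  have h2 : (BB D b).coeff 0 = ((BB D b).coeff 0 - 1) + 1 := by ring
  rw [h2, IsUltrametricDist.norm_add_eq_max_of_norm_ne_norm (by rw [norm_one]; exact h1.ne),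
    norm_one, max_eq_right h1.le]

theorem BB_norm_zero_sub (b : ℕ) : ‖(BB D b).coeff 0 - 1‖ ≤ ‖D‖⁻¹ := bj_sub D hD b

theorem BB_TT_coeff {b : ℕ} (hb1 : 1 ≤ b) (i : ℕ) :
    (BB D b).coeff i = (AA D b).coeff i + ∑ j ∈ range (b / 2 + 1),
      D⁻¹ ^ j * (BB D b).coeff j * (X ^ (2 * j) * (1 + X) ^ (b - 2 * j) : K[X]).coeff i := by
  have h1 := TT_BB D (br_ne D hD) (uu_inj D hD) hb1
  have h2 : BB D b = AA D b + TT D b (BB D b) := by
    have h3 : AA D b + AA D b = 0 := CharTwo.add_self_eq_zero _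
    rw [h1]
    linear_combination -h3
  have h4 := congrArg (fun f : K[X] => f.coeff i) h2
  simp only [coeff_add] at h4
  rw [h4]
  congr 1
  unfold TT
  rw [finsetSum_coeff]
  refine Finset.sum_congr rfl fun j _ => ?_
  rw [mul_assoc (C _), coeff_C_mul]

private theorem bj_coeff_le (j m i : ℕ) :
    ‖(X ^ (2 * j) * (1 + X) ^ m : K[X]).coeff i‖ ≤ 1 := by
  rw [coeff_X_pow_mul']
  split_ifs
  · rw [coeff_one_add_X_pow]
    exact IsUltrametricDist.norm_natCast_le_one K _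
  · rw [norm_zero]
    exact zero_le_one

theorem BB_coeff_c {k c : ℕ} (hc : c < 2 ^ k) : ‖(BB D (2 ^ k + c)).coeff c‖ = 1 := by
  obtain ⟨q0, q1⟩ := bj_inv D hD
  have hq : ‖D‖⁻¹ < 1 := inv_lt_one_of_one_lt₀ hD
  have hp : 1 ≤ 2 ^ k := Nat.one_le_two_pow
  have hb1 : 1 ≤ 2 ^ k + c := by omega
  rw [BB_TT_coeff D hD hb1, Finset.sum_range_succ']
  have hA : ‖(AA D (2 ^ k + c)).coeff c‖ ≤ ‖D‖⁻¹ := by
    refine (leadA_J D hD hb1 c).trans ?_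
    have h1 := two_mul_kap hb1
    have h2 : 1 ≤ 2 ^ padicValNat 2 (2 ^ k + c) := Nat.one_le_two_pow
    calc ‖D‖⁻¹ ^ (kap (2 ^ k + c) - c) ≤ ‖D‖⁻¹ ^ 1 :=
          pow_le_pow_of_le_one q0 q1 (by omega)
      _ = ‖D‖⁻¹ := pow_one _
  have hS : ‖∑ j ∈ range ((2 ^ k + c) / 2), D⁻¹ ^ (j + 1) * (BB D (2 ^ k + c)).coeff (j + 1) *
      (X ^ (2 * (j + 1)) * (1 + X) ^ (2 ^ k + c - 2 * (j + 1)) : K[X]).coeff c‖ ≤ ‖D‖⁻¹ := by
    refine IsUltrametricDist.norm_sum_le_of_forall_le_of_nonneg q0 fun j _ => ?_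
    rw [norm_mul, norm_mul, norm_pow, norm_inv]
    have h1 := BB_norm_le D hD (2 ^ k + c) (j + 1)
    have h2 := bj_coeff_le (K := K) D hD (j + 1) (2 ^ k + c - 2 * (j + 1)) c
    calc ‖D‖⁻¹ ^ (j + 1) * ‖(BB D (2 ^ k + c)).coeff (j + 1)‖ *
        ‖(X ^ (2 * (j + 1)) * (1 + X) ^ (2 ^ k + c - 2 * (j + 1)) : K[X]).coeff c‖
        ≤ ‖D‖⁻¹ ^ (j + 1) * 1 * 1 :=
          mul_le_mul (mul_le_mul_of_nonneg_left h1 (pow_nonneg q0 _)) h2 (norm_nonneg _)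
            (mul_nonneg (pow_nonneg q0 _) zero_le_one)
      _ = ‖D‖⁻¹ ^ (j + 1) := by rw [mul_one, mul_one]
      _ ≤ ‖D‖⁻¹ ^ 1 := pow_le_pow_of_le_one q0 q1 (by omega)
      _ = ‖D‖⁻¹ := pow_one _
  have hT : ‖D⁻¹ ^ 0 * (BB D (2 ^ k + c)).coeff 0 *
      (X ^ (2 * 0) * (1 + X) ^ (2 ^ k + c - 2 * 0) : K[X]).coeff c‖ = 1 := by
    have h1 : (X ^ (2 * 0) * (1 + X) ^ (2 ^ k + c - 2 * 0) : K[X]).coeff c = 1 := by
      have h2 : (1 + X : K[X]) ^ 2 ^ k = 1 + X ^ 2 ^ k := by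
        have h3 := add_pow_char_pow (R := K[X]) (p := 2) (n := k) (1 : K[X]) X
        rwa [one_pow] at h3
      rw [mul_zero, pow_zero, one_mul, Nat.sub_zero, pow_add, h2, add_mul, one_mul, coeff_add,
        coeff_X_pow_mul', if_neg (by omega), add_zero, coeff_one_add_X_pow, Nat.choose_self,
        Nat.cast_one]
    rw [h1, pow_zero, one_mul, mul_one, BB_norm_zero D hD]
  have hR : ‖(AA D (2 ^ k + c)).coeff c + ∑ j ∈ range ((2 ^ k + c) / 2), D⁻¹ ^ (j + 1) *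
      (BB D (2 ^ k + c)).coeff (j + 1) *
      (X ^ (2 * (j + 1)) * (1 + X) ^ (2 ^ k + c - 2 * (j + 1)) : K[X]).coeff c‖ < 1 :=
    ((IsUltrametricDist.norm_add_le_max _ _).trans (max_le hA hS)).trans_lt hq
  rw [← add_assoc, IsUltrametricDist.norm_add_eq_max_of_norm_ne_norm (by
    rw [hT]; exact hR.ne), hT, max_eq_right hR.le]

end Pool.Agent.ZL
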