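import Pool.Agent.Work.MP_b19acb_nt.TTnorm
import Pool.Agent.Work.MP_b19acb_nt.BBJ

/-!
# TopOne (M): the last coefficient of norm 1

`TopOne F β`: `‖F_β‖ = 1`, `‖F_j‖ < 1` for `j > β` and all `‖F_j‖ ≤ 1`.

`TopOne.mul`: `A` monic of degree `a` with `‖A_i‖ ≤ 1`: the coefficient of `X^(a+β)` of `A * B` is
`B_β + Σ_{i<a} A_i B_{a+β-i}` and `a+β-i > β`, so the other terms have norm `< 1`; the coefficients
of higher index only have terms with `B`-index `> β` (`A_i = 0` for `i > a`); ultrametric.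
`TopOne.of_close`: `‖F_j - p_j‖ ≤ q < 1`.
`AA_norm_le`: `leadA_J` and `‖D‖⁻¹ ^ n ≤ 1`.
`TopOne_BB`: `b = 2^k + c`, `c < 2^k`, `k = Nat.log 2 b`: `‖(BB b).coeff c‖ = 1` is `BB_coeff_c`.
For `j > c`: if `2 j > b - 1` the coefficient is 0 (`BB_natDegree`); otherwise `j < 2^k` and in
`BB_TT_coeff` (index `j`): `‖(AA b).coeff j‖ ≤ q^(κ(b)-j) ≤ q` as `κ(b) > b/2 ≥ j`
(`two_mul_kap`), the terms with index `≥ 1` have norm `≤ q`, and the term with index 0 is
`(BB b).coeff 0 * ((1+X)^(2^k+c)).coeff j = 0`, as `(1+X)^(2^k+c) = (1+X^(2^k)) (1+X)^c` and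
`c < j < 2^k`.
`top_rel`: `p = AA D a * B` has degree `< w = a + b'` (`2 natDegree B ≤ b'`, `1 ≤ b'`), `TT_norm`
and `TopOne.of_close`; finally `F_{a+β} ≠ 0` gives `a + β ≤ natDegree F ≤ w/2`.
-/

namespace Pool.Agent.ZL

open Polynomial Finset

/-- `β` is the last index of a coefficient of norm 1; all coefficients have norm `≤ 1` -/
def TopOne {K : Type*} [NormedField K] (F : K[X]) (β : ℕ) : Prop :=
  ‖F.coeff β‖ = 1 ∧ (∀ j, β < j → ‖F.coeff j‖ < 1) ∧ ∀ j, ‖F.coeff j‖ ≤ 1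

variable {K : Type*} [NormedField K] [IsUltrametricDist K]

private theorem to_sum_lt {ι : Type*} (s : Finset ι) (f : ι → K) (h : ∀ i ∈ s, ‖f i‖ < 1) :
    ‖∑ i ∈ s, f i‖ < 1 := by
  classical
  induction s using Finset.induction_on with
  | empty =>
    rw [Finset.sum_empty, norm_zero]
    exact zero_lt_one
  | insert a s ha ih =>
    rw [Finset.sum_insert ha]
    refine (IsUltrametricDist.norm_add_le_max _ _).trans_lt (max_lt ?_ ?_)
    · exact h a (Finset.mem_insert_self a s)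
    · exact ih fun i hi => h i (Finset.mem_insert_of_mem hi)

private theorem to_add_one {x y : K} (hx : ‖x‖ = 1) (hy : ‖y‖ < 1) : ‖x + y‖ = 1 := by
  rw [IsUltrametricDist.norm_add_eq_max_of_norm_ne_norm (by rw [hx]; exact hy.ne'), hx,
    max_eq_left hy.le]

theorem TopOne.mul {A B : K[X]} {a β : ℕ} (hA : A.Monic) (ha : A.natDegree = a)
    (hAn : ∀ j, ‖A.coeff j‖ ≤ 1) (hB : TopOne B β) : TopOne (A * B) (a + β) := by
  obtain ⟨hB1, hB2, hB3⟩ := hB
  have hterm : ∀ i j, ‖A.coeff i * B.coeff j‖ ≤ 1 := fun i j => by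
    rw [norm_mul]
    exact mul_le_one₀ (hAn i) (norm_nonneg _) (hB3 j)
  have hlt : ∀ i j, a + β ≤ i + j → ¬ (i = a ∧ j = β) → ‖A.coeff i * B.coeff j‖ < 1 := by
    intro i j hij hne
    by_cases hi : a < i
    · rw [coeff_eq_zero_of_natDegree_lt (by omega), zero_mul, norm_zero]
      exact zero_lt_one
    · have hj : β < j := by
        by_contra hj
        exact hne ⟨by omega, by omega⟩
      rw [norm_mul]
      exact mul_lt_one_of_nonneg_of_lt_one_right (hAn i) (norm_nonneg _) (hB2 j hj)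
  refine ⟨?_, ?_, ?_⟩
  · rw [coeff_mul, ← Finset.add_sum_erase _ _
      (Finset.HasAntidiagonal.mem_antidiagonal.2 rfl : (a, β) ∈ Finset.HasAntidiagonal.antidiagonal (a + β))]
    refine to_add_one ?_ (to_sum_lt _ _ fun x hx => ?_)
    · have h1 : A.coeff a = 1 := by rw [← ha]; exact hA
      simp only [h1, one_mul, hB1]
    · have h1 := Finset.mem_erase.1 hx
      have h2 := Finset.HasAntidiagonal.mem_antidiagonal.1 h1.2
      refine hlt _ _ h2.ge fun h3 => h1.1 ?_
      ext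
      · exact h3.1
      · exact h3.2
  · intro j hj
    rw [coeff_mul]
    refine to_sum_lt _ _ fun x hx => ?_
    have h2 := Finset.HasAntidiagonal.mem_antidiagonal.1 hx
    exact hlt _ _ (by omega) fun h3 => by omega
  · intro j
    rw [coeff_mul]
    exact IsUltrametricDist.norm_sum_le_of_forall_le_of_nonneg zero_le_one fun x _ => hterm _ _

theorem TopOne.of_close {F p : K[X]} {q : ℝ} (hq : q < 1) {β : ℕ} (hp : TopOne p β)
    (h : ∀ j, ‖F.coeff j - p.coeff j‖ ≤ q) : TopOne F β := by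
  obtain ⟨h1, h2, h3⟩ := hp
  have e : ∀ j, F.coeff j = p.coeff j + (F.coeff j - p.coeff j) := fun j => by ring
  refine ⟨?_, ?_, ?_⟩
  · rw [e β]
    exact to_add_one h1 ((h β).trans_lt hq)
  · intro j hj
    rw [e j]
    exact (IsUltrametricDist.norm_add_le_max _ _).trans_lt (max_lt (h2 j hj) ((h j).trans_lt hq))
  · intro j
    rw [e j]
    exact (IsUltrametricDist.norm_add_le_max _ _).trans (max_le (h3 j) ((h j).trans hq.le))

variable [CharP K 2] (D : K) (hD : 1 < ‖D‖)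

include hD

private theorem to_inv : 0 ≤ ‖D‖⁻¹ ∧ ‖D‖⁻¹ < 1 :=
  ⟨inv_nonneg.2 (norm_nonneg _), inv_lt_one_of_one_lt₀ hD⟩

theorem AA_norm_le {a : ℕ} (ha : 1 ≤ a) (j : ℕ) : ‖(AA D a).coeff j‖ ≤ 1 := by
  obtain ⟨q0, q1⟩ := to_inv D hD
  exact (leadA_J D hD ha j).trans (pow_le_one₀ q0 q1.le)

theorem TopOne_BB {b : ℕ} (hb : 1 ≤ b) : TopOne (BB D b) (b - 2 ^ Nat.log 2 b) := by
  obtain ⟨q0, q1⟩ := to_inv D hD
  have hp1 : 2 ^ Nat.log 2 b ≤ b := Nat.pow_log_le_self 2 (by omega)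
  have hp2 : b < 2 ^ (Nat.log 2 b + 1) := Nat.lt_pow_succ_log_self one_lt_two b
  have hp3 : 2 ^ (Nat.log 2 b + 1) = 2 * 2 ^ Nat.log 2 b := by rw [pow_succ, mul_comm]
  generalize hk : Nat.log 2 b = k at *
  obtain ⟨c, hc⟩ : ∃ c, b = 2 ^ k + c := ⟨b - 2 ^ k, by omega⟩
  have hck : c < 2 ^ k := by omega
  have hbc : b - 2 ^ k = c := by omega
  rw [hbc]
  refine ⟨?_, ?_, fun j => BB_norm_le D hD b j⟩
  · rw [hc]
    exact BB_coeff_c D hD hck
  · intro j hj
    by_cases hdeg : b - 1 < 2 * j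
    · have h1 := BB_natDegree D hb
      rw [coeff_eq_zero_of_natDegree_lt (by omega), norm_zero]
      exact zero_lt_one
    · have hjk : j < 2 ^ k := by omega
      rw [BB_TT_coeff D hD hb]
      have hAA : ‖(AA D b).coeff j‖ < 1 := by
        refine (leadA_J D hD hb j).trans_lt (pow_lt_one₀ q0 q1 ?_)
        have h1 := two_mul_kap hb
        have h2 : 1 ≤ 2 ^ padicValNat 2 b := Nat.one_le_two_pow
        omega
      refine (IsUltrametricDist.norm_add_le_max _ _).trans_lt (max_lt hAA ?_)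
      refine to_sum_lt _ _ fun i hi => ?_
      rcases Nat.eq_zero_or_pos i with rfl | hi1
      · have h1 : (X ^ (2 * 0) * (1 + X) ^ (b - 2 * 0) : K[X]).coeff j = 0 := by
          have h2 : (X ^ (2 * 0) * (1 + X) ^ (b - 2 * 0) : K[X]) =
              (1 + X) ^ c + X ^ 2 ^ k * (1 + X) ^ c := by
            rw [mul_zero, pow_zero, one_mul, Nat.sub_zero, hc, pow_add, add_pow_char_pow, one_pow]
            ring
          rw [h2, coeff_add, coeff_X_pow_mul', if_neg (by omega), add_zero, coeff_one_add_X_pow,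
            Nat.choose_eq_zero_of_lt hj, Nat.cast_zero]
        rw [h1, mul_zero, norm_zero]
        exact zero_lt_one
      · have h1 : ‖(X ^ (2 * i) * (1 + X) ^ (b - 2 * i) : K[X]).coeff j‖ ≤ 1 := by
          rw [coeff_X_pow_mul']
          split_ifs
          · rw [coeff_one_add_X_pow]
            exact IsUltrametricDist.norm_natCast_le_one K _
          · rw [norm_zero]
            exact zero_le_one
        have h2 : ‖D⁻¹ ^ i‖ < 1 := by
          rw [norm_pow, norm_inv]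
          exact pow_lt_one₀ q0 q1 (by omega)
        have h3 : ‖(BB D b).coeff i‖ ≤ 1 := BB_norm_le D hD b i
        rw [norm_mul, norm_mul]
        have h4 : ‖D⁻¹ ^ i‖ * ‖(BB D b).coeff i‖ < 1 :=
          mul_lt_one_of_nonneg_of_lt_one_left (norm_nonneg _) h2 h3
        exact mul_lt_one_of_nonneg_of_lt_one_left
          (mul_nonneg (norm_nonneg _) (norm_nonneg _)) h4 h1

theorem top_rel {a b' : ℕ} (ha : 1 ≤ a) (hb' : 1 ≤ b') {F B : K[X]} {β : ℕ}
    (hF : 2 * F.natDegree ≤ a + b') (hBd : 2 * B.natDegree ≤ b') (hB : TopOne B β)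
    (h : TT D (a + b') F = F + AA D a * B) :
    TopOne F (a + β) ∧ 2 * (a + β) ≤ a + b' := by
  obtain ⟨q0, q1⟩ := to_inv D hD
  have hp : TopOne (AA D a * B) (a + β) :=
    hB.mul (AA_monic D ha) (AA_natDegree D ha) fun j => AA_norm_le D hD ha j
  have hdeg : (AA D a * B).natDegree < a + b' := by
    have h1 := natDegree_mul_le (p := AA D a) (q := B)
    rw [AA_natDegree D ha] at h1
    omega
  have hT : TopOne F (a + β) := TopOne.of_close q1 hp fun j =>
    (TT_norm D hD (by omega) hF hdeg h hp.2.2 j).2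
  refine ⟨hT, ?_⟩
  have h1 : F.coeff (a + β) ≠ 0 := by
    rw [← norm_ne_zero_iff, hT.1]
    exact one_ne_zero
  have h2 := le_natDegree_of_ne_zero h1
  omega

end Pool.Agent.ZL
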