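import Pool.Agent.Work.MP_b19acb_nt.Tbase
import Pool.Agent.Work.MP_b19acb_nt.TopOne
import Pool.Agent.Work.MP_b19acb_nt.Scale

/-!
# Zg (M): the tails of the multizeta series and the splitting identity

`D = S.D`, `q = ‖φ D‖⁻¹ < 1`.  `norm_ps`: `φ (ps D d n) = ps (φ D) d n` (`map_ps`); `d = 0`: `ps D 0 n = 1`
(`ee D 0 = 1, 0, 0, ..`, `gg_rec` gives `gg = 1`), or at least norm `≤ 1`; `d ≥ 1`:
`ps_eq`: `X_d^n A_n(u_d)`, `‖X_d‖ = 1`, `A_n` has constant coefficient 0 and coefficients of norm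
`≤ 1` (`AA_norm_le`), `‖u_d‖ = q^(2^d-1) ≤ 1`.
`norm_zg_le`, `norm_zg`: induction on `l` (`tsum` of terms of norm `≤ c` has norm `≤ c` in the
ultrametric case, `IsUltrametricDist.norm_tsum_le..`, or through finite sums); summability of
`e ↦ φ (ps D (d+e) n) * zg l (d+e+1)`: the norm is `≤ q^(2^(d+e)-1) → 0`, nonarchimedean complete
(`NonarchimedeanAddGroup.summable_of_tendsto_cofinite_zero`) or comparison with a geometric series.
`zg_succ`: split off `e = 0` (`Summable.tsum_eq_zero_add`).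
`zg_tendsto`: from `norm_zg`.
`split`: let `W d` be the left side.  `W (d+1) = W d`: by `SS_succ`
`SS (s.drop j) (d+1) = SS (s.drop j) d + ps D d s_j SS (s.drop (j+1)) d` for `j < length` and by
`zg_succ` `zg (pre (j+1)) d = φ(ps D d s_j) zg (pre j) (d+1) + zg (pre (j+1)) (d+1)`
(`(s.take (j+1)).reverse = s_j :: (s.take j).reverse`); compare.  `W 0`: `SS (s.drop j) 0 = 0` for
`j < length` (`SS_zero_cons`), so only `j = length` remains: `zg s.reverse 0 = zeta s`.
(A recursion over `s` with an accumulator for the front part may be more convenient: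
`Sp l [] d = zg l d`, `Sp l (a::s) d = zg l d * SS (a::s) d + Sp (a::l) s d`.)
`tendsto_SS`: in `split` the terms `j ≥ 1` tend to 0 (`zg_tendsto`, `norm_SS_le`), the term `j = 0` is
`φ (SS D s d)`.
-/

namespace Pool.Agent.ZL

open Polynomial Finset Filter

variable {k L : Type*} [Field k] [CharP k 2] [NormedField L] [CompleteSpace L]
  [IsUltrametricDist L] [CharP L 2] (S : Setup k L)

namespace Setup

private theorem zg_q : 0 < ‖S.φ S.D‖⁻¹ ∧ ‖S.φ S.D‖⁻¹ < 1 :=
  ⟨inv_pos.2 (zero_lt_one.trans S.one_lt_D), inv_lt_one_of_one_lt₀ S.one_lt_D⟩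

private theorem zg_ee0 (D : L) : (fun i => xx D 0 * ee D 0 i) = fun i => if i = 0 then 1 else 0 := by
  funext i
  cases i with
  | zero => simp [xx_zero, ee]
  | succ i => simp [ee]

private theorem zg_gg0 (n : ℕ) : gg (fun i => if i = 0 then (1 : L) else 0) n = 1 := by
  induction n with
  | zero => exact gg_zero _
  | succ n ih =>
    rw [gg_rec _ (Nat.succ_le_succ (Nat.zero_le n)), Finset.sum_eq_single 0]
    · rw [pow_zero, if_pos (by omega), if_pos rfl, one_mul, Nat.succ_sub_one, ih]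
    · intro i _ hi
      rw [if_neg hi, zero_mul, ite_self]
    · intro h
      exact absurd (Finset.mem_range.2 (by omega)) h

private theorem zg_eval {P : L[X]} (hP0 : P.coeff 0 = 0) (hP : ∀ j, ‖P.coeff j‖ ≤ 1) {u : L}
    (hu : ‖u‖ ≤ 1) : ‖P.eval u‖ ≤ ‖u‖ := by
  rw [eval_eq_sum_range]
  refine IsUltrametricDist.norm_sum_le_of_forall_le_of_nonneg (norm_nonneg _) fun j _ => ?_
  rcases Nat.eq_zero_or_pos j with rfl | hj
  · rw [hP0, zero_mul, norm_zero]
    exact norm_nonneg _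
  · rw [norm_mul, norm_pow]
    calc ‖P.coeff j‖ * ‖u‖ ^ j ≤ 1 * ‖u‖ ^ 1 :=
          mul_le_mul (hP j) (pow_le_pow_of_le_one (norm_nonneg _) hu hj)
            (pow_nonneg (norm_nonneg _) _) zero_le_one
      _ = ‖u‖ := by rw [one_mul, pow_one]

theorem norm_ps (d : ℕ) {n : ℕ} (hn : 1 ≤ n) :
    ‖S.φ (ps S.D d n)‖ ≤ ‖S.φ S.D‖⁻¹ ^ (2 ^ d - 1) := by
  rw [S.map_ps]
  rcases Nat.eq_zero_or_pos d with rfl | hd
  · rw [ps, zg_ee0, zg_gg0, xx_zero, one_mul, norm_one, pow_zero, Nat.sub_self, pow_zero]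
  · have hD := S.one_lt_D
    rw [ps_eq (S.φ S.D) (br_ne (S.φ S.D) hD) hd hn, norm_mul, norm_pow,
      norm_XX (S.φ S.D) hD hd, one_pow, one_mul, ← norm_uu (S.φ S.D) hD hd]
    refine zg_eval (AA_coeff_zero _ _) (AA_norm_le (S.φ S.D) hD hn) ?_
    rw [norm_uu (S.φ S.D) hD hd]
    exact pow_le_one₀ S.zg_q.1.le S.zg_q.2.le

private theorem zg_ps_one (d : ℕ) {n : ℕ} (hn : 1 ≤ n) : ‖S.φ (ps S.D d n)‖ ≤ 1 :=
  (S.norm_ps d hn).trans (pow_le_one₀ S.zg_q.1.le S.zg_q.2.le)

theorem norm_SS_le {s : List ℕ} (hs : ∀ a ∈ s, 1 ≤ a) (d : ℕ) : ‖S.φ (SS S.D s d)‖ ≤ 1 := by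
  induction s generalizing d with
  | nil => rw [SS_nil, map_one, norm_one]
  | cons a s ih =>
    rw [SS, map_sum]
    refine IsUltrametricDist.norm_sum_le_of_forall_le_of_nonneg zero_le_one fun i _ => ?_
    rw [map_mul, norm_mul]
    exact mul_le_one₀ (S.zg_ps_one i (hs a List.mem_cons_self)) (norm_nonneg _)
      (ih (fun b hb => hs b (List.mem_cons_of_mem a hb)) i)

theorem norm_zg_le {l : List ℕ} (hl : ∀ a ∈ l, 1 ≤ a) (d : ℕ) : ‖S.zg l d‖ ≤ 1 := by
  induction l generalizing d with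
  | nil => rw [zg, norm_one]
  | cons a l ih =>
    rw [zg]
    refine IsUltrametricDist.norm_tsum_le_of_forall_le fun e => ?_
    rw [norm_mul]
    exact mul_le_one₀ (S.zg_ps_one _ (hl a List.mem_cons_self)) (norm_nonneg _)
      (ih (fun b hb => hl b (List.mem_cons_of_mem a hb)) _)

private theorem zg_term {n : ℕ} {l : List ℕ} (hn : 1 ≤ n) (hl : ∀ a ∈ l, 1 ≤ a) (d e : ℕ) :
    ‖S.φ (ps S.D (d + e) n) * S.zg l (d + e + 1)‖ ≤ ‖S.φ S.D‖⁻¹ ^ (2 ^ (d + e) - 1) := by
  rw [norm_mul]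
  calc ‖S.φ (ps S.D (d + e) n)‖ * ‖S.zg l (d + e + 1)‖ ≤ ‖S.φ S.D‖⁻¹ ^ (2 ^ (d + e) - 1) * 1 :=
        mul_le_mul (S.norm_ps _ hn) (S.norm_zg_le hl _) (norm_nonneg _)
          (pow_nonneg S.zg_q.1.le _)
    _ = _ := mul_one _

theorem norm_zg {l : List ℕ} (hl : ∀ a ∈ l, 1 ≤ a) (hne : l ≠ []) (d : ℕ) :
    ‖S.zg l d‖ ≤ ‖S.φ S.D‖⁻¹ ^ (2 ^ d - 1) := by
  cases l with
  | nil => exact absurd rfl hne
  | cons a l =>
    rw [zg]
    refine IsUltrametricDist.norm_tsum_le_of_forall_le fun e => ?_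
    refine (S.zg_term (hl a List.mem_cons_self)
      (fun b hb => hl b (List.mem_cons_of_mem a hb)) d e).trans ?_
    refine pow_le_pow_of_le_one S.zg_q.1.le S.zg_q.2.le ?_
    exact Nat.sub_le_sub_right (Nat.pow_le_pow_right (by norm_num) (Nat.le_add_right d e)) 1

private theorem zg_tend : Tendsto (fun d : ℕ => ‖S.φ S.D‖⁻¹ ^ (2 ^ d - 1)) atTop (nhds 0) := by
  have h1 := tendsto_pow_atTop_nhds_zero_of_lt_one S.zg_q.1.le S.zg_q.2
  refine h1.comp (tendsto_atTop_mono (f := fun d : ℕ => d) (fun d => ?_) tendsto_id)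
  exact Nat.le_sub_one_of_lt (Nat.lt_two_pow_self)

private theorem zg_summable {n : ℕ} {l : List ℕ} (hn : 1 ≤ n) (hl : ∀ a ∈ l, 1 ≤ a) (d : ℕ) :
    Summable fun e : ℕ => S.φ (ps S.D (d + e) n) * S.zg l (d + e + 1) := by
  refine NonarchimedeanAddGroup.summable_of_tendsto_cofinite_zero ?_
  rw [Nat.cofinite_eq_atTop, tendsto_zero_iff_norm_tendsto_zero]
  refine squeeze_zero (fun e => norm_nonneg _) (fun e => S.zg_term hn hl d e) ?_
  have h := S.zg_tend.comp (tendsto_add_atTop_nat d)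
  refine h.congr fun e => ?_
  simp only [Function.comp_apply]
  rw [Nat.add_comm e d]

theorem zg_succ {n : ℕ} {l : List ℕ} (hn : 1 ≤ n) (hl : ∀ a ∈ l, 1 ≤ a) (d : ℕ) :
    S.zg (n :: l) d = S.φ (ps S.D d n) * S.zg l (d + 1) + S.zg (n :: l) (d + 1) := by
  rw [zg, (S.zg_summable hn hl d).tsum_eq_zero_add, zg]
  congr 1
  refine tsum_congr fun e => ?_
  rw [show d + (e + 1) = d + 1 + e from by omega]

theorem zg_tendsto {l : List ℕ} (hl : ∀ a ∈ l, 1 ≤ a) (hne : l ≠ []) :
    Tendsto (S.zg l) atTop (nhds 0) := by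
  rw [tendsto_zero_iff_norm_tendsto_zero]
  exact squeeze_zero (fun e => norm_nonneg _) (fun e => S.norm_zg hl hne e) S.zg_tend

/-- the sum of `split`, by recursion with a reversed front part -/
private noncomputable def Sp : List ℕ → List ℕ → ℕ → L
  | l, [], d => S.zg l d
  | l, a :: s, d => S.zg l d * S.φ (SS S.D (a :: s) d) + Sp (a :: l) s d

private theorem sp_eq (s l : List ℕ) (d : ℕ) :
    ∑ j ∈ range (s.length + 1), S.zg ((s.take j).reverse ++ l) d * S.φ (SS S.D (s.drop j) d) =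
      S.Sp l s d := by
  induction s generalizing l with
  | nil => simp [Sp, SS_nil]
  | cons a s ih =>
    rw [List.length_cons, Finset.sum_range_succ', Sp, ← ih (a :: l), add_comm]
    congr 1
    refine Finset.sum_congr rfl fun j _ => ?_
    simp

private theorem sp_step (s l : List ℕ) (hs : ∀ a ∈ s, 1 ≤ a) (hl : ∀ a ∈ l, 1 ≤ a) (n : ℕ)
    (hn : 1 ≤ n) (d : ℕ) :
    S.Sp (n :: l) s d = S.Sp (n :: l) s (d + 1) +
      S.zg l (d + 1) * S.φ (ps S.D d n) * S.φ (SS S.D s d) := by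
  induction s generalizing l n with
  | nil =>
    rw [Sp, Sp, SS_nil, map_one, mul_one, S.zg_succ hn hl d]
    ring
  | cons a s ih =>
    rw [Sp, Sp, ih (n :: l) (fun b hb => hs b (List.mem_cons_of_mem a hb))
      (fun b hb => by
        rcases List.mem_cons.1 hb with rfl | hb
        · exact hn
        · exact hl b hb) a (hs a List.mem_cons_self), SS_succ, S.zg_succ hn hl d, map_add, map_mul]
    ring

private theorem sp_zero (s l : List ℕ) : S.Sp l s 0 = S.zg (s.reverse ++ l) 0 := by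
  induction s generalizing l with
  | nil => rw [Sp, List.reverse_nil, List.nil_append]
  | cons a s ih =>
    rw [Sp, SS_zero_cons, map_zero, mul_zero, zero_add, ih (a :: l), List.reverse_cons,
      List.append_assoc, List.singleton_append]

private theorem sp_nil {s : List ℕ} (hs : ∀ a ∈ s, 1 ≤ a) (d : ℕ) : S.Sp [] s d = S.zeta s := by
  have h0 : S.Sp [] s 0 = S.zeta s := by
    rw [sp_zero, List.append_nil, zeta]
  rw [← h0]
  induction d with
  | zero => rfl
  | succ d ih =>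
    rw [← ih]
    cases s with
    | nil => rw [Sp, Sp, zg, zg]
    | cons a s =>
      rw [Sp, Sp, S.sp_step s [] (fun b hb => hs b (List.mem_cons_of_mem a hb))
        (fun b hb => absurd hb List.not_mem_nil) a (hs a List.mem_cons_self) d, SS_succ,
        map_add, map_mul, zg, zg]
      ring

theorem split {s : List ℕ} (hs : ∀ a ∈ s, 1 ≤ a) (d : ℕ) :
    ∑ j ∈ range (s.length + 1), S.zg (s.take j).reverse d * S.φ (SS S.D (s.drop j) d) =
      S.zeta s := by
  rw [← S.sp_nil hs d, ← S.sp_eq s [] d]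
  refine Finset.sum_congr rfl fun j _ => ?_
  rw [List.append_nil]

private theorem sp_tendsto (s l : List ℕ) (hs : ∀ a ∈ s, 1 ≤ a) (hl : ∀ a ∈ l, 1 ≤ a)
    (hne : l ≠ []) : Tendsto (S.Sp l s) atTop (nhds 0) := by
  induction s generalizing l with
  | nil =>
    refine (S.zg_tendsto hl hne).congr fun d => ?_
    rw [Sp]
  | cons a s ih =>
    have ha := hs a List.mem_cons_self
    have h1 := ih (a :: l) (fun b hb => hs b (List.mem_cons_of_mem a hb))
      (fun b hb => by
        rcases List.mem_cons.1 hb with rfl | hb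
        · exact ha
        · exact hl b hb) (List.cons_ne_nil a l)
    have h2 : Tendsto (fun d => S.zg l d * S.φ (SS S.D (a :: s) d)) atTop (nhds 0) := by
      rw [tendsto_zero_iff_norm_tendsto_zero]
      refine squeeze_zero (fun d => norm_nonneg _) (fun d => ?_)
        (tendsto_zero_iff_norm_tendsto_zero.1 (S.zg_tendsto hl hne))
      rw [norm_mul]
      exact mul_le_of_le_one_right (norm_nonneg _) (S.norm_SS_le hs d)
    have h3 := h2.add h1
    rw [add_zero] at h3
    refine h3.congr fun d => ?_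
    rw [Sp]

theorem tendsto_SS {s : List ℕ} (hs : ∀ a ∈ s, 1 ≤ a) :
    Tendsto (fun d => S.φ (SS S.D s d)) atTop (nhds (S.zeta s)) := by
  cases s with
  | nil =>
    have h : ∀ d : ℕ, S.φ (SS S.D [] d) = S.zeta [] := fun d => by
      rw [SS_nil, map_one, zeta, List.reverse_nil, zg]
    simp only [h]
    exact tendsto_const_nhds
  | cons a s =>
    have h1 := S.sp_tendsto s [a] (fun b hb => hs b (List.mem_cons_of_mem a hb))
      (fun b hb => by
        rw [List.mem_singleton.1 hb]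
        exact hs a List.mem_cons_self) (List.cons_ne_nil a [])
    have h2 := (tendsto_const_nhds (x := S.zeta (a :: s)) (f := atTop (α := ℕ))).sub h1
    rw [sub_zero] at h2
    refine h2.congr fun d => ?_
    have h3 := S.sp_nil hs d
    rw [Sp, zg, one_mul] at h3
    rw [← h3]
    ring

end Setup

end Pool.Agent.ZL
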