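import Pool.Agent.Work.MP_b19acb_nt.Defs

/-!
# GG (M): coefficients of 1/(1 + c_0 z + c_1 z^2 + c_2 z^4 + ...)

Let `P = 1 + ser c` (constant coefficient 1: `ser c` has constant coefficient 0 because
`0 ≠ 2^(Nat.log 2 0) = 1`), `G = PowerSeries.invOfUnit P 1`, so `P * G = 1`
(`PowerSeries.mul_invOfUnit`), `gg c n = coeff n G`.

`gg_rec`: compare the coefficients of `z^n`, `n ≥ 1`, in `P * G = 1`: `g_n = - Σ c_i g_{n-2^i}`,
and `-x = x` in characteristic 2.  (The sum over the antidiagonal: the only indices `m ≤ n` where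
`ser c` has a nonzero coefficient are `m = 2^i`; use `Finset.sum_nbij'` or prove first the lemma
`coeff n (ser c * F) = Σ_{i ∈ range (n+1)} if 2^i ≤ n then c i * coeff (n - 2^i) F else 0`.)
`gg_map`: `PowerSeries.map f` maps `ser c` to `ser (f ∘ c)` and inverses to inverses (uniqueness of
the inverse), or strong induction with the recursion `g_n = - Σ ...`.
`gg_scale`: strong induction on `n` with `gg_rec` (`a^(2^i) * a^(n-2^i) = a^n`).

`coeff_sq_even`, `coeff_sq_odd`: in characteristic 2, `F^2 = Σ F_n^2 z^(2n)` (the off-diagonal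
terms of the convolution cancel in pairs; e.g. through `PowerSeries` extensionality and
`Finset.sum_involution`, or through the Frobenius `frobenius (PowerSeries R) 2` and truncation).
`gg_odd`, `gg_even`: `G = P * G^2` (multiply `P * G = 1` by `G`).  `G^2` only has even powers with
coefficients `g_n^2`; in `P` the only odd power is `z^1` with coefficient `c_0`, the even powers
are `1` and `z^(2^(i+1))` with coefficient `c_(i+1)`.
-/

namespace Pool.Agent.ZL

open Polynomial Finset

variable {R : Type*} [CommRing R]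

theorem coeff_ser (c : ℕ → R) (n : ℕ) : PowerSeries.coeff n (ser c) =
    if n = 2 ^ Nat.log 2 n then c (Nat.log 2 n) else 0 := PowerSeries.coeff_mk _ _

/-- coefficients of a product with `ser c` -/
theorem coeff_ser_mul (c : ℕ → R) (F : PowerSeries R) (n : ℕ) :
    PowerSeries.coeff n (ser c * F) = ∑ i ∈ range (n + 1),
      if 2 ^ i ≤ n then c i * PowerSeries.coeff (n - 2 ^ i) F else 0 := by
  rw [PowerSeries.coeff_mul,
    Finset.Nat.sum_antidiagonal_eq_sum_range_succ_mk]
  have h1 : ∀ k ∈ range (n + 1), PowerSeries.coeff k (ser c) * PowerSeries.coeff (n - k) F =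
      if k = 2 ^ Nat.log 2 k then c (Nat.log 2 k) * PowerSeries.coeff (n - k) F else 0 := by
    intro k _
    rw [coeff_ser]
    split_ifs
    · rfl
    · rw [zero_mul]
  rw [Finset.sum_congr rfl h1, ← Finset.sum_filter, ← Finset.sum_filter]
  refine Finset.sum_nbij' (Nat.log 2) (fun i => 2 ^ i) ?_ ?_ ?_ ?_ ?_
  · intro k hk
    rw [Finset.mem_filter, Finset.mem_range] at hk ⊢
    refine ⟨lt_of_le_of_lt (Nat.log_le_self 2 k) hk.1, ?_⟩
    rw [← hk.2]
    omega
  · intro i hi
    rw [Finset.mem_filter, Finset.mem_range] at hi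
    rw [Finset.mem_filter, Finset.mem_range, Nat.log_pow (by norm_num)]
    exact ⟨by omega, rfl⟩
  · intro k hk
    rw [Finset.mem_filter] at hk
    exact hk.2.symm
  · intro i _
    exact Nat.log_pow (by norm_num) i
  · intro k hk
    rw [Finset.mem_filter] at hk
    rw [← hk.2]

theorem constantCoeff_ser (c : ℕ → R) : PowerSeries.constantCoeff (ser c) = 0 := by
  rw [← PowerSeries.coeff_zero_eq_constantCoeff_apply, coeff_ser]
  simp

private theorem gg_const (c : ℕ → R) :
    PowerSeries.constantCoeff (1 + ser c) = ((1 : Rˣ) : R) := by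
  rw [map_add, constantCoeff_ser, add_zero, map_one, Units.val_one]

private theorem gg_mk (c : ℕ → R) : (PowerSeries.mk fun n => gg c n) =
    PowerSeries.invOfUnit (1 + ser c) 1 := by
  ext n
  rw [PowerSeries.coeff_mk]
  rfl

/-- inverses of power series are unique -/
theorem ser_inv_unique {P A B : PowerSeries R} (hA : P * A = 1) (hB : P * B = 1) : A = B := by
  calc A = A * (P * B) := by rw [hB, mul_one]
    _ = (P * A) * B := by ring
    _ = B := by rw [hA, one_mul]

theorem gg_zero (c : ℕ → R) : gg c 0 = 1 := by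
  unfold gg
  rw [PowerSeries.coeff_zero_eq_constantCoeff_apply, PowerSeries.constantCoeff_invOfUnit]
  simp

theorem gg_inv (c : ℕ → R) :
    (1 + ser c) * (PowerSeries.mk fun n => gg c n) = (1 : PowerSeries R) := by
  rw [gg_mk]
  exact PowerSeries.mul_invOfUnit _ _ (gg_const c)

theorem gg_map {S : Type*} [CommRing S] (f : R →+* S) (c : ℕ → R) (n : ℕ) :
    f (gg c n) = gg (fun i => f (c i)) n := by
  have h1 : PowerSeries.map f (1 + ser c) = 1 + ser (fun i => f (c i)) := by
    rw [map_add, map_one]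
    congr 1
    ext n
    rw [PowerSeries.coeff_map, coeff_ser, coeff_ser]
    split_ifs
    · rfl
    · rw [map_zero]
  have h2 : (1 + ser (fun i => f (c i))) * PowerSeries.map f (PowerSeries.mk fun n => gg c n) =
      1 := by
    rw [← h1, ← map_mul, gg_inv, map_one]
  have h3 := ser_inv_unique h2 (gg_inv fun i => f (c i))
  have h4 := congrArg (PowerSeries.coeff n) h3
  rw [PowerSeries.coeff_map, PowerSeries.coeff_mk, PowerSeries.coeff_mk] at h4
  exact h4

variable [CharP R 2]

theorem gg_rec (c : ℕ → R) {n : ℕ} (hn : 1 ≤ n) :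
    gg c n = ∑ i ∈ range (n + 1), if 2 ^ i ≤ n then c i * gg c (n - 2 ^ i) else 0 := by
  have h1 := congrArg (PowerSeries.coeff n) (gg_inv c)
  rw [add_mul, one_mul, map_add, PowerSeries.coeff_mk, coeff_ser_mul, PowerSeries.coeff_one,
    if_neg (by omega)] at h1
  rw [CharTwo.add_eq_zero] at h1
  rw [h1]
  refine Finset.sum_congr rfl fun i _ => ?_
  rw [PowerSeries.coeff_mk]

theorem gg_scale (c : ℕ → R) (a : R) (n : ℕ) :
    gg (fun i => a ^ 2 ^ i * c i) n = a ^ n * gg c n := by
  induction n using Nat.strong_induction_on with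
  | _ n ih =>
    rcases Nat.eq_zero_or_pos n with rfl | hn
    · rw [gg_zero, gg_zero, pow_zero, one_mul]
    · rw [gg_rec _ hn, gg_rec c hn, Finset.mul_sum]
      refine Finset.sum_congr rfl fun i _ => ?_
      by_cases h : 2 ^ i ≤ n
      · rw [if_pos h, if_pos h, ih (n - 2 ^ i) (Nat.sub_lt hn (by positivity))]
        have e : a ^ n = a ^ 2 ^ i * a ^ (n - 2 ^ i) := by
          rw [← pow_add, Nat.add_sub_cancel' h]
        rw [e]
        ring
      · rw [if_neg h, if_neg h, mul_zero]

private theorem coeff_sq_aux (F : PowerSeries R) (m : ℕ) :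
    PowerSeries.coeff m (F ^ 2) =
      if 2 ∣ m then (PowerSeries.coeff (m / 2) F) ^ 2 else 0 := by
  have : Fact (Nat.Prime 2) := ⟨Nat.prime_two⟩
  have h1 : PowerSeries.coeff m (F ^ 2) =
      ((PowerSeries.trunc (m + 1) F) ^ 2 : Polynomial R).coeff m := by
    rw [pow_two, pow_two, PowerSeries.coeff_mul_eq_coeff_trunc_mul_trunc F F (Nat.lt_succ_self m)]
    rw [← Polynomial.coe_mul, Polynomial.coeff_coe]
  rw [h1, ← Polynomial.map_frobenius_expand (p := 2), Polynomial.coeff_map,
    Polynomial.coeff_expand (by norm_num)]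
  split_ifs with h
  · rw [PowerSeries.coeff_trunc, if_pos (by omega)]
    rfl
  · exact map_zero _

theorem coeff_sq_even (F : PowerSeries R) (n : ℕ) :
    PowerSeries.coeff (2 * n) (F ^ 2) = (PowerSeries.coeff n F) ^ 2 := by
  rw [coeff_sq_aux, if_pos (Dvd.intro _ rfl), Nat.mul_div_cancel_left _ (by norm_num)]

theorem coeff_sq_odd (F : PowerSeries R) (n : ℕ) :
    PowerSeries.coeff (2 * n + 1) (F ^ 2) = 0 := by
  rw [coeff_sq_aux, if_neg (by omega)]

private theorem gg_eq_sq (c : ℕ → R) : (PowerSeries.mk fun n => gg c n) =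
    (PowerSeries.mk fun n => gg c n) ^ 2 + ser c * (PowerSeries.mk fun n => gg c n) ^ 2 := by
  calc (PowerSeries.mk fun n => gg c n) =
      ((1 + ser c) * (PowerSeries.mk fun n => gg c n)) * (PowerSeries.mk fun n => gg c n) := by
        rw [gg_inv, one_mul]
    _ = _ := by ring

theorem gg_odd (c : ℕ → R) (n : ℕ) : gg c (2 * n + 1) = c 0 * (gg c n) ^ 2 := by
  have h := congrArg (PowerSeries.coeff (2 * n + 1)) (gg_eq_sq c)
  rw [PowerSeries.coeff_mk, map_add, coeff_sq_odd, zero_add, coeff_ser_mul] at h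
  rw [h, Finset.sum_eq_single 0]
  · rw [pow_zero, if_pos (by omega), Nat.add_sub_cancel, coeff_sq_even, PowerSeries.coeff_mk]
  · intro i _ hi
    split_ifs with h2
    · obtain ⟨j, rfl⟩ := Nat.exists_eq_succ_of_ne_zero hi
      have e : 2 * n + 1 - 2 ^ (j + 1) = 2 * (n - 2 ^ j) + 1 := by
        rw [pow_succ] at h2 ⊢
        omega
      rw [Nat.succ_eq_add_one, e, coeff_sq_odd, mul_zero]
    · rfl
  · intro h0
    exact absurd (Finset.mem_range.2 (by omega)) h0

theorem gg_even (c : ℕ → R) (n : ℕ) :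
    gg c (2 * n) = (gg c n) ^ 2 +
      ∑ i ∈ range (n + 1), if 2 ^ i ≤ n then c (i + 1) * (gg c (n - 2 ^ i)) ^ 2 else 0 := by
  have h := congrArg (PowerSeries.coeff (2 * n)) (gg_eq_sq c)
  rw [PowerSeries.coeff_mk, map_add, coeff_sq_even, PowerSeries.coeff_mk, coeff_ser_mul,
    Finset.sum_range_succ'] at h
  rw [h]
  congr 1
  have h0 : (if 2 ^ 0 ≤ 2 * n then c 0 * PowerSeries.coeff (2 * n - 2 ^ 0)
      ((PowerSeries.mk fun n => gg c n) ^ 2) else 0) = 0 := by
    split_ifs with h1
    · rw [pow_zero] at h1 ⊢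
      have e : 2 * n - 1 = 2 * (n - 1) + 1 := by omega
      rw [e, coeff_sq_odd, mul_zero]
    · rfl
  rw [h0, add_zero]
  have h2 : ∀ i, (if 2 ^ (i + 1) ≤ 2 * n then c (i + 1) * PowerSeries.coeff (2 * n - 2 ^ (i + 1))
      ((PowerSeries.mk fun n => gg c n) ^ 2) else 0) =
      if 2 ^ i ≤ n then c (i + 1) * (gg c (n - 2 ^ i)) ^ 2 else 0 := by
    intro i
    by_cases h3 : 2 ^ i ≤ n
    · have e : 2 * n - 2 ^ (i + 1) = 2 * (n - 2 ^ i) := by
        rw [pow_succ]
        omega
      rw [if_pos h3, if_pos (by rw [pow_succ]; omega), e, coeff_sq_even, PowerSeries.coeff_mk]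
    · rw [if_neg h3, if_neg (by rw [pow_succ]; omega)]
  rw [Finset.sum_congr rfl fun i _ => h2 i]
  have h4 : ∀ i, n ≤ i → (if 2 ^ i ≤ n then c (i + 1) * (gg c (n - 2 ^ i)) ^ 2 else 0) = 0 := by
    intro i hi
    rw [if_neg]
    have := Nat.lt_two_pow_self (n := i)
    omega
  have h5 : ∀ N, n ≤ N → ∑ i ∈ range N,
      (if 2 ^ i ≤ n then c (i + 1) * (gg c (n - 2 ^ i)) ^ 2 else 0) =
      ∑ i ∈ range n, (if 2 ^ i ≤ n then c (i + 1) * (gg c (n - 2 ^ i)) ^ 2 else 0) := by
    intro N hN
    symm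
    refine Finset.sum_subset (Finset.range_mono hN) fun i _ hi => h4 i ?_
    rw [Finset.mem_range] at hi
    omega
  rw [h5 (2 * n) (by omega), h5 (n + 1) (by omega)]

end Pool.Agent.ZL
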