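import Pool.Agent.Work.MP_b19acb_nt.RootE
import Pool.Agent.Work.MP_b19acb_nt.GG

/-!
# PowS (M-L): ps D d k is the power sum over the monic polynomials of degree d

`mon d`: the monic polynomials of degree `d` over `F_2`, `2^d` of them.
Let `P = 1 + Σ_{i≤d} C (x_d e_{d,i}) X^(2^i)` in `K[X]`; `P(z) = 1 + x_d E_d(z)`, so `P(ψ n) = 0` for
`n ∈ mon d` (`Ez_mon`, characteristic 2), the `ψ n` are distinct (`ψ` injective) and nonzero, and
`natDegree P ≤ 2^d`, `P(0) = 1`, `P ≠ 0`.  Hence `P = c ∏_{n ∈ mon d} (X - C (ψ n))` (2^d distinct roots: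
`∏ (X - C ..) ∣ P` and degrees), and normalising the constant term,
`P = ∏_{n ∈ mon d} (1 + C (ψ n)⁻¹ X)`  (characteristic 2).
Derivative: `P' = C (x_d e_{d,0}) = C x_d` (`2^i` is even for `i ≥ 1`), and
`P' = Σ_n C (ψ n)⁻¹ ∏_{m ≠ n} (1 + C (ψ m)⁻¹ X)` (`Polynomial.derivative_prod`).
In power series: `(1 + c X) * mk (fun j => c^j) = 1` (characteristic 2), so
`P * Σ_n (ψ n)⁻¹ • mk (fun j => ((ψ n)⁻¹)^j) = P' = C x_d`, while `P * (mk (gg ..)) = 1` with
`gg (fun i => x_d * ee D d i)` (`gg_inv`: `1 + ser c` is the power series of `P`, `ee_gt`).  Hence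
`Σ_n ((ψ n)⁻¹)^(j+1) = x_d gg (..) j` for all `j`; `j = k - 1`.
-/

namespace Pool.Agent.ZL

open Polynomial Finset

/-- the monic polynomials of degree `d` over `F_2` -/
noncomputable def mon (d : ℕ) : Finset (ZMod 2)[X] :=
  (Finset.univ : Finset (Fin d → ZMod 2)).image fun c => X ^ d + ∑ i : Fin d, C (c i) * X ^ (i : ℕ)

theorem mem_mon {d : ℕ} {n : (ZMod 2)[X]} : n ∈ mon d ↔ n.Monic ∧ n.natDegree = d := by
  unfold mon
  rw [Finset.mem_image]
  constructor
  · rintro ⟨c, -, rfl⟩
    have h1 : (∑ i : Fin d, C (c i) * X ^ (i : ℕ) : (ZMod 2)[X]).degree < d :=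
      degree_sum_fin_lt c
    exact ⟨monic_X_pow_add h1, by
      rw [natDegree_add_eq_left_of_degree_lt (by rw [degree_X_pow]; exact h1), natDegree_X_pow]⟩
  · rintro ⟨h1, h2⟩
    refine ⟨fun i => n.coeff i, Finset.mem_univ _, ?_⟩
    rw [Fin.sum_univ_eq_sum_range (fun i => C (n.coeff i) * X ^ i) d]
    conv_rhs => rw [h1.as_sum, h2]

theorem card_mon (d : ℕ) : (mon d).card = 2 ^ d := by
  unfold mon
  rw [Finset.card_image_of_injective, Finset.card_univ, Fintype.card_fun, ZMod.card,
    Fintype.card_fin]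
  intro c c' h
  funext j
  have h1 := congrArg (fun p : (ZMod 2)[X] => p.coeff (j : ℕ)) h
  have hj := j.2
  simp only [coeff_add, coeff_X_pow, finsetSum_coeff, coeff_C_mul] at h1
  have key : ∀ c : Fin d → ZMod 2, ∑ x : Fin d, c x * (if (j : ℕ) = (x : ℕ) then 1 else 0) = c j := by
    intro c
    rw [Finset.sum_eq_single j]
    · simp
    · intro b _ hb
      rw [if_neg (fun h => hb (Fin.ext h.symm)), mul_zero]
    · intro h; exact absurd (Finset.mem_univ _) h
  rw [key, key] at h1
  exact add_left_cancel h1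

variable {K : Type*} [Field K] [CharP K 2] (D : K) (hb : ∀ i, br D (i + 1) ≠ 0)
  {ψ : (ZMod 2)[X] →+* K} (hψ : ψ X ^ 2 + ψ X = D) (hinj : Function.Injective ψ)

private lemma ps_aux_coeff {K : Type*} [Field K] (c : ℕ → K) (d : ℕ) (hc : ∀ i, d < i → c i = 0) :
    (((1 + ∑ i ∈ range (d + 1), C (c i) * X ^ 2 ^ i : K[X])) : PowerSeries K) = 1 + ser c := by
  ext n
  rw [Polynomial.coeff_coe, coeff_add, map_add, coeff_ser]
  congr 1
  · rw [coeff_one, PowerSeries.coeff_one]
  · rw [finsetSum_coeff]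
    simp_rw [coeff_C_mul_X_pow]
    by_cases h : n = 2 ^ Nat.log 2 n
    · rw [if_pos h, Finset.sum_eq_single (Nat.log 2 n)]
      · rw [if_pos h]
      · intro b _ hb
        rw [if_neg]
        intro hn
        apply hb
        rw [hn, Nat.log_pow (by norm_num)]
      · intro hn
        rw [if_pos h]
        apply hc
        rw [Finset.mem_range] at hn
        omega
    · rw [if_neg h]
      refine Finset.sum_eq_zero fun i _ => ?_
      rw [if_neg]
      intro hn
      apply h
      rw [hn, Nat.log_pow (by norm_num)]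

private lemma geom_inv {K : Type*} [Field K] [CharP K 2] (c : K) :
    ((1 + C c * X : K[X]) : PowerSeries K) * PowerSeries.mk (fun j => c ^ j) = 1 := by
  ext n
  rw [Polynomial.coe_add, Polynomial.coe_one, Polynomial.coe_mul, Polynomial.coe_C,
    Polynomial.coe_X, add_mul, one_mul, map_add, PowerSeries.coeff_mk, mul_assoc,
    PowerSeries.coeff_C_mul, PowerSeries.coeff_one]
  rcases n with _ | n
  · rw [PowerSeries.coeff_zero_X_mul]
    simp
  · rw [PowerSeries.coeff_succ_X_mul, PowerSeries.coeff_mk, if_neg (Nat.succ_ne_zero n), pow_succ,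
      mul_comm c]
    exact CharTwo.add_self_eq_zero _

private lemma ee_zero' {K : Type*} [Field K] (D : K) (d : ℕ) : ee D d 0 = 1 := by
  cases d <;> simp [ee]

include hb hψ hinj

theorem ps_eq_sum (d : ℕ) {k : ℕ} (hk : 1 ≤ k) :
    ∑ n ∈ mon d, ((ψ n)⁻¹) ^ k = ps D d k := by
  classical
  have hx : xx D d ≠ 0 := by
    unfold xx ell
    exact inv_ne_zero (Finset.prod_ne_zero_iff.2 fun i _ => hb i)
  set c : ℕ → K := fun i => xx D d * ee D d i with hc
  have hcgt : ∀ i, d < i → c i = 0 := by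
    intro i hi
    rw [hc]
    simp only
    rw [ee_gt D hi, mul_zero]
  set P : K[X] := 1 + ∑ i ∈ range (d + 1), C (c i) * X ^ 2 ^ i with hP
  set Q : K[X] := ∏ n ∈ mon d, (1 + C ((ψ n)⁻¹) * X) with hQ
  have hn0 : ∀ n ∈ mon d, ψ n ≠ 0 := by
    intro n hn h
    have h1 : n = 0 := hinj (by rw [h, map_zero])
    have h2 := (mem_mon.1 hn).1
    rw [h1] at h2
    exact h2.ne_zero rfl
  have hPeval : ∀ z, P.eval z = 1 + xx D d * Ez D d z := by
    intro z
    rw [hP, eval_add, eval_one, eval_finsetSum, Ez, Finset.mul_sum]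
    congr 1
    refine Finset.sum_congr rfl fun i _ => ?_
    rw [eval_mul, eval_C, eval_pow, eval_X, hc]
    ring
  have hPQ : P = Q := by
    have hcard : (insert (0 : K) ((mon d).image ψ)).card = 2 ^ d + 1 := by
      rw [Finset.card_insert_of_notMem, Finset.card_image_of_injective _ hinj, card_mon]
      intro h
      obtain ⟨n, hn, h0⟩ := Finset.mem_image.1 h
      exact hn0 n hn h0
    have hPdeg : P.natDegree ≤ 2 ^ d := by
      rw [hP]
      refine (natDegree_add_le _ _).trans (max_le (by simp) ?_)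
      refine natDegree_sum_le_of_forall_le _ _ fun i hi => ?_
      refine (natDegree_C_mul_X_pow_le _ _).trans ?_
      rw [Finset.mem_range] at hi
      exact Nat.pow_le_pow_right (by norm_num) (by omega)
    have hQdeg : Q.natDegree ≤ 2 ^ d := by
      rw [hQ]
      refine (natDegree_prod_le _ _).trans ?_
      refine (Finset.sum_le_card_nsmul _ _ 1 fun n _ => ?_).trans ?_
      · refine (natDegree_add_le _ _).trans (max_le (by simp) ?_)
        exact (natDegree_C_mul_le _ _).trans natDegree_X_le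
      · rw [card_mon]; simp
    refine eq_of_degree_sub_lt_of_eval_finset_eq (insert (0 : K) ((mon d).image ψ)) ?_ ?_
    · rw [hcard]
      refine lt_of_le_of_lt (degree_le_natDegree) ?_
      have h1 : (P - Q).natDegree ≤ 2 ^ d := (natDegree_sub_le _ _).trans (max_le hPdeg hQdeg)
      exact_mod_cast Nat.lt_succ_of_le h1
    · intro z hz
      rcases Finset.mem_insert.1 hz with rfl | hz
      · rw [hPeval, hQ, eval_prod]
        have h1 : Ez D d 0 = 0 := by
          unfold Ez
          refine Finset.sum_eq_zero fun i _ => ?_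
          rw [zero_pow (by positivity), mul_zero]
        rw [h1, mul_zero, add_zero]
        symm
        refine Finset.prod_eq_one fun n _ => ?_
        simp
      · obtain ⟨n, hn, rfl⟩ := Finset.mem_image.1 hz
        obtain ⟨h1, h2⟩ := mem_mon.1 hn
        rw [hPeval, Ez_mon D hb hψ h1 h2, mul_inv_cancel₀ hx, CharTwo.add_self_eq_zero, hQ,
          eval_prod]
        symm
        refine Finset.prod_eq_zero hn ?_
        rw [eval_add, eval_one, eval_mul, eval_C, eval_X, inv_mul_cancel₀ (hn0 n hn),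
          CharTwo.add_self_eq_zero]
  have hder : derivative P = C (xx D d) := by
    rw [hP, derivative_add, derivative_one, zero_add, derivative_sum]
    rw [Finset.sum_eq_single 0]
    · rw [hc]
      simp only
      rw [ee_zero', mul_one, pow_zero, pow_one, derivative_C_mul_X]
    · intro i _ hi
      rw [derivative_C_mul_X_pow]
      have h2 : ((2 ^ i : ℕ) : K) = 0 := by
        obtain ⟨j, rfl⟩ := Nat.exists_eq_succ_of_ne_zero hi
        rw [Nat.cast_pow, Nat.cast_ofNat, pow_succ, CharTwo.two_eq_zero, mul_zero]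
      rw [h2, mul_zero, C_0, zero_mul]
    · intro h
      exact absurd (Finset.mem_range.2 (Nat.succ_pos d)) h
  have hderQ : derivative Q = ∑ n ∈ mon d, (∏ m ∈ (mon d).erase n, (1 + C ((ψ m)⁻¹) * X)) *
      C ((ψ n)⁻¹) := by
    rw [hQ, derivative_prod_finset]
    refine Finset.sum_congr rfl fun n _ => ?_
    congr 1
    rw [derivative_add, derivative_one, zero_add, derivative_C_mul_X]
  set G : PowerSeries K := PowerSeries.mk fun n => gg c n with hG
  have hPG : (P : PowerSeries K) * G = 1 := by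
    rw [hP, ps_aux_coeff c d hcgt]
    exact gg_inv c
  set F : PowerSeries K := ∑ n ∈ mon d, PowerSeries.C ((ψ n)⁻¹) *
    PowerSeries.mk (fun j => ((ψ n)⁻¹) ^ j) with hF
  have hPF : (P : PowerSeries K) * F = PowerSeries.C (xx D d) := by
    have h1 : ((derivative Q : K[X]) : PowerSeries K) = PowerSeries.C (xx D d) := by
      rw [← hPQ, hder, Polynomial.coe_C]
    rw [← h1, hderQ, hF, Finset.mul_sum]
    have h2 : ((∑ n ∈ mon d, (∏ m ∈ (mon d).erase n, (1 + C ((ψ m)⁻¹) * X)) *
        C ((ψ n)⁻¹) : K[X]) : PowerSeries K) = ∑ n ∈ mon d,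
        (((∏ m ∈ (mon d).erase n, (1 + C ((ψ m)⁻¹) * X)) * C ((ψ n)⁻¹) : K[X]) : PowerSeries K) :=
      map_sum (Polynomial.coeToPowerSeries.ringHom (R := K)) _ _
    rw [h2]
    refine Finset.sum_congr rfl fun n hn => ?_
    have h3 : P = (1 + C ((ψ n)⁻¹) * X) * ∏ m ∈ (mon d).erase n, (1 + C ((ψ m)⁻¹) * X) := by
      rw [hPQ, hQ]
      exact (Finset.mul_prod_erase (mon d) (fun n => 1 + C ((ψ n)⁻¹) * X) hn).symm
    rw [Polynomial.coe_mul, Polynomial.coe_C]
    conv_lhs => rw [h3, Polynomial.coe_mul]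
    have h4 := geom_inv ((ψ n)⁻¹)
    calc _ = ((∏ m ∈ (mon d).erase n, (1 + C ((ψ m)⁻¹) * X) : K[X]) : PowerSeries K) *
          PowerSeries.C ((ψ n)⁻¹) * (((1 + C ((ψ n)⁻¹) * X : K[X]) : PowerSeries K) *
          PowerSeries.mk (fun j => ((ψ n)⁻¹) ^ j)) := by ring
      _ = _ := by rw [h4, mul_one]
  have hFG : F = PowerSeries.C (xx D d) * G := by
    calc F = (P : PowerSeries K) * G * F := by rw [hPG, one_mul]
      _ = ((P : PowerSeries K) * F) * G := by ring
      _ = _ := by rw [hPF]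
  have h5 := congrArg (PowerSeries.coeff (k - 1)) hFG
  rw [PowerSeries.coeff_C_mul, hG, PowerSeries.coeff_mk, hF, map_sum] at h5
  unfold ps
  rw [← h5]
  refine Finset.sum_congr rfl fun n _ => ?_
  rw [PowerSeries.coeff_C_mul, PowerSeries.coeff_mk, ← pow_succ']
  congr 1
  omega

end Pool.Agent.ZL
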