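import Pool.Agent.Work.MP_b19acb_nt.XU

/-!
# EpsT (M): e_{d,i} = X_d^(2^i-1) ε_i(u_d)

Write `ε_i` for `(eps D i).eval u`, `[i]` for `br D i`, `[i+1] = [i]^2 + D` (`br_succ`).

`eps_T`: for `1 + u ≠ 0`, `σ = D⁻¹ u^2/(1+u)^2`:
`(1+u)^(2^(i+1)-1) ε_{i+1}(σ) = ε_{i+1}(u) + u ε_i(u)^2`.
First the right side: `ε_{i+1}(u) + u ε_i(u)^2 = ε_i(u)^2 (D/[i+1] + ([i]^2/[i+1]) u + u)
 = ε_i(u)^2 D (1+u)/[i+1]` (since `[i]^2 + [i+1] = D` in characteristic 2).
So we show by induction on `i`: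
(*) `(1+u)^(2^(i+1)-1) ε_{i+1}(σ) = ε_i(u)^2 D (1+u)/[i+1]`.
`i = 0`: `ε_1 = D/[1] = 1` (`[0] = 0`, `[1] = D`), both sides `1 + u`.
Step: `ε_{i+2}(σ) = ((D + [i+1]^2 σ)/[i+2]) ε_{i+1}(σ)^2` and
`(1+u)^(2^(i+2)-1) = (1+u) ((1+u)^(2^(i+1)-1))^2`, so by (*)
left side `= (1+u) ((D + [i+1]^2 σ)/[i+2]) ε_i(u)^4 D^2 (1+u)^2/[i+1]^2`; right side
`= ((D + [i]^2 u)/[i+1])^2 ε_i(u)^4 D (1+u)/[i+2]`.  They agree because
`(D + [i+1]^2 σ) D (1+u)^2 = D^2 (1+u)^2 + [i+1]^2 u^2 = D^2 + (D^2 + [i+1]^2) u^2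
 = D^2 + [i]^4 u^2 = (D + [i]^2 u)^2`.

`ee_eq`: induction on `d ≥ 1`.  `d = 1`: `XX D 1 = 1`, `uu D 1 = D⁻¹`, `ee D 1 0 = 1 = ε_0`,
`ee D 1 1 = 0 + 1*1 = 1 = ε_1`, `ee D 1 (i+2) = 0` and `ε_2(D⁻¹) = (D + D^2 D⁻¹)/[2] = 0`, and
`ε_{i+1} = (..) ε_i^2` gives `ε_{i+2}(D⁻¹) = 0` for all `i`.
Step: `ee D (d+1) (i+1) = ee D d (i+1) + x_d (ee D d i)^2
 = X^(2^(i+1)-1) (ε_{i+1}(u) + u ε_i(u)^2)` with `X = X_d`, `u = u_d`, `x_d = u X`, and
`X_{d+1} = X (1+u)`, `u_{d+1} = σ(u)` (`XX_succ_eq`, `uu_succ`); use `eps_T`.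
-/

namespace Pool.Agent.ZL

open Polynomial Finset

variable {K : Type*} [Field K] [CharP K 2] (D : K) (hb : ∀ i, br D (i + 1) ≠ 0)

private theorem epst_zero (u : K) : (eps D 0).eval u = 1 := by
  show (1 : K[X]).eval u = 1
  rw [eval_one]

private theorem epst_succ (i : ℕ) (u : K) : (eps D (i + 1)).eval u =
    (D / br D (i + 1) + (br D i) ^ 2 / br D (i + 1) * u) * ((eps D i).eval u) ^ 2 := by
  show ((C (D / br D (i + 1)) + C ((br D i) ^ 2 / br D (i + 1)) * X) * (eps D i) ^ 2).eval u = _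
  rw [eval_mul, eval_add, eval_mul, eval_C, eval_C, eval_X, eval_pow]

include hb

private theorem epst_star (i : ℕ) (u : K) (hu : 1 + u ≠ 0) :
    (1 + u) ^ (2 ^ (i + 1) - 1) * (eps D (i + 1)).eval (D⁻¹ * u ^ 2 / (1 + u) ^ 2) =
      ((eps D i).eval u) ^ 2 * D * (1 + u) / br D (i + 1) := by
  have hD := D_ne_zero D hb
  have h2 : (2 : K) = 0 := CharTwo.two_eq_zero
  induction i with
  | zero =>
    rw [epst_succ, epst_zero, epst_zero, br_zero, zero_add, br_one]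
    norm_num
    field_simp
  | succ i ih =>
    set s : K := D⁻¹ * u ^ 2 / (1 + u) ^ 2 with hs
    have hsD : D * (1 + u) ^ 2 * s = u ^ 2 := by
      rw [hs]
      field_simp
    have hexp : (1 + u) ^ (2 ^ (i + 1 + 1) - 1) = (1 + u) * ((1 + u) ^ (2 ^ (i + 1) - 1)) ^ 2 := by
      have h3 : 2 ^ (i + 1 + 1) - 1 = 1 + (2 ^ (i + 1) - 1) * 2 := by
        have h4 : 1 ≤ 2 ^ (i + 1) := Nat.one_le_two_pow
        rw [pow_succ]
        omega
      rw [h3, pow_add, pow_one, pow_mul]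
    have hb1 := hb i
    have hb2 := hb (i + 1)
    have hbr : br D (i + 1) = (br D i) ^ 2 + D := br_succ D i
    rw [hexp, epst_succ D (i + 1) s]
    have e1 : (1 + u) * ((1 + u) ^ (2 ^ (i + 1) - 1)) ^ 2 *
        ((D / br D (i + 1 + 1) + (br D (i + 1)) ^ 2 / br D (i + 1 + 1) * s) *
          ((eps D (i + 1)).eval s) ^ 2) =
        (1 + u) * (D / br D (i + 1 + 1) + (br D (i + 1)) ^ 2 / br D (i + 1 + 1) * s) *
          ((1 + u) ^ (2 ^ (i + 1) - 1) * (eps D (i + 1)).eval s) ^ 2 := by ring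
    rw [e1, ih, epst_succ D i u]
    set A := (eps D i).eval u with hA
    set b := br D (i + 1) with hbdef
    set b' := br D (i + 1 + 1) with hb'def
    -- key identity
    have key : (D + b ^ 2 * s) * (D * (1 + u) ^ 2) = (D + (br D i) ^ 2 * u) ^ 2 := by
      have e2 : (D + b ^ 2 * s) * (D * (1 + u) ^ 2) = D ^ 2 * (1 + u) ^ 2 + b ^ 2 * u ^ 2 := by
        rw [← hsD]
        ring
      rw [e2, hbr]
      linear_combination (D ^ 2 * u + D ^ 2 * u ^ 2 + (br D i) ^ 2 * D * u ^ 2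
        - D * (br D i) ^ 2 * u) * h2
    have e3 : (1 + u) * (D / b' + b ^ 2 / b' * s) * (A ^ 2 * D * (1 + u) / b) ^ 2 =
        ((D + b ^ 2 * s) * (D * (1 + u) ^ 2)) * (A ^ 4 * D * (1 + u)) / (b' * b ^ 2) := by
      field_simp
    rw [e3, key]
    field_simp

theorem eps_T (i : ℕ) (u : K) (hu : 1 + u ≠ 0) :
    (1 + u) ^ (2 ^ (i + 1) - 1) * (eps D (i + 1)).eval (D⁻¹ * u ^ 2 / (1 + u) ^ 2) =
      (eps D (i + 1)).eval u + u * ((eps D i).eval u) ^ 2 := by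
  have h2 : (2 : K) = 0 := CharTwo.two_eq_zero
  have hb1 := hb i
  have hbr : br D (i + 1) = (br D i) ^ 2 + D := br_succ D i
  rw [epst_star D hb i u hu, epst_succ D i u]
  field_simp
  rw [hbr]
  linear_combination (-(eval u (eps D i)) ^ 2 * (br D i) ^ 2 * u) * h2

theorem ee_eq {d : ℕ} (hd : 1 ≤ d) (i : ℕ) :
    ee D d i = (XX D d) ^ (2 ^ i - 1) * (eps D i).eval (uu D d) := by
  have h2 : (2 : K) = 0 := CharTwo.two_eq_zero
  have hD := D_ne_zero D hb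
  have hee0 : ∀ d, ee D d 0 = 1 := by
    intro d
    cases d <;> rfl
  obtain ⟨e, rfl⟩ : ∃ e, d = e + 1 := ⟨d - 1, by omega⟩
  clear hd
  induction e generalizing i with
  | zero =>
    have hX : XX D (0 + 1) = 1 := by rw [XX_succ, XX_zero, xx_zero, zero_add]
    have hu : uu D (0 + 1) = D⁻¹ := by
      rw [zero_add]
      exact uu_one D hb
    rw [hX, hu, one_pow, one_mul]
    rcases i with _ | i
    · rw [hee0, epst_zero]
    · rcases i with _ | i
      · have e1 : ee D (0 + 1) (0 + 1) = ee D 0 (0 + 1) + xx D 0 * (ee D 0 0) ^ 2 := rfl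
        have e2 : ee D 0 (0 + 1) = 0 := rfl
        have e3 : ee D 0 0 = 1 := rfl
        rw [e1, e2, e3, xx_zero, epst_succ, epst_zero, br_zero, zero_add, br_one]
        norm_num
        rw [div_self hD]
      · have e1 : ee D (0 + 1) (i + 1 + 1) = ee D 0 (i + 1 + 1) + xx D 0 * (ee D 0 (i + 1)) ^ 2 :=
          rfl
        have e2 : ee D 0 (i + 1 + 1) = 0 := rfl
        have e3 : ee D 0 (i + 1) = 0 := rfl
        rw [e1, e2, e3]
        have e4 : ∀ j : ℕ, (eps D (j + 2)).eval D⁻¹ = 0 := by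
          intro j
          induction j with
          | zero =>
            have e5 : (eps D (0 + 2)).eval D⁻¹ = (D / br D (1 + 1) + (br D 1) ^ 2 / br D (1 + 1) *
              D⁻¹) * ((eps D 1).eval D⁻¹) ^ 2 := epst_succ D 1 D⁻¹
            have e6 : D / br D (1 + 1) + (br D 1) ^ 2 / br D (1 + 1) * D⁻¹ = 0 := by
              have hb2 := hb 1
              rw [br_one]
              field_simp
              linear_combination D * h2
            rw [e5, e6, zero_mul]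
          | succ j ih =>
            have e5 : (eps D (j + 1 + 2)).eval D⁻¹ = (D / br D (j + 2 + 1) + (br D (j + 2)) ^ 2 /
              br D (j + 2 + 1) * D⁻¹) * ((eps D (j + 2)).eval D⁻¹) ^ 2 := epst_succ D (j + 2) D⁻¹
            rw [e5, ih, zero_pow two_ne_zero, mul_zero]
        have e7 := e4 i
        have e8 : i + 2 = i + 1 + 1 := rfl
        rw [e8] at e7
        rw [e7, zero_pow two_ne_zero, mul_zero, add_zero]
  | succ e ih =>
    have hd : 1 ≤ e + 1 := Nat.succ_le_succ (Nat.zero_le e)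
    have hu := one_add_uu_ne D hb hd
    have hX := XX_ne_zero D hb hd
    rcases i with _ | i
    · rw [hee0, epst_zero]
      norm_num
    · have e1 : ee D (e + 1 + 1) (i + 1) = ee D (e + 1) (i + 1) +
        xx D (e + 1) * (ee D (e + 1) i) ^ 2 := rfl
      have e2 : xx D (e + 1) = uu D (e + 1) * XX D (e + 1) := by
        unfold uu
        rw [div_mul_cancel₀ _ hX]
      have e3 : XX D (e + 1) ^ (2 ^ (i + 1) - 1) =
          XX D (e + 1) * (XX D (e + 1) ^ (2 ^ i - 1)) ^ 2 := by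
        have h3 : 2 ^ (i + 1) - 1 = 1 + (2 ^ i - 1) * 2 := by
          have h4 : 1 ≤ 2 ^ i := Nat.one_le_two_pow
          rw [pow_succ]
          omega
        rw [h3, pow_add, pow_one, pow_mul]
      rw [e1, ih (i + 1), ih i, XX_succ_eq D hb hd, uu_succ D hb hd,
        mul_pow (XX D (e + 1)) (1 + uu D (e + 1)), mul_assoc (XX D (e + 1) ^ (2 ^ (i + 1) - 1)),
        eps_T D hb i (uu D (e + 1)) hu, e2, e3]
      ring

end Pool.Agent.ZL
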