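import Pool.Agent.Work.MP_b19acb_nt.SumS
import Pool.Agent.Work.MP_b19acb_nt.EpsT

/-!
# AB (S-M): S_d(k) = X_d^k A_k(u_d), S_{<d}(k) = X_d^k B_k(u_d)

`ps D d k = x_d * gg (fun i => x_d * ee D d i) (k-1)` and
`x_d * ee D d i = X_d^(2^i) * (u_d * ε_i(u_d))` (`ee_eq`, `x_d = u_d X_d`, `2^i = (2^i-1)+1`), so by
`gg_scale` and `gg_map` (with the evaluation ring hom `Polynomial.evalRingHom u_d`)
`ps D d k = u_d X_d * X_d^(k-1) * gg (fun i => u_d ε_i(u_d)) (k-1) = X_d^k * (AA D k).eval u_d`.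
`SSk_eq`: `SS_single`, `ee_eq`, `hh_scale`, `hh_map` (`eps D 0 = 1`).
-/

namespace Pool.Agent.ZL

open Polynomial Finset

variable {K : Type*} [Field K] [CharP K 2] (D : K) (hb : ∀ i, br D (i + 1) ≠ 0)

include hb

theorem ps_eq {d k : ℕ} (hd : 1 ≤ d) (hk : 1 ≤ k) :
    ps D d k = (XX D d) ^ k * (AA D k).eval (uu D d) := by
  obtain ⟨n, rfl⟩ : ∃ n, k = n + 1 := ⟨k - 1, by omega⟩
  have hX := XX_ne_zero D hb hd
  have hx : xx D d = uu D d * XX D d := by
    unfold uu
    rw [div_mul_cancel₀ _ hX]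
  unfold ps AA
  rw [Nat.add_sub_cancel, eval_mul, eval_X]
  have e1 : (gg (fun i => X * eps D i) n : K[X]).eval (uu D d) =
      gg (fun i => uu D d * (eps D i).eval (uu D d)) n := by
    have h := gg_map (Polynomial.evalRingHom (uu D d)) (fun i => X * eps D i) n
    rw [Polynomial.coe_evalRingHom] at h
    rw [h]
    congr 1
    funext i
    rw [eval_mul, eval_X]
  have e2 : (fun i => xx D d * ee D d i) =
      fun i => (XX D d) ^ 2 ^ i * (uu D d * (eps D i).eval (uu D d)) := by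
    funext i
    have h4 : 2 ^ i = (2 ^ i - 1) + 1 := by
      have : 1 ≤ 2 ^ i := Nat.one_le_two_pow
      omega
    rw [ee_eq D hb hd i, hx]
    conv_rhs => rw [h4, pow_succ]
    ring
  rw [e1, e2, gg_scale, hx]
  ring

theorem SSk_eq {d k : ℕ} (hd : 1 ≤ d) (hk : 1 ≤ k) :
    SS D [k] d = (XX D d) ^ k * (BB D k).eval (uu D d) := by
  rw [SS_single D d k hk]
  have e1 : (BB D k).eval (uu D d) = hh (fun i => (eps D i).eval (uu D d)) k := by
    have h := hh_map (Polynomial.evalRingHom (uu D d)) (eps D) rfl k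
    rw [Polynomial.coe_evalRingHom] at h
    exact h
  have e2 : ee D d = fun i => (XX D d) ^ (2 ^ i - 1) * (eps D i).eval (uu D d) := by
    funext i
    exact ee_eq D hb hd i
  rw [e1, e2, hh_scale (fun i => (eps D i).eval (uu D d)) (by
    show (1 : K[X]).eval (uu D d) = 1
    rw [eval_one])]

end Pool.Agent.ZL
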