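import Pool.Agent.Work.MP_b19acb_nt.BBJ

/-!
# BBcoef (M-L): a large coefficient of B_b, b = 2^k + c, c odd, c + 1 ≤ 2^(k-1)

`q = ‖D‖⁻¹`, `δ = D⁻¹`, `n = (c+1)/2` (so `2n = c+1`), `b = 2^(k+1) + c` here (`k` shifted by one),
`c + 1 ≤ 2^k`, `κ(b) = (b+1)/2 = 2^k + n`, `E(b) = 2^k` (as `n ≤ 2^(k-1)`.. `< 2^k`), `κ - E = n`.

Let `i = 2^k` or `i = 2^k - 1 ≥ c+1`.  In `BB_TT_coeff`:
* terms `j < n` (so `2j ≤ c-1`): `(X^(2j) (1+X)^(b-2j)).coeff i = ((1+X)^(2^(k+1)+(c-2j))).coeff (i-2j)`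
  and `(1+X)^(2^(k+1)+r) = (1+X^(2^(k+1))) (1+X)^r`; since `r = c-2j < i-2j < 2^(k+1)` this coefficient is 0
  (`natDegree ((1+X)^r) ≤ r`).
* term `j = n`: `b - 2n = 2^(k+1) - 1`, `(1+X)^(2^(k+1)-1)` has all coefficients equal to 1 in degrees
  `0..2^(k+1)-1` (char 2: `(1+X) Σ X^s = 1 + X^(2^(k+1)) = (1+X)^(2^(k+1))`), and `0 ≤ i-2n < 2^(k+1)`: the term
  is `δ^n (BB b).coeff n`.
* terms `j > n` have norm `≤ q^(n+1)`.
So `‖(BB b).coeff i - ((AA b).coeff i + δ^n (BB b).coeff n)‖ ≤ q^(n+1)`.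

In the same way (index `n` instead of `i`): `‖(AA b).coeff n‖ ≤ q^(κ-n) ≤ q`, terms `j ≥ 1` have
norm `≤ q`, the term `j = 0` is `(BB b).coeff 0 * ((1+X)^(2^(k+1)+c)).coeff n =
(BB b).coeff 0 * (C(c,n) : K)`.  So `‖(BB b).coeff n - (C(c,n) : K)‖ ≤ q` (`BB_norm_zero_sub`;
`(C(c,n) : K)` is 0 or 1).

`i = 2^k = E(b)`: `‖(AA b).coeff i - δ^n‖ ≤ q^(n+1)` (`leadA`: coefficient `E`, `κ+1-E = n+1`).  So
`(BB b).coeff i ≡ δ^n (1 + C(c,n))` modulo norm `≤ q^(n+1)`; if `C(c,n)` is even the norm is `q^n`.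
`i = 2^k - 1`: `‖(AA b).coeff i‖ ≤ q^(κ-i) = q^(n+1)` (`leadA_J`), so `(BB b).coeff i ≡ δ^n C(c,n)`;
if `C(c,n)` is odd the norm is `q^n`.
-/

namespace Pool.Agent.ZL

open Polynomial Finset

variable {K : Type*} [NormedField K] [IsUltrametricDist K] [CharP K 2] (D : K)

private theorem one_add_pow_two_pow (N : ℕ) : (1 + X : K[X]) ^ 2 ^ N = 1 + X ^ 2 ^ N := by
  have : Fact (Nat.Prime 2) := ⟨Nat.prime_two⟩
  rw [add_pow_char_pow, one_pow]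

private theorem coeff_split {N r m : ℕ} (hm : m < 2 ^ N) :
    ((1 + X : K[X]) ^ (2 ^ N + r)).coeff m = ((1 + X : K[X]) ^ r).coeff m := by
  rw [pow_add, one_add_pow_two_pow, add_mul, one_mul, coeff_add, coeff_X_pow_mul',
    if_neg (by omega), add_zero]

private theorem coeff_all_one (N : ℕ) : ∀ m, m < 2 ^ N →
    ((1 + X : K[X]) ^ (2 ^ N - 1)).coeff m = 1 := by
  intro m
  induction m with
  | zero =>
    intro _
    rw [coeff_one_add_X_pow, Nat.choose_zero_right, Nat.cast_one]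
  | succ m ih =>
    intro hm
    have h1 := ih (by omega)
    have h2 : (1 + X : K[X]) ^ (2 ^ N - 1) * (1 + X) = 1 + X ^ 2 ^ N := by
      rw [← pow_succ, Nat.sub_add_cancel Nat.one_le_two_pow, one_add_pow_two_pow]
    have h3 := congrArg (fun f : K[X] => f.coeff (m + 1)) h2
    simp only [mul_add, mul_one, coeff_add, coeff_mul_X, coeff_one, coeff_X_pow] at h3
    rw [if_neg (by omega), if_neg (by omega), add_zero, h1, CharTwo.add_eq_zero] at h3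
    exact h3

variable (hD : 1 < ‖D‖)

include hD

private theorem qpos' : 0 < ‖D‖⁻¹ := inv_pos.2 (lt_trans zero_lt_one hD)

private theorem qlt' : ‖D‖⁻¹ < 1 := inv_lt_one_of_one_lt₀ hD

private theorem term_norm (b w j i m : ℕ) (hm : m ≤ j) :
    ‖D⁻¹ ^ j * (BB D b).coeff j * (X ^ (2 * j) * (1 + X) ^ w : K[X]).coeff i‖ ≤
      ‖D‖⁻¹ ^ m := by
  have h1 : ‖(X ^ (2 * j) * (1 + X) ^ w : K[X]).coeff i‖ ≤ 1 := by
    rw [coeff_X_pow_mul']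
    split_ifs
    · rw [coeff_one_add_X_pow]
      exact IsUltrametricDist.norm_natCast_le_one K _
    · rw [norm_zero]
      exact zero_le_one
  have h2 : ‖D⁻¹ ^ j * (BB D b).coeff j‖ ≤ ‖D‖⁻¹ ^ m := by
    rw [norm_mul, norm_pow, norm_inv]
    calc ‖D‖⁻¹ ^ j * ‖(BB D b).coeff j‖ ≤ ‖D‖⁻¹ ^ j * 1 :=
          mul_le_mul_of_nonneg_left (BB_norm_le D hD b j) (pow_nonneg (qpos' D hD).le _)
      _ ≤ ‖D‖⁻¹ ^ m := by
          rw [mul_one]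
          exact pow_le_pow_of_le_one (qpos' D hD).le (qlt' D hD).le hm
  rw [norm_mul]
  calc ‖D⁻¹ ^ j * (BB D b).coeff j‖ * ‖(X ^ (2 * j) * (1 + X) ^ w : K[X]).coeff i‖ ≤
      ‖D‖⁻¹ ^ m * 1 := mul_le_mul h2 h1 (norm_nonneg _) (pow_nonneg (qpos' D hD).le _)
    _ = ‖D‖⁻¹ ^ m := mul_one _

private theorem main_i {k c n i : ℕ} (hn : 2 * n = c + 1) (hi : c + 1 ≤ i) (hi2 : i < 2 ^ (k + 1)) :
    ‖(BB D (2 ^ (k + 1) + c)).coeff i - ((AA D (2 ^ (k + 1) + c)).coeff i +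
      D⁻¹ ^ n * (BB D (2 ^ (k + 1) + c)).coeff n)‖ ≤ ‖D‖⁻¹ ^ (n + 1) := by
  have hp : 1 ≤ 2 ^ (k + 1) := Nat.one_le_two_pow
  have h := BB_TT_coeff D hD (b := 2 ^ (k + 1) + c) (by omega) i
  have hmem : n ∈ range ((2 ^ (k + 1) + c) / 2 + 1) := by
    rw [Finset.mem_range]
    omega
  have e : (BB D (2 ^ (k + 1) + c)).coeff i - ((AA D (2 ^ (k + 1) + c)).coeff i +
      D⁻¹ ^ n * (BB D (2 ^ (k + 1) + c)).coeff n) =
      ∑ j ∈ range ((2 ^ (k + 1) + c) / 2 + 1),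
        (D⁻¹ ^ j * (BB D (2 ^ (k + 1) + c)).coeff j *
          (X ^ (2 * j) * (1 + X) ^ (2 ^ (k + 1) + c - 2 * j) : K[X]).coeff i -
          if j = n then D⁻¹ ^ n * (BB D (2 ^ (k + 1) + c)).coeff n else 0) := by
    rw [Finset.sum_sub_distrib, Finset.sum_ite_eq' (range ((2 ^ (k + 1) + c) / 2 + 1)) n, if_pos hmem]
    rw [h]
    ring
  rw [e]
  refine IsUltrametricDist.norm_sum_le_of_forall_le_of_nonneg
    (pow_nonneg (qpos' D hD).le _) fun j hj => ?_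
  rcases lt_trichotomy j n with hjn | hjn | hjn
  · rw [if_neg hjn.ne, sub_zero, coeff_X_pow_mul', if_pos (by omega)]
    have e1 : 2 ^ (k + 1) + c - 2 * j = 2 ^ (k + 1) + (c - 2 * j) := by omega
    rw [e1, coeff_split (by omega), coeff_one_add_X_pow,
      Nat.choose_eq_zero_of_lt (by omega), Nat.cast_zero, mul_zero, norm_zero]
    exact pow_nonneg (qpos' D hD).le _
  · subst hjn
    rw [if_pos rfl, coeff_X_pow_mul', if_pos (by omega)]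
    have e1 : 2 ^ (k + 1) + c - 2 * j = 2 ^ (k + 1) - 1 := by omega
    rw [e1, coeff_all_one (k + 1) _ (by omega), mul_one, sub_self, norm_zero]
    exact pow_nonneg (qpos' D hD).le _
  · rw [if_neg hjn.ne', sub_zero]
    exact term_norm D hD _ _ _ _ _ hjn

private theorem kap_b {k c n : ℕ} (hn : 2 * n = c + 1) : kap (2 ^ (k + 1) + c) = 2 ^ k + n := by
  have e : 2 ^ (k + 1) + c = 2 * (2 ^ k + n - 1) + 1 := by
    rw [pow_succ]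
    omega
  rw [e, kap_odd]
  omega

private theorem main_n {k c n : ℕ} (hn : 2 * n = c + 1) (hc : c + 1 ≤ 2 ^ k) :
    ‖(BB D (2 ^ (k + 1) + c)).coeff n - (c.choose n : K)‖ ≤ ‖D‖⁻¹ := by
  have hp : 1 ≤ 2 ^ (k + 1) := Nat.one_le_two_pow
  have hp' : 1 ≤ 2 ^ k := Nat.one_le_two_pow
  have hp2 : 2 ^ (k + 1) = 2 ^ k * 2 := pow_succ 2 k
  have h := BB_TT_coeff D hD (b := 2 ^ (k + 1) + c) (by omega) n
  rw [Finset.sum_range_succ'] at h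
  have e0 : (X ^ (2 * 0) * (1 + X) ^ (2 ^ (k + 1) + c - 2 * 0) : K[X]).coeff n =
      (c.choose n : K) := by
    rw [mul_zero, pow_zero, one_mul, Nat.sub_zero, coeff_split (by omega), coeff_one_add_X_pow]
  rw [e0, pow_zero, one_mul] at h
  have hA : ‖(AA D (2 ^ (k + 1) + c)).coeff n‖ ≤ ‖D‖⁻¹ := by
    have h1 := leadA_J D hD (a := 2 ^ (k + 1) + c) (by omega) n
    rw [kap_b D hD hn, Nat.add_sub_cancel] at h1
    refine h1.trans ?_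
    calc ‖D‖⁻¹ ^ 2 ^ k ≤ ‖D‖⁻¹ ^ 1 := pow_le_pow_of_le_one (qpos' D hD).le (qlt' D hD).le hp'
      _ = ‖D‖⁻¹ := pow_one _
  have hS : ‖∑ j ∈ range ((2 ^ (k + 1) + c) / 2), D⁻¹ ^ (j + 1) *
      (BB D (2 ^ (k + 1) + c)).coeff (j + 1) * (X ^ (2 * (j + 1)) *
        (1 + X) ^ (2 ^ (k + 1) + c - 2 * (j + 1)) : K[X]).coeff n‖ ≤ ‖D‖⁻¹ := by
    refine IsUltrametricDist.norm_sum_le_of_forall_le_of_nonneg (qpos' D hD).le fun j _ => ?_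
    have h1 := term_norm D hD (2 ^ (k + 1) + c) (2 ^ (k + 1) + c - 2 * (j + 1)) (j + 1) n 1
      (by omega)
    rwa [pow_one] at h1
  have hZ : ‖((BB D (2 ^ (k + 1) + c)).coeff 0 - 1) * (c.choose n : K)‖ ≤ ‖D‖⁻¹ := by
    rw [norm_mul]
    calc ‖(BB D (2 ^ (k + 1) + c)).coeff 0 - 1‖ * ‖(c.choose n : K)‖ ≤ ‖D‖⁻¹ * 1 :=
          mul_le_mul (BB_norm_zero_sub D hD _) (IsUltrametricDist.norm_natCast_le_one K _)
            (norm_nonneg _) (qpos' D hD).le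
      _ = ‖D‖⁻¹ := mul_one _
  have e : (BB D (2 ^ (k + 1) + c)).coeff n - (c.choose n : K) =
      (AA D (2 ^ (k + 1) + c)).coeff n + (∑ j ∈ range ((2 ^ (k + 1) + c) / 2), D⁻¹ ^ (j + 1) *
      (BB D (2 ^ (k + 1) + c)).coeff (j + 1) * (X ^ (2 * (j + 1)) *
        (1 + X) ^ (2 ^ (k + 1) + c - 2 * (j + 1)) : K[X]).coeff n +
      ((BB D (2 ^ (k + 1) + c)).coeff 0 - 1) * (c.choose n : K)) := by
    nth_rewrite 1 [h]
    ring
  rw [e]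
  refine (IsUltrametricDist.norm_add_le_max _ _).trans (max_le hA ?_)
  exact (IsUltrametricDist.norm_add_le_max _ _).trans (max_le hS hZ)

private theorem norm_of_close {x : K} {n : ℕ} (h : ‖x - D⁻¹ ^ n‖ ≤ ‖D‖⁻¹ ^ (n + 1)) :
    ‖x‖ = ‖D‖⁻¹ ^ n := by
  have h3 : ‖D⁻¹ ^ n‖ = ‖D‖⁻¹ ^ n := by
    rw [norm_pow, norm_inv]
  have h4 : ‖D‖⁻¹ ^ (n + 1) < ‖D‖⁻¹ ^ n :=
    pow_lt_pow_right_of_lt_one₀ (qpos' D hD) (qlt' D hD) (Nat.lt_succ_self n)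
  have e : x = (x - D⁻¹ ^ n) + D⁻¹ ^ n := by ring
  have h5 : ‖x - D⁻¹ ^ n‖ < ‖D⁻¹ ^ n‖ := by
    rw [h3]
    exact lt_of_le_of_lt h h4
  rw [e, IsUltrametricDist.norm_add_eq_max_of_norm_ne_norm h5.ne, max_eq_right h5.le, h3]

private theorem n_term {k c n : ℕ} (hn : 2 * n = c + 1) (hc : c + 1 ≤ 2 ^ k) :
    ‖D⁻¹ ^ n * (BB D (2 ^ (k + 1) + c)).coeff n - D⁻¹ ^ n * (c.choose n : K)‖ ≤
      ‖D‖⁻¹ ^ (n + 1) := by
  rw [← mul_sub, norm_mul, norm_pow, norm_inv, pow_succ]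
  exact mul_le_mul_of_nonneg_left (main_n D hD hn hc) (pow_nonneg (qpos' D hD).le _)

theorem BB_coeff_even {k c n : ℕ} (hn : 2 * n = c + 1) (hc : c + 1 ≤ 2 ^ k)
    (he : Even (c.choose n)) :
    ‖(BB D (2 ^ (k + 1) + c)).coeff (2 ^ k)‖ = ‖D‖⁻¹ ^ n := by
  have hp : 1 ≤ 2 ^ k := Nat.one_le_two_pow
  have hp2 : 2 ^ (k + 1) = 2 ^ k * 2 := pow_succ 2 k
  have h1 := main_i D hD hn hc (by omega : 2 ^ k < 2 ^ (k + 1))
  have h2 := n_term D hD hn hc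
  have h0 : (c.choose n : K) = 0 := by
    obtain ⟨m, hm⟩ := he
    rw [hm, Nat.cast_add, CharTwo.add_self_eq_zero]
  rw [h0, mul_zero, sub_zero] at h2
  have hE : EE (2 ^ (k + 1) + c) = 2 ^ k := by
    unfold EE
    rw [kap_b D hD hn]
    congr 1
    refine Nat.log_eq_of_pow_le_of_lt_pow (by omega) ?_
    rw [pow_succ]
    omega
  have h3 := leadA D hD (a := 2 ^ (k + 1) + c) (by omega) (2 ^ k)
  rw [hE, kap_b D hD hn, coeff_sub, coeff_C_mul, coeff_X_pow, if_pos rfl, mul_one,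
    show 2 ^ k + n + 1 - 2 ^ k = n + 1 by omega, show 2 ^ k + n - 2 ^ k = n by omega] at h3
  refine norm_of_close D hD ?_
  have e : (BB D (2 ^ (k + 1) + c)).coeff (2 ^ k) - D⁻¹ ^ n =
      ((BB D (2 ^ (k + 1) + c)).coeff (2 ^ k) - ((AA D (2 ^ (k + 1) + c)).coeff (2 ^ k) +
      D⁻¹ ^ n * (BB D (2 ^ (k + 1) + c)).coeff n)) +
      (((AA D (2 ^ (k + 1) + c)).coeff (2 ^ k) - D⁻¹ ^ n) +
      D⁻¹ ^ n * (BB D (2 ^ (k + 1) + c)).coeff n) := by ring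
  rw [e]
  refine (IsUltrametricDist.norm_add_le_max _ _).trans (max_le h1 ?_)
  exact (IsUltrametricDist.norm_add_le_max _ _).trans (max_le h3 h2)

theorem BB_coeff_odd {k c n : ℕ} (hn : 2 * n = c + 1) (hc : c + 2 ≤ 2 ^ k)
    (ho : Odd (c.choose n)) :
    ‖(BB D (2 ^ (k + 1) + c)).coeff (2 ^ k - 1)‖ = ‖D‖⁻¹ ^ n := by
  have hp : 1 ≤ 2 ^ k := Nat.one_le_two_pow
  have hp2 : 2 ^ (k + 1) = 2 ^ k * 2 := pow_succ 2 k
  have h1 := main_i D hD hn (by omega : c + 1 ≤ 2 ^ k - 1)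
    (by omega : 2 ^ k - 1 < 2 ^ (k + 1))
  have h2 := n_term D hD hn (by omega : c + 1 ≤ 2 ^ k)
  have h0 : (c.choose n : K) = 1 := by
    obtain ⟨m, hm⟩ := ho
    rw [hm, Nat.cast_add, two_mul, Nat.cast_add, CharTwo.add_self_eq_zero, zero_add, Nat.cast_one]
  rw [h0, mul_one] at h2
  have h3 := leadA_J D hD (a := 2 ^ (k + 1) + c) (by omega) (2 ^ k - 1)
  rw [kap_b D hD hn, show 2 ^ k + n - (2 ^ k - 1) = n + 1 by omega] at h3
  refine norm_of_close D hD ?_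
  have e : (BB D (2 ^ (k + 1) + c)).coeff (2 ^ k - 1) - D⁻¹ ^ n =
      ((BB D (2 ^ (k + 1) + c)).coeff (2 ^ k - 1) - ((AA D (2 ^ (k + 1) + c)).coeff (2 ^ k - 1) +
      D⁻¹ ^ n * (BB D (2 ^ (k + 1) + c)).coeff n)) +
      ((AA D (2 ^ (k + 1) + c)).coeff (2 ^ k - 1) +
      (D⁻¹ ^ n * (BB D (2 ^ (k + 1) + c)).coeff n - D⁻¹ ^ n)) := by ring
  rw [e]
  refine (IsUltrametricDist.norm_add_le_max _ _).trans (max_le h1 ?_)
  exact (IsUltrametricDist.norm_add_le_max _ _).trans (max_le h3 h2)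

end Pool.Agent.ZL
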