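import Pool.Agent.Work.MP_b19acb_nt.Defs

/-!
# Br (S): brackets

Characteristic 2: squaring is additive.  `br_succ`: `(Σ_{l<i} D^(2^l))^2 = Σ_{l<i} D^(2^(l+1))`
(`sum_pow_char`/`CharTwo.sum_mul_self` or induction with `add_pow_char`), and split off `l = 0`
(`Finset.sum_range_succ'`).  `br_add`: induction on `i` (`br D (d+(i+1)) = (br D (d+i))^2 + D`).
`br_theta`: induction on `i`: `(θ^(2^i) + θ)^2 + θ^2 + θ = θ^(2^(i+1)) + θ`.
-/

namespace Pool.Agent.ZL

open Polynomial Finset

variable {K : Type*} [Field K] [CharP K 2] (D : K)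

theorem br_zero : br D 0 = 0 := by
  simp [br]

theorem br_one : br D 1 = D := by
  simp [br]

theorem br_succ (i : ℕ) : br D (i + 1) = (br D i) ^ 2 + D := by
  unfold br
  rw [Finset.sum_range_succ', CharTwo.sum_sq]
  congr 1
  · refine Finset.sum_congr rfl fun l _ => ?_
    rw [← pow_mul, pow_succ 2 l]
  · simp

theorem br_add (d i : ℕ) : br D (d + i) = (br D d) ^ 2 ^ i + br D i := by
  induction i with
  | zero => simp [br_zero]
  | succ i ih =>
    rw [← add_assoc, br_succ, ih, CharTwo.add_sq, br_succ D i, ← pow_mul, ← pow_succ]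
    ring

theorem br_theta (t : K) (i : ℕ) : br (t ^ 2 + t) i = t ^ 2 ^ i + t := by
  induction i with
  | zero =>
    rw [br_zero, pow_zero, pow_one, CharTwo.add_self_eq_zero]
  | succ i ih =>
    rw [br_succ, ih, CharTwo.add_sq, ← pow_mul, ← pow_succ]
    have h : t ^ 2 + t ^ 2 = 0 := CharTwo.add_self_eq_zero _
    linear_combination h

end Pool.Agent.ZL
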