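import Pool.Agent.Work.MP_b19acb_nt.Defs

/-!
# Cc: two more definitions
-/

namespace Pool.Agent.ZL

/-- every nonempty suffix of `s` has a telescoping polynomial -/
def AT {K : Type*} [Field K] (D : K) : List ℕ → Prop
  | [] => True
  | a :: s => (∃ F, TelF D (a :: s) F) ∧ AT D s

/-- the sum of all entries but the last, plus `b - 2^⌊log₂ b⌋` for the last entry `b` -/
def cc : List ℕ → ℕ
  | [] => 0
  | [b] => b - 2 ^ Nat.log 2 b
  | a :: b :: s => a + cc (b :: s)

end Pool.Agent.ZL
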