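import Pool.Agent.Work.MP_b19acb_nt.Scale

/-!
# Fpos (S): entries, lengths and weights of the families

`Fam.pos`: all entries are `≥ 1` (`mem_geo`).  `Fam.length`: length `≥ 2` (`length_geo`).
`Fam.sum_one`: the weight of family I is `2^e (2^(n+k) - 1)` (`sum_geo`); `Fam.sum_two` etc. are
only needed through `fam_weight`: every weight is `2^m` (II, III, IV, VI) or `2^e (2^M - 1)` (I, V)
with `M ≥ 2`: `II`: `2^e + 2^e (2^k - 1) = 2^(e+k)`; `III`: `4*2^e + 2^(e+2) (2^k - 1) = 2^(e+k+2)`;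
`IV`: `2^(e+3)`; `VI`: `2^(e+3)`; `V`: `2^e (2^n + 3*2^n - 1) = 2^e (2^(n+2) - 1)`.
-/

namespace Pool.Agent.ZL

theorem Fam.pos {s : List ℕ} (h : Fam s) : ∀ a ∈ s, 1 ≤ a := by
  intro a ha
  have hp : ∀ n : ℕ, 1 ≤ 2 ^ n := fun n => Nat.one_le_two_pow
  cases h with
  | I e n k hn hk =>
    rcases List.mem_cons.1 ha with rfl | ha
    · have h1 : 2 ≤ 2 ^ n := by
        calc 2 = 2 ^ 1 := by norm_num
          _ ≤ 2 ^ n := Nat.pow_le_pow_right (by norm_num) hn
      exact Nat.one_le_iff_ne_zero.2 (Nat.mul_ne_zero (by positivity) (by omega))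
    · exact mem_geo ha (hp _)
  | II e k hk =>
    rcases List.mem_cons.1 ha with rfl | ha
    · exact hp _
    · exact mem_geo ha (hp _)
  | III e k =>
    rcases List.mem_cons.1 ha with rfl | ha
    · exact hp _
    · rcases List.mem_cons.1 ha with rfl | ha
      · have := hp e; omega
      · exact mem_geo ha (hp _)
  | IV e =>
    have := hp e
    simp only [List.mem_cons, List.not_mem_nil, or_false] at ha
    rcases ha with rfl | rfl <;> omega
  | V e n hn =>
    simp only [List.mem_cons, List.not_mem_nil, or_false] at ha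
    rcases ha with rfl | rfl
    · exact hp _
    · have h1 := hp n
      exact Nat.one_le_iff_ne_zero.2 (Nat.mul_ne_zero (by positivity) (by omega))
  | VI e =>
    have := hp e
    have := hp (e + 1)
    simp only [List.mem_cons, List.not_mem_nil, or_false] at ha
    rcases ha with rfl | rfl | rfl <;> omega

theorem Fam.two_le {s : List ℕ} (h : Fam s) : 2 ≤ s.length := by
  cases h with
  | I e n k hn hk => simp only [List.length_cons, length_geo]; omega
  | II e k hk => simp only [List.length_cons, length_geo]; omega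
  | III e k => simp only [List.length_cons, length_geo]; omega
  | IV e => simp
  | V e n hn => simp
  | VI e => simp

theorem sum_I (e n k : ℕ) (hn : 1 ≤ n) :
    (2 ^ e * (2 ^ n - 1) :: geo (2 ^ (e + n)) k).sum = 2 ^ e * (2 ^ (n + k) - 1) := by
  rw [List.sum_cons, sum_geo, pow_add, mul_assoc, ← mul_add]
  congr 1
  have h1 : 1 ≤ 2 ^ n := Nat.one_le_two_pow
  have h2 : 1 ≤ 2 ^ k := Nat.one_le_two_pow
  obtain ⟨a, ha⟩ := Nat.exists_eq_add_of_le h1
  obtain ⟨b, hb⟩ := Nat.exists_eq_add_of_le h2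
  rw [pow_add, ha, hb]
  simp only [Nat.add_sub_cancel_left]
  have : (1 + a) * (1 + b) = 1 + (a + (1 + a) * b) := by ring
  rw [this, Nat.add_sub_cancel_left]

theorem sum_V (e n : ℕ) :
    [2 ^ (e + n), 2 ^ e * (3 * 2 ^ n - 1)].sum = 2 ^ e * (2 ^ (n + 2) - 1) := by
  have h1 : 1 ≤ 2 ^ n := Nat.one_le_two_pow
  simp only [List.sum_cons, List.sum_nil, add_zero]
  rw [pow_add, ← mul_add]
  congr 1
  rw [pow_add]
  omega

theorem Fam.weight {s : List ℕ} (h : Fam s) :
    (∃ m, s.sum = 2 ^ m) ∨ ∃ e M, 2 ≤ M ∧ s.sum = 2 ^ e * (2 ^ M - 1) := by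
  cases h with
  | I e n k hn hk => exact Or.inr ⟨e, n + k, by omega, sum_I e n k hn⟩
  | II e k hk =>
    left
    refine ⟨e + k, ?_⟩
    rw [List.sum_cons, sum_geo, pow_add]
    have h2 : 1 ≤ 2 ^ k := Nat.one_le_two_pow
    obtain ⟨b, hb⟩ := Nat.exists_eq_add_of_le h2
    rw [hb, Nat.add_sub_cancel_left]
    ring
  | III e k =>
    left
    refine ⟨e + k + 2, ?_⟩
    rw [List.sum_cons, List.sum_cons, sum_geo]
    have h2 : 1 ≤ 2 ^ k := Nat.one_le_two_pow
    obtain ⟨b, hb⟩ := Nat.exists_eq_add_of_le h2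
    rw [show e + k + 2 = (e + 2) + k by ring, pow_add 2 (e + 2) k, hb, Nat.add_sub_cancel_left]
    rw [pow_add]
    ring
  | IV e =>
    left
    refine ⟨e + 3, ?_⟩
    simp only [List.sum_cons, List.sum_nil, add_zero]
    ring
  | V e n hn => exact Or.inr ⟨e, n + 2, by omega, sum_V e n⟩
  | VI e =>
    left
    refine ⟨e + 3, ?_⟩
    simp only [List.sum_cons, List.sum_nil, add_zero]
    ring

end Pool.Agent.ZL
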