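import Pool.Agent.Work.MP_b19acb_nt.KapEE
import Pool.Agent.Work.MP_b19acb_nt.Fpos
import Pool.Agent.Work.MP_b19acb_nt.Cc

/-!
# CcFam (M): arithmetic of the families

`TailT t e M j`: the two kinds of tuples which can be extended to the left.

`cc_geo`: for `k ≥ 1`, `cc (geo (2^m) k) = 2^m (2^(k-1) - 1)` (last entry `2^(m+k-1)`, a power of 2;
induction on `k`).
`cc_fam`, case by case (`weight` = sum):
* I: `cc = 2^e (2^n-1) + 2^(e+n) (2^(k-1)-1) = 2^e (2^(n+k-1) - 1)`, sum `2^e (2^(n+k)-1)`, so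
  `2 cc + 2^e = sum`: `TailT.I`.
* II: `cc = 2^e + 2^e (2^(k-1) - 1) = 2^(e+k-1)`, sum `2^(e+k)`.
* III: `k = 0`: `[2^e, 3*2^e]`: `cc = 2^e + (3*2^e - 2^(e+1)) = 2^(e+1)`, sum `2^(e+2)`;
  `k ≥ 1`: `cc = 4*2^e + 2^(e+2)(2^(k-1)-1) = 2^(e+k+1)`, sum `2^(e+k+2)`.
* IV: `cc = 3*2^e + 2^e`, sum `8*2^e`.  VI: `cc = 2^e + 2^(e+1) + 2^e`, sum `8*2^e`.
* V: last entry `2^e (3*2^n-1) = 2^(e+n+1) + 2^e (2^n-1)`: `cc = 2^(e+n) + 2^e (2^n-1)`,
  `2 cc + 2^e = 2^e (2^(n+2) - 1) = sum`: `TailT.V`.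
(`Nat.log 2` of `2^m + r`, `r < 2^m`, is `m`: `Nat.log_eq_iff` or `Nat.log_eq_of_pow_le_of_lt_pow`.)

`TailT.two`: `j = 0` forces kind I with `n = 1`, `t = 2^e :: geo (2^(e+1)) k = geo (2^e) (k+1)`, so
`Fam.II e (k+1)`; `j = 1`: kind I with `n = 2`: `Fam.III e k`, kind V with `n = 1`: `Fam.VI e`.
`TailT.one`: `j = 0`, `v < e`: `Fam.I v (e-v) (k+1)`, as `v + (e-v) = e`.

`fam_three`: `2^(M-j+1) EE a ≥ a + 2^(e+M) - 2^e > 2^(e+M-1)` (`a ≥ 1`, `M ≥ 1`), both are powers of 2,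
so `2^(M-j+1) EE a ≥ 2^(e+M)` and `2 EE a ≥ 2^(e+j)`.  `EE a ≤ kap a ≤ a ≤ 2^e` gives `j ≤ 1`.
`j = 1`: `EE a ≥ 2^e`, so `a = 2^e`.  `j = 0`: `a = 2^e` or `a < 2^e`, then `e ≥ 1`,
`EE a ≥ 2^(e-1)`, `eq_of_EE`: `a = 2^e - 2^v = 2^v (2^(e-v) - 1)`, `v ≤ e-1`.
-/

namespace Pool.Agent.ZL

/-- the tuples of the families I and V with parameters `e M j` -/
inductive TailT : List ℕ → ℕ → ℕ → ℕ → Prop
  | I (e n k : ℕ) (hn : 1 ≤ n) (hk : 1 ≤ k) :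
      TailT (2 ^ e * (2 ^ n - 1) :: geo (2 ^ (e + n)) k) e (n + k) (n - 1)
  | V (e n : ℕ) (hn : 1 ≤ n) : TailT [2 ^ (e + n), 2 ^ e * (3 * 2 ^ n - 1)] e (n + 2) n

private theorem log_add {m r : ℕ} (hr : r < 2 ^ m) : Nat.log 2 (2 ^ m + r) = m := by
  refine Nat.log_eq_of_pow_le_of_lt_pow (Nat.le_add_right _ _) ?_
  rw [pow_succ]
  omega

private theorem cc_single (m r : ℕ) (hr : r < 2 ^ m) : cc [2 ^ m + r] = r := by
  show 2 ^ m + r - 2 ^ Nat.log 2 (2 ^ m + r) = r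
  rw [log_add hr, Nat.add_sub_cancel_left]

private theorem cc_cons (a b : ℕ) (s : List ℕ) : cc (a :: b :: s) = a + cc (b :: s) := rfl

private theorem geo_cons (x k : ℕ) : geo x (k + 1) = x :: geo (2 * x) k := rfl

private theorem cc_geo (m k : ℕ) : cc (geo (2 ^ m) (k + 1)) = 2 ^ m * (2 ^ k - 1) := by
  induction k generalizing m with
  | zero =>
    have h := cc_single m 0 (pow_pos two_pos m)
    rw [add_zero] at h
    rw [geo_cons]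
    show cc [2 ^ m] = _
    rw [h, pow_zero, Nat.sub_self, mul_zero]
  | succ k ih =>
    have h1 : 2 * 2 ^ m = 2 ^ (m + 1) := by rw [pow_succ, mul_comm]
    have h2 : 1 ≤ 2 ^ k := Nat.one_le_two_pow
    rw [geo_cons, h1, geo_cons, cc_cons, ← geo_cons, ih]
    obtain ⟨r, hr⟩ : ∃ r, 2 ^ k = r + 1 := ⟨2 ^ k - 1, by omega⟩
    have h3 : 2 ^ (k + 1) - 1 = 2 * r + 1 := by rw [pow_succ]; omega
    rw [h3, hr, Nat.add_sub_cancel, pow_succ]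
    ring

private theorem cc_cons_geo (a m k : ℕ) :
    cc (a :: geo (2 ^ m) (k + 1)) = a + 2 ^ m * (2 ^ k - 1) := by
  rw [geo_cons, cc_cons, ← geo_cons, cc_geo]

theorem cc_fam {t : List ℕ} (h : Fam t) :
    2 * cc t = t.sum ∨ ∃ e M j, TailT t e M j ∧ 2 * cc t + 2 ^ e = t.sum := by
  cases h with
  | I e n k hn hk =>
    right
    refine ⟨e, n + k, n - 1, TailT.I e n k hn hk, ?_⟩
    obtain ⟨k', rfl⟩ : ∃ k', k = k' + 1 := ⟨k - 1, by omega⟩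
    rw [cc_cons_geo, sum_I e n (k' + 1) hn]
    have h1 : 1 ≤ 2 ^ n := Nat.one_le_two_pow
    have h2 : 1 ≤ 2 ^ k' := Nat.one_le_two_pow
    obtain ⟨r, hr⟩ : ∃ r, 2 ^ n = r + 1 := ⟨2 ^ n - 1, by omega⟩
    obtain ⟨s, hs⟩ : ∃ s, 2 ^ k' = s + 1 := ⟨2 ^ k' - 1, by omega⟩
    have h3 : 2 ^ (n + (k' + 1)) - 1 = 2 * (r * s + r + s) + 1 := by
      have : 2 ^ (n + (k' + 1)) = 2 ^ n * (2 ^ k' * 2) := by rw [pow_add, pow_succ]
      rw [this, hr, hs]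
      have : (r + 1) * ((s + 1) * 2) = 2 * (r * s + r + s) + 2 := by ring
      omega
    rw [h3, pow_add, hr, hs, Nat.add_sub_cancel, Nat.add_sub_cancel]
    ring
  | II e k hk =>
    left
    obtain ⟨k', rfl⟩ : ∃ k', k = k' + 1 := ⟨k - 1, by omega⟩
    rw [cc_cons_geo, List.sum_cons, sum_geo]
    have h2 : 1 ≤ 2 ^ k' := Nat.one_le_two_pow
    obtain ⟨s, hs⟩ : ∃ s, 2 ^ k' = s + 1 := ⟨2 ^ k' - 1, by omega⟩
    have h3 : 2 ^ (k' + 1) - 1 = 2 * s + 1 := by rw [pow_succ]; omega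
    rw [h3, hs, Nat.add_sub_cancel]
    ring
  | III e k =>
    left
    rcases Nat.eq_zero_or_pos k with rfl | hk
    · show 2 * cc [2 ^ e, 3 * 2 ^ e] = _
      have h1 : 3 * 2 ^ e = 2 ^ (e + 1) + 2 ^ e := by rw [pow_succ]; ring
      have h4 : 2 ^ e < 2 ^ (e + 1) := Nat.pow_lt_pow_right (by norm_num) (by omega)
      rw [cc_cons, h1, cc_single _ _ h4]
      show 2 * (2 ^ e + 2 ^ e) = 2 ^ e + ((2 ^ (e + 1) + 2 ^ e) + 0)
      rw [pow_succ]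
      ring
    · obtain ⟨k', rfl⟩ : ∃ k', k = k' + 1 := ⟨k - 1, by omega⟩
      rw [cc_cons, cc_cons_geo, List.sum_cons, List.sum_cons, sum_geo]
      have h2 : 1 ≤ 2 ^ k' := Nat.one_le_two_pow
      obtain ⟨s, hs⟩ : ∃ s, 2 ^ k' = s + 1 := ⟨2 ^ k' - 1, by omega⟩
      have h3 : 2 ^ (k' + 1) - 1 = 2 * s + 1 := by rw [pow_succ]; omega
      rw [h3, hs, Nat.add_sub_cancel, pow_add]
      ring
  | IV e =>
    left
    have h1 : 5 * 2 ^ e = 2 ^ (e + 2) + 2 ^ e := by rw [pow_add]; ring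
    have h4 : 2 ^ e < 2 ^ (e + 2) := Nat.pow_lt_pow_right (by norm_num) (by omega)
    rw [cc_cons, h1, cc_single _ _ h4]
    show 2 * (3 * 2 ^ e + 2 ^ e) = 3 * 2 ^ e + ((2 ^ (e + 2) + 2 ^ e) + 0)
    rw [pow_add]
    ring
  | V e n hn =>
    right
    refine ⟨e, n + 2, n, TailT.V e n hn, ?_⟩
    rw [sum_V]
    have h0 : 1 ≤ 2 ^ n := Nat.one_le_two_pow
    obtain ⟨r, hr⟩ : ∃ r, 2 ^ n = r + 1 := ⟨2 ^ n - 1, by omega⟩
    have h1 : 2 ^ e * (3 * 2 ^ n - 1) = 2 ^ (e + n + 1) + 2 ^ e * r := by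
      have h5 : 3 * 2 ^ n - 1 = 3 * r + 2 := by omega
      rw [h5, pow_succ, pow_add, hr]
      ring
    have h4 : 2 ^ e * r < 2 ^ (e + n + 1) := by
      rw [pow_succ, pow_add, hr]
      have : 0 < 2 ^ e := pow_pos two_pos e
      nlinarith
    rw [cc_cons, h1, cc_single _ _ h4]
    have h6 : 2 ^ (n + 2) - 1 = 4 * r + 3 := by rw [pow_add]; omega
    rw [h6, pow_add, hr]
    ring
  | VI e =>
    left
    have h1 : 5 * 2 ^ e = 2 ^ (e + 2) + 2 ^ e := by rw [pow_add]; ring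
    have h4 : 2 ^ e < 2 ^ (e + 2) := Nat.pow_lt_pow_right (by norm_num) (by omega)
    rw [cc_cons, cc_cons, h1, cc_single _ _ h4]
    show 2 * (2 ^ e + (2 ^ (e + 1) + 2 ^ e)) = 2 ^ e + (2 ^ (e + 1) + ((2 ^ (e + 2) + 2 ^ e) + 0))
    rw [pow_add, pow_add]
    ring

theorem TailT.lt {t : List ℕ} {e M j : ℕ} (h : TailT t e M j) :
    j < M ∧ t.sum = 2 ^ e * (2 ^ M - 1) := by
  cases h with
  | I _ n k hn hk => exact ⟨by omega, sum_I e n k hn⟩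
  | V _ n hn => exact ⟨by omega, sum_V e _⟩

theorem TailT.two {t : List ℕ} {e M j : ℕ} (h : TailT t e M j) (hj : j = 0 ∨ j = 1) :
    Fam (2 ^ e :: t) := by
  cases h with
  | I _ n k hn hk =>
    rcases hj with hj | hj
    · have hn1 : n = 1 := by omega
      subst hn1
      have h1 := Fam.II e (k + 1) (by omega)
      rw [geo_cons, show 2 * 2 ^ e = 2 ^ (e + 1) by rw [pow_succ, mul_comm]] at h1
      have h2 : 2 ^ e * (2 ^ 1 - 1) = 2 ^ e := by norm_num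
      rw [h2]
      exact h1
    · have hn1 : n = 2 := by omega
      subst hn1
      have h1 := Fam.III e k
      have h2 : 2 ^ e * (2 ^ 2 - 1) = 3 * 2 ^ e := by norm_num; ring
      rw [h2]
      exact h1
  | V _ _ hn =>
    have hj1 : j = 1 := by omega
    subst hj1
    have h1 := Fam.VI e
    have h2 : 2 ^ e * (3 * 2 ^ 1 - 1) = 5 * 2 ^ e := by norm_num; ring
    rw [h2]
    exact h1

theorem TailT.one {t : List ℕ} {e M v : ℕ} (h : TailT t e M 0) (hv : v < e) :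
    Fam (2 ^ v * (2 ^ (e - v) - 1) :: t) := by
  generalize hj : (0 : ℕ) = j at h
  cases h with
  | I _ n k hn hk =>
    have hn1 : n = 1 := by omega
    subst hn1
    have h1 := Fam.I v (e - v) (k + 1) (by omega) (by omega)
    have h3 : v + (e - v) = e := by omega
    rw [geo_cons, h3, show 2 * 2 ^ e = 2 ^ (e + 1) by rw [pow_succ, mul_comm]] at h1
    have h2 : 2 ^ e * (2 ^ 1 - 1) = 2 ^ e := by norm_num
    rw [h2]
    exact h1
  | V _ _ hn => omega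

theorem fam_three {a e M j : ℕ} (ha : 1 ≤ a) (hae : a ≤ 2 ^ e) (hj : j < M)
    (h : a + 2 ^ e * (2 ^ M - 1) ≤ 2 ^ (M - j + 1) * EE a) :
    (a = 2 ^ e ∧ (j = 0 ∨ j = 1)) ∨ (j = 0 ∧ ∃ v, v < e ∧ a = 2 ^ v * (2 ^ (e - v) - 1)) := by
  -- the power of 2
  obtain ⟨m, hm⟩ : ∃ m, EE a = 2 ^ m := ⟨_, rfl⟩
  obtain ⟨N, rfl⟩ : ∃ N, M = N + 1 := ⟨M - 1, by omega⟩
  have h0 : 1 ≤ 2 ^ N := Nat.one_le_two_pow
  have hpe : 1 ≤ 2 ^ e := Nat.one_le_two_pow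
  have h1 : 2 ^ e * (2 ^ (N + 1) - 1) = 2 ^ (e + N) + (2 ^ (e + N) - 2 ^ e) := by
    have h2 : 2 ^ e ≤ 2 ^ (e + N) := Nat.pow_le_pow_right (by norm_num) (by omega)
    rw [Nat.mul_sub, ← pow_add, ← add_assoc, pow_succ, mul_one]
    omega
  have h2 : 2 ^ e ≤ 2 ^ (e + N) := Nat.pow_le_pow_right (by norm_num) (by omega)
  have h3 : 2 ^ (e + N) < 2 ^ (N + 1 - j + 1 + m) := by
    rw [pow_add 2 (N + 1 - j + 1) m, ← hm]
    omega
  have h4 : e + N < N + 1 - j + 1 + m := (Nat.pow_lt_pow_iff_right (by norm_num)).1 h3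
  have hmE : 2 ^ m ≤ a := by
    rw [← hm]
    exact (EE_le_kap ha).trans (kap_le ha)
  have h5 : 2 ^ m ≤ 2 ^ e := hmE.trans hae
  have h6 : m ≤ e := (Nat.pow_le_pow_iff_right (by norm_num)).1 h5
  rcases Nat.eq_or_lt_of_le hae with heq | hlt
  · exact Or.inl ⟨heq, by omega⟩
  · have h7 : m < e := by
      have : 2 ^ m < 2 ^ e := lt_of_le_of_lt hmE hlt
      exact (Nat.pow_lt_pow_iff_right (by norm_num)).1 this
    have hj0 : j = 0 := by omega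
    have hme : m = e - 1 := by omega
    obtain ⟨e', rfl⟩ : ∃ e', e = e' + 1 := ⟨e - 1, by omega⟩
    have h8 : 2 ^ e' ≤ EE a := by
      rw [hm, hme, Nat.add_sub_cancel]
    obtain ⟨h9, h10, -⟩ := eq_of_EE ha hlt h8
    refine Or.inr ⟨hj0, padicValNat 2 a, by omega, ?_⟩
    rw [Nat.mul_sub, ← pow_add, Nat.add_sub_cancel' (by omega), mul_one]
    exact h9

end Pool.Agent.ZL
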