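import Pool.Agent.Work.MP_b19acb_nt.Br

/-!
# XU (M): the sequences x_d, X_d, u_d, v_d

`hb : ∀ i, br D (i+1) ≠ 0` (so `D = br D 1 ≠ 0`).  `xx D d = (ell D d)⁻¹`,
`ell D (d+1) = ell D d * br D (d+1)` (`prod_range_succ`), `ell ≠ 0`, `xx ≠ 0`,
`xx D (d+1) * br D (d+1) = xx D d`.

`XX_eq`: `D X_d = [d]^2 x_d` by induction on `d`: `d = 0`: both sides 0. Step:
`D X_{d+1} = D X_d + D x_d = ([d]^2 + D) x_d = [d+1] x_d = [d+1]^2 x_{d+1}` (`br_succ`).
Hence `XX D d ≠ 0` for `d ≥ 1`, `D_vv`: `D v_d = [d]^2`, `uu_eq`: `u_d = D/[d]^2`.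
`D_mul`: `D x_{d+1} X_{d+1} = x_{d+1} [d+1]^2 x_{d+1} = x_d^2`.
`vv_succ`: `D (v_d + 1) = [d]^2 + D = [d+1]` and `D v_{d+1} = [d+1]^2 = D^2 (v_d+1)^2`; cancel `D`.
`xx_eq_succ`: `x_d = x_{d+1} [d+1]`, `[d+1] = D (v_d + 1)`.
`XX_succ_eq`: `X_{d+1} = X_d + x_d = X_d (1 + u_d)` for `d ≥ 1`; so `1 + u_d ≠ 0` since
`X_{d+1} ≠ 0`.  `uu_succ`: `u_{d+1} = x_{d+1}/X_{d+1} = x_d^2/(D X_{d+1}^2)`.
-/

namespace Pool.Agent.ZL

open Polynomial Finset

variable {K : Type*} [Field K] [CharP K 2] (D : K)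

theorem ell_succ (d : ℕ) : ell D (d + 1) = ell D d * br D (d + 1) :=
  Finset.prod_range_succ _ _

theorem XX_succ (d : ℕ) : XX D (d + 1) = XX D d + xx D d :=
  Finset.sum_range_succ _ _

theorem XX_zero : XX D 0 = 0 := Finset.sum_range_zero _

theorem xx_zero : xx D 0 = 1 := by
  unfold xx ell
  rw [Finset.prod_range_zero, inv_one]

variable (hb : ∀ i, br D (i + 1) ≠ 0)

include hb

theorem D_ne_zero : D ≠ 0 := by
  have h := hb 0
  rw [zero_add, br_one] at h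
  exact h

theorem ell_ne_zero (d : ℕ) : ell D d ≠ 0 :=
  Finset.prod_ne_zero_iff.2 fun i _ => hb i

theorem xx_ne_zero (d : ℕ) : xx D d ≠ 0 := inv_ne_zero (ell_ne_zero D hb d)

theorem xx_succ_mul (d : ℕ) : xx D (d + 1) * br D (d + 1) = xx D d := by
  unfold xx
  rw [ell_succ, mul_inv, mul_assoc, inv_mul_cancel₀ (hb d), mul_one]

theorem XX_eq (d : ℕ) : D * XX D d = (br D d) ^ 2 * xx D d := by
  induction d with
  | zero => rw [XX_zero, br_zero, mul_zero, zero_pow two_ne_zero, zero_mul]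
  | succ d ih =>
    have h1 := xx_succ_mul D hb d
    rw [XX_succ, mul_add, ih]
    calc (br D d) ^ 2 * xx D d + D * xx D d = ((br D d) ^ 2 + D) * xx D d := by ring
      _ = br D (d + 1) * (xx D (d + 1) * br D (d + 1)) := by rw [← br_succ, h1]
      _ = (br D (d + 1)) ^ 2 * xx D (d + 1) := by ring

theorem XX_ne_zero {d : ℕ} (hd : 1 ≤ d) : XX D d ≠ 0 := by
  intro h0
  obtain ⟨e, rfl⟩ : ∃ e, d = e + 1 := ⟨d - 1, by omega⟩
  have h1 := XX_eq D hb (e + 1)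
  rw [h0, mul_zero] at h1
  exact mul_ne_zero (pow_ne_zero 2 (hb e)) (xx_ne_zero D hb (e + 1)) h1.symm

theorem D_vv (d : ℕ) : D * vv D d = (br D d) ^ 2 := by
  unfold vv
  rw [← mul_div_assoc, XX_eq D hb d, mul_div_assoc, div_self (xx_ne_zero D hb d), mul_one]

theorem D_vv_add_one (d : ℕ) : D * (vv D d + 1) = br D (d + 1) := by
  rw [mul_add, D_vv D hb d, mul_one, br_succ]

theorem vv_zero : vv D 0 = 0 := by
  unfold vv
  rw [XX_zero, zero_div]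

theorem uu_eq (d : ℕ) : uu D d = D / (br D d) ^ 2 := by
  rcases Nat.eq_zero_or_pos d with hd | hd
  · subst hd
    unfold uu
    rw [XX_zero, br_zero, zero_pow two_ne_zero, div_zero, div_zero]
  · obtain ⟨e, rfl⟩ : ∃ e, d = e + 1 := ⟨d - 1, by omega⟩
    unfold uu
    rw [div_eq_div_iff (XX_ne_zero D hb hd) (pow_ne_zero 2 (hb e)), XX_eq D hb (e + 1), mul_comm]

theorem D_mul_xx_XX (d : ℕ) : D * xx D (d + 1) * XX D (d + 1) = (xx D d) ^ 2 := by
  have h1 := XX_eq D hb (d + 1)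
  rw [← xx_succ_mul D hb d]
  linear_combination (xx D (d + 1)) * h1

theorem vv_succ (d : ℕ) : vv D (d + 1) = D * (vv D d + 1) ^ 2 := by
  have h1 := D_vv D hb (d + 1)
  rw [← D_vv_add_one D hb d] at h1
  apply mul_left_cancel₀ (D_ne_zero D hb)
  linear_combination h1

theorem vv_add_one_ne (d : ℕ) : vv D d + 1 ≠ 0 := by
  intro h0
  have h1 := D_vv_add_one D hb d
  rw [h0, mul_zero] at h1
  exact hb d h1.symm

theorem xx_eq_succ (d : ℕ) : xx D d = xx D (d + 1) * (D * (vv D d + 1)) := by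
  rw [D_vv_add_one D hb d, xx_succ_mul D hb d]

theorem uu_mul_vv {d : ℕ} (hd : 1 ≤ d) : uu D d * vv D d = 1 := by
  unfold uu vv
  rw [div_mul_div_comm, mul_comm (xx D d),
    div_self (mul_ne_zero (XX_ne_zero D hb hd) (xx_ne_zero D hb d))]

theorem XX_succ_eq {d : ℕ} (hd : 1 ≤ d) : XX D (d + 1) = XX D d * (1 + uu D d) := by
  unfold uu
  rw [XX_succ, mul_add, mul_one, mul_div_cancel₀ _ (XX_ne_zero D hb hd)]

theorem one_add_uu_ne {d : ℕ} (hd : 1 ≤ d) : 1 + uu D d ≠ 0 := by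
  intro h0
  have h1 := XX_succ_eq D hb hd
  rw [h0, mul_zero] at h1
  exact XX_ne_zero D hb (Nat.succ_le_succ (Nat.zero_le d)) h1

theorem uu_succ {d : ℕ} (hd : 1 ≤ d) :
    uu D (d + 1) = D⁻¹ * (uu D d) ^ 2 / (1 + uu D d) ^ 2 := by
  have hX := XX_ne_zero D hb hd
  have hu := one_add_uu_ne D hb hd
  have hX1 : XX D (d + 1) ≠ 0 := XX_ne_zero D hb (Nat.succ_le_succ (Nat.zero_le d))
  have h1 := D_mul_xx_XX D hb d
  have h2 : XX D d * uu D d = xx D d := by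
    unfold uu
    rw [mul_div_cancel₀ _ hX]
  have hDne := D_ne_zero D hb
  have h3 : uu D (d + 1) * XX D (d + 1) = xx D (d + 1) := by
    unfold uu
    rw [div_mul_cancel₀ _ hX1]
  rw [eq_div_iff (pow_ne_zero 2 hu)]
  apply mul_left_cancel₀ (mul_ne_zero hDne (pow_ne_zero 2 hX))
  have h4 : D * uu D (d + 1) * (XX D (d + 1)) ^ 2 = (XX D d * uu D d) ^ 2 := by
    rw [h2, ← h1, ← h3]
    ring
  calc D * XX D d ^ 2 * (uu D (d + 1) * (1 + uu D d) ^ 2)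
      = D * uu D (d + 1) * (XX D d * (1 + uu D d)) ^ 2 := by ring
    _ = (XX D d * uu D d) ^ 2 := by rw [← XX_succ_eq D hb hd, h4]
    _ = D * XX D d ^ 2 * (D⁻¹ * uu D d ^ 2) := by
      field_simp

theorem uu_one : uu D 1 = D⁻¹ := by
  have hDne := D_ne_zero D hb
  rw [uu_eq D hb 1, br_one]
  field_simp

end Pool.Agent.ZL
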