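import Pool.Agent.Work.MP_b19acb_nt.TTroot
import Pool.Agent.Work.MP_b19acb_nt.XU

/-!
# Chain (S-M): roots at u_1, u_2, ...

`u_i = uu D i`, `u_1 = D⁻¹` (`uu_one`), `u_{i+1} = D⁻¹ u_i^2/(1+u_i)^2` (`uu_succ`),
`1 + u_i ≠ 0` (`one_add_uu_ne`).
Induction on `i`: `i = 1`: `natDegree (TT D w F) ≤ max (natDegree F) (natDegree p)`, so `TT_top`
with `n = n 0` gives `(X + C D⁻¹)^((n 0 + 1)/2) ∣ F`.  Step `1 ≤ i < m`: `(X + C u_i)^(n i)` divides
`F` and `p`, so `TT D w F = F + p`, and `TT_root` gives the claim for `i+1`.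
-/

namespace Pool.Agent.ZL

open Polynomial Finset

variable {K : Type*} [Field K] [CharP K 2] (D : K) (hb : ∀ i, br D (i + 1) ≠ 0)

include hb

theorem chain {w : ℕ} {F p : K[X]} (hF : 2 * F.natDegree ≤ w) (h : TT D w F = F + p)
    (n : ℕ → ℕ) (hn : ∀ i, n (i + 1) = (n i + 1) / 2) (h1 : F.natDegree + n 0 ≤ w)
    (h2 : p.natDegree + n 0 ≤ w) {m : ℕ}
    (hp : ∀ i, 1 ≤ i → i < m → (X + C (uu D i)) ^ n i ∣ p) {i : ℕ} (hi : 1 ≤ i) (him : i ≤ m) :
    (X + C (uu D i)) ^ n i ∣ F := by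
  have hD : D ≠ 0 := D_ne_zero D hb
  induction i, hi using Nat.le_induction with
  | base =>
    have hdeg : (TT D w F).natDegree + n 0 ≤ w := by
      rw [h]
      have h3 := natDegree_add_le F p
      rcases le_total F.natDegree p.natDegree with h4 | h4
      · rw [max_eq_right h4] at h3
        omega
      · rw [max_eq_left h4] at h3
        omega
    rw [uu_one D hb, hn 0]
    exact TT_top D hD hF hdeg
  | succ i hi ih =>
    have h3 : (X + C (uu D i)) ^ n i ∣ TT D w F := by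
      rw [h]
      exact dvd_add (ih (by omega)) (hp i hi (by omega))
    rw [uu_succ D hb hi, hn i]
    exact TT_root D hD hF (one_add_uu_ne D hb hi) h3

end Pool.Agent.ZL
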