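import Pool.Agent.Work.MP_b19acb_nt.Defs

/-!
# JnB (S-M): the filtration by powers of the ideal (u, δ)

`Jn q n f : ∀ j, ‖f.coeff j‖ ≤ q^(n-j)` (truncated subtraction), `0 ≤ q ≤ 1`.
`Jn_mul`: `‖Σ f_i g_j‖ ≤ max ‖f_i‖‖g_j‖ ≤ q^(n-i) q^(m-j) ≤ q^((n+m)-(i+j))` because
`(n+m)-(i+j) ≤ (n-i)+(m-j)`.  `Jn_mono`: `q^(m-j) ≤ q^(n-j)` for `n ≤ m`.
`Jn_sq_sub`: if `f - g ∈ J_n` then `f^2 - g^2 = (f-g)^2 ∈ J_{2n}` (characteristic 2).
-/

namespace Pool.Agent.ZL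

open Polynomial Finset

variable {K : Type*} [NormedField K] [IsUltrametricDist K] {q : ℝ} (hq0 : 0 ≤ q) (hq1 : q ≤ 1)

include hq0

theorem Jn_zero_poly (n : ℕ) : Jn q n (0 : K[X]) := by
  intro j
  rw [coeff_zero, norm_zero]
  exact pow_nonneg hq0 _

theorem Jn_add {n : ℕ} {f g : K[X]} (hf : Jn q n f) (hg : Jn q n g) : Jn q n (f + g) := by
  intro j
  rw [coeff_add]
  exact (IsUltrametricDist.norm_add_le_max _ _).trans (max_le (hf j) (hg j))

theorem Jn_sub {n : ℕ} {f g : K[X]} (hf : Jn q n f) (hg : Jn q n g) : Jn q n (f - g) := by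
  intro j
  rw [coeff_sub, sub_eq_add_neg]
  refine (IsUltrametricDist.norm_add_le_max _ _).trans (max_le (hf j) ?_)
  rw [norm_neg]
  exact hg j

theorem Jn_sum {ι : Type*} {n : ℕ} (s : Finset ι) {f : ι → K[X]} (hf : ∀ i ∈ s, Jn q n (f i)) :
    Jn q n (∑ i ∈ s, f i) := by
  intro j
  rw [finsetSum_coeff]
  exact IsUltrametricDist.norm_sum_le_of_forall_le_of_nonneg (pow_nonneg hq0 _)
    fun i hi => hf i hi j

theorem Jn_C {n : ℕ} {c : K} (hc : ‖c‖ ≤ q ^ n) : Jn q n (C c) := by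
  intro j
  rw [coeff_C]
  split_ifs with h
  · rw [h, Nat.sub_zero]
    exact hc
  · rw [norm_zero]
    exact pow_nonneg hq0 _

theorem Jn_X : Jn q 1 (X : K[X]) := by
  intro j
  rw [coeff_X]
  split_ifs with h
  · rw [← h, Nat.sub_self, pow_zero, norm_one]
  · rw [norm_zero]
    exact pow_nonneg hq0 _

include hq1

theorem Jn_mono {m n : ℕ} (h : n ≤ m) {f : K[X]} (hf : Jn q m f) : Jn q n f := by
  intro j
  exact (hf j).trans (pow_le_pow_of_le_one hq0 hq1 (by omega))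

theorem Jn_mul {n m : ℕ} {f g : K[X]} (hf : Jn q n f) (hg : Jn q m g) :
    Jn q (n + m) (f * g) := by
  intro k
  rw [coeff_mul]
  refine IsUltrametricDist.norm_sum_le_of_forall_le_of_nonneg (pow_nonneg hq0 _) fun p hp => ?_
  rw [HasAntidiagonal.mem_antidiagonal] at hp
  rw [norm_mul]
  calc ‖f.coeff p.1‖ * ‖g.coeff p.2‖ ≤ q ^ (n - p.1) * q ^ (m - p.2) :=
        mul_le_mul (hf _) (hg _) (norm_nonneg _) (pow_nonneg hq0 _)
    _ = q ^ ((n - p.1) + (m - p.2)) := (pow_add _ _ _).symm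
    _ ≤ q ^ (n + m - k) := pow_le_pow_of_le_one hq0 hq1 (by omega)

theorem Jn_pow {n : ℕ} {f : K[X]} (hf : Jn q n f) (k : ℕ) : Jn q (n * k) (f ^ k) := by
  induction k with
  | zero =>
    intro j
    rw [pow_zero, mul_zero, Nat.zero_sub, pow_zero, coeff_one]
    split_ifs
    · rw [norm_one]
    · rw [norm_zero]
      exact zero_le_one
  | succ k ih =>
    rw [pow_succ, Nat.mul_succ]
    exact Jn_mul hq0 hq1 ih hf

theorem Jn_C_one : Jn q 0 (1 : K[X]) := by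
  intro j
  rw [Nat.zero_sub, pow_zero, coeff_one]
  split_ifs
  · rw [norm_one]
  · rw [norm_zero]
    exact zero_le_one

theorem Jn_X_pow (n : ℕ) : Jn q n (X ^ n : K[X]) := by
  have h := Jn_pow hq0 hq1 (Jn_X (K := K) hq0) n
  rwa [one_mul] at h

theorem Jn_sq_sub [CharP K 2] {n : ℕ} {f g : K[X]} (h : Jn q n (f - g)) :
    Jn q (2 * n) (f ^ 2 - g ^ 2) := by
  have h1 : f ^ 2 - g ^ 2 = (f - g) ^ 2 := by
    rw [CharTwo.sub_eq_add, CharTwo.sub_eq_add, CharTwo.add_sq]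
  rw [h1, mul_comm]
  exact Jn_pow hq0 hq1 h 2

end Pool.Agent.ZL
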