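import Pool.Agent.Work.MP_b19acb_nt.TTnorm
import Pool.Agent.Work.MP_b19acb_nt.JnB

/-!
# DegJ (M): T_w F is divisible by δ^κ

`q = ‖D‖⁻¹ < 1`, `δ = D⁻¹`.

`deg_J`: show by induction on `n ≤ κ` that `F ∈ J_n`.  `n = 0`: `‖F_j‖ ≤ 1`.
Step `n < κ`, `F ∈ J_n`: all coefficients of `T_w F` have norm `≤ q^n`: the `j`-th term has
coefficient `δ^j f_j` of norm `≤ q^j q^(n-j) ≤ q^n` (truncated subtraction, `q ≤ 1`).  For `j ≥ 1`:
`f_j = (T_w F)_j - P_j`, `‖f_j‖ ≤ max (q^n) (q^(κ-j)) ≤ q^(n+1-j)`.  For `j = 0`: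
`0 = F.eval δ = Σ f_j δ^j`, so `‖f_0‖ ≤ max_{j≥1} q^j ‖f_j‖ ≤ q^(n+1)`.  So `F ∈ J_{n+1}`.
Finally `F ∈ J_κ` gives `‖(T_w F)_i‖ ≤ q^κ`.

`deg_B`: downward induction (strong induction on `natDegree B - j`): for `2(a+j) > w` we have
`F.coeff (a+j) = 0` (`2 natDegree F ≤ w`), so
`(T_w F).coeff (a+j) = (A*B).coeff (a+j) = B_j + Σ_{i<a} A_i B_{a+j-i}` and the `B_{a+j-i}`, `i < a`,
have larger index, so norm `≤ q^κ` by induction.
-/

namespace Pool.Agent.ZL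

open Polynomial Finset

variable {K : Type*} [NormedField K] [IsUltrametricDist K] [CharP K 2] (D : K) (hD : 1 < ‖D‖)

include hD

theorem deg_J {w κ : ℕ} {F P : K[X]} (hF : 2 * F.natDegree ≤ w) (h : TT D w F = F + P)
    (hev : F.eval D⁻¹ = 0) (hFn : ∀ j, ‖F.coeff j‖ ≤ 1) (hP : Jn ‖D‖⁻¹ κ P) (i : ℕ) :
    ‖(TT D w F).coeff i‖ ≤ ‖D‖⁻¹ ^ κ := by
  have hq0 : 0 ≤ ‖D‖⁻¹ := inv_nonneg.2 (norm_nonneg _)
  have hq1 : ‖D‖⁻¹ ≤ 1 := (inv_lt_one_of_one_lt₀ hD).le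
  have hT : ∀ n, Jn ‖D‖⁻¹ n F → ∀ i, ‖(TT D w F).coeff i‖ ≤ ‖D‖⁻¹ ^ n := by
    intro n hn
    refine TT_coeff_le D (pow_nonneg hq0 _) fun j => ?_
    calc ‖D‖⁻¹ ^ j * ‖F.coeff j‖ ≤ ‖D‖⁻¹ ^ j * ‖D‖⁻¹ ^ (n - j) :=
          mul_le_mul_of_nonneg_left (hn j) (pow_nonneg hq0 _)
      _ = ‖D‖⁻¹ ^ (j + (n - j)) := (pow_add _ _ _).symm
      _ ≤ ‖D‖⁻¹ ^ n := pow_le_pow_of_le_one hq0 hq1 (by omega)
  have hf : ∀ i, F.coeff i = (TT D w F).coeff i - P.coeff i := by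
    intro i
    rw [h, coeff_add, add_sub_cancel_right]
  have key : ∀ n, n ≤ κ → Jn ‖D‖⁻¹ n F := by
    intro n
    induction n with
    | zero =>
      intro _ j
      rw [Nat.zero_sub, pow_zero]
      exact hFn j
    | succ n ih =>
      intro hn
      have hJ := ih (by omega)
      have h1 : ∀ j, 1 ≤ j → ‖F.coeff j‖ ≤ ‖D‖⁻¹ ^ (n + 1 - j) := by
        intro j hj
        rw [hf j, sub_eq_add_neg]
        refine (IsUltrametricDist.norm_add_le_max _ _).trans (max_le ?_ ?_)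
        · exact (hT n hJ j).trans (pow_le_pow_of_le_one hq0 hq1 (by omega))
        · rw [norm_neg]
          exact (hP j).trans (pow_le_pow_of_le_one hq0 hq1 (by omega))
      intro j
      rcases Nat.eq_zero_or_pos j with rfl | hj
      · rw [Nat.sub_zero]
        refine coeff_zero_le_of_eval D hev (pow_nonneg hq0 _) fun j hj => ?_
        calc ‖D‖⁻¹ ^ j * ‖F.coeff j‖ ≤ ‖D‖⁻¹ ^ j * ‖D‖⁻¹ ^ (n + 1 - j) :=
              mul_le_mul_of_nonneg_left (h1 j hj) (pow_nonneg hq0 _)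
          _ = ‖D‖⁻¹ ^ (j + (n + 1 - j)) := (pow_add _ _ _).symm
          _ ≤ ‖D‖⁻¹ ^ (n + 1) := pow_le_pow_of_le_one hq0 hq1 (by omega)
      · exact h1 j hj
  exact hT κ (key κ le_rfl) i

theorem deg_B {w κ a : ℕ} {F A B : K[X]} (hF : 2 * F.natDegree ≤ w) (h : TT D w F = F + A * B)
    (hT : ∀ i, ‖(TT D w F).coeff i‖ ≤ ‖D‖⁻¹ ^ κ) (hA : A.Monic) (ha : A.natDegree = a)
    (hAn : ∀ j, ‖A.coeff j‖ ≤ 1) {j : ℕ} (hj : w < 2 * (a + j)) :
    ‖B.coeff j‖ ≤ ‖D‖⁻¹ ^ κ := by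
  have hq0 : 0 ≤ ‖D‖⁻¹ := inv_nonneg.2 (norm_nonneg _)
  have hk0 : 0 ≤ ‖D‖⁻¹ ^ κ := pow_nonneg hq0 _
  suffices key : ∀ m j : ℕ, B.natDegree < j + m → w < 2 * (a + j) →
      ‖B.coeff j‖ ≤ ‖D‖⁻¹ ^ κ from key (B.natDegree + 1) j (by omega) hj
  intro m
  induction m with
  | zero =>
    intro j hm _
    rw [coeff_eq_zero_of_natDegree_lt (by omega), norm_zero]
    exact hk0
  | succ m ih =>
    intro j hm hj
    have h1 : F.coeff (a + j) = 0 := coeff_eq_zero_of_natDegree_lt (by omega)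
    have h2 : (A * B).coeff (a + j) = (TT D w F).coeff (a + j) := by
      rw [h, coeff_add, h1, zero_add]
    have hmem : ((a, j) : ℕ × ℕ) ∈ antidiagonal (a + j) := by
      rw [HasAntidiagonal.mem_antidiagonal]
    have hlead : A.coeff a = 1 := by
      rw [← ha]
      exact hA.coeff_natDegree
    rw [coeff_mul, ← Finset.add_sum_erase _ _ hmem] at h2
    simp only at h2
    rw [hlead, one_mul] at h2
    rw [eq_sub_of_add_eq h2, sub_eq_add_neg]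
    refine (IsUltrametricDist.norm_add_le_max _ _).trans (max_le (hT _) ?_)
    rw [norm_neg]
    refine IsUltrametricDist.norm_sum_le_of_forall_le_of_nonneg hk0 fun x hx => ?_
    rw [Finset.mem_erase, HasAntidiagonal.mem_antidiagonal] at hx
    obtain ⟨hx1, hx2⟩ := hx
    rcases lt_trichotomy x.1 a with hlt | heq | hgt
    · rw [norm_mul]
      calc ‖A.coeff x.1‖ * ‖B.coeff x.2‖ ≤ 1 * ‖D‖⁻¹ ^ κ :=
            mul_le_mul (hAn _) (ih x.2 (by omega) (by omega)) (norm_nonneg _) zero_le_one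
        _ = ‖D‖⁻¹ ^ κ := one_mul _
    · exact absurd (Prod.ext heq (by simp only; omega)) hx1
    · rw [coeff_eq_zero_of_natDegree_lt (by omega : A.natDegree < x.1), zero_mul, norm_zero]
      exact hk0

end Pool.Agent.ZL
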