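import Pool.Agent.Work.MP_b19acb_nt.Defs

/-!
# KapEE (S-M): the functions κ(a) = (a + 2^{v(a)})/2 and E(a) = 2^{⌊log₂ κ(a)⌋}

`a + 2^{v(a)}` is even for `a ≥ 1` (if `a` is odd both are odd; if `a` is even, `2 ∣ a` and
`v(a) ≥ 1`).  `kap_odd`: `padicValNat 2 (2n+1) = 0`.  `kap_two_mul`: `v(2a) = v(a)+1`.
`EE_two_mul`: `Nat.log 2 (2κ) = Nat.log 2 κ + 1` for `κ ≥ 1`.
`kap_pow`: `κ(2^v) = 2^v`.
`kap_lt_pow`: if `1 ≤ a < 2^e` then `a + 2^{v(a)} ≤ 2^e`: `2^{v(a)} ∣ a`, `2^{v(a)} ∣ 2^e` (as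
`2^{v(a)} ≤ a < 2^e`), so `2^e - a` is a positive multiple of `2^{v(a)}`.
`eq_of_kap`: if `a < 2^e`, `2^(e-1) ≤ κ(a)` then `2^e ≤ a + 2^{v(a)}`, so equality.
-/

namespace Pool.Agent.ZL

private theorem kap_aux {a : ℕ} (ha : 1 ≤ a) :
    ∃ m, a = 2 ^ padicValNat 2 a * (2 * m + 1) := by
  obtain ⟨k, hk⟩ : 2 ^ padicValNat 2 a ∣ a := pow_padicValNat_dvd
  have hodd : ¬ 2 ∣ k := by
    rintro ⟨j, rfl⟩
    have h1 : ¬ 2 ^ (padicValNat 2 a + 1) ∣ a := pow_succ_padicValNat_not_dvd (by omega)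
    apply h1
    rw [hk.symm.symm]
    refine ⟨j, ?_⟩
    nth_rewrite 1 [hk]
    rw [pow_succ]
    ring
  exact ⟨k / 2, by
    have : k = 2 * (k / 2) + 1 := by omega
    rw [← this]
    exact hk⟩

theorem two_mul_kap {a : ℕ} (ha : 1 ≤ a) : 2 * kap a = a + 2 ^ padicValNat 2 a := by
  obtain ⟨m, hm⟩ := kap_aux ha
  unfold kap
  have : a + 2 ^ padicValNat 2 a = 2 * (2 ^ padicValNat 2 a * (m + 1)) := by
    nth_rewrite 1 [hm]
    ring
  omega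

theorem kap_pos {a : ℕ} (ha : 1 ≤ a) : 1 ≤ kap a := by
  have h := two_mul_kap ha
  have h1 : 1 ≤ 2 ^ padicValNat 2 a := Nat.one_le_two_pow
  omega

private theorem pow_le_self {a : ℕ} (ha : 1 ≤ a) : 2 ^ padicValNat 2 a ≤ a :=
  Nat.le_of_dvd ha pow_padicValNat_dvd

theorem kap_le {a : ℕ} (ha : 1 ≤ a) : kap a ≤ a := by
  have h := two_mul_kap ha
  have h1 := pow_le_self ha
  omega

theorem kap_odd (n : ℕ) : kap (2 * n + 1) = n + 1 := by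
  have h := two_mul_kap (a := 2 * n + 1) (by omega)
  have h1 : padicValNat 2 (2 * n + 1) = 0 := padicValNat.eq_zero_of_not_dvd (by omega)
  rw [h1, pow_zero] at h
  omega

private theorem val_two_mul {a : ℕ} (ha : 1 ≤ a) :
    padicValNat 2 (2 * a) = padicValNat 2 a + 1 := by
  have : Fact (Nat.Prime 2) := ⟨Nat.prime_two⟩
  rw [padicValNat.mul (by norm_num) (by omega), padicValNat_self, add_comm]

theorem kap_two_mul {a : ℕ} (ha : 1 ≤ a) : kap (2 * a) = 2 * kap a := by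
  have h := two_mul_kap (a := 2 * a) (by omega)
  have h1 := two_mul_kap ha
  rw [val_two_mul ha, pow_succ] at h
  omega

theorem EE_le_kap {a : ℕ} (ha : 1 ≤ a) : EE a ≤ kap a :=
  Nat.pow_log_le_self 2 (by have := kap_pos ha; omega)

theorem EE_pos (a : ℕ) : 1 ≤ EE a := Nat.one_le_two_pow

theorem EE_two_mul {a : ℕ} (ha : 1 ≤ a) : EE (2 * a) = 2 * EE a := by
  unfold EE
  rw [kap_two_mul ha, mul_comm 2 (kap a), Nat.log_mul_base (by norm_num)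
    (by have := kap_pos ha; omega), pow_succ, mul_comm]

theorem EE_odd (n : ℕ) : EE (2 * n + 1) = 2 ^ Nat.log 2 (n + 1) := by
  unfold EE
  rw [kap_odd]

theorem kap_pow (v : ℕ) : kap (2 ^ v) = 2 ^ v := by
  have : Fact (Nat.Prime 2) := ⟨Nat.prime_two⟩
  have h := two_mul_kap (a := 2 ^ v) Nat.one_le_two_pow
  rw [padicValNat.prime_pow] at h
  omega

theorem EE_pow (v : ℕ) : EE (2 ^ v) = 2 ^ v := by
  unfold EE
  rw [kap_pow, Nat.log_pow (by norm_num)]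

private theorem val_le {a e : ℕ} (ha : 1 ≤ a) (hae : a < 2 ^ e) : padicValNat 2 a < e := by
  have h := pow_le_self ha
  by_contra h1
  have h2 : 2 ^ e ≤ 2 ^ padicValNat 2 a := Nat.pow_le_pow_right (by norm_num) (not_lt.1 h1)
  omega

theorem kap_lt_pow {a e : ℕ} (ha : 1 ≤ a) (hae : a < 2 ^ e) : 2 * kap a ≤ 2 ^ e := by
  rw [two_mul_kap ha]
  have h1 : padicValNat 2 a < e := val_le ha hae
  have h2 : 2 ^ padicValNat 2 a ∣ 2 ^ e := pow_dvd_pow 2 h1.le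
  have h3 : 2 ^ padicValNat 2 a ∣ 2 ^ e - a := Nat.dvd_sub h2 pow_padicValNat_dvd
  have h4 := Nat.le_of_dvd (by omega) h3
  omega

/-- if `a < 2^(e+1)` and `2^e ≤ E(a)` then `a = 2^(e+1) - 2^v`, `v = v_2(a) ≤ e` -/
theorem eq_of_EE {a e : ℕ} (ha : 1 ≤ a) (hae : a < 2 ^ (e + 1)) (hE : 2 ^ e ≤ EE a) :
    a = 2 ^ (e + 1) - 2 ^ padicValNat 2 a ∧ padicValNat 2 a ≤ e ∧ kap a = 2 ^ e := by
  have h1 := kap_lt_pow ha hae
  have h2 := EE_le_kap ha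
  have h3 := two_mul_kap ha
  have h4 := val_le ha hae
  rw [pow_succ] at h1 ⊢
  refine ⟨by omega, by omega, by omega⟩

end Pool.Agent.ZL
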