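import Pool.Agent.Work.MP_b19acb_nt.LeadA
import Pool.Agent.Work.MP_b19acb_nt.KapEE

/-!
# LeadG (M): A_a modulo powers of (u, δ), general a

`leadA`: strong induction on `a`: odd `a = 2n+1`: `leadA_odd`, `kap_odd`, `EE_odd`.  Even `a = 2b`:
`AA (2b) = (AA b)^2` (`AA_two`), `kap (2b) = 2 kap b`, `EE (2b) = 2 EE b`,
`(C δ^(κ-E) X^E)^2 = C δ^(2κ-2E) X^(2E)`, and `Jn_sq_sub` gives `J_{2(κ(b)+1)} ⊂ J_{2κ(b)+1}`.

Consequences (`q = ‖D‖⁻¹ < 1`, `κ = kap a`, `E = EE a ≤ κ`):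
`leadA_coeff`: `‖(AA a).coeff E‖ = q^(κ-E)` (the difference with `δ^(κ-E)` is `≤ q^(κ+1-E)`).
`leadA_J`: `AA a ∈ J_κ`.
`leadA_top`: for `0 < ρ`, `ρ ≤ q` and `j > E`: `‖(AA a).coeff j‖ ρ^j < ‖(AA a).coeff E‖ ρ^E`:
if `j ≤ κ`: `‖coeff j‖ ≤ q^(κ+1-j)` and
`q^(κ+1-j) ρ^j = q^(κ+1-j) ρ^(j-E) ρ^E ≤ q^(κ+1-j) q^(j-E) ρ^E = q^(κ+1-E) ρ^E < q^(κ-E) ρ^E`;
if `j > κ`: `‖coeff j‖ ≤ 1` (`J_{κ+1}` membership, `κ+1-j = 0`) and `ρ^(j-E) ≤ q^(j-E) < q^(κ-E)`.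
-/

namespace Pool.Agent.ZL

open Polynomial Finset

variable {K : Type*} [NormedField K] [IsUltrametricDist K] [CharP K 2] (D : K) (hD : 1 < ‖D‖)

include hD

private theorem qpos : 0 < ‖D‖⁻¹ := inv_pos.2 (lt_trans zero_lt_one hD)

private theorem qlt : ‖D‖⁻¹ < 1 := inv_lt_one_of_one_lt₀ hD

theorem leadA {a : ℕ} (ha : 1 ≤ a) :
    Jn ‖D‖⁻¹ (kap a + 1) (AA D a - C (D⁻¹ ^ (kap a - EE a)) * X ^ EE a) := by
  induction a using Nat.strong_induction_on with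
  | _ a ih =>
    obtain ⟨b, rfl | rfl⟩ := Nat.even_or_odd' a
    · have hb : 1 ≤ b := by omega
      have h := ih b (by omega) hb
      have h1 := Jn_sq_sub (qpos D hD).le (qlt D hD).le h
      have h2 : EE b ≤ kap b := EE_le_kap hb
      rw [AA_two D hb, kap_two_mul hb, EE_two_mul hb]
      have e : (C (D⁻¹ ^ (kap b - EE b)) * X ^ EE b : K[X]) ^ 2 =
          C (D⁻¹ ^ (2 * kap b - 2 * EE b)) * X ^ (2 * EE b) := by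
        rw [mul_pow, ← C_pow, ← pow_mul, ← pow_mul, mul_comm (EE b) 2,
          Nat.sub_mul, mul_comm (kap b) 2, mul_comm (EE b) 2]
      rw [e] at h1
      exact Jn_mono (qpos D hD).le (qlt D hD).le (by omega) h1
    · have h := leadA_odd D hD b
      rw [kap_odd, EE_odd]
      exact h

private theorem lead_mem {a : ℕ} (ha : 1 ≤ a) :
    Jn ‖D‖⁻¹ (kap a) (C (D⁻¹ ^ (kap a - EE a)) * X ^ EE a) := by
  have h1 : Jn ‖D‖⁻¹ (kap a - EE a) (C (D⁻¹ ^ (kap a - EE a))) :=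
    Jn_C (qpos D hD).le (by rw [norm_pow, norm_inv])
  have h := Jn_mul (qpos D hD).le (qlt D hD).le h1
    (Jn_X_pow (K := K) (qpos D hD).le (qlt D hD).le (EE a))
  rwa [Nat.sub_add_cancel (EE_le_kap ha)] at h

theorem leadA_J {a : ℕ} (ha : 1 ≤ a) : Jn ‖D‖⁻¹ (kap a) (AA D a) := by
  have h := Jn_add (qpos D hD).le
    (Jn_mono (qpos D hD).le (qlt D hD).le (Nat.le_succ _) (leadA D hD ha)) (lead_mem D hD ha)
  rwa [sub_add_cancel] at h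

theorem leadA_coeff {a : ℕ} (ha : 1 ≤ a) :
    ‖(AA D a).coeff (EE a)‖ = ‖D‖⁻¹ ^ (kap a - EE a) := by
  have h := leadA D hD ha (EE a)
  have h2 : EE a ≤ kap a := EE_le_kap ha
  rw [coeff_sub, coeff_C_mul, coeff_X_pow, if_pos rfl, mul_one] at h
  have h3 : ‖D⁻¹ ^ (kap a - EE a)‖ = ‖D‖⁻¹ ^ (kap a - EE a) := by
    rw [norm_pow, norm_inv]
  have h4 : ‖D‖⁻¹ ^ (kap a + 1 - EE a) < ‖D‖⁻¹ ^ (kap a - EE a) :=
    pow_lt_pow_right_of_lt_one₀ (qpos D hD) (qlt D hD) (by omega)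
  have e : (AA D a).coeff (EE a) =
      ((AA D a).coeff (EE a) - D⁻¹ ^ (kap a - EE a)) + D⁻¹ ^ (kap a - EE a) := by ring
  have h5 : ‖(AA D a).coeff (EE a) - D⁻¹ ^ (kap a - EE a)‖ < ‖D⁻¹ ^ (kap a - EE a)‖ := by
    rw [h3]
    exact lt_of_le_of_lt h h4
  rw [e, IsUltrametricDist.norm_add_eq_max_of_norm_ne_norm h5.ne, max_eq_right h5.le, h3]

theorem leadA_top {a : ℕ} (ha : 1 ≤ a) {ρ : ℝ} (hρ0 : 0 < ρ) (hρ : ρ ≤ ‖D‖⁻¹) {j : ℕ}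
    (hj : EE a < j) :
    ‖(AA D a).coeff j‖ * ρ ^ j < ‖(AA D a).coeff (EE a)‖ * ρ ^ EE a := by
  rw [leadA_coeff D hD ha]
  have h2 : EE a ≤ kap a := EE_le_kap ha
  have h := leadA D hD ha j
  rw [coeff_sub, coeff_C_mul, coeff_X_pow, if_neg (by omega), mul_zero, sub_zero] at h
  have e : ρ ^ j = ρ ^ (j - EE a) * ρ ^ EE a := by
    rw [← pow_add]
    congr 1
    omega
  have h3 : ρ ^ (j - EE a) ≤ ‖D‖⁻¹ ^ (j - EE a) := pow_le_pow_left₀ hρ0.le hρ _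
  have h4 : ‖(AA D a).coeff j‖ * ρ ^ (j - EE a) < ‖D‖⁻¹ ^ (kap a - EE a) := by
    calc ‖(AA D a).coeff j‖ * ρ ^ (j - EE a) ≤
        ‖D‖⁻¹ ^ (kap a + 1 - j) * ‖D‖⁻¹ ^ (j - EE a) :=
          mul_le_mul h h3 (pow_nonneg hρ0.le _) (pow_nonneg (qpos D hD).le _)
      _ = ‖D‖⁻¹ ^ (kap a + 1 - j + (j - EE a)) := (pow_add _ _ _).symm
      _ < ‖D‖⁻¹ ^ (kap a - EE a) :=
          pow_lt_pow_right_of_lt_one₀ (qpos D hD) (qlt D hD) (by omega)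
  rw [e, ← mul_assoc]
  exact mul_lt_mul_of_pos_right h4 (pow_pos hρ0 _)

end Pool.Agent.ZL
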