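import Pool.Agent.Work.MP_b19acb_nt.RootMax
import Pool.Agent.Work.MP_b19acb_nt.TTeval

/-!
# Level (M): a bound for the multiplicity of a root of norm ρ ≤ q

`q = ‖D‖⁻¹ < 1`, `δ = D⁻¹`; weighted norm `|F| = max_j ‖F_j‖ ρ^j`.

(1) `TT_level`: for `i ≥ 1`, `‖(T_w F)_i‖ ρ^i ≤ ρ * M` whenever `‖F_j‖ ρ^j ≤ M` for all `j`.
`T_w F = Σ_{j≤w/2} δ^j f_j X^(2j) (1+X)^(w-2j)`, binomial coefficients have norm `≤ 1`.  Term `j = 0` at
index `i ≥ 1`: `‖f_0‖ ρ^i ≤ M ρ`.  Term `j ≥ 1` at index `i ≥ 2j` (zero for `i < 2j`):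
`q^j ‖f_j‖ ρ^i ≤ q^j ‖f_j‖ ρ^(2j) ≤ q^j ρ^j M ≤ ρ M`.

(2) `level`: `A_E ≠ 0` (strict inequality in `hE` with `j = E+1`), so `A*B ≠ 0`; `F ≠ 0` (else
`T_w F = 0` and `A*B = 0`).  Suppose `E < f`.  By `root_max` there is `j ≥ f > E` with
`‖F_j‖ ρ^j = M := |F| > 0`.  For `i ≥ 1`: `(A*B)_i = (T_w F)_i - F_i`, so by (1)
`‖(A*B)_i‖ ρ^i ≤ M`, and for `i = j` it is `= M` (as `ρ M < M`).  Let `i₀` be an index where
`N := |A|` is attained; `i₀ ≥ 1` since `A_0 = 0`.  `‖(A*B)_{i₀}‖ ρ^(i₀) = N ‖B_0‖`: the terms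
`A_i B_{i₀-i}` with `i < i₀` have weighted norm `< N ‖B_0‖` by `hB`.  So `N ‖B_0‖ ≤ M`.  On the
other hand `(A*B)_j = Σ A_i B_{j-i}` has weighted norm `< N ‖B_0‖`: for `i > E` use `hE`
(`< ‖A_E‖ρ^E ≤ N`) and `‖B_{j-i}‖ρ^(j-i) ≤ ‖B_0‖`, for `i ≤ E < j` use `hB` (strict) and
`‖A_i‖ρ^i ≤ N`.  So `M < N ‖B_0‖ ≤ M`, a contradiction.
-/

namespace Pool.Agent.ZL

open Polynomial Finset

variable {K : Type*} [NormedField K] [IsUltrametricDist K] [CharP K 2] (D : K) (hD : 1 < ‖D‖)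

omit [CharP K 2] in
private theorem Lv_sum_lt {ι : Type*} (s : Finset ι) (f : ι → K) {r : ℝ} (hr : 0 < r)
    (h : ∀ i ∈ s, ‖f i‖ < r) : ‖∑ i ∈ s, f i‖ < r := by
  classical
  induction s using Finset.induction_on with
  | empty => simpa using hr
  | insert a s ha ih =>
    rw [Finset.sum_insert ha]
    refine (IsUltrametricDist.norm_add_le_max _ _).trans_lt (max_lt (h a (mem_insert_self a s))
      (ih fun i hi => h i (mem_insert_of_mem hi)))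

omit [CharP K 2] in
private theorem Lv_sum_le {ι : Type*} (s : Finset ι) (f : ι → K) {r : ℝ} (hr : 0 ≤ r)
    (h : ∀ i ∈ s, ‖f i‖ ≤ r) : ‖∑ i ∈ s, f i‖ ≤ r := by
  classical
  induction s using Finset.induction_on with
  | empty => simpa using hr
  | insert a s ha ih =>
    rw [Finset.sum_insert ha]
    refine (IsUltrametricDist.norm_add_le_max _ _).trans (max_le (h a (mem_insert_self a s))
      (ih fun i hi => h i (mem_insert_of_mem hi)))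

include hD

theorem TT_level {w : ℕ} {F : K[X]} {ρ M : ℝ} (hρ0 : 0 < ρ) (hρ : ρ ≤ ‖D‖⁻¹)
    (hM : ∀ j, ‖F.coeff j‖ * ρ ^ j ≤ M) {i : ℕ} (hi : 1 ≤ i) :
    ‖(TT D w F).coeff i‖ * ρ ^ i ≤ ρ * M := by
  have hq1 : ‖D‖⁻¹ < 1 := inv_lt_one_of_one_lt₀ hD
  have hq0 : 0 < ‖D‖⁻¹ := inv_pos.2 (zero_lt_one.trans hD)
  have hρ1 : ρ ≤ 1 := hρ.trans hq1.le
  have hM0 : 0 ≤ M := le_trans (by positivity) (hM 0)
  have hpi : 0 < ρ ^ i := pow_pos hρ0 i
  rw [← le_div_iff₀ hpi]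
  unfold TT
  rw [finsetSum_coeff]
  refine Lv_sum_le _ _ (by positivity) fun j _ => ?_
  rw [le_div_iff₀ hpi, mul_assoc, coeff_C_mul, coeff_X_pow_mul', coeff_one_add_X_pow]
  split_ifs with hji
  · have h1 : ‖((w - 2 * j).choose (i - 2 * j) : K)‖ ≤ 1 :=
      IsUltrametricDist.norm_natCast_le_one K _
    rw [norm_mul, norm_mul, norm_pow, norm_inv]
    have h2 : ‖D‖⁻¹ ^ j * ‖F.coeff j‖ * ‖((w - 2 * j).choose (i - 2 * j) : K)‖ * ρ ^ i ≤
        ‖D‖⁻¹ ^ j * ‖F.coeff j‖ * ρ ^ i := by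
      refine mul_le_mul_of_nonneg_right ?_ hpi.le
      exact mul_le_of_le_one_right (by positivity) h1
    refine h2.trans ?_
    rcases Nat.eq_zero_or_pos j with rfl | hj
    · have h3 : ρ ^ i ≤ ρ := pow_le_of_le_one hρ0.le hρ1 (by omega)
      have h4 := hM 0
      rw [pow_zero, mul_one] at h4
      rw [pow_zero, one_mul]
      calc ‖F.coeff 0‖ * ρ ^ i ≤ M * ρ := mul_le_mul h4 h3 hpi.le hM0
        _ = ρ * M := mul_comm _ _
    · have h3 : ρ ^ i ≤ ρ ^ (2 * j) := pow_le_pow_of_le_one hρ0.le hρ1 hji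
      have h4 : ρ ^ (2 * j) = ρ ^ j * ρ ^ j := by rw [two_mul, pow_add]
      have h5 : ‖D‖⁻¹ ^ j ≤ 1 := pow_le_one₀ hq0.le hq1.le
      have h6 : ρ ^ j ≤ ρ := pow_le_of_le_one hρ0.le hρ1 (by omega)
      calc ‖D‖⁻¹ ^ j * ‖F.coeff j‖ * ρ ^ i ≤ ‖D‖⁻¹ ^ j * ‖F.coeff j‖ * (ρ ^ j * ρ ^ j) := by
            rw [← h4]
            exact mul_le_mul_of_nonneg_left h3 (by positivity)
        _ = ‖D‖⁻¹ ^ j * (ρ ^ j * (‖F.coeff j‖ * ρ ^ j)) := by ring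
        _ ≤ 1 * (ρ * M) := by
            refine mul_le_mul h5 (mul_le_mul h6 (hM j) (by positivity) hρ0.le) (by positivity)
              zero_le_one
        _ = ρ * M := one_mul _
  · rw [mul_zero, norm_zero, zero_mul]
    positivity

theorem level {w : ℕ} {F A B : K[X]} (h : TT D w F = F + A * B) (hA0 : A.coeff 0 = 0) {ρ : ℝ}
    (hρ0 : 0 < ρ) (hρ : ρ ≤ ‖D‖⁻¹) {E : ℕ}
    (hE : ∀ j, E < j → ‖A.coeff j‖ * ρ ^ j < ‖A.coeff E‖ * ρ ^ E)
    (hB0 : B.coeff 0 ≠ 0) (hB : ∀ k, 1 ≤ k → ‖B.coeff k‖ * ρ ^ k < ‖B.coeff 0‖)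
    {a : K} (ha : ‖a‖ = ρ) {f : ℕ} (hf : (X + C a) ^ f ∣ F) : f ≤ E := by
  have hq1 : ‖D‖⁻¹ < 1 := inv_lt_one_of_one_lt₀ hD
  have hρ1 : ρ < 1 := hρ.trans_lt hq1
  by_contra hfE
  push Not at hfE
  have hAE : 0 < ‖A.coeff E‖ * ρ ^ E :=
    lt_of_le_of_lt (by positivity) (hE (E + 1) (Nat.lt_succ_self E))
  have hB0' : 0 < ‖B.coeff 0‖ := norm_pos_iff.2 hB0
  have hA : A ≠ 0 := by
    rintro rfl
    simp at hAE
  have hBne : B ≠ 0 := by
    rintro rfl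
    simp at hB0
  have hF : F ≠ 0 := by
    rintro rfl
    have h1 : TT D w (0 : K[X]) = 0 := by
      unfold TT
      refine Finset.sum_eq_zero fun j _ => ?_
      simp
    rw [h1, zero_add] at h
    exact mul_ne_zero hA hBne h.symm
  obtain ⟨j, hfj, hj⟩ := root_max hF hρ0 ha hf
  set M : ℝ := ‖F.coeff j‖ * ρ ^ j with hMdef
  have hM0 : 0 < M := by
    have h1 : 0 < ‖F.coeff F.natDegree‖ * ρ ^ F.natDegree := by
      have h2 : F.coeff F.natDegree ≠ 0 := by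
        rw [coeff_natDegree]
        exact leadingCoeff_ne_zero.2 hF
      exact mul_pos (norm_pos_iff.2 h2) (pow_pos hρ0 _)
    exact h1.trans_le (hj _)
  -- the coefficients of `A * B`
  have hAB : ∀ i, (A * B).coeff i = (TT D w F).coeff i - F.coeff i := by
    intro i
    rw [h, coeff_add, add_sub_cancel_left]
  have hABle : ∀ i, 1 ≤ i → ‖(A * B).coeff i‖ * ρ ^ i ≤ M := by
    intro i hi
    have h1 := TT_level D hD (w := w) hρ0 hρ hj hi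
    have h2 : ‖(A * B).coeff i‖ ≤ max ‖(TT D w F).coeff i‖ ‖F.coeff i‖ := by
      rw [hAB, sub_eq_add_neg]
      refine (IsUltrametricDist.norm_add_le_max _ _).trans ?_
      rw [norm_neg]
    have h3 : ‖(A * B).coeff i‖ * ρ ^ i ≤
        max (‖(TT D w F).coeff i‖ * ρ ^ i) (‖F.coeff i‖ * ρ ^ i) := by
      rw [← max_mul_of_nonneg _ _ (pow_pos hρ0 i).le]
      exact mul_le_mul_of_nonneg_right h2 (pow_pos hρ0 i).le
    refine h3.trans (max_le (h1.trans ?_) (hj i))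
    nlinarith
  have hABj : ‖(A * B).coeff j‖ * ρ ^ j = M := by
    have h1 := TT_level D hD (w := w) hρ0 hρ hj (i := j) (by omega)
    have h2 : ‖(TT D w F).coeff j‖ * ρ ^ j < ‖F.coeff j‖ * ρ ^ j :=
      h1.trans_lt (by rw [← hMdef]; nlinarith)
    have h3 : ‖(TT D w F).coeff j‖ < ‖F.coeff j‖ := lt_of_mul_lt_mul_right h2 (pow_pos hρ0 j).le
    have h4 : ‖(TT D w F).coeff j - F.coeff j‖ = ‖F.coeff j‖ := by
      rw [sub_eq_add_neg, IsUltrametricDist.norm_add_eq_max_of_norm_ne_norm, norm_neg,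
        max_eq_right h3.le]
      rw [norm_neg]
      exact h3.ne
    rw [hAB, h4]
  -- the maximum of `A`
  obtain ⟨m, hm, hmax⟩ := Finset.exists_max_image (range (E + 1))
    (fun i => ‖A.coeff i‖ * ρ ^ i) ⟨0, by simp⟩
  set N : ℝ := ‖A.coeff m‖ * ρ ^ m with hN
  have hEN : ‖A.coeff E‖ * ρ ^ E ≤ N := hmax E (by simp)
  have hN0 : 0 < N := hAE.trans_le hEN
  have hAle : ∀ i, ‖A.coeff i‖ * ρ ^ i ≤ N := by
    intro i
    by_cases hi : i ≤ E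
    · exact hmax i (mem_range.2 (by omega))
    · exact (hE i (by omega)).le.trans hEN
  have hm1 : 1 ≤ m := by
    rcases Nat.eq_zero_or_pos m with h1 | h1
    · rw [hN, h1, hA0, norm_zero, zero_mul] at hN0
      exact absurd hN0 (lt_irrefl _)
    · exact h1
  have hBle : ∀ k, ‖B.coeff k‖ * ρ ^ k ≤ ‖B.coeff 0‖ := by
    intro k
    rcases Nat.eq_zero_or_pos k with rfl | hk
    · rw [pow_zero, mul_one]
    · exact (hB k hk).le
  have hterm : ∀ p q : ℕ, ‖A.coeff p * B.coeff q‖ * ρ ^ (p + q) =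
      (‖A.coeff p‖ * ρ ^ p) * (‖B.coeff q‖ * ρ ^ q) := by
    intro p q
    rw [norm_mul, pow_add]
    ring
  have hterm1 : ∀ p q : ℕ, 1 ≤ q → ‖A.coeff p * B.coeff q‖ * ρ ^ (p + q) < N * ‖B.coeff 0‖ := by
    intro p q hq
    rw [hterm]
    calc (‖A.coeff p‖ * ρ ^ p) * (‖B.coeff q‖ * ρ ^ q) ≤ N * (‖B.coeff q‖ * ρ ^ q) :=
          mul_le_mul_of_nonneg_right (hAle p) (by positivity)
      _ < N * ‖B.coeff 0‖ := mul_lt_mul_of_pos_left (hB q hq) hN0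
  have hterm2 : ∀ p q : ℕ, E < p → ‖A.coeff p * B.coeff q‖ * ρ ^ (p + q) < N * ‖B.coeff 0‖ := by
    intro p q hp
    rw [hterm]
    calc (‖A.coeff p‖ * ρ ^ p) * (‖B.coeff q‖ * ρ ^ q)
        ≤ (‖A.coeff p‖ * ρ ^ p) * ‖B.coeff 0‖ :=
          mul_le_mul_of_nonneg_left (hBle q) (by positivity)
      _ < N * ‖B.coeff 0‖ := mul_lt_mul_of_pos_right ((hE p hp).trans_le hEN) hB0'
  have hNB : 0 < N * ‖B.coeff 0‖ := mul_pos hN0 hB0'
  -- upper bound at `j`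
  have hup : ‖(A * B).coeff j‖ * ρ ^ j < N * ‖B.coeff 0‖ := by
    rw [← lt_div_iff₀ (pow_pos hρ0 j), coeff_mul]
    refine Lv_sum_lt _ _ (div_pos hNB (pow_pos hρ0 j)) fun q hq => ?_
    have hq' := mem_antidiagonal.1 hq
    rw [lt_div_iff₀ (pow_pos hρ0 j), ← hq']
    by_cases hq1 : 1 ≤ q.2
    · exact hterm1 _ _ hq1
    · exact hterm2 _ _ (by omega)
  -- lower bound at `m`
  have hlow : N * ‖B.coeff 0‖ ≤ ‖(A * B).coeff m‖ * ρ ^ m := by
    have h1 : (A * B).coeff m = A.coeff m * B.coeff 0 +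
        ∑ q ∈ (antidiagonal m).erase (m, 0), A.coeff q.1 * B.coeff q.2 := by
      have hmem : ((m, 0) : ℕ × ℕ) ∈ antidiagonal m := by simp
      rw [coeff_mul, Finset.add_sum_erase _ (fun q : ℕ × ℕ => A.coeff q.1 * B.coeff q.2) hmem]
    have h2 : ‖∑ q ∈ (antidiagonal m).erase (m, 0), A.coeff q.1 * B.coeff q.2‖ <
        ‖A.coeff m * B.coeff 0‖ := by
      have h3 : ‖A.coeff m * B.coeff 0‖ = N * ‖B.coeff 0‖ / ρ ^ m := by
        rw [norm_mul, hN]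
        field_simp
      rw [h3]
      refine Lv_sum_lt _ _ (div_pos hNB (pow_pos hρ0 m)) fun q hq => ?_
      obtain ⟨hq1, hq2⟩ := mem_erase.1 hq
      have hq' := mem_antidiagonal.1 hq2
      rw [lt_div_iff₀ (pow_pos hρ0 m), ← hq']
      refine hterm1 _ _ ?_
      by_contra h0
      have h5 : q.2 = 0 := by omega
      exact hq1 (Prod.ext (by show q.1 = m; omega) h5)
    rw [h1, IsUltrametricDist.norm_add_eq_max_of_norm_ne_norm h2.ne', max_eq_left h2.le,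
      norm_mul, hN]
    exact le_of_eq (by ring)
  have h1 := hABle m hm1
  rw [hABj] at hup
  linarith

end Pool.Agent.ZL
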