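import Pool.Agent.Work.MP_b19acb_nt.TopOne
import Pool.Agent.Work.MP_b19acb_nt.Level
import Pool.Agent.Work.MP_b19acb_nt.Chain
import Pool.Agent.Work.MP_b19acb_nt.DegJ
import Pool.Agent.Work.MP_b19acb_nt.LeadG

/-!
# Dep2 (M): necessary conditions in depth 2

`w = a + b`, `F` the telescoping polynomial of `[a, b]`.  `hb := br_ne D hD`, `hinj := uu_inj D hD`.
By `TT_rel` (tail `[b]`, `B = BB D b`, `SSk_eq`) `TT D (a+b) F = F + AA D a * BB D b`
(`[b].sum = b`, `[a,b].sum = a + b`, simp).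
`dep2_top`: `top_rel` with `TopOne_BB`; `2 (a + (b - 2^k)) ≤ a + b` means `a + (b - 2^k) ≤ 2^k`,
`2^k ≤ b`, `k = Nat.log 2 b`.
`dep2_level`: `chain` with `m = 1`, `n 0 = b/2 + 1`, `n i = b/2^(i+1) + 1`
(`(b/2^(i+1) + 1 + 1)/2 = b/2^(i+2) + 1`): `natDegree F + n 0 ≤ w` as `2 natDegree F ≤ a + b`, `a ≥ 1`;
`natDegree (AA a * BB b) + n 0 ≤ a + (b-1)/2 + b/2 + 1 ≤ a + b`.  So `(X + C u_1)^(b/4 + 1) ∣ F`.
`level` with `ρ = ‖u_1‖ = q`, `E = EE a` (`leadA_top`), `B = BB b` (`BB_norm_zero`, `BB_norm_le`,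
`ρ^k < 1`): `b/4 + 1 ≤ EE a`.
`dep2_deg`: `TT_eval_zero`, `TT_norm` (coefficients of `AA a * BB b` have norm `≤ 1`: sums of
products), `deg_J` with `κ = kap a`: `AA a ∈ J_κ` (`leadA_J`), `BB b ∈ J_0`, `Jn_mul`; then `deg_B`.
-/

namespace Pool.Agent.ZL

open Polynomial Finset

variable {K : Type*} [NormedField K] [IsUltrametricDist K] [CharP K 2] (D : K) (hD : 1 < ‖D‖)

include hD

theorem dep2_rel {a b : ℕ} (ha : 1 ≤ a) (hb : 1 ≤ b) {F : K[X]} (hF : TelF D [a, b] F) :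
    TT D (a + b) F = F + AA D a * BB D b := by
  have h := TT_rel D (br_ne D hD) (uu_inj D hD) (s := [b]) (B := BB D b) ha hF (fun d hd => by
    rw [SSk_eq D (br_ne D hD) hd hb]
    simp)
  have e : [b].sum = b := by simp
  rw [e] at h
  exact h

private theorem d2_deg {a b : ℕ} (ha : 1 ≤ a) (hb : 1 ≤ b) :
    2 * (AA D a * BB D b).natDegree ≤ 2 * a + (b - 1) := by
  have h1 := natDegree_mul_le (p := AA D a) (q := BB D b)
  rw [AA_natDegree D ha] at h1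
  have h2 := BB_natDegree D hb
  omega

private theorem d2_F {a b : ℕ} {F : K[X]} (hF : TelF D [a, b] F) :
    2 * F.natDegree ≤ a + b := by
  have := hF.1
  simpa using this

theorem dep2_top {a b : ℕ} (ha : 1 ≤ a) (hb : 1 ≤ b) {F : K[X]} (hF : TelF D [a, b] F) :
    a + (b - 2 ^ Nat.log 2 b) ≤ 2 ^ Nat.log 2 b := by
  have h1 := BB_natDegree D hb
  have h2 := (top_rel D hD ha hb (d2_F D hD hF) (by omega) (TopOne_BB D hD hb)
    (dep2_rel D hD ha hb hF)).2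
  have h3 : 2 ^ Nat.log 2 b ≤ b := Nat.pow_log_le_self 2 (by omega)
  omega

theorem dep2_level {a b : ℕ} (ha : 1 ≤ a) (hb : 1 ≤ b) {F : K[X]} (hF : TelF D [a, b] F) :
    b + 1 ≤ 4 * EE a := by
  have hq0 : 0 < ‖D‖⁻¹ := inv_pos.2 (zero_lt_one.trans hD)
  have hq1 : ‖D‖⁻¹ < 1 := inv_lt_one_of_one_lt₀ hD
  have hrel := dep2_rel D hD ha hb hF
  have hF1 := d2_F D hD hF
  have hdeg := d2_deg D hD ha hb
  have hch := chain D (br_ne D hD) hF1 hrel (fun i => b / 2 ^ (i + 1) + 1) (fun i => by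
      have h1 : b / 2 ^ (i + 1 + 1) = b / 2 ^ (i + 1) / 2 := by
        rw [Nat.div_div_eq_div_mul, ← pow_succ]
      rw [h1]
      omega) (by norm_num; omega) (by norm_num; omega) (m := 1)
    (fun i h1 h2 => by omega) le_rfl le_rfl
  have hBB0 := BB_norm_zero D hD b
  have hlev := level D hD hrel (AA_coeff_zero D a) hq0 le_rfl
    (fun j hj => leadA_top D hD ha hq0 le_rfl hj)
    (fun h0 => by rw [h0, norm_zero] at hBB0; exact zero_ne_one hBB0)
    (fun k hk => by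
      rw [hBB0]
      calc ‖(BB D b).coeff k‖ * ‖D‖⁻¹ ^ k ≤ 1 * ‖D‖⁻¹ ^ k :=
            mul_le_mul_of_nonneg_right (BB_norm_le D hD b k) (by positivity)
        _ = ‖D‖⁻¹ ^ k := one_mul _
        _ < 1 := pow_lt_one₀ hq0.le hq1 (by omega))
    (a := uu D 1) (by
      rw [norm_uu D hD le_rfl]
      norm_num) hch
  norm_num at hlev
  omega

theorem dep2_deg {a b : ℕ} (ha : 1 ≤ a) (hb : 1 ≤ b) {F : K[X]} (hF : TelF D [a, b] F) {j : ℕ}
    (hj : b < a + 2 * j) : ‖(BB D b).coeff j‖ ≤ ‖D‖⁻¹ ^ kap a := by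
  have hq0 : 0 < ‖D‖⁻¹ := inv_pos.2 (zero_lt_one.trans hD)
  have hq1 : ‖D‖⁻¹ < 1 := inv_lt_one_of_one_lt₀ hD
  have hrel := dep2_rel D hD ha hb hF
  have hF1 := d2_F D hD hF
  have hdeg := d2_deg D hD ha hb
  have hB : Jn ‖D‖⁻¹ 0 (BB D b) := fun j => by
    rw [Nat.zero_sub, pow_zero]
    exact BB_norm_le D hD b j
  have hP : Jn ‖D‖⁻¹ (kap a) (AA D a * BB D b) := by
    have := Jn_mul hq0.le hq1.le (leadA_J D hD ha) hB
    rwa [add_zero] at this
  have hPn : ∀ j, ‖(AA D a * BB D b).coeff j‖ ≤ 1 := fun j =>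
    (hP j).trans (pow_le_one₀ hq0.le hq1.le)
  have hlt : (AA D a * BB D b).natDegree < a + b := by omega
  have hev := TT_eval_zero D hD (by omega) hF1 hlt hrel
  have hFn := fun j => (TT_norm D hD (by omega) hF1 hlt hrel hPn j).1
  have hT := deg_J D hD hF1 hrel hev hFn hP
  exact deg_B D hD hF1 hrel hT (AA_monic D ha) (AA_natDegree D ha)
    (fun j => AA_norm_le D hD ha j) (by omega)

end Pool.Agent.ZL
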