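import Pool.Agent.Work.MP_b19acb_nt.DomC
import Pool.Agent.Work.MP_b19acb_nt.Chain
import Pool.Agent.Work.MP_b19acb_nt.Level
import Pool.Agent.Work.MP_b19acb_nt.LeadG
import Pool.Agent.Work.MP_b19acb_nt.Rel

/-!
# Dep3 (M): a necessary condition in depth ≥ 3

`hb := br_ne D hD`, `hinj := uu_inj D hD`.  `b = t.sum = 2^e (2^M - 1)`, `w = a + b`, `r = M - j ≥ 1`,
`B = C c * (GE D M j)^(2^e)`, `p = AA D a * B`.  `TT_rel`: `TT D w F = F + p`.
`n i = (w + 2^(i+1) - 1)/2^(i+1) = ⌈w/2^(i+1)⌉`, `n (i+1) = (n i + 1)/2`.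
`chain` with `m = r`:
* `natDegree F + n 0 ≤ w` from `2 natDegree F ≤ w`;
* `natDegree p ≤ a + 2^e (2^(M-1) - 1)` (`AA_natDegree`, `GE_natDegree`) and, as `a ≤ 2^e`,
  `w ≤ 2^(e+M)`, `n 0 ≤ 2^(e+M-1)`, so the sum is `≤ a + 2^(e+M) - 2^e = w`;
* for `1 ≤ i < r`: `n i ≤ 2^(e+M-1-i)` and `(X + C u_i)^(2^(M-1-i) 2^e) ∣ GE^(2^e)` (`GE_dvd`).
So `(X + C u_r)^(n r) ∣ F`.  `level` with `ρ = ‖u_r‖ = q^(2^r-1) ≤ q` (`norm_uu`), `E = EE a`
(`leadA_top`, `AA_coeff_zero`), `Dom ρ B` (`Dom_GE`, `Dom.pow`, `Dom.C_mul`): `n r ≤ EE a`, and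
`w ≤ 2^(r+1) n r`.
-/

namespace Pool.Agent.ZL

open Polynomial Finset

/-- `⌈w/2^(i+1)⌉`, recursively -/
private def d3n (w : ℕ) : ℕ → ℕ
  | 0 => (w + 1) / 2
  | i + 1 => (d3n w i + 1) / 2

private theorem d3n_lower (w i : ℕ) : w ≤ 2 ^ (i + 1) * d3n w i := by
  induction i with
  | zero =>
    show w ≤ 2 ^ 1 * ((w + 1) / 2)
    omega
  | succ i ih =>
    show w ≤ 2 ^ (i + 1 + 1) * ((d3n w i + 1) / 2)
    have h1 : d3n w i ≤ 2 * ((d3n w i + 1) / 2) := by omega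
    calc w ≤ 2 ^ (i + 1) * d3n w i := ih
      _ ≤ 2 ^ (i + 1) * (2 * ((d3n w i + 1) / 2)) := Nat.mul_le_mul_left _ h1
      _ = _ := by rw [pow_succ 2 (i + 1)]; ring

private theorem d3n_upper (w : ℕ) {k : ℕ} (i : ℕ) (h : w ≤ 2 ^ (k + i + 1)) :
    d3n w i ≤ 2 ^ k := by
  induction i generalizing k with
  | zero =>
    show (w + 1) / 2 ≤ 2 ^ k
    rw [Nat.add_zero, pow_succ] at h
    omega
  | succ i ih =>
    show (d3n w i + 1) / 2 ≤ 2 ^ k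
    have h1 := ih (k := k + 1) (by
      rw [show k + 1 + i + 1 = k + (i + 1) + 1 by ring]
      exact h)
    rw [pow_succ] at h1
    omega

variable {K : Type*} [NormedField K] [IsUltrametricDist K] [CharP K 2] (D : K) (hD : 1 < ‖D‖)

include hD

theorem dep3 {a e M j : ℕ} {t : List ℕ} {c : K} {F : K[X]} (ha : 1 ≤ a) (hae : a ≤ 2 ^ e)
    (hj : j < M) (hc : c ≠ 0) (ht : TelF D t (C c * (GE D M j) ^ 2 ^ e))
    (hsum : t.sum = 2 ^ e * (2 ^ M - 1)) (hF : TelF D (a :: t) F) :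
    a + t.sum ≤ 2 ^ (M - j + 1) * EE a := by
  have hb := br_ne D hD
  have hinj := uu_inj D hD
  set w := a + t.sum with hw
  set B := C c * (GE D M j) ^ 2 ^ e with hB
  have hr : 1 ≤ M - j := by omega
  have hrel : TT D w F = F + AA D a * B := TT_rel D hb hinj ha hF ht.2
  have hF1 : 2 * F.natDegree ≤ w := by
    have := hF.1
    rwa [List.sum_cons] at this
  obtain ⟨N, rfl⟩ : ∃ N, M = N + 1 := ⟨M - 1, by omega⟩
  have hp1 : 1 ≤ 2 ^ (N + 1) := Nat.one_le_two_pow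
  have hp2 : 1 ≤ 2 ^ N := Nat.one_le_two_pow
  have hsum' : t.sum + 2 ^ e = 2 ^ (e + N + 1) := by
    rw [hsum, add_assoc e N 1, pow_add 2 e (N + 1), Nat.mul_sub, mul_one]
    have : 2 ^ e ≤ 2 ^ e * 2 ^ (N + 1) := Nat.le_mul_of_pos_right _ hp1
    omega
  have hw2 : w ≤ 2 ^ (e + N + 1) := by omega
  have hn0 : d3n w 0 ≤ 2 ^ (e + N) := d3n_upper w 0 hw2
  -- the degree of the right hand side
  have hGdeg : (GE D (N + 1) j).natDegree + 1 ≤ 2 ^ N := by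
    have := GE_natDegree D hb hj
    rw [Nat.add_sub_cancel] at this
    omega
  have hBdeg : B.natDegree + 2 ^ e ≤ 2 ^ (e + N) := by
    have h1 : B.natDegree ≤ 2 ^ e * (GE D (N + 1) j).natDegree :=
      (natDegree_C_mul_le _ _).trans natDegree_pow_le
    calc B.natDegree + 2 ^ e ≤ 2 ^ e * (GE D (N + 1) j).natDegree + 2 ^ e :=
          Nat.add_le_add_right h1 _
      _ = 2 ^ e * ((GE D (N + 1) j).natDegree + 1) := by ring
      _ ≤ 2 ^ e * 2 ^ N := Nat.mul_le_mul_left _ hGdeg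
      _ = 2 ^ (e + N) := by rw [pow_add]
  have hpdeg : (AA D a * B).natDegree + d3n w 0 ≤ w := by
    have h1 := natDegree_mul_le (p := AA D a) (q := B)
    rw [AA_natDegree D ha] at h1
    have h2 : 2 ^ (e + N + 1) = 2 * 2 ^ (e + N) := by rw [pow_succ]; ring
    omega
  have hFdeg : F.natDegree + d3n w 0 ≤ w := by
    show F.natDegree + (w + 1) / 2 ≤ w
    omega
  -- divisibility
  have hdiv : ∀ i, 1 ≤ i → i < N + 1 - j → (X + C (uu D i)) ^ d3n w i ∣ AA D a * B := by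
    intro i hi hir
    have h1 := GE_dvd D hb hi hir
    have h2 : d3n w i ≤ 2 ^ (N - i) * 2 ^ e := by
      rw [← pow_add]
      refine d3n_upper w i ?_
      rw [show N - i + e + i + 1 = e + N + 1 by omega]
      exact hw2
    rw [Nat.add_sub_cancel] at h1
    have h3 : (X + C (uu D i)) ^ (2 ^ (N - i) * 2 ^ e) ∣ (GE D (N + 1) j) ^ 2 ^ e := by
      rw [pow_mul]
      exact pow_dvd_pow_of_dvd h1 _
    exact ((pow_dvd_pow _ h2).trans h3).trans ((dvd_mul_left _ _).trans (dvd_mul_left _ _))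
  have hch := chain D hb hF1 hrel (d3n w) (fun i => rfl) hFdeg hpdeg hdiv hr le_rfl
  -- the level
  have hρ : ‖uu D (N + 1 - j)‖ = ‖D‖⁻¹ ^ (2 ^ (N + 1 - j) - 1) := norm_uu D hD hr
  have hq0 : 0 < ‖D‖⁻¹ := inv_pos.2 (zero_lt_one.trans hD)
  have hq1 : ‖D‖⁻¹ < 1 := inv_lt_one_of_one_lt₀ hD
  have hρ0 : 0 < ‖uu D (N + 1 - j)‖ := by
    rw [hρ]
    exact pow_pos hq0 _
  have hρ1 : ‖uu D (N + 1 - j)‖ ≤ ‖D‖⁻¹ := by
    rw [hρ]
    refine pow_le_of_le_one hq0.le hq1.le ?_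
    have := Nat.pow_le_pow_right (n := 2) (by norm_num) hr
    omega
  have hDom : Dom ‖uu D (N + 1 - j)‖ B :=
    Dom.C_mul (Dom.pow (norm_nonneg _) (Dom_GE D hD hj) _) hc
  have hlev : d3n w (N + 1 - j) ≤ EE a :=
    level D hD hrel (AA_coeff_zero D a) hρ0 hρ1 (fun i hi => leadA_top D hD ha hρ0 hρ1 hi)
      hDom.1 hDom.2 rfl hch
  exact (d3n_lower w (N + 1 - j)).trans (Nat.mul_le_mul_left _ hlev)

end Pool.Agent.ZL
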