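import Pool.Agent.Work.MP_b19acb_nt.BBcoef
import Pool.Agent.Work.MP_b19acb_nt.KapEE

/-!
# Fam2 (M-L): the classification in depth 2, arithmetic part

`k = Nat.log 2 b`, `b = 2^k + c`, `c < 2^k`, `h1 : a + c ≤ 2^k`, `h2 : b + 1 ≤ 4 EE a`,
`h3 : ∀ j, b < a + 2j → ‖(BB b).coeff j‖ ≤ q^κ(a)`.

* `a = 2^k`: then `c = 0`, `[2^k, 2^k]` is `Fam.II k 1` (`geo (2^k) 1 = [2^k]`).  (For `k = 0`: `a ≤ 1`.)
* `a < 2^k` (so `k ≥ 1`): `4 EE a > 2^k` and `EE a` is a power of 2, so `2^(k-1) ≤ EE a`;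
  `eq_of_EE` with `e = k-1`: `a = 2^k - 2^v`, `v = v_2(a) ≤ k-1`, `κ(a) = 2^(k-1)`, so `c ≤ 2^v`.
* `c = 0`: `[2^k - 2^v, 2^k] = 2^v (2^(k-v) - 1, 2^(k-v))`: `Fam.I v (k-v) 1`.
* `c > 0`: let `f = v_2(c)`, `c = 2^f c'`, `c'` odd, `f ≤ v < k` (`2^f ≤ c ≤ 2^v`); `b = 2^f b'`,
  `b' = 2^k' + c'`, `k' = k - f`, `v' = v - f ≤ k' - 1`, `c' ≤ 2^v'`, `a = 2^f a'`, `a' = 2^k' - 2^v'`.
  `BB b = (BB b')^(2^f)` (`BB_two`, induction on `f`), the coefficient of index `2^f j` of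
  `G^(2^f)` is `(G_j)^(2^f)` (characteristic 2; e.g. `Polynomial.expand`/`frobenius`, or induction
  on `f` with `coeff (2 j) (G^2) = (coeff j G)^2`).  So `h3` gives:
  for `c' + 2^v' < 2 j`: `‖(BB b').coeff j‖^(2^f) ≤ q^(2^(k-1)) = (q^(2^(k'-1)))^(2^f)`, hence
  (h3') `‖(BB b').coeff j‖ ≤ q^(2^(k'-1))`.
* `k' = 1`: `v' = 0`, `c' = 1`: `[1,3]` times `2^f`: `Fam.III f 0`.
* `k' ≥ 2`.  `c' ≤ 2^(k'-1)` and `c'` is odd, so `c' + 1 ≤ 2^(k'-1)`.  Let `n = (c'+1)/2`, so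
  `n ≤ 2^(k'-2) < 2^(k'-1)` and `q^n > q^(2^(k'-1))`.
  - `C(c', n)` even: `BB_coeff_even` (with `k = k'-1`) at `j = 2^(k'-1)`: norm `q^n`, and
    `c' + 2^v' < 2^k'`: contradiction with (h3').
  - `C(c', n)` odd and `c' + 2 ≤ 2^(k'-1)` (then `<`, by parity, and `k' ≥ 3`): `BB_coeff_odd` at
    `j = 2^(k'-1) - 1`; `c' + 2^v' < 2^k' - 2`: if `v' = k'-1` because `c' + 2 < 2^(k'-1)`, if
    `v' ≤ k'-2` because `c' + 2^v' ≤ 2^(k'-1) < 2^k' - 2`.  Contradiction.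
  - remains `c' = 2^(k'-1) - 1`.  If `v' = k'-1`: `a' = 2^(k'-1)`, `b' = 3*2^(k'-1) - 1`:
    `Fam.V f (k'-1)`.  If `v' ≤ k'-2`: `2^(k'-1) - 1 ≤ 2^(k'-2)` forces `k' = 2`, `v' = 0`, `c' = 1`:
    `a' = 3`, `b' = 5`: `Fam.IV f`.
-/

namespace Pool.Agent.ZL

open Polynomial Finset

private theorem coeff_pow_two_pow {K : Type*} [Field K] [CharP K 2] (G : K[X]) (f j : ℕ) :
    (G ^ 2 ^ f).coeff (2 ^ f * j) = (G.coeff j) ^ 2 ^ f := by
  have : ExpChar K 2 := ExpChar.prime Nat.prime_two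
  rw [← map_iterateFrobenius_expand 2 G f, coeff_map, coeff_expand_mul' (pow_pos two_pos f),
    iterateFrobenius_def]

private theorem BB_two_pow {K : Type*} [Field K] [CharP K 2] (D : K) (f b : ℕ) :
    BB D (2 ^ f * b) = (BB D b) ^ 2 ^ f := by
  induction f with
  | zero => rw [pow_zero, one_mul, pow_one]
  | succ f ih => rw [pow_succ, mul_comm (2 ^ f) 2, mul_assoc, BB_two, ih, ← pow_mul, mul_comm 2]

variable {K : Type*} [NormedField K] [IsUltrametricDist K] [CharP K 2] (D : K) (hD : 1 < ‖D‖)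

include hD

theorem fam_two {a b : ℕ} (ha : 1 ≤ a) (hb : 1 ≤ b)
    (h1 : a + (b - 2 ^ Nat.log 2 b) ≤ 2 ^ Nat.log 2 b) (h2 : b + 1 ≤ 4 * EE a)
    (h3 : ∀ j, b < a + 2 * j → ‖(BB D b).coeff j‖ ≤ ‖D‖⁻¹ ^ kap a) : Fam [a, b] := by
  have hq0 : 0 < ‖D‖⁻¹ := inv_pos.2 (zero_lt_one.trans hD)
  have hq1 : ‖D‖⁻¹ < 1 := inv_lt_one_of_one_lt₀ hD
  have hk1 : 2 ^ Nat.log 2 b ≤ b := Nat.pow_log_le_self 2 (by omega)
  have hk2 : b < 2 ^ (Nat.log 2 b + 1) := Nat.lt_pow_succ_log_self (by norm_num) b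
  obtain ⟨k, hk⟩ : ∃ k, Nat.log 2 b = k := ⟨_, rfl⟩
  rw [hk] at h1 hk1 hk2
  obtain ⟨c, rfl⟩ : ∃ c, b = 2 ^ k + c := ⟨b - 2 ^ k, by omega⟩
  rw [Nat.add_sub_cancel_left] at h1
  rw [pow_succ] at hk2
  rcases Nat.lt_or_ge a (2 ^ k) with hak | hak
  swap
  · have hc : c = 0 := by omega
    have ha2 : a = 2 ^ k := by omega
    subst hc
    subst ha2
    exact Fam.II k 1 le_rfl
  obtain ⟨e, rfl⟩ : ∃ e, k = e + 1 := by
    rcases k with _ | e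
    · rw [pow_zero] at hak
      omega
    · exact ⟨e, rfl⟩
  have hE : 2 ^ e ≤ EE a := by
    unfold EE at h2 ⊢
    by_contra hc
    have h4 : Nat.log 2 (kap a) < e := (Nat.pow_lt_pow_iff_right (by norm_num)).1 (not_le.1 hc)
    have h5 : 2 ^ (Nat.log 2 (kap a) + 1) ≤ 2 ^ e := Nat.pow_le_pow_right (by norm_num) h4
    have h6 : 2 ^ (e + 1) = 2 ^ e * 2 := pow_succ _ _
    rw [pow_succ] at h5
    omega
  obtain ⟨hav, hve, hkap⟩ := eq_of_EE ha hak hE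
  obtain ⟨v, hv⟩ : ∃ v, padicValNat 2 a = v := ⟨_, rfl⟩
  rw [hv] at hav hve
  have hve2 : 2 ^ v ≤ 2 ^ (e + 1) := Nat.pow_le_pow_right (by norm_num) (by omega)
  have hcv : c ≤ 2 ^ v := by omega
  rcases Nat.eq_zero_or_pos c with rfl | hc
  · -- c = 0
    have h7 := Fam.I v (e + 1 - v) 1 (by omega) le_rfl
    have h8 : 2 ^ v * (2 ^ (e + 1 - v) - 1) = a := by
      rw [Nat.mul_sub, ← pow_add, Nat.add_sub_cancel' (by omega), mul_one]
      omega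
    have h9 : v + (e + 1 - v) = e + 1 := by omega
    rw [h8, h9] at h7
    exact h7
  -- c > 0
  obtain ⟨f, c', hc'odd, rfl⟩ := Nat.exists_eq_two_pow_mul_odd (n := c) (by omega)
  have hc'pos : 1 ≤ c' := hc'odd.pos
  have hfv : f ≤ v := by
    have h4 : 2 ^ f ≤ 2 ^ v := le_trans (Nat.le_mul_of_pos_right _ hc'pos) hcv
    exact (Nat.pow_le_pow_iff_right (by norm_num)).1 h4
  obtain ⟨v', rfl⟩ : ∃ v', v = f + v' := ⟨v - f, by omega⟩
  obtain ⟨K', rfl⟩ : ∃ K', e = f + K' := ⟨e - f, by omega⟩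
  have hv'K : v' ≤ K' := by omega
  have hpf : 0 < 2 ^ f := pow_pos two_pos f
  have hc'v : c' ≤ 2 ^ v' := by
    rw [pow_add] at hcv
    exact Nat.le_of_mul_le_mul_left hcv hpf
  have hvK2 : 2 ^ v' ≤ 2 ^ K' := Nat.pow_le_pow_right (by norm_num) hv'K
  have hK2 : 2 ^ (K' + 1) = 2 ^ K' * 2 := pow_succ _ _
  have hbf : 2 ^ (f + K' + 1) + 2 ^ f * c' = 2 ^ f * (2 ^ (K' + 1) + c') := by
    rw [mul_add, ← pow_add, add_assoc]
  have haf : a = 2 ^ f * (2 ^ (K' + 1) - 2 ^ v') := by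
    rw [hav, Nat.mul_sub, ← pow_add, ← pow_add, add_assoc]
  have h3' : ∀ j, c' + 2 ^ v' < 2 * j →
      ‖(BB D (2 ^ (K' + 1) + c')).coeff j‖ ≤ ‖D‖⁻¹ ^ 2 ^ K' := by
    intro j hj
    have h4 := h3 (2 ^ f * j) (by
      rw [hbf, haf]
      have h5 : 2 ^ f * (2 ^ (K' + 1) + c') < 2 ^ f * ((2 ^ (K' + 1) - 2 ^ v') + 2 * j) :=
        Nat.mul_lt_mul_of_pos_left (by omega) hpf
      calc 2 ^ f * (2 ^ (K' + 1) + c') < 2 ^ f * ((2 ^ (K' + 1) - 2 ^ v') + 2 * j) := h5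
        _ = 2 ^ f * (2 ^ (K' + 1) - 2 ^ v') + 2 * (2 ^ f * j) := by ring)
    rw [hbf, BB_two_pow, coeff_pow_two_pow, norm_pow, hkap, pow_add 2 f K',
      mul_comm (2 ^ f) (2 ^ K'), pow_mul] at h4
    exact le_of_pow_le_pow_left₀ hpf.ne' (pow_nonneg hq0.le _) h4
  rcases Nat.eq_zero_or_pos K' with rfl | hK
  · -- [1,3]
    have hv0 : v' = 0 := by omega
    subst hv0
    rw [pow_zero] at hc'v
    have hc1 : c' = 1 := by omega
    subst hc1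
    have h4 := Fam.III f 0
    have h5 : a = 2 ^ f := by
      rw [haf]
      norm_num
    have h6 : 2 ^ (f + 0 + 1) + 2 ^ f * 1 = 3 * 2 ^ f := by
      rw [hbf]
      ring
    rw [h5, h6]
    exact h4
  have hKeven : Even (2 ^ K') := (Nat.even_pow.2 ⟨even_two, by omega⟩)
  have hc'K : c' + 1 ≤ 2 ^ K' := by
    rcases hc'odd with ⟨m, hm⟩
    rcases hKeven with ⟨r, hr⟩
    omega
  obtain ⟨n, hn⟩ : ∃ n, 2 * n = c' + 1 := by
    rcases hc'odd with ⟨m, hm⟩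
    exact ⟨m + 1, by omega⟩
  have hqn : ‖D‖⁻¹ ^ 2 ^ K' < ‖D‖⁻¹ ^ n := pow_lt_pow_right_of_lt_one₀ hq0 hq1 (by omega)
  rcases Nat.even_or_odd (c'.choose n) with he | ho
  · exfalso
    have h4 := BB_coeff_even D hD hn hc'K he
    have h5 := h3' (2 ^ K') (by omega)
    rw [h4] at h5
    exact absurd h5 (not_le.2 hqn)
  rcases Nat.lt_or_ge (2 ^ K') (c' + 2) with hlt | hge
  swap
  · exfalso
    have h4 := BB_coeff_odd D hD hn hge ho
    have h5 := h3' (2 ^ K' - 1) (by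
      rcases hc'odd with ⟨m, hm⟩
      rcases hKeven with ⟨r, hr⟩
      omega)
    rw [h4] at h5
    exact absurd h5 (not_le.2 hqn)
  have hc'eq : c' = 2 ^ K' - 1 := by omega
  rcases Nat.eq_or_lt_of_le hv'K with rfl | hvlt
  · -- family V
    have h4 := Fam.V f v' hK
    have h5 : a = 2 ^ (f + v') := by
      rw [haf, hK2, pow_add]
      congr 1
      omega
    have h6 : 2 ^ (f + v' + 1) + 2 ^ f * c' = 2 ^ f * (3 * 2 ^ v' - 1) := by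
      rw [hbf, hK2]
      congr 1
      omega
    rw [h5, h6]
    exact h4
  · -- family IV
    obtain ⟨r, rfl⟩ : ∃ r, K' = r + 1 := ⟨K' - 1, by omega⟩
    have h4 : 2 ^ v' ≤ 2 ^ r := Nat.pow_le_pow_right (by norm_num) (by omega)
    have h5 : 2 ^ (r + 1) = 2 ^ r * 2 := pow_succ _ _
    have h6 : 2 ^ r ≤ 1 := by omega
    have h7 : r = 0 := by
      by_contra hr
      have : 2 ^ 1 ≤ 2 ^ r := Nat.pow_le_pow_right (by norm_num) (by omega)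
      omega
    subst h7
    have h8 : v' = 0 := by omega
    subst h8
    have h9 : c' = 1 := by omega
    subst h9
    have h10 := Fam.IV f
    have h11 : a = 3 * 2 ^ f := by
      rw [haf]
      norm_num
      ring
    have h12 : 2 ^ (f + (0 + 1) + 1) + 2 ^ f * 1 = 5 * 2 ^ f := by
      rw [hbf]
      ring
    rw [h11, h12]
    exact h10

end Pool.Agent.ZL
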