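import Pool.Agent.Work.MP_b19acb_nt.AB
import Pool.Agent.Work.MP_b19acb_nt.ABdeg
import Pool.Agent.Work.MP_b19acb_nt.Cc

/-!
# TelPhi (M): from Tel to TelF

`v_d = vv D d = X_d/x_d`; `hinj : vv D` injective; `u_d v_d = 1` for `d ≥ 1`.

`ps_vv`: `ps D d k = X_d^k A_k(u_d) = x_d^k v_d^k A_k(1/v_d)` and `v^k A_k(1/v) = G(v)`, where
`G = Σ_{1≤i≤k} (AA D k)_i X^(k-i)` (`AA_coeff_zero`, `AA_natDegree`), of degree `≤ k-1`
(for instance `G = (AA D k).reverse`, or this sum).

`phi_bound`: let `s` have entries `≥ 1` and all suffixes `Tel`; then there is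
`Φ` with `natDegree Φ ≤ s.sum`, `X^((s.sum+1)/2) ∣ Φ` and `SS D s d = x_d^(s.sum) Φ(v_d)` for all
`d ≥ 1`.  Induction on `s`; `s = []`: `Φ = 1`.  `s = a :: s'`: take `Φ` from `Tel` and `Φ'` for `s'` by
induction, `w = s.sum`, `G` from `ps_vv` with `k = a`.  For `d ≥ 1`, from
`SS D s (d+1) = SS D s d + ps D d a * SS D s' d`, `x_d = x_{d+1} D (v_d+1)` (`xx_eq_succ`) and
`v_{d+1} = D (v_d+1)^2` (`vv_succ`), dividing by `x_{d+1}^w`,
`Φ(D (v_d+1)^2) = (D (v_d+1))^w (Φ(v_d) + G(v_d) Φ'(v_d))`, for infinitely many `v_d`, so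
(*) `Φ.comp (C D * (X+1)^2) = (C D * (X+1))^w * (Φ + G * Φ')` as polynomials
(`Polynomial.eq_of_infinite_eval_eq`).
Degree: let `m = natDegree Φ` and suppose `m > w`; `natDegree (G Φ') ≤ a - 1 + s'.sum < w < m`, so the
right side of (*) has degree `w + m`, the left side `2 m` (`natDegree_comp`): contradiction.
Divisibility: `Φ = X^k Ψ` with `Ψ(0) ≠ 0` (if `Φ = 0` trivial), the left side of (*) is
`D^k (X+1)^(2k) Ψ(D (X+1)^2)` and is divisible by `(X+1)^w`, the last factor does not vanish at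
`X = -1 = 1`; so `w ≤ 2k` (substitute `X → X + 1` to see it as divisibility by powers of `X`, or use
`Polynomial.rootMultiplicity`).  `X^((w+1)/2) ∣ X^k`.

`telF_of_tel`: `F := Σ_{i ≤ w} Φ_i X^(w-i)` satisfies `v^w F(1/v) = Φ(v)`, its coefficient of index
`w - i` vanishes for `i < (w+1)/2`, so `2 natDegree F ≤ w`, and
`SS D s d = x_d^w Φ(v_d) = (x_d v_d)^w F(u_d) = X_d^w F(u_d)`.
`AT_of_tel`: induction on `s` (`(a :: s).drop (j+1) = s.drop j`).
-/

namespace Pool.Agent.ZL

open Polynomial Finset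

variable {K : Type*} [Field K] [CharP K 2] (D : K) (hb : ∀ i, br D (i + 1) ≠ 0)

include hb

theorem ps_vv {k : ℕ} (hk : 1 ≤ k) : ∃ G : K[X], G.natDegree ≤ k - 1 ∧
    ∀ d, 1 ≤ d → ps D d k = (xx D d) ^ k * G.eval (vv D d) := by
  refine ⟨∑ i ∈ range k, C ((AA D k).coeff (i + 1)) * X ^ (k - (i + 1)), ?_, ?_⟩
  · apply natDegree_sum_le_of_forall_le
    intro i _
    exact (natDegree_C_mul_X_pow_le _ _).trans (by omega)
  · intro d hd
    rw [ps_eq D hb hd hk]
    have hXX : XX D d = xx D d * vv D d := by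
      unfold vv
      rw [mul_div_cancel₀ _ (xx_ne_zero D hb d)]
    have huv := uu_mul_vv D hb hd
    rw [hXX, mul_pow, mul_assoc]
    congr 1
    have hdeg : (AA D k).natDegree < k + 1 := by
      rw [AA_natDegree D hk]
      exact Nat.lt_succ_self k
    rw [eval_eq_sum_range' hdeg, sum_range_succ', AA_coeff_zero, zero_mul, add_zero, mul_sum,
      eval_finset_sum]
    refine sum_congr rfl fun i hi => ?_
    have hik : i + 1 ≤ k := by
      have := mem_range.1 hi
      omega
    rw [eval_mul, eval_C, eval_pow, eval_X]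
    have e : (vv D d) ^ k = (vv D d) ^ (k - (i + 1)) * (vv D d) ^ (i + 1) := by
      rw [← pow_add, Nat.sub_add_cancel hik]
    rw [e]
    have e2 : (vv D d) ^ (i + 1) * (uu D d) ^ (i + 1) = 1 := by
      rw [← mul_pow, mul_comm, huv, one_pow]
    linear_combination (AA D k).coeff (i + 1) * (vv D d) ^ (k - (i + 1)) * e2

variable (hinj : Function.Injective (vv D))

include hinj

theorem phi_bound {s : List ℕ} (hs : ∀ a ∈ s, 1 ≤ a) (h : ∀ j, Tel D (s.drop j)) :
    ∃ Φ : K[X], Φ.natDegree ≤ s.sum ∧ X ^ ((s.sum + 1) / 2) ∣ Φ ∧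
      ∀ d, 1 ≤ d → SS D s d = (xx D d) ^ s.sum * Φ.eval (vv D d) := by
  induction s with
  | nil =>
    refine ⟨1, by simp, by simp, ?_⟩
    intro d _
    simp [SS]
  | cons a s' ih =>
    obtain ⟨Φ', hd', -, hS'⟩ := ih (fun b hb' => hs b (List.mem_cons_of_mem _ hb'))
      (fun j => by simpa using h (j + 1))
    obtain ⟨Φ, hΦ⟩ := h 0
    rw [List.drop_zero] at hΦ
    have ha : 1 ≤ a := hs a List.mem_cons_self
    obtain ⟨G, hG, hGS⟩ := ps_vv D hb ha
    have hD0 := D_ne_zero D hb
    set w := (a :: s').sum with hw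
    have hw' : w = a + s'.sum := by rw [hw, List.sum_cons]
    have key : ∀ d, 1 ≤ d → Φ.eval (D * (vv D d + 1) ^ 2) =
        (D * (vv D d + 1)) ^ w * (Φ.eval (vv D d) + G.eval (vv D d) * Φ'.eval (vv D d)) := by
      intro d hd
      have e1 : SS D (a :: s') (d + 1) = SS D (a :: s') d + ps D d a * SS D s' d := by
        simp only [SS]
        rw [sum_range_succ]
      rw [hΦ, hΦ, hGS d hd, hS' d hd, vv_succ D hb d] at e1
      have hx1 := xx_ne_zero D hb (d + 1)
      have e2 := xx_eq_succ D hb d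
      apply mul_left_cancel₀ (pow_ne_zero w hx1)
      have e3 : (xx D d) ^ w = (xx D (d + 1)) ^ w * (D * (vv D d + 1)) ^ w := by
        rw [← mul_pow, ← e2]
      have e4 : (xx D d) ^ a * (xx D d) ^ s'.sum = (xx D d) ^ w := by
        rw [← pow_add, hw']
      calc (xx D (d + 1)) ^ w * Φ.eval (D * (vv D d + 1) ^ 2)
          = (xx D d) ^ w * Φ.eval (vv D d) + (xx D d) ^ a * G.eval (vv D d) *
              ((xx D d) ^ s'.sum * Φ'.eval (vv D d)) := e1
        _ = (xx D d) ^ w * Φ.eval (vv D d) + ((xx D d) ^ a * (xx D d) ^ s'.sum) *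
              (G.eval (vv D d) * Φ'.eval (vv D d)) := by ring
        _ = _ := by rw [e4, e3]; ring
    have hpoly : Φ.comp (C D * (X + 1) ^ 2) = (C D * (X + 1)) ^ w * (Φ + G * Φ') := by
      apply eq_of_infinite_eval_eq
      have hinf : (Set.range fun d : ℕ => vv D (d + 1)).Infinite := by
        apply Set.infinite_range_of_injective
        intro x y hxy
        have := hinj hxy
        omega
      refine hinf.mono ?_
      rintro _ ⟨d, rfl⟩
      show eval (vv D (d + 1)) (Φ.comp (C D * (X + 1) ^ 2)) =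
        eval (vv D (d + 1)) ((C D * (X + 1)) ^ w * (Φ + G * Φ'))
      have := key (d + 1) (by omega)
      simpa [eval_comp] using this
    have hq : (C D * (X + 1) ^ 2 : K[X]).natDegree = 2 := by
      rw [natDegree_C_mul hD0, natDegree_pow]
      have : (X + 1 : K[X]).natDegree = 1 := by
        rw [← C_1, natDegree_X_add_C]
      rw [this]
    have hX1 : (X + 1 : K[X]) ≠ 0 := by
      rw [← C_1]
      exact X_add_C_ne_zero 1
    have hl : (C D * (X + 1) : K[X]).natDegree = 1 := by
      rw [natDegree_C_mul hD0, ← C_1, natDegree_X_add_C]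
    have hl0 : (C D * (X + 1) : K[X]) ≠ 0 := mul_ne_zero (C_ne_zero.2 hD0) hX1
    refine ⟨Φ, ?_, ?_, fun d _ => hΦ d⟩
    · by_contra hcon
      push Not at hcon
      have hGΦ : (G * Φ').natDegree < Φ.natDegree := by
        have h1 : (G * Φ').natDegree ≤ G.natDegree + Φ'.natDegree := natDegree_mul_le
        omega
      have hsum : (Φ + G * Φ').natDegree = Φ.natDegree :=
        natDegree_add_eq_left_of_natDegree_lt hGΦ
      have hne : (Φ + G * Φ') ≠ 0 := by
        intro h0
        rw [h0, natDegree_zero] at hsum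
        omega
      have h2 := congrArg natDegree hpoly
      rw [natDegree_comp, hq, natDegree_mul (pow_ne_zero _ hl0) hne, natDegree_pow, hl, hsum] at h2
      omega
    · by_cases hΦ0 : Φ = 0
      · rw [hΦ0]
        exact dvd_zero _
      · obtain ⟨Ψ, hΨ, hnd⟩ := exists_eq_pow_rootMultiplicity_mul_and_not_dvd Φ hΦ0 0
        rw [C_0, sub_zero] at hΨ hnd
        set k := rootMultiplicity 0 Φ with hk
        have hwk : w ≤ 2 * k := by
          by_contra hcon
          push Not at hcon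
          have e1 : Φ.comp (C D * (X + 1) ^ 2) =
              (X + 1) ^ (2 * k) * (C D ^ k * Ψ.comp (C D * (X + 1) ^ 2)) := by
            conv_lhs => rw [hΨ]
            rw [mul_comp, pow_comp, X_comp, mul_pow, ← pow_mul]
            ring
          have e2 : (X + 1 : K[X]) ^ (2 * k + 1) ∣ Φ.comp (C D * (X + 1) ^ 2) := by
            rw [hpoly, mul_pow]
            exact Dvd.dvd.mul_right (Dvd.dvd.mul_left (pow_dvd_pow _ hcon) _) _
          rw [e1, pow_succ] at e2
          have e3 := (mul_dvd_mul_iff_left (pow_ne_zero (2 * k) hX1)).1 e2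
          have e4 : (X + 1 : K[X]) = X - C (-1) := by
            rw [C_neg, C_1, sub_neg_eq_add]
          have e5 : eval (-1) (C D ^ k * Ψ.comp (C D * (X + 1) ^ 2)) = 0 := by
            have e3' : (X - C (-1) : K[X]) ∣ C D ^ k * Ψ.comp (C D * (X + 1) ^ 2) := by
              rw [← e4]; exact e3
            exact dvd_iff_isRoot.1 e3'
          rw [eval_mul, eval_comp] at e5
          have e6 : eval (-1) (C D * (X + 1) ^ 2 : K[X]) = 0 := by simp
          rw [e6, eval_pow, eval_C] at e5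
          rcases mul_eq_zero.1 e5 with h0 | h0
          · exact pow_ne_zero k hD0 h0
          · apply hnd
            rw [X_dvd_iff, coeff_zero_eq_eval_zero]
            exact h0
        rw [hΨ]
        exact Dvd.dvd.mul_right (pow_dvd_pow _ (by omega)) _

theorem telF_of_tel {s : List ℕ} (hs : ∀ a ∈ s, 1 ≤ a) (h : ∀ j, Tel D (s.drop j)) :
    ∃ F, TelF D s F := by
  obtain ⟨Φ, hdeg, hdvd, hS⟩ := phi_bound D hb hinj hs h
  set w := s.sum with hw
  have hcoeff : ∀ i, i < (w + 1) / 2 → Φ.coeff i = 0 := X_pow_dvd_iff.1 hdvd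
  refine ⟨∑ i ∈ range (w + 1), C (Φ.coeff i) * X ^ (w - i), ?_, ?_⟩
  · have h1 : (∑ i ∈ range (w + 1), C (Φ.coeff i) * X ^ (w - i)).natDegree ≤ w / 2 := by
      apply natDegree_sum_le_of_forall_le
      intro i _
      by_cases hi : i < (w + 1) / 2
      · rw [hcoeff i hi]
        simp
      · exact (natDegree_C_mul_X_pow_le _ _).trans (by omega)
    rw [← hw]
    omega
  · intro d hd
    have hXX : XX D d = xx D d * vv D d := by
      unfold vv
      rw [mul_div_cancel₀ _ (xx_ne_zero D hb d)]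
    have huv := uu_mul_vv D hb hd
    rw [hS d hd, ← hw, hXX, mul_pow, mul_assoc]
    congr 1
    rw [eval_eq_sum_range' (Nat.lt_succ_of_le hdeg), eval_finset_sum, mul_sum]
    refine sum_congr rfl fun i hi => ?_
    have hik : i ≤ w := by
      have := mem_range.1 hi
      omega
    rw [eval_mul, eval_C, eval_pow, eval_X]
    have e : (vv D d) ^ w = (vv D d) ^ i * (vv D d) ^ (w - i) := by
      rw [← pow_add, Nat.add_sub_cancel' hik]
    rw [e]
    have e2 : (vv D d) ^ (w - i) * (uu D d) ^ (w - i) = 1 := by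
      rw [← mul_pow, mul_comm, huv, one_pow]
    linear_combination (-1) * Φ.coeff i * (vv D d) ^ i * e2

theorem AT_of_tel {s : List ℕ} (hs : ∀ a ∈ s, 1 ≤ a) (h : ∀ j, Tel D (s.drop j)) : AT D s := by
  induction s with
  | nil => trivial
  | cons a s' ih =>
    refine ⟨telF_of_tel D hb hinj hs h, ih (fun b hb' => hs b (List.mem_cons_of_mem _ hb')) ?_⟩
    intro j
    simpa using h (j + 1)

end Pool.Agent.ZL
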