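import Pool.Agent.Work.MP_b19acb_nt.TopOne
import Pool.Agent.Work.MP_b19acb_nt.Cc

/-!
# TopInd (M): the necessary condition at infinity

`hb := br_ne D hD`, `hinj := uu_inj D hD`.
`telF_unique`: `XX D d ≠ 0`, both values at `u_d`, `d ≥ 1`, agree; `poly_eq_of_uu`.
`telF_single`: `SSk_eq`, `BB_natDegree`.
`top_ind`: induction on `s`.  `[b]`: `F = BB D b` by uniqueness, `TopOne_BB`, length 1.
`a :: b :: s`: let `B` be the telescoping polynomial of `b :: s` (from `AT`), `TopOne B (cc (b::s))`
by induction, `TT_rel` gives `TT D (a + sum) F = F + AA D a * B`, and `top_rel`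
(`1 ≤ (b::s).sum` since `b ≥ 1`).
-/

namespace Pool.Agent.ZL

open Polynomial Finset

variable {K : Type*} [NormedField K] [IsUltrametricDist K] [CharP K 2] (D : K) (hD : 1 < ‖D‖)

include hD

theorem telF_unique {s : List ℕ} {F G : K[X]} (hF : TelF D s F) (hG : TelF D s G) : F = G := by
  refine poly_eq_of_uu D (uu_inj D hD) 1 fun d _ hd => ?_
  have hX := pow_ne_zero s.sum (XX_ne_zero D (br_ne D hD) hd)
  have h1 := hF.2 d hd
  rw [hG.2 d hd] at h1
  exact (mul_left_cancel₀ hX h1).symm

theorem telF_single {b : ℕ} (hb : 1 ≤ b) : TelF D [b] (BB D b) := by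
  refine ⟨?_, fun d hd => ?_⟩
  · rw [List.sum_singleton]
    have := BB_natDegree D hb
    omega
  · rw [List.sum_singleton]
    exact SSk_eq D (br_ne D hD) hd hb

theorem top_ind (s : List ℕ) (hs : s ≠ []) (hpos : ∀ a ∈ s, 1 ≤ a) (hAT : AT D s) {F : K[X]}
    (hF : TelF D s F) : TopOne F (cc s) ∧ (2 ≤ s.length → 2 * cc s ≤ s.sum) := by
  induction s generalizing F with
  | nil => exact absurd rfl hs
  | cons a s ih =>
    cases s with
    | nil =>
      have ha : 1 ≤ a := hpos a (List.mem_cons_self)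
      have h1 : F = BB D a := telF_unique D hD hF (telF_single D hD ha)
      refine ⟨?_, fun h => ?_⟩
      · rw [h1]
        exact TopOne_BB D hD ha
      · exfalso
        simp at h
    | cons b s =>
      obtain ⟨-, hAT2⟩ := hAT
      obtain ⟨⟨B, hB⟩, hAT3⟩ := hAT2
      have ha : 1 ≤ a := hpos a (List.mem_cons_self)
      have hb1 : 1 ≤ b := hpos b (List.mem_cons_of_mem _ List.mem_cons_self)
      have h1 := (ih (List.cons_ne_nil b s) (fun c hc => hpos c (List.mem_cons_of_mem _ hc))
        ⟨⟨B, hB⟩, hAT3⟩ hB).1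
      have h2 := TT_rel D (br_ne D hD) (uu_inj D hD) ha hF hB.2
      have h3 : 1 ≤ (b :: s).sum := by
        rw [List.sum_cons]
        omega
      have h4 := hF.1
      rw [List.sum_cons] at h4
      have h5 := top_rel D hD ha h3 h4 hB.1 h1 h2
      have h6 : cc (a :: b :: s) = a + cc (b :: s) := rfl
      refine ⟨?_, fun _ => ?_⟩
      · rw [h6]
        exact h5.1
      · rw [h6, List.sum_cons]
        exact h5.2

end Pool.Agent.ZL
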