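import Pool.Agent.Work.MP_b19acb_nt.TailF
import Pool.Agent.Work.MP_b19acb_nt.TopInd
import Pool.Agent.Work.MP_b19acb_nt.Dep2
import Pool.Agent.Work.MP_b19acb_nt.Dep3
import Pool.Agent.Work.MP_b19acb_nt.Fam2
import Pool.Agent.Work.MP_b19acb_nt.TelPhi

/-!
# Class (S-M): the classification of telescoping tuples

`hb := br_ne D hD`, `hinj := uu_inj D hD`, `vv_inj D hD`.

`fam_of_AT`: induction on `s`, `s = a :: t`, `t ≠ []`.
* `t = [b]`: `dep2_top`, `dep2_level`, `dep2_deg`, `fam_two`.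
* `t` of length `≥ 2`: `Fam t` by induction.  By `top_ind` `2 cc (a :: t) ≤ (a :: t).sum`, i.e.
  `2 a + 2 cc t ≤ a + t.sum`.  By `cc_fam` either `2 cc t = t.sum`, then `a ≤ 0`, impossible; or
  `TailT t e M j` and `2 cc t + 2^e = t.sum`, so `a ≤ 2^e`.  `tail_telF` and `dep3`:
  `a + t.sum ≤ 2^(M-j+1) EE a`, `t.sum = 2^e (2^M-1)` (`TailT.lt`), so `fam_three` applies, and
  `TailT.two`, `TailT.one` give `Fam (a :: t)`.
`classification`: `AT_of_tel`.
-/

namespace Pool.Agent.ZL

open Polynomial Finset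

variable {K : Type*} [NormedField K] [IsUltrametricDist K] [CharP K 2] (D : K) (hD : 1 < ‖D‖)

include hD

theorem fam_of_AT (s : List ℕ) (hs : ∀ a ∈ s, 1 ≤ a) (hl : 2 ≤ s.length) (h : AT D s) :
    Fam s := by
  induction s with
  | nil => simp at hl
  | cons a t ih =>
    have hb := br_ne D hD
    have ha : 1 ≤ a := hs a List.mem_cons_self
    have ht : ∀ b ∈ t, 1 ≤ b := fun b hb' => hs b (List.mem_cons_of_mem _ hb')
    have hAT := h
    obtain ⟨⟨F, hF⟩, hATt⟩ := h
    match t, ih, ht, hs, hl, hAT, hF, hATt with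
    | [], _, _, _, hl, _, _, _ => simp at hl
    | [b], _, ht, _, _, _, hF, _ =>
      have hb1 : 1 ≤ b := ht b List.mem_cons_self
      exact fam_two D hD ha hb1 (dep2_top D hD ha hb1 hF) (dep2_level D hD ha hb1 hF)
        (fun j hj => dep2_deg D hD ha hb1 hF hj)
    | b :: c :: t', ih, ht, hs, _, hAT, hF, hATt =>
      have hfam : Fam (b :: c :: t') := ih ht (by simp) hATt
      have htop := (top_ind D hD (a :: b :: c :: t') (by simp) hs hAT hF).2 (by simp)
      have hcc : cc (a :: b :: c :: t') = a + cc (b :: c :: t') := rfl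
      rw [hcc, List.sum_cons] at htop
      rcases cc_fam hfam with h1 | ⟨e, M, j, hT, h2⟩
      · omega
      · have hae : a ≤ 2 ^ e := by omega
        obtain ⟨hjM, hsum⟩ := hT.lt
        obtain ⟨k, hk, hTF⟩ := tail_telF D hb hT
        have h3 := dep3 D hD ha hae hjM hk hTF hsum hF
        rw [hsum] at h3
        rcases fam_three ha hae hjM h3 with ⟨rfl, hj⟩ | ⟨rfl, v, hv, rfl⟩
        · exact hT.two hj
        · exact hT.one hv

theorem classification {s : List ℕ} (hs : ∀ a ∈ s, 1 ≤ a) (hl : 2 ≤ s.length)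
    (h : ∀ j, Tel D (s.drop j)) : Fam s :=
  fam_of_AT D hD s hs hl (AT_of_tel D (br_ne D hD) (vv_inj D hD) hs h)

end Pool.Agent.ZL
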