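import Pool.Agent.Work.MP_b19acb_nt.FamDefs

/-!
# MP_b19acb: zeta-like multizeta tuples for q = 2: definitions

Everything on the algebraic side depends only on one element `D` (which is `θ^2 + θ` in the
application) of a field of characteristic 2.
-/

namespace Pool.Agent.ZL

open Polynomial Finset

/-! ### Two generating functions over a commutative ring -/

section Ring

variable {R : Type*} [CommRing R]

/-- The power series `c_0 z + c_1 z^2 + c_2 z^4 + ...`. -/
noncomputable def ser (c : ℕ → R) : PowerSeries R :=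
  PowerSeries.mk fun n => if n = 2 ^ Nat.log 2 n then c (Nat.log 2 n) else 0

/-- Coefficients of `1 / (1 + c_0 z + c_1 z^2 + c_2 z^4 + ...)`. -/
noncomputable def gg (c : ℕ → R) (n : ℕ) : R :=
  PowerSeries.coeff n (PowerSeries.invOfUnit (1 + ser c) 1)

/-- The power series `c_0 + c_1 z + c_2 z^3 + c_3 z^7 + ...`. -/
noncomputable def serQ (c : ℕ → R) : PowerSeries R :=
  PowerSeries.mk fun n => if n + 1 = 2 ^ Nat.log 2 (n + 1) then c (Nat.log 2 (n + 1)) else 0

/-- Coefficients of `1 / (c_0 + c_1 z + c_2 z^3 + c_3 z^7 + ...)`, for `c_0 = 1`. -/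
noncomputable def hh (c : ℕ → R) (n : ℕ) : R :=
  PowerSeries.coeff n (PowerSeries.invOfUnit (serQ c) 1)

end Ring

/-! ### Sequences over a field (of characteristic 2) -/

section Field

variable {K : Type*} [Field K]

/-- The bracket `[i] = θ^(2^i) - θ = D + D^2 + D^4 + ... + D^(2^(i-1))`, where `D = θ^2 + θ`. -/
noncomputable def br (D : K) (i : ℕ) : K := ∑ l ∈ range i, D ^ 2 ^ l

/-- `ℓ_d = [1][2]...[d]`. -/
noncomputable def ell (D : K) (d : ℕ) : K := ∏ i ∈ range d, br D (i + 1)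

/-- `x_d = 1/ℓ_d`, the power sum `S_d(1)`. -/
noncomputable def xx (D : K) (d : ℕ) : K := (ell D d)⁻¹

/-- `X_d = x_0 + ... + x_{d-1}`. -/
noncomputable def XX (D : K) (d : ℕ) : K := ∑ i ∈ range d, xx D i

/-- `u_d = x_d / X_d`. -/
noncomputable def uu (D : K) (d : ℕ) : K := xx D d / XX D d

/-- `v_d = X_d / x_d`. -/
noncomputable def vv (D : K) (d : ℕ) : K := XX D d / xx D d

/-- The coefficient `e_{d,i}` of `z^(2^i)` in the normalised additive polynomial `E_d` whose zeros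
are the polynomials of degree `< d`: `E_0 = z`, `E_{d+1} = E_d + x_d E_d^2`. -/
noncomputable def ee (D : K) : ℕ → ℕ → K
  | 0, 0 => 1
  | 0, _ + 1 => 0
  | _ + 1, 0 => 1
  | d + 1, i + 1 => ee D d (i + 1) + xx D d * (ee D d i) ^ 2

/-- The power sum `S_d(k)`, `k ≥ 1`: coefficient of `z^(k-1)` in `x_d / (1 + x_d E_d(z))`. -/
noncomputable def ps (D : K) (d k : ℕ) : K := xx D d * gg (fun i => xx D d * ee D d i) (k - 1)

/-- The multiple power sum `S_{<d}(s_1, ..., s_r)`, the sum over `d > d_1 > ... > d_r ≥ 0`. -/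
noncomputable def SS (D : K) : List ℕ → ℕ → K
  | [], _ => 1
  | k :: s, d => ∑ i ∈ range d, ps D i k * SS D s i

/-- `D_i = [i] D_{i-1}^2`. -/
noncomputable def DD (D : K) : ℕ → K
  | 0 => 1
  | i + 1 => br D (i + 1) * (DD D i) ^ 2

/-- `x_{d-i}^(2^i) / x_d` for `i ≤ d`, and `0` for `i > d`. -/
noncomputable def esh (D : K) (i d : ℕ) : K :=
  if i ≤ d then (xx D (d - i)) ^ 2 ^ i / xx D d else 0

/-! ### The polynomials in `u` -/

/-- The polynomials `ε_i(u)`: `e_{d,i} = X_d^(2^i-1) ε_i(u_d)`. -/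
noncomputable def eps (D : K) : ℕ → K[X]
  | 0 => 1
  | i + 1 => (C (D / br D (i + 1)) + C ((br D i) ^ 2 / br D (i + 1)) * X) * (eps D i) ^ 2

/-- `S_d(k) = X_d^k A_k(u_d)`. -/
noncomputable def AA (D : K) (k : ℕ) : K[X] := X * gg (fun i => X * eps D i) (k - 1)

/-- `S_{<d}(k) = X_d^k B_k(u_d)`. -/
noncomputable def BB (D : K) (b : ℕ) : K[X] := hh (eps D) b

/-- The operator `(T_w F)(u) = (1+u)^w F(u^2/(D(1+u)^2))` on polynomials of degree `≤ w/2`. -/
noncomputable def TT (D : K) (w : ℕ) (F : K[X]) : K[X] :=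
  ∑ j ∈ range (w / 2 + 1), C ((D⁻¹) ^ j * F.coeff j) * X ^ (2 * j) * (1 + X) ^ (w - 2 * j)

/-- `F` is the telescoping polynomial of the tuple `s`. -/
def TelF (D : K) (s : List ℕ) (F : K[X]) : Prop :=
  2 * F.natDegree ≤ s.sum ∧ ∀ d, 1 ≤ d → SS D s d = (XX D d) ^ s.sum * F.eval (uu D d)

/-- the tuple `s` telescopes (polynomial in `v = X/x`) -/
def Tel (D : K) (s : List ℕ) : Prop :=
  ∃ Φ : K[X], ∀ d, SS D s d = (xx D d) ^ s.sum * Φ.eval (vv D d)

end Field

/-! ### Elementary functions of `a` -/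

/-- `κ(a) = (a + 2^{v_2(a)})/2`. -/
def kap (a : ℕ) : ℕ := (a + 2 ^ padicValNat 2 a) / 2

/-- the largest power of 2 that is `≤ κ(a)` -/
def EE (a : ℕ) : ℕ := 2 ^ Nat.log 2 (kap a)

/-- `J q n f` : the polynomial `f` lies in the `n`-th power of the ideal `(u, δ)`, `q = ‖δ‖`. -/
def Jn {K : Type*} [NormedField K] (q : ℝ) (n : ℕ) (f : K[X]) : Prop :=
  ∀ j, ‖f.coeff j‖ ≤ q ^ (n - j)

end Pool.Agent.ZL
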