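import Pool.Agent.Work.MP_b19acb_nt.XU

/-!
# Norms (M): sizes at infinity

`K` a nonarchimedean normed field of characteristic 2, `1 < ‖D‖`.
`norm_br`: `br D (i+1) = D^(2^i) + br D i`, the last term `D^(2^i)` strictly dominates: induction
(`‖br D i‖ ≤ ‖D‖^(2^(i-1)) < ‖D‖^(2^i)`), ultrametric equality
(`IsUltrametricDist.norm_add_eq_max_of_norm_ne_norm`).
`norm_ell`: product, `Σ_{i<d} 2^i = 2^d - 1`.  `norm_XX`: `x_0 = 1` and `‖x_i‖ < 1` for `i ≥ 1`.
`norm_uu`: quotient.  `uu_inj`: the norms `‖D‖⁻¹^(2^(d+1)-1)` are strictly decreasing.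
`vv_inj`: `vv D 0 = 0` and `‖vv D d‖ = ‖D‖^(2^d-1)` for `d ≥ 1`.
-/

namespace Pool.Agent.ZL

open Polynomial Finset

variable {K : Type*} [NormedField K] [IsUltrametricDist K] [CharP K 2] (D : K) (hD : 1 < ‖D‖)

include hD

private theorem nm_pow_lt {m n : ℕ} (h : m < n) : ‖D‖ ^ m < ‖D‖ ^ n :=
  pow_lt_pow_right₀ hD h

private theorem nm_inv : 0 < ‖D‖⁻¹ ∧ ‖D‖⁻¹ < 1 :=
  ⟨inv_pos.2 (zero_lt_one.trans hD), inv_lt_one_of_one_lt₀ hD⟩

theorem norm_br (i : ℕ) : ‖br D (i + 1)‖ = ‖D‖ ^ 2 ^ i := by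
  induction i with
  | zero =>
    rw [zero_add, pow_zero, pow_one]
    simp [br]
  | succ i ih =>
    have e : br D (i + 1 + 1) = br D (i + 1) + D ^ 2 ^ (i + 1) := Finset.sum_range_succ _ _
    have h1 : ‖D‖ ^ 2 ^ i < ‖D‖ ^ 2 ^ (i + 1) :=
      nm_pow_lt D hD (Nat.pow_lt_pow_right (by norm_num) (Nat.lt_succ_self i))
    rw [e, IsUltrametricDist.norm_add_eq_max_of_norm_ne_norm, ih, norm_pow, max_eq_right h1.le]
    rw [ih, norm_pow]
    exact h1.ne

theorem br_ne (i : ℕ) : br D (i + 1) ≠ 0 := by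
  rw [← norm_ne_zero_iff, norm_br D hD]
  exact (pow_pos (zero_lt_one.trans hD) _).ne'

theorem norm_ell (d : ℕ) : ‖ell D d‖ = ‖D‖ ^ (2 ^ d - 1) := by
  induction d with
  | zero => simp [ell]
  | succ d ih =>
    rw [ell_succ, norm_mul, ih, norm_br D hD, ← pow_add]
    congr 1
    have := Nat.one_le_two_pow (n := d)
    rw [pow_succ]
    omega

theorem norm_xx (d : ℕ) : ‖xx D d‖ = ‖D‖⁻¹ ^ (2 ^ d - 1) := by
  unfold xx
  rw [norm_inv, norm_ell D hD, inv_pow]

theorem norm_XX {d : ℕ} (hd : 1 ≤ d) : ‖XX D d‖ = 1 := by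
  induction d, hd using Nat.le_induction with
  | base =>
    rw [show (1 : ℕ) = 0 + 1 from rfl, XX_succ, XX_zero, xx_zero, zero_add, norm_one]
  | succ d hd ih =>
    have h1 : ‖xx D d‖ < 1 := by
      rw [norm_xx D hD]
      refine pow_lt_one₀ (nm_inv D hD).1.le (nm_inv D hD).2 ?_
      have := Nat.pow_le_pow_right (n := 2) (by norm_num) hd
      omega
    rw [XX_succ, IsUltrametricDist.norm_add_eq_max_of_norm_ne_norm, ih, max_eq_left h1.le]
    rw [ih]
    exact h1.ne'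

theorem norm_uu {d : ℕ} (hd : 1 ≤ d) : ‖uu D d‖ = ‖D‖⁻¹ ^ (2 ^ d - 1) := by
  unfold uu
  rw [norm_div, norm_XX D hD hd, div_one, norm_xx D hD]

theorem uu_inj : Function.Injective fun d : ℕ => uu D (d + 1) := by
  intro d e h
  have h1 : ‖uu D (d + 1)‖ = ‖uu D (e + 1)‖ := congrArg norm h
  rw [norm_uu D hD (by omega), norm_uu D hD (by omega)] at h1
  have h2 := (pow_right_inj₀ (nm_inv D hD).1 (nm_inv D hD).2.ne).1 h1
  have h3 := Nat.one_le_two_pow (n := d + 1)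
  have h4 := Nat.one_le_two_pow (n := e + 1)
  have h5 : 2 ^ (d + 1) = 2 ^ (e + 1) := by omega
  have h6 := Nat.pow_right_injective le_rfl h5
  omega

theorem vv_inj : Function.Injective (vv D) := by
  have hz : vv D 0 = 0 := by
    unfold vv
    rw [XX_zero, zero_div]
  have hn : ∀ d, 1 ≤ d → ‖vv D d‖ = ‖D‖ ^ (2 ^ d - 1) := by
    intro d hd
    unfold vv
    rw [norm_div, norm_XX D hD hd, norm_xx D hD, inv_pow, one_div, inv_inv]
  have hpos : ∀ d, 1 ≤ d → vv D d ≠ 0 := by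
    intro d hd
    rw [← norm_ne_zero_iff, hn d hd]
    exact (pow_pos (zero_lt_one.trans hD) _).ne'
  intro d e h
  rcases Nat.eq_zero_or_pos d with rfl | hd <;> rcases Nat.eq_zero_or_pos e with rfl | he
  · rfl
  · rw [hz] at h
    exact absurd h.symm (hpos e he)
  · rw [hz] at h
    exact absurd h (hpos d hd)
  · have h1 := congrArg norm h
    rw [hn d hd, hn e he] at h1
    have h2 := (pow_right_inj₀ (zero_lt_one.trans hD) hD.ne').1 h1
    have h3 := Nat.one_le_two_pow (n := d)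
    have h4 := Nat.one_le_two_pow (n := e)
    have h5 : 2 ^ d = 2 ^ e := by omega
    exact Nat.pow_right_injective le_rfl h5

end Pool.Agent.ZL
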