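import Pool.Agent.Work.MP_b19acb_nt.GE
import Pool.Agent.Work.MP_b19acb_nt.Norms

/-!
# DomC (M): polynomials with dominant constant term at radius ρ

`Dom.mul`: `(G*H)_k ρ^k = Σ (G_i ρ^i)(H_{k-i} ρ^(k-i))`; for `k ≥ 1` each term has `i ≥ 1` or
`k-i ≥ 1`, so its norm is `< ‖G_0‖ ‖H_0‖ = ‖(G*H)_0‖`; ultrametric (finite nonempty sum).
`Dom.pow`, `Dom.prod`: induction; `Dom 1`.  `Dom.C_mul`: scale.

`Dom_GE`: `ρ = ‖uu D r‖ = q^(2^r - 1)`, `r = M - j ≥ 1`, `q = ‖D‖⁻¹`.  First product, `i < r`: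
`C D + C ([i]^2) X`: `i = 0`: constant.  `i ≥ 1`: `‖[i]^2‖ ρ = ‖D‖^(2^i) q^(2^r-1) < ‖D‖` because
`2^i < 2^r`, i.e. `2^i - (2^r - 1) < 1` (`norm_br`: `‖[i]‖ = ‖D‖^(2^(i-1))`).
Second product: `C (D^(2^i)) + C [i+1] X^(2^i)`: `‖[i+1]‖ ρ^(2^i) = ‖D‖^(2^i) ρ^(2^i) < ‖D‖^(2^i)`.
-/

namespace Pool.Agent.ZL

open Polynomial Finset

/-- the constant term dominates at radius `ρ` -/
def Dom {K : Type*} [NormedField K] (ρ : ℝ) (G : K[X]) : Prop :=
  G.coeff 0 ≠ 0 ∧ ∀ k, 1 ≤ k → ‖G.coeff k‖ * ρ ^ k < ‖G.coeff 0‖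

variable {K : Type*} [NormedField K] [IsUltrametricDist K]

omit [IsUltrametricDist K] in
private theorem Dom.le {ρ : ℝ} {G : K[X]} (hG : Dom ρ G) (k : ℕ) :
    ‖G.coeff k‖ * ρ ^ k ≤ ‖G.coeff 0‖ := by
  rcases Nat.eq_zero_or_pos k with rfl | hk
  · simp
  · exact (hG.2 k hk).le

theorem Dom.mul {ρ : ℝ} (hρ : 0 ≤ ρ) {G H : K[X]} (hG : Dom ρ G) (hH : Dom ρ H) :
    Dom ρ (G * H) := by
  have h0 : (G * H).coeff 0 = G.coeff 0 * H.coeff 0 := mul_coeff_zero G H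
  refine ⟨?_, fun k hk => ?_⟩
  · rw [h0]
    exact mul_ne_zero hG.1 hH.1
  · obtain ⟨x, hx, hle⟩ := IsUltrametricDist.exists_norm_finsetSum_le_of_nonempty
      (⟨(0, k), Finset.HasAntidiagonal.mem_antidiagonal.2 (zero_add k)⟩ :
        (Finset.HasAntidiagonal.antidiagonal k).Nonempty)
      (fun x : ℕ × ℕ => G.coeff x.1 * H.coeff x.2)
    have hxk := Finset.HasAntidiagonal.mem_antidiagonal.1 hx
    rw [h0, coeff_mul, norm_mul]
    have h1 : ‖∑ x ∈ Finset.HasAntidiagonal.antidiagonal k, G.coeff x.1 * H.coeff x.2‖ * ρ ^ k ≤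
        (‖G.coeff x.1‖ * ρ ^ x.1) * (‖H.coeff x.2‖ * ρ ^ x.2) := by
      refine (mul_le_mul_of_nonneg_right hle (pow_nonneg hρ k)).trans (le_of_eq ?_)
      rw [norm_mul, ← hxk, pow_add]
      ring
    refine h1.trans_lt ?_
    have hG0 : 0 < ‖G.coeff 0‖ := norm_pos_iff.2 hG.1
    have hH0 : 0 < ‖H.coeff 0‖ := norm_pos_iff.2 hH.1
    have p1 : 0 ≤ ‖G.coeff x.1‖ * ρ ^ x.1 := by positivity
    have p2 : 0 ≤ ‖H.coeff x.2‖ * ρ ^ x.2 := by positivity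
    rcases Nat.eq_zero_or_pos x.1 with hx1 | hx1
    · have hx2 : 1 ≤ x.2 := by omega
      exact mul_lt_mul_of_le_of_lt_of_nonneg_of_pos (hG.le _) (hH.2 _ hx2) p2 hG0
    · exact mul_lt_mul_of_lt_of_le_of_nonneg_of_pos (hG.2 _ hx1) (hH.le _) p1 hH0

omit [IsUltrametricDist K] in
private theorem Dom.one {ρ : ℝ} : Dom ρ (1 : K[X]) := by
  refine ⟨by simp, fun k hk => ?_⟩
  rw [coeff_one, coeff_one, if_neg (by omega), if_pos rfl, norm_zero, zero_mul, norm_one]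
  exact zero_lt_one

theorem Dom.pow {ρ : ℝ} (hρ : 0 ≤ ρ) {G : K[X]} (hG : Dom ρ G) (n : ℕ) : Dom ρ (G ^ n) := by
  induction n with
  | zero =>
    rw [pow_zero]
    exact Dom.one
  | succ n ih =>
    rw [pow_succ]
    exact Dom.mul hρ ih hG

private theorem Dom.prod {ι : Type*} {ρ : ℝ} (hρ : 0 ≤ ρ) (s : Finset ι) (f : ι → K[X])
    (h : ∀ i ∈ s, Dom ρ (f i)) : Dom ρ (∏ i ∈ s, f i) := by
  classical
  induction s using Finset.induction_on with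
  | empty =>
    rw [Finset.prod_empty]
    exact Dom.one
  | insert a s ha ih =>
    rw [Finset.prod_insert ha]
    exact Dom.mul hρ (h a (Finset.mem_insert_self a s))
      (ih fun i hi => h i (Finset.mem_insert_of_mem hi))

theorem Dom.C_mul {ρ : ℝ} {G : K[X]} (hG : Dom ρ G) {c : K} (hc : c ≠ 0) :
    Dom ρ (C c * G) := by
  refine ⟨?_, fun k hk => ?_⟩
  · rw [coeff_C_mul]
    exact mul_ne_zero hc hG.1
  · rw [coeff_C_mul, coeff_C_mul, norm_mul, norm_mul, mul_assoc]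
    exact mul_lt_mul_of_pos_left (hG.2 k hk) (norm_pos_iff.2 hc)

omit [IsUltrametricDist K] in
private theorem Dom.binom {ρ : ℝ} {a b : K} (ha : a ≠ 0) {m : ℕ} (hm : 1 ≤ m)
    (h : ‖b‖ * ρ ^ m < ‖a‖) : Dom ρ (C a + C b * X ^ m) := by
  have h0 : (C a + C b * X ^ m : K[X]).coeff 0 = a := by
    rw [coeff_add, coeff_C_zero, coeff_C_mul, coeff_X_pow, if_neg (by omega), mul_zero, add_zero]
  refine ⟨by rw [h0]; exact ha, fun k hk => ?_⟩
  rw [h0, coeff_add, coeff_C_mul, coeff_X_pow, coeff_C, if_neg (by omega), zero_add]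
  by_cases hkm : k = m
  · subst hkm
    rw [if_pos rfl, mul_one]
    exact h
  · rw [if_neg hkm, mul_zero, norm_zero, zero_mul]
    exact norm_pos_iff.2 ha

theorem Dom_GE [CharP K 2] (D : K) (hD : 1 < ‖D‖) {M j : ℕ} (hj : j < M) :
    Dom ‖uu D (M - j)‖ (GE D M j) := by
  have hr : 1 ≤ M - j := by omega
  have hD0 : D ≠ 0 := by
    rw [← norm_pos_iff]
    exact zero_lt_one.trans hD
  have hρ : ‖uu D (M - j)‖ = ‖D‖⁻¹ ^ (2 ^ (M - j) - 1) := norm_uu D hD hr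
  have hD' : 0 < ‖D‖ := zero_lt_one.trans hD
  have hρ1 : ‖uu D (M - j)‖ < 1 := by
    rw [hρ]
    refine pow_lt_one₀ (inv_nonneg.2 hD'.le) (inv_lt_one_of_one_lt₀ hD) ?_
    have := Nat.pow_le_pow_right (n := 2) (by norm_num) hr
    omega
  unfold GE
  refine Dom.mul (norm_nonneg _) (Dom.prod (norm_nonneg _) _ _ fun i hi => ?_)
    (Dom.prod (norm_nonneg _) _ _ fun i _ => ?_)
  · refine Dom.pow (norm_nonneg _) ?_ _
    have hi' := Finset.mem_range.1 hi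
    have h1 : Dom ‖uu D (M - j)‖ (C D + C ((br D i) ^ 2) * X ^ 1) := by
      refine Dom.binom hD0 le_rfl ?_
      rw [pow_one, norm_pow]
      cases i with
      | zero => simpa [br] using hD'
      | succ i =>
        rw [norm_br D hD, hρ, ← pow_mul, ← pow_succ]
        have h2 : ‖D‖ ^ 2 ^ (i + 1) < ‖D‖ ^ 2 ^ (M - j) :=
          pow_lt_pow_right₀ hD (Nat.pow_lt_pow_right (by norm_num) hi')
        have h3 : 0 < ‖D‖⁻¹ ^ (2 ^ (M - j) - 1) := by positivity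
        have h4 := mul_lt_mul_of_pos_right h2 h3
        refine h4.trans_le (le_of_eq ?_)
        have h5 : 2 ^ (M - j) = (2 ^ (M - j) - 1) + 1 := by
          have := Nat.one_le_two_pow (n := M - j)
          omega
        conv_lhs => rw [h5]
        rw [pow_succ, inv_pow, Nat.add_sub_cancel]
        field_simp
    rwa [pow_one] at h1
  · refine Dom.binom (pow_ne_zero _ hD0) Nat.one_le_two_pow ?_
    rw [norm_br D hD, norm_pow]
    have h2 : ‖uu D (M - j)‖ ^ 2 ^ i < 1 :=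
      pow_lt_one₀ (norm_nonneg _) hρ1 (pow_ne_zero _ two_ne_zero)
    have h3 : 0 < ‖D‖ ^ 2 ^ i := by positivity
    calc ‖D‖ ^ 2 ^ i * ‖uu D (M - j)‖ ^ 2 ^ i < ‖D‖ ^ 2 ^ i * 1 := mul_lt_mul_of_pos_left h2 h3
      _ = ‖D‖ ^ 2 ^ i := mul_one _

end Pool.Agent.ZL
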