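import Pool.Agent.Work.MP_b19acb_nt.Norms
import Pool.Agent.Work.MP_b19acb_nt.JnB

/-!
# EpsJ (M): ε_i modulo powers of (u, δ)

`q = ‖D‖⁻¹`, `δ = D⁻¹`, `[i] = br D i`.  For `i ≥ 1`: `[i+1] = [i]^2 + D`, so
`[i]^2/[i+1] = 1 + D/[i+1]` and `eps (i+1) = (C λ (1+X) + X) * (eps i)^2` with `λ = D/[i+1]`,
`‖λ‖ = q^(2^i-1)` (`norm_br`).

`eps_J`: `eps (i+1) ∈ J_{2^i-1}`: induction, `eps 1 = 1`; `C λ (1+X) + X ∈ J_1` (as `2^i-1 ≥ 1`),
`(eps i)^2 ∈ J_{2(2^(i-1)-1)}`.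

`eps_lead`: `l_i := (X + C δ)^(2^i) * X^(2^i-1)` is the leading form of `eps (i+2)`:
`eps (i+2) - l_i ∈ J_{2^(i+1)}`.  `i = 0`: `eps 2 = C λ (1+X) + X`, `λ = D/(D^2+D) = 1/(D+1)`,
`λ - δ = δ/(D+1)·(−1)..` has norm `q^2`; `eps 2 - (X + C δ) = C (λ-δ) + C λ X ∈ J_2`.
Step: `eps (i+3) = (C λ (1+X) + X) (eps (i+2))^2`, `‖λ‖ ≤ q^(2^(i+2)-1) ≤ q^3`, so
`(C λ (1+X)) (eps (i+2))^2 ∈ J_{2 + 2(2^(i+1)-1)} = J_{2^(i+2)}`, and
`X (eps (i+2)^2 - l_i^2) ∈ J_{1 + 2·2^(i+1)}` (`Jn_sq_sub`), `X l_i^2 = (X+Cδ)^(2^(i+1)) X^(2^(i+1)-1)`.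
-/

namespace Pool.Agent.ZL

open Polynomial Finset

variable {K : Type*} [NormedField K] [IsUltrametricDist K] [CharP K 2] (D : K) (hD : 1 < ‖D‖)

include hD

private theorem ej_inv : 0 ≤ ‖D‖⁻¹ ∧ ‖D‖⁻¹ ≤ 1 :=
  ⟨inv_nonneg.2 (norm_nonneg _), (inv_lt_one_of_one_lt₀ hD).le⟩

private theorem ej_lam (i : ℕ) : ‖D / br D (i + 1)‖ = ‖D‖⁻¹ ^ (2 ^ i - 1) := by
  have h0 : ‖D‖ ≠ 0 := (zero_lt_one.trans hD).ne'
  have h1 : ‖D‖ ^ 2 ^ i = ‖D‖ ^ (2 ^ i - 1) * ‖D‖ := by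
    rw [← pow_succ, Nat.sub_add_cancel Nat.one_le_two_pow]
  rw [norm_div, norm_br D hD, h1, inv_pow]
  field_simp

/-- the recursion, in the form `ε_{i+2} = (λ (1+X) + X) ε_{i+1}^2` -/
private theorem ej_rec (i : ℕ) : eps D (i + 2) =
    (C (D / br D (i + 2)) * (1 + X) + X) * (eps D (i + 1)) ^ 2 := by
  have h1 : eps D (i + 2) = (C (D / br D (i + 2)) + C ((br D (i + 1)) ^ 2 / br D (i + 2)) * X) *
      (eps D (i + 1)) ^ 2 := rfl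
  have h2 : (br D (i + 1)) ^ 2 / br D (i + 2) = 1 + D / br D (i + 2) := by
    have h3 : br D (i + 2) ≠ 0 := br_ne D hD (i + 1)
    have h4 : br D (i + 2) = (br D (i + 1)) ^ 2 + D := br_succ D (i + 1)
    have h5 : (br D (i + 1)) ^ 2 = br D (i + 2) + D := by
      have h6 : D + D = 0 := CharTwo.add_self_eq_zero _
      rw [h4, add_assoc, h6, add_zero]
    rw [h5, add_div, div_self h3]
  rw [h1, h2, C_add, C_1]
  ring

private theorem ej_lin {n : ℕ} {lam : K} (hn : n ≤ 1) (h : ‖lam‖ ≤ ‖D‖⁻¹ ^ n) :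
    Jn ‖D‖⁻¹ n (C lam * (1 + X) + X) := by
  obtain ⟨q0, q1⟩ := ej_inv D hD
  refine Jn_add q0 ?_ (Jn_mono q0 q1 hn (Jn_X q0))
  have h2 := Jn_mul q0 q1 (Jn_C q0 h)
    (Jn_add q0 (Jn_C_one q0 q1) (Jn_mono q0 q1 (Nat.zero_le 1) (Jn_X (K := K) q0)))
  rwa [add_zero] at h2

private theorem ej_one : eps D 1 = 1 := by
  have h1 : eps D 1 = (C (D / br D 1) + C ((br D 0) ^ 2 / br D 1) * X) * (1 : K[X]) ^ 2 := rfl
  have hD0 : D ≠ 0 := by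
    rw [← norm_ne_zero_iff]
    exact (zero_lt_one.trans hD).ne'
  rw [h1, br_zero, br_one, div_self hD0]
  simp

theorem eps_J (i : ℕ) : Jn ‖D‖⁻¹ (2 ^ i - 1) (eps D (i + 1)) := by
  obtain ⟨q0, q1⟩ := ej_inv D hD
  induction i with
  | zero =>
    rw [zero_add, ej_one D hD]
    exact Jn_C_one q0 q1
  | succ i ih =>
    rw [ej_rec D hD i]
    have hp : 2 ^ (i + 1) = 2 * 2 ^ i := by rw [pow_succ, mul_comm]
    have h1 : 1 ≤ 2 ^ i := Nat.one_le_two_pow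
    have h2 : Jn ‖D‖⁻¹ 1 (C (D / br D (i + 2)) * (1 + X) + X) := by
      refine ej_lin D hD le_rfl ?_
      rw [ej_lam D hD (i + 1)]
      exact pow_le_pow_of_le_one q0 q1 (by omega)
    have h3 := Jn_mul q0 q1 h2 (Jn_pow q0 q1 ih 2)
    exact Jn_mono q0 q1 (by omega) h3

theorem eps_lead (i : ℕ) :
    Jn ‖D‖⁻¹ (2 ^ (i + 1)) (eps D (i + 2) - (X + C D⁻¹) ^ 2 ^ i * X ^ (2 ^ i - 1)) := by
  obtain ⟨q0, q1⟩ := ej_inv D hD
  induction i with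
  | zero =>
    have hb2 : br D 2 ≠ 0 := br_ne D hD 1
    have hD0 : D ≠ 0 := by
      rw [← norm_ne_zero_iff]
      exact (zero_lt_one.trans hD).ne'
    have e1 : eps D (0 + 2) - (X + C D⁻¹) ^ 2 ^ 0 * X ^ (2 ^ 0 - 1) =
        C (D / br D 2 - D⁻¹) + C (D / br D 2) * X := by
      rw [ej_rec D hD 0, zero_add, zero_add, ej_one D hD, C_sub]
      simp only [pow_zero, pow_one, Nat.sub_self, one_pow, mul_one]
      ring
    have hlam : ‖D / br D 2‖ = ‖D‖⁻¹ := by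
      rw [ej_lam D hD 1]
      norm_num
    have e2 : D / br D 2 - D⁻¹ = (D / br D 2) * D⁻¹ := by
      have h4 : br D 2 = D ^ 2 + D := by
        rw [show (2 : ℕ) = 1 + 1 from rfl, br_succ, br_one]
      have h5 : (D ^ 2 + D : K) ≠ 0 := by
        rw [← h4]
        exact hb2
      have h6 : (D : K) + D = 0 := CharTwo.add_self_eq_zero _
      have h7 : D + 1 ≠ 0 := by
        intro h8
        apply h5
        linear_combination D * h8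
      have h9 : (2 : K) = 0 := CharTwo.two_eq_zero
      have h10 : D ^ 2 + D = D * (D + 1) := by ring
      have h11 : D / (D * (D + 1)) = (D + 1)⁻¹ := by
        field_simp
      rw [h4, h10, h11]
      have h12 : (D + 1)⁻¹ - D⁻¹ = (D - (D + 1)) * ((D + 1)⁻¹ * D⁻¹) := by
        field_simp
      rw [h12]
      have h13 : D - (D + 1) = 1 := by linear_combination -h9
      rw [h13, one_mul]
    rw [e1, e2]
    refine Jn_add q0 (Jn_C q0 ?_) ?_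
    · rw [norm_mul, norm_inv, hlam]
      rw [zero_add, pow_one]
      exact (pow_two _).ge
    · have h7 := Jn_mul q0 q1 (Jn_C (K := K) (n := 1) (c := D / br D 2) q0 (by
        rw [hlam, pow_one])) (Jn_X (K := K) q0)
      exact h7
  | succ i ih =>
    have hp : 2 ^ (i + 1) = 2 * 2 ^ i := by rw [pow_succ, mul_comm]
    have hp2 : 2 ^ (i + 1 + 1) = 2 * 2 ^ (i + 1) := by rw [pow_succ, mul_comm]
    have h1 : 1 ≤ 2 ^ i := Nat.one_le_two_pow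
    have e1 : eps D (i + 1 + 2) - (X + C D⁻¹) ^ 2 ^ (i + 1) * X ^ (2 ^ (i + 1) - 1) =
        (C (D / br D (i + 3)) * (1 + X)) * (eps D (i + 2)) ^ 2 +
        X * ((eps D (i + 2)) ^ 2 - ((X + C D⁻¹) ^ 2 ^ i * X ^ (2 ^ i - 1)) ^ 2) := by
      rw [ej_rec D hD (i + 1)]
      have e3 : (X + C D⁻¹ : K[X]) ^ 2 ^ (i + 1) * X ^ (2 ^ (i + 1) - 1) =
          X * ((X + C D⁻¹) ^ 2 ^ i * X ^ (2 ^ i - 1)) ^ 2 := by
        have e4 : 2 ^ (i + 1) - 1 = (2 ^ i - 1) * 2 + 1 := by omega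
        rw [e4, hp, mul_comm 2 (2 ^ i), pow_mul, pow_succ X, pow_mul]
        ring
      rw [e3]
      ring
    rw [e1]
    refine Jn_add q0 ?_ ?_
    · have h2 : Jn ‖D‖⁻¹ 2 (C (D / br D (i + 3)) * (1 + X)) := by
        have h3 : ‖D / br D (i + 3)‖ ≤ ‖D‖⁻¹ ^ 2 := by
          rw [ej_lam D hD (i + 2)]
          exact pow_le_pow_of_le_one q0 q1 (by rw [hp2]; omega)
        have h4 := Jn_mul q0 q1 (Jn_C q0 h3)
          (Jn_add q0 (Jn_C_one q0 q1) (Jn_mono q0 q1 (Nat.zero_le 1) (Jn_X (K := K) q0)))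
        exact h4
      have h5 := Jn_mul q0 q1 h2 (Jn_pow q0 q1 (eps_J D hD (i + 1)) 2)
      exact Jn_mono q0 q1 (by omega) h5
    · have h6 := Jn_mul q0 q1 (Jn_X (K := K) q0) (Jn_sq_sub q0 q1 ih)
      exact Jn_mono q0 q1 (by omega) h6

end Pool.Agent.ZL
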