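import Mathlib

/-!
# FamDefs: the list of the zeta-like tuples for q = 2
-/

namespace Pool.Agent.ZL

/-- `[x, 2x, 4x, ..., 2^(k-1) x]` -/
def geo (x : ℕ) : ℕ → List ℕ
  | 0 => []
  | k + 1 => x :: geo (2 * x) k

/-- The families of zeta-like tuples for `q = 2`. -/
inductive Fam : List ℕ → Prop
  /-- `2^e (2^n - 1, 2^n, ..., 2^(n+k-1))` -/
  | I (e n k : ℕ) (hn : 1 ≤ n) (hk : 1 ≤ k) : Fam (2 ^ e * (2 ^ n - 1) :: geo (2 ^ (e + n)) k)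
  /-- `2^e (1, 1, 2, ..., 2^(k-1))` -/
  | II (e k : ℕ) (hk : 1 ≤ k) : Fam (2 ^ e :: geo (2 ^ e) k)
  /-- `2^e (1, 3, 4, 8, ..., 2^(k+1))` -/
  | III (e k : ℕ) : Fam (2 ^ e :: (3 * 2 ^ e) :: geo (2 ^ (e + 2)) k)
  /-- `2^e (3, 5)` -/
  | IV (e : ℕ) : Fam [3 * 2 ^ e, 5 * 2 ^ e]
  /-- `2^e (2^n, 3*2^n - 1)` -/
  | V (e n : ℕ) (hn : 1 ≤ n) : Fam [2 ^ (e + n), 2 ^ e * (3 * 2 ^ n - 1)]
  /-- `2^e (1, 2, 5)` -/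
  | VI (e : ℕ) : Fam [2 ^ e, 2 ^ (e + 1), 5 * 2 ^ e]

end Pool.Agent.ZL
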