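import Pool.Agent.Work.MP_b19acb_nt.Fpos

/-!
# FamEnd (M): the last entry of a member of the families

`geo_append`: `geo x (k+1) = geo x k ++ [2^k * x]`, induction on `k` (generalising `x`).
`fam_end`: cases on `Fam s`, `s = l ++ [a]`; write each tuple as `(initial part) ++ [last]` with
`geo_append` and use `List.append_inj'`/`List.append_eq_append_iff`/`List.concat_inj`
(`l ++ [a] = l' ++ [b] ↔ l = l' ∧ a = b`: `List.append_left_inj`... or `List.concat_eq_append`,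
`List.dropLast`, `List.getLast`).
-/

namespace Pool.Agent.ZL

theorem geo_append (x k : ℕ) : geo x (k + 1) = geo x k ++ [2 ^ k * x] := by
  induction k generalizing x with
  | zero =>
    show [x] = [2 ^ 0 * x]
    rw [pow_zero, one_mul]
  | succ k ih =>
    show x :: geo (2 * x) (k + 1) = (x :: geo (2 * x) k) ++ [2 ^ (k + 1) * x]
    rw [ih (2 * x), List.cons_append, pow_succ, mul_assoc]

/-- the possible shapes of `l ++ [a]` -/
inductive FEnd : List ℕ → ℕ → Prop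
  | I (e n k : ℕ) (hn : 1 ≤ n) : FEnd (2 ^ e * (2 ^ n - 1) :: geo (2 ^ (e + n)) k) (2 ^ (e + n + k))
  | II (e k : ℕ) : FEnd (2 ^ e :: geo (2 ^ e) k) (2 ^ (e + k))
  | III0 (e : ℕ) : FEnd [2 ^ e] (3 * 2 ^ e)
  | III (e k : ℕ) : FEnd (2 ^ e :: (3 * 2 ^ e) :: geo (2 ^ (e + 2)) k) (2 ^ (e + 2 + k))
  | IV (e : ℕ) : FEnd [3 * 2 ^ e] (5 * 2 ^ e)
  | V (e n : ℕ) (hn : 1 ≤ n) : FEnd [2 ^ (e + n)] (2 ^ e * (3 * 2 ^ n - 1))
  | VI (e : ℕ) : FEnd [2 ^ e, 2 ^ (e + 1)] (5 * 2 ^ e)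

private theorem app_inj {l l' : List ℕ} {a b : ℕ} (h : l ++ [a] = l' ++ [b]) : l = l' ∧ a = b := by
  have h1 := List.append_inj' h rfl
  exact ⟨h1.1, by simpa using h1.2⟩

theorem fam_end {l : List ℕ} {a : ℕ} (h : Fam (l ++ [a])) : FEnd l a := by
  generalize hs : l ++ [a] = s at h
  cases h with
  | I e n k hn hk =>
    obtain ⟨k', rfl⟩ : ∃ k', k = k' + 1 := ⟨k - 1, by omega⟩
    rw [geo_append, ← List.cons_append] at hs
    obtain ⟨rfl, rfl⟩ := app_inj hs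
    rw [← pow_add, add_comm k' (e + n)]
    exact FEnd.I e n k' hn
  | II e k hk =>
    obtain ⟨k', rfl⟩ : ∃ k', k = k' + 1 := ⟨k - 1, by omega⟩
    rw [geo_append, ← List.cons_append] at hs
    obtain ⟨rfl, rfl⟩ := app_inj hs
    rw [← pow_add, add_comm k' e]
    exact FEnd.II e k'
  | III e k =>
    rcases Nat.eq_zero_or_pos k with rfl | hk
    · have h1 : l ++ [a] = [2 ^ e] ++ [3 * 2 ^ e] := hs
      obtain ⟨rfl, rfl⟩ := app_inj h1
      exact FEnd.III0 e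
    · obtain ⟨k', rfl⟩ : ∃ k', k = k' + 1 := ⟨k - 1, by omega⟩
      rw [geo_append, ← List.cons_append, ← List.cons_append] at hs
      obtain ⟨rfl, rfl⟩ := app_inj hs
      rw [← pow_add, add_comm k' (e + 2)]
      exact FEnd.III e k'
  | IV e =>
    have h1 : l ++ [a] = [3 * 2 ^ e] ++ [5 * 2 ^ e] := hs
    obtain ⟨rfl, rfl⟩ := app_inj h1
    exact FEnd.IV e
  | V e n hn =>
    have h1 : l ++ [a] = [2 ^ (e + n)] ++ [2 ^ e * (3 * 2 ^ n - 1)] := hs
    obtain ⟨rfl, rfl⟩ := app_inj h1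
    exact FEnd.V e n hn
  | VI e =>
    have h1 : l ++ [a] = [2 ^ e, 2 ^ (e + 1)] ++ [5 * 2 ^ e] := hs
    obtain ⟨rfl, rfl⟩ := app_inj h1
    exact FEnd.VI e

end Pool.Agent.ZL
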