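import Pool.Agent.Work.MP_b19acb_nt.Scale

/-!
# FamI (M): the telescoping sums of the families I and II

`[i] = br D i`, `ℓ = ell D`, `n ≥ 1`.

`SS_I`: `S_{<d}(2^n-1, 2^n, ..., 2^(n+k-1)) = esh (n+k) (d+n-1) / (D_k^(2^n) [n+k] ℓ_{n-1})`.
Induction on `k` (all `n ≥ 1`, `d`), inside by induction on `d`.
Inner sum: `geo (2^n) k = (geo 1 k).map (2^n * ·)`, so `SS D (geo (2^n) k) d = (SS D (geo 1 k) d)^(2^n)`,
and `SS D (geo 1 k) d = esh k d / D_k`: for `k = 0` it is `1` (`esh_zero`, `DD 0 = 1`); for `k = k'+1`,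
`geo 1 k = 1 :: geo 2 k'` is the case `n = 1` of the induction hypothesis
(`D_{k'}^2 [k'+1] ℓ_0 = D_{k'+1}`, `d + 1 - 1 = d`).
`d = 0`: both sides are 0 (`n + k > n - 1`).  Step `d → d+1`: by `esh_rec`
`esh (n+k) (d+n) - esh (n+k) (d+n-1) = [n+k] x_{d+n-1} (esh (n+k-1) (d+n-1))^2`, which for `k ≤ d` is
`[n+k] x_{d-k}^(2^(n+k))/x_{d+n-1}` and 0 for `k > d`; on the other side
`ps D d (2^n-1) = x_d^(2^n)/(ℓ_{n-1} x_{d+n-1})` (`sig_eq` with `n-1`) and
`(esh k d/D_k)^(2^n) = (x_{d-k}^(2^k)/x_d)^(2^n)/D_k^(2^n)` (0 for `k > d`).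

`SS_geo`: the case just used: `SS D (geo 1 k) d = esh k d / D_k`.

`SS_II`: `SS D (1 :: geo 1 k) d = Σ_{i<d} x_i * esh k i/D_k`, `x_i esh k i = x_{i-k}^(2^k)` for `k ≤ i`
and 0 otherwise, so it is `(Σ_{m < d-k} x_m^(2^k))/D_k = X_{d-k}^(2^k)/D_k` (Frobenius; truncated
subtraction).  Induction on `d` is easiest: `d < k`, `d ≥ k`.
-/

namespace Pool.Agent.ZL

open Polynomial Finset

variable {K : Type*} [Field K] [CharP K 2] (D : K) (hb : ∀ i, br D (i + 1) ≠ 0)

include hb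

private theorem xx_mul_esh (k d : ℕ) :
    xx D d * esh D k d = if k ≤ d then (xx D (d - k)) ^ 2 ^ k else 0 := by
  unfold esh
  split_ifs
  · rw [mul_div_cancel₀ _ (xx_ne_zero D hb d)]
  · rw [mul_zero]

private theorem famI_step {m : ℕ} (k : ℕ)
    (hk : ∀ d, SS D (geo 1 k) d = (DD D k)⁻¹ * esh D k d) (d : ℕ) :
    SS D ((2 ^ (m + 1) - 1) :: geo (2 ^ (m + 1)) k) d =
      ((DD D k) ^ 2 ^ (m + 1) * br D (m + k + 1) * ell D m)⁻¹ * esh D (m + k + 1) (d + m) := by
  induction d with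
  | zero =>
    rw [SS_zero_cons]
    unfold esh
    rw [if_neg (by omega), mul_zero]
  | succ d ih =>
    rw [SS_succ, ih, sig_eq D hb]
    have h1 : geo (2 ^ (m + 1)) k = (geo 1 k).map (2 ^ (m + 1) * ·) := by
      have := geo_two_pow (m + 1) 1 k
      rwa [mul_one] at this
    rw [h1, SS_two_pow D (fun a ha => mem_geo ha le_rfl), hk]
    have h2 : d + 1 + m = d + m + 1 := by ring
    rw [h2, esh_rec D hb (m + k) (d + m)]
    have hx := xx_ne_zero D hb (d + m)
    have hl := ell_ne_zero D hb m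
    have hD := DD_ne D hb k
    have hbr := hb (m + k)
    have key : (xx D (d + m) * esh D (m + k) (d + m)) ^ 2 = (xx D d * esh D k d) ^ 2 ^ (m + 1) := by
      rw [xx_mul_esh D hb, xx_mul_esh D hb]
      by_cases h : k ≤ d
      · rw [if_pos h, if_pos (by omega), ← pow_mul, ← pow_mul]
        have e1 : d + m - (m + k) = d - k := by omega
        rw [e1]
        congr 1
        ring
      · rw [if_neg h, if_neg (by omega), zero_pow two_ne_zero, zero_pow (by positivity)]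
    rw [mul_pow, mul_pow (xx D d)] at key
    rw [mul_add, mul_pow ((DD D k)⁻¹), inv_pow]
    congr 1
    field_simp
    linear_combination -key

private theorem geo_one (k : ℕ) (d : ℕ) : SS D (geo 1 k) d = (DD D k)⁻¹ * esh D k d := by
  induction k generalizing d with
  | zero =>
    have h1 : DD D 0 = 1 := rfl
    have h2 : geo 1 0 = [] := rfl
    rw [h2, SS_nil, esh_zero D hb, h1]
    simp
  | succ k ih =>
    have h := famI_step D hb (m := 0) k ih d
    have h1 : geo 1 (k + 1) = (2 ^ (0 + 1) - 1) :: geo (2 ^ (0 + 1)) k := rfl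
    have h2 : DD D (k + 1) = br D (k + 1) * (DD D k) ^ 2 := rfl
    have h3 : ell D 0 = 1 := by simp [ell]
    rw [h1, h, h2, h3]
    simp only [zero_add, add_zero, pow_one, mul_one]
    rw [mul_comm (br D (k + 1))]

theorem SS_I {n : ℕ} (hn : 1 ≤ n) (k d : ℕ) :
    SS D ((2 ^ n - 1) :: geo (2 ^ n) k) d =
      ((DD D k) ^ 2 ^ n * br D (n + k) * ell D (n - 1))⁻¹ * esh D (n + k) (d + n - 1) := by
  obtain ⟨m, rfl⟩ : ∃ m, n = m + 1 := ⟨n - 1, by omega⟩
  have h1 : m + 1 + k = m + k + 1 := by ring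
  have h2 : d + (m + 1) - 1 = d + m := by omega
  rw [h1, h2, Nat.add_sub_cancel]
  exact famI_step D hb k (geo_one D hb k) d

theorem SS_geo (k d : ℕ) : SS D (geo 1 k) d = (DD D k)⁻¹ * esh D k d := geo_one D hb k d

theorem SS_II (k d : ℕ) : SS D (1 :: geo 1 k) d = (DD D k)⁻¹ * (XX D (d - k)) ^ 2 ^ k := by
  induction d with
  | zero =>
    rw [SS_zero_cons, Nat.zero_sub, XX_zero, zero_pow (by positivity), mul_zero]
  | succ d ih =>
    rw [SS_succ, ih, ps_one, SS_geo D hb]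
    have key : (XX D (d + 1 - k)) ^ 2 ^ k = (XX D (d - k)) ^ 2 ^ k + xx D d * esh D k d := by
      rw [xx_mul_esh D hb]
      by_cases h : k ≤ d
      · rw [if_pos h]
        have e1 : d + 1 - k = (d - k) + 1 := by omega
        rw [e1, XX_succ, add_pow_char_pow]
      · rw [if_neg h]
        have e1 : d + 1 - k = 0 := by omega
        have e2 : d - k = 0 := by omega
        rw [e1, e2, add_zero]
    rw [key]
    ring

end Pool.Agent.ZL
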