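import Pool.Agent.Work.MP_b19acb_nt.Sig
import Pool.Agent.Work.MP_b19acb_nt.Scale

/-!
# Tau (M): the sums S_{<d}(3*2^n - 1)

`SS D [k] d = hh (ee D d) k` (`SS_single`, `k ≥ 1`), `hh_even`: `SS D [2k] d = (SS D [k] d)^2`,
`SS D [1] d = X_d`.  Write `τ_n = SS D [3*2^n-1] d`, `e_i = ee D d i`, `x = xx D d`, `X = XX D d`.

`tau_rec`: for `n ≥ 1`, `hh_odd` with `3*2^n - 1 = 2m+1`, `m+1 = 3*2^(n-1)`:
`τ_n = Σ_{2^i ≤ 3*2^(n-1)} e_{i+1} hh(3*2^(n-1) - 2^i)^2`, i.e. `i ≤ n`; for `i < n`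
`3*2^(n-1) - 2^i = 2^i (3*2^(n-1-i) - 1)` gives `(τ_{n-1-i})^(2^(i+1))`; `i = n` gives
`hh(2^(n-1))^2 = X^(2^n)`.  `τ_0 = SS D [2] d = X^2`.

`tau_eq`: `τ_n = D^(2^n)/ℓ_{n+1} * X^(2^(n+1)) x^(2^n)/x_{d+n}`, strong induction on `n`.  `d = 0`: both
sides are 0.  `d ≥ 1`: `n = 0`: `ℓ_1 = D`.  `n ≥ 1`: insert the induction hypothesis
`τ_{n-i}^(2^i) = D^(2^n)/ℓ_{n-i+1}^(2^i) X^(2^(n+1)) x^(2^n)/x_{d+n-i}^(2^i)` and
`e_i = x_{d-i}^(2^i)/(x D_i)` (0 for `i > d`) in `τ_n = Σ_{i=1}^{n} e_i τ_{n-i}^(2^i) + e_{n+1} X^(2^n)`.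
Multiplied by `x`, the claim becomes
`D^(2^n) X^(2^(n+1)) x^(2^n) Σ_{i=0}^{min(n,d)} (x_{d-i}/(ℓ_{n+1-i} x_{d+n-i}))^(2^i)/D_i = x e_{n+1} X^(2^n)`.
By `U_id'` (with `n+1`) the sum over `i ≤ min(n+1,d)` of `(ℓ_{d+n-i}/(ℓ_{d-i} ℓ_{n+1-i}))^(2^i)/D_i`
is 0, so the sum over `i ≤ min(n,d)` is 0 if `d ≤ n` (then also `e_{n+1} = 0`), and
`(ℓ_{d-1}/ℓ_{d-n-1})^(2^(n+1))/D_{n+1} = (x_{d-n-1}/x_{d-1})^(2^(n+1))/D_{n+1}` if `n+1 ≤ d`.  As
`x e_{n+1} = x_{d-n-1}^(2^(n+1))/D_{n+1}`, it remains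
`D^(2^n) X^(2^(n+1)) x^(2^n) = x_{d-1}^(2^(n+1)) X^(2^n)`, the `2^n`-th power of
`D X_d x_d = x_{d-1}^2` (`D_mul_xx_XX`) times `X^(2^n)`.
-/

namespace Pool.Agent.ZL

open Polynomial Finset

variable {K : Type*} [Field K] [CharP K 2] (D : K) (hb : ∀ i, br D (i + 1) ≠ 0)

private theorem Ta_hh_two_pow (c : ℕ → K) (hc : c 0 = 1) (e k : ℕ) :
    hh c (2 ^ e * k) = (hh c k) ^ 2 ^ e := by
  induction e with
  | zero => rw [pow_zero, one_mul, pow_one]
  | succ e ih =>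
    rw [pow_succ, show 2 ^ e * 2 * k = 2 * (2 ^ e * k) by ring, hh_even c hc, ih, ← pow_mul]

private theorem Ta_hh_one (d : ℕ) : hh (ee D d) 1 = XX D d := by
  rw [← SS_single D d 1 le_rfl]
  unfold XX
  rw [SS]
  refine Finset.sum_congr rfl fun i _ => ?_
  rw [ps_one, SS_nil, mul_one]

theorem tau_rec {n : ℕ} (hn : 1 ≤ n) (d : ℕ) : SS D [3 * 2 ^ n - 1] d =
    (∑ i ∈ range n, ee D d (i + 1) * (SS D [3 * 2 ^ (n - 1 - i) - 1] d) ^ 2 ^ (i + 1)) +
      ee D d (n + 1) * (XX D d) ^ 2 ^ n := by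
  obtain ⟨n, rfl⟩ : ∃ m, n = m + 1 := ⟨n - 1, by omega⟩
  have hc := ee_zero D d
  have hp : 1 ≤ 2 ^ n := Nat.one_le_two_pow
  have hnp : n < 2 ^ n := Nat.lt_two_pow_self
  rw [SS_single D d _ (by rw [pow_succ]; omega),
    show 3 * 2 ^ (n + 1) - 1 = 2 * (3 * 2 ^ n - 1) + 1 by rw [pow_succ]; omega,
    hh_odd (ee D d) hc]
  have e1 : 3 * 2 ^ n - 1 + 1 = 3 * 2 ^ n := by omega
  rw [e1]
  have h1 : ∑ i ∈ range (3 * 2 ^ n),
      (if 2 ^ i ≤ 3 * 2 ^ n then ee D d (i + 1) * (hh (ee D d) (3 * 2 ^ n - 2 ^ i)) ^ 2 else 0) =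
      ∑ i ∈ range (n + 2), ee D d (i + 1) * (hh (ee D d) (3 * 2 ^ n - 2 ^ i)) ^ 2 := by
    rw [← Finset.sum_subset (s₁ := range (n + 2)) (Finset.range_mono (by omega))]
    · refine Finset.sum_congr rfl fun i hi => ?_
      rw [mem_range] at hi
      rw [if_pos]
      have h2 : 2 ^ i ≤ 2 ^ (n + 1) := Nat.pow_le_pow_right (by norm_num) (by omega)
      rw [pow_succ] at h2
      omega
    · intro i _ hi
      rw [mem_range, not_lt] at hi
      rw [if_neg]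
      have h2 : 2 ^ (n + 2) ≤ 2 ^ i := Nat.pow_le_pow_right (by norm_num) (by omega)
      rw [pow_succ, pow_succ] at h2
      omega
  rw [h1, Finset.sum_range_succ]
  congr 1
  · refine Finset.sum_congr rfl fun i hi => ?_
    rw [mem_range] at hi
    have hpi : 1 ≤ 2 ^ (n - i) := Nat.one_le_two_pow
    have h2 : 3 * 2 ^ n - 2 ^ i = 2 ^ i * (3 * 2 ^ (n - i) - 1) := by
      rw [Nat.mul_sub, mul_one, show 2 ^ i * (3 * 2 ^ (n - i)) = 3 * (2 ^ i * 2 ^ (n - i)) by ring,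
        ← pow_add, show i + (n - i) = n by omega]
    rw [h2, Ta_hh_two_pow _ hc, show n + 1 - 1 - i = n - i by omega,
      SS_single D d _ (by omega), ← pow_mul, ← pow_succ]
  · have h2 : 3 * 2 ^ n - 2 ^ (n + 1) = 2 ^ n * 1 := by
      rw [pow_succ]
      omega
    rw [h2, Ta_hh_two_pow _ hc, Ta_hh_one, ← pow_mul, ← pow_succ]

include hb in
private theorem Ta_step (n d : ℕ) (hd : 1 ≤ d) (hn : 1 ≤ n)
    (ih : ∀ m < n, SS D [3 * 2 ^ m - 1] d =
      D ^ 2 ^ m / ell D (m + 1) * (XX D d) ^ 2 ^ (m + 1) * (xx D d) ^ 2 ^ m / xx D (d + m)) :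
    SS D [3 * 2 ^ n - 1] d =
    D ^ 2 ^ n / ell D (n + 1) * (XX D d) ^ 2 ^ (n + 1) * (xx D d) ^ 2 ^ n / xx D (d + n) := by
  have hx := fun k => xx_ne_zero D hb k
  have hl := fun k => ell_ne_zero D hb k
  have hDD := fun k => DD_ne D hb k
  have hxl : ∀ k, xx D k = (ell D k)⁻¹ := fun k => rfl
  obtain ⟨P, hP⟩ : ∃ P, P = D ^ 2 ^ n * (XX D d) ^ 2 ^ (n + 1) * (xx D d) ^ 2 ^ n := ⟨_, rfl⟩
  obtain ⟨a, ha⟩ : ∃ a : ℕ → K, a = fun j => if j ≤ d then
    (ell D (d + n - j) / (ell D (d - j) * ell D (n + 1 - j))) ^ 2 ^ j / DD D j else 0 := ⟨_, rfl⟩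
  have haj : ∀ j, j ≤ d → a j =
      (ell D (d + n - j) / (ell D (d - j) * ell D (n + 1 - j))) ^ 2 ^ j / DD D j := fun j hj => by
    rw [ha]
    exact if_pos hj
  have haj0 : ∀ j, ¬ j ≤ d → a j = 0 := fun j hj => by
    rw [ha]
    exact if_neg hj
  have hee : ∀ j, j ≤ d → xx D d * ee D d j = (xx D (d - j)) ^ 2 ^ j / DD D j := by
    intro j hj
    have h1 := carlitz D hb j d
    unfold esh at h1
    rw [if_pos hj] at h1
    have h2 := hDD j
    have h3 := hx d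
    field_simp
    field_simp at h1
    linear_combination h1
  have hee0 : ∀ j, ¬ j ≤ d → ee D d j = 0 := by
    intro j hj
    have h1 := carlitz D hb j d
    unfold esh at h1
    rw [if_neg hj] at h1
    exact (mul_eq_zero.1 h1).resolve_left (hDD j)
  -- the terms
  have hterm : ∀ i ∈ range n, xx D d * (ee D d (i + 1) *
      (SS D [3 * 2 ^ (n - 1 - i) - 1] d) ^ 2 ^ (i + 1)) = P * a (i + 1) := by
    intro i hi
    rw [mem_range] at hi
    by_cases hid : i + 1 ≤ d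
    · rw [← mul_assoc, hee _ hid, haj _ hid, ih (n - 1 - i) (by omega), hP]
      rw [show n - 1 - i + 1 = n - i by omega, show n + 1 - (i + 1) = n - i by omega,
        show d + n - (i + 1) = d + (n - 1 - i) by omega]
      simp only [div_pow, mul_pow, ← pow_mul, ← pow_add, hxl, inv_pow]
      rw [show n - 1 - i + (i + 1) = n by omega, show n - i + (i + 1) = n + 1 by omega]
      have h1 := hl (d - (i + 1))
      have h2 := hl (n - i)
      have h3 := hl (d + (n - 1 - i))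
      have h4 := hDD (i + 1)
      have h5 := hl d
      field_simp
    · rw [hee0 _ hid, haj0 _ hid, zero_mul, mul_zero, mul_zero]
  have hsum0 : ∑ j ∈ range (n + 2), a j = 0 := by
    have h1 := U_id' D hb (d := d) (n := n + 1) hd (by omega)
    rw [← h1]
    have h2 : ∑ j ∈ range (min d (n + 1) + 1), a j = ∑ j ∈ range (n + 2), a j := by
      refine Finset.sum_subset (Finset.range_mono (by omega)) fun j hj1 hj2 => haj0 j ?_
      rw [mem_range] at hj1 hj2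
      omega
    rw [← h2]
    refine Finset.sum_congr rfl fun j hj => ?_
    rw [mem_range] at hj
    rw [haj j (by omega), show d + (n + 1) - 1 - j = d + n - j by omega]
  have hlast : P * a (n + 1) = xx D d * (ee D d (n + 1) * (XX D d) ^ 2 ^ n) := by
    by_cases hnd : n + 1 ≤ d
    · rw [← mul_assoc (xx D d), hee _ hnd, haj _ hnd, hP]
      obtain ⟨d', rfl⟩ : ∃ k, d = k + 1 := ⟨d - 1, by omega⟩
      have h0 := D_mul_xx_XX D hb d'
      have h1 : D ^ 2 ^ n * (XX D (d' + 1)) ^ 2 ^ (n + 1) * (xx D (d' + 1)) ^ 2 ^ n =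
          (xx D d') ^ 2 ^ (n + 1) * (XX D (d' + 1)) ^ 2 ^ n := by
        have h2 : (xx D d') ^ 2 ^ (n + 1) = (D * xx D (d' + 1) * XX D (d' + 1)) ^ 2 ^ n := by
          rw [h0, ← pow_mul, pow_succ, mul_comm (2 ^ n) 2]
        rw [h2, pow_succ 2 n, pow_mul, mul_pow, mul_pow, sq]
        ring
      rw [h1, show d' + 1 + n - (n + 1) = d' by omega, Nat.sub_self]
      have h3 : ell D 0 = 1 := by
        unfold ell
        rw [Finset.prod_range_zero]
      rw [h3, mul_one, hxl, hxl, div_pow, inv_pow, inv_pow]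
      have h4 := hl d'
      have h5 := hl (d' + 1 - (n + 1))
      have h6 := hDD (n + 1)
      field_simp
    · rw [haj0 _ hnd, hee0 _ hnd, zero_mul, mul_zero, mul_zero]
  have hsum : ∑ i ∈ range n, a (i + 1) = a 0 + a (n + 1) := by
    rw [Finset.sum_range_succ, Finset.sum_range_succ'] at hsum0
    have h2 := CharTwo.add_self_eq_zero (a 0 + a (n + 1))
    linear_combination hsum0 - h2
  have hx0 : xx D d * SS D [3 * 2 ^ n - 1] d = P * a 0 := by
    rw [tau_rec D hn d, mul_add, Finset.mul_sum, Finset.sum_congr rfl hterm, ← Finset.mul_sum, hsum,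
      ← hlast]
    have h2 := CharTwo.add_self_eq_zero (P * a (n + 1))
    linear_combination h2
  have h1 : a 0 = ell D (d + n) / (ell D d * ell D (n + 1)) := by
    rw [haj 0 (Nat.zero_le _)]
    simp [DD]
  refine mul_left_cancel₀ (hx d) ?_
  rw [hx0, h1, hP, hxl (d + n)]
  have h2 := hl d
  have h3 := hl (n + 1)
  have h4 := hl (d + n)
  rw [hxl d]
  field_simp

include hb in
theorem tau_eq (n d : ℕ) : SS D [3 * 2 ^ n - 1] d =
    D ^ 2 ^ n / ell D (n + 1) * (XX D d) ^ 2 ^ (n + 1) * (xx D d) ^ 2 ^ n / xx D (d + n) := by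
  rcases Nat.eq_zero_or_pos d with rfl | hd
  · rw [SS_zero_cons, XX_zero, zero_pow (pow_ne_zero _ two_ne_zero), mul_zero, zero_mul, zero_div]
  induction n using Nat.strong_induction_on with
  | _ n ih =>
    rcases Nat.eq_zero_or_pos n with rfl | hn
    · have h1 : ell D (0 + 1) = D := by
        rw [ell_succ, zero_add, br_one]
        unfold ell
        rw [Finset.prod_range_zero, one_mul]
      rw [h1, pow_zero, pow_one, mul_one, show 3 - 1 = 2 * 1 by norm_num,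
        SS_single D d _ (by norm_num), hh_even _ (ee_zero D d), Ta_hh_one, pow_one, Nat.add_zero]
      have h2 := D_ne_zero D hb
      have h3 := xx_ne_zero D hb d
      field_simp
    · exact Ta_step D hb n d hd hn ih

end Pool.Agent.ZL
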