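import Pool.Agent.Work.MP_b19acb_nt.FamI
import Pool.Agent.Work.MP_b19acb_nt.Tau

/-!
# FamV (M): the telescoping sums of the families III, IV, V, VI

All by induction on `d` (`SS_succ`; at `d = 0` both sides are 0).  `[i] = br D i`,
`x_i = x_{i+1} [i+1]`, `D x_{i+1} X_{i+1} = x_i^2`.

`SS_III`: `SS D (3 :: geo 4 k) i = C esh (k+2) (i+1)`, `C = (D_k^4 [k+2] ℓ_1)⁻¹` (`SS_I`, `n = 2`), and
`x_i esh (k+2) (i+1) = x_i x_{i-k-1}^(2^(k+2))/x_{i+1} = [i+1] x_{i-k-1}^(2^(k+2))` for `i ≥ k+1`, 0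
otherwise.  With `m = i-k-1`: `[i+1] = [m]^(2^(k+2)) + [k+2]` (`br_add`), `[m] x_m = x_{m-1}` for
`m ≥ 1` and 0 for `m = 0`; this is the increment of
`X_{d-k-2}^(2^(k+2)) + [k+2] X_{d-k-1}^(2^(k+2))` at `d = i`.

`SS_IV`: `ps D i 3 = x_i^4/(D x_{i+1})` (`sig_eq`, `n = 1`, `ℓ_1 = D`),
`SS D [5] i = D^2/ℓ_2 X_i^4 x_i^2/x_{i+1}` (`tau_eq`, `n = 1`); product
`(D/ℓ_2) x_i^6 X_i^4/x_{i+1}^2 = (D/ℓ_2) [i+1]^2 x_i^4 X_i^4 = [i+1]^2 x_{i-1}^8/(D^3 ℓ_2)` for
`i ≥ 1`, 0 for `i = 0`; `[i+1]^2 = [i-1]^8 + [2]^2`.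

`SS_V`: `ps D i (2^n) = x_i^(2^n)` and `tau_eq`: product
`D^(2^n)/ℓ_{n+1} (X_i x_i)^(2^(n+1))/x_{i+n} = x_{i-1}^(2^(n+2))/(D^(2^n) ℓ_{n+1} x_{i+n})` for `i ≥ 1`;
`esh_rec`: `esh (n+2) (i+n+1) - esh (n+2) (i+n) = [n+2] x_{i+n} (esh (n+1) (i+n))^2
 = [n+2] x_{i-1}^(2^(n+2))/x_{i+n}` for `i ≥ 1`, 0 for `i = 0`.  `ℓ_{n+2} = ℓ_{n+1} [n+2]`.

`SS_VI`: `SS D [2,5] i = esh 3 (i+1)/(D^2 ℓ_3)` (`SS_V`, `n = 1`), then as in `SS_III`:
`x_i esh 3 (i+1) = [i+1] x_{i-2}^8`, `[i+1] = [i-2]^8 + [3]`, `i ≥ 2`.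
-/

namespace Pool.Agent.ZL

open Polynomial Finset

variable {K : Type*} [Field K] [CharP K 2] (D : K) (hb : ∀ i, br D (i + 1) ≠ 0)

include hb

/-- `X_m^q + X_{m-1}^q = ([m] x_m)^q` -/
private theorem XX_diff (m j : ℕ) :
    (XX D m) ^ 2 ^ j + (XX D (m - 1)) ^ 2 ^ j = (br D m * xx D m) ^ 2 ^ j := by
  cases m with
  | zero =>
    rw [Nat.zero_sub, br_zero, zero_mul, CharTwo.add_self_eq_zero, zero_pow (by positivity)]
  | succ m =>
    rw [Nat.add_sub_cancel, XX_succ, add_pow_char_pow, mul_comm, xx_succ_mul D hb]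
    have := CharTwo.add_self_eq_zero ((XX D m) ^ 2 ^ j)
    linear_combination this

/-- the increment in the families III and VI -/
private theorem incr (i d : ℕ) : xx D d * esh D (i + 1) (d + 1) =
    ((XX D (d + 1 - (i + 1))) ^ 2 ^ (i + 1) + (XX D (d - (i + 1))) ^ 2 ^ (i + 1)) +
      br D (i + 1) * ((XX D (d + 1 - i)) ^ 2 ^ (i + 1) + (XX D (d - i)) ^ 2 ^ (i + 1)) := by
  by_cases h : i ≤ d
  · obtain ⟨m, rfl⟩ : ∃ m, d = i + m := ⟨d - i, by omega⟩
    have e1 : i + m + 1 - (i + 1) = m := by omega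
    have e2 : i + m - (i + 1) = m - 1 := by omega
    have e3 : i + m + 1 - i = m + 1 := by omega
    have e4 : i + m - i = m := by omega
    unfold esh
    rw [if_pos (by omega), e1, e2, e3, e4, XX_diff D hb, XX_succ, add_pow_char_pow]
    have hx := xx_succ_mul D hb (i + m)
    have hx0 := xx_ne_zero D hb (i + m + 1)
    have hbr := br_add D m (i + 1)
    have e5 : m + (i + 1) = i + m + 1 := by ring
    rw [e5] at hbr
    have h2 := CharTwo.add_self_eq_zero ((XX D m) ^ 2 ^ (i + 1))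
    rw [mul_pow, ← hx, hbr]
    field_simp
    linear_combination (-br D (i + 1)) * h2
  · have e1 : d + 1 - (i + 1) = 0 := by omega
    have e2 : d - (i + 1) = 0 := by omega
    have e3 : d + 1 - i = 0 := by omega
    have e4 : d - i = 0 := by omega
    unfold esh
    rw [if_neg (by omega), e1, e2, e3, e4, CharTwo.add_self_eq_zero]
    ring

theorem SS_III (k d : ℕ) : SS D (1 :: 3 :: geo 4 k) d =
    ((DD D k) ^ 4 * br D (k + 2) * ell D 1)⁻¹ *
      ((XX D (d - k - 2)) ^ 2 ^ (k + 2) + br D (k + 2) * (XX D (d - k - 1)) ^ 2 ^ (k + 2)) := by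
  induction d with
  | zero =>
    rw [SS_zero_cons]
    have e1 : 0 - k - 2 = 0 := by omega
    have e2 : 0 - k - 1 = 0 := by omega
    rw [e1, e2, XX_zero, zero_pow (by positivity)]
    ring
  | succ d ih =>
    have h1 : SS D (3 :: geo 4 k) d =
        ((DD D k) ^ 4 * br D (k + 2) * ell D 1)⁻¹ * esh D (k + 2) (d + 1) := by
      have h := SS_I D hb (n := 2) (by norm_num) k d
      have e0 : 2 + k = k + 2 := by ring
      rw [e0] at h
      exact h
    have h2 := incr D hb (k + 1) d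
    have e1 : d + 1 - (k + 1 + 1) = d + 1 - k - 2 := by omega
    have e2 : d - (k + 1 + 1) = d - k - 2 := by omega
    have e3 : d + 1 - (k + 1) = d + 1 - k - 1 := by omega
    have e4 : d - (k + 1) = d - k - 1 := by omega
    rw [e1, e2, e3, e4] at h2
    have h3 := CharTwo.add_self_eq_zero ((XX D (d - k - 2)) ^ 2 ^ (k + 2))
    have h4 := CharTwo.add_self_eq_zero ((XX D (d - k - 1)) ^ 2 ^ (k + 2))
    rw [SS_succ, ih, ps_one, h1]
    linear_combination ((DD D k) ^ 4 * br D (k + 2) * ell D 1)⁻¹ * (h2 + h3 + br D (k + 2) * h4)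

theorem SS_IV (d : ℕ) : SS D [3, 5] d =
    (D ^ 3 * ell D 2)⁻¹ * ((XX D (d - 2)) ^ 8 + (br D 2) ^ 2 * (XX D (d - 1)) ^ 8) := by
  induction d with
  | zero =>
    simp only [SS_zero_cons, Nat.zero_sub, XX_zero]
    ring
  | succ d ih =>
    have h1 : ps D d 3 = (xx D d) ^ 4 / (ell D 1 * xx D (d + 1)) := sig_eq D hb d 1
    have h2 : SS D [5] d = D ^ 2 / ell D 2 * (XX D d) ^ 4 * (xx D d) ^ 2 / xx D (d + 1) :=
      tau_eq D hb 1 d
    have h3 : ell D 1 = D := by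
      simp [ell, br_one]
    have hD := D_ne_zero D hb
    have hx1 := xx_ne_zero D hb (d + 1)
    have hl := ell_ne_zero D hb 2
    rw [SS_succ, ih, h1, h2, h3]
    cases d with
    | zero =>
      simp only [zero_add, Nat.zero_sub, Nat.sub_self, XX_zero, Nat.reduceSub]
      ring
    | succ e =>
      have e1 : e + 1 + 1 - 2 = e := by omega
      have e2 : e + 1 - 2 = e - 1 := by omega
      have e3 : e + 1 + 1 - 1 = e + 1 := by omega
      have e4 : e + 1 - 1 = e := by omega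
      have h4 := XX_diff D hb e 3
      have h5 : (XX D (e + 1)) ^ 8 = (XX D e) ^ 8 + (xx D e) ^ 8 := by
        rw [XX_succ]
        exact add_pow_char_pow (p := 2) (n := 3) _ _
      have h6 : (br D (e + 2)) ^ 2 = (br D e) ^ 8 + (br D 2) ^ 2 := by
        rw [br_add, CharTwo.add_sq]
        ring
      have h7 := xx_succ_mul D hb (e + 1)
      have h8 : D * xx D (e + 1) * XX D (e + 1) = (xx D e) ^ 2 := D_mul_xx_XX D hb e
      have h9 := CharTwo.add_self_eq_zero ((XX D (e - 1)) ^ 8)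
      norm_num at h4
      rw [e1, e2, e3, e4, h5]
      have e5 : (xx D (e + 1)) ^ 4 / (D * xx D (e + 1 + 1)) * (D ^ 2 / ell D 2 * (XX D (e + 1)) ^ 4 *
          (xx D (e + 1)) ^ 2 / xx D (e + 1 + 1)) =
          (D ^ 3 * ell D 2)⁻¹ * (D * xx D (e + 1) * XX D (e + 1)) ^ 4 *
            (xx D (e + 1) / xx D (e + 1 + 1)) ^ 2 := by
        field_simp
      have e6 : xx D (e + 1) / xx D (e + 1 + 1) = br D (e + 2) := by
        rw [div_eq_iff hx1, ← h7]
        ring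
      rw [e5, e6, h8, h6]
      linear_combination (D ^ 3 * ell D 2)⁻¹ * (- h4 + h9)

theorem SS_V (n d : ℕ) : SS D [2 ^ n, 3 * 2 ^ n - 1] d =
    (D ^ 2 ^ n * ell D (n + 2))⁻¹ * esh D (n + 2) (d + n) := by
  induction d with
  | zero =>
    rw [SS_zero_cons]
    unfold esh
    rw [if_neg (by omega), mul_zero]
  | succ d ih =>
    rw [SS_succ, ih, ps_pow, tau_eq D hb]
    have e1 : d + 1 + n = d + n + 1 := by ring
    rw [e1, esh_rec D hb (n + 1) (d + n), ell_succ D (n + 1)]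
    have hD := D_ne_zero D hb
    have hx1 := xx_ne_zero D hb (d + n)
    have hl := ell_ne_zero D hb (n + 1)
    have hbr := hb (n + 1)
    rw [mul_add]
    congr 1
    have key : xx D (d + n) ^ 2 * (esh D (n + 1) (d + n)) ^ 2 =
        (D * xx D d * XX D d) ^ 2 ^ (n + 1) := by
      cases d with
      | zero =>
        unfold esh
        rw [if_neg (by omega), XX_zero, mul_zero, zero_pow two_ne_zero, mul_zero,
          zero_pow (by positivity)]
      | succ e =>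
        have h8 : D * xx D (e + 1) * XX D (e + 1) = (xx D e) ^ 2 := D_mul_xx_XX D hb e
        unfold esh
        have e2 : e + 1 + n - (n + 1) = e := by omega
        rw [if_pos (by omega), e2, h8, div_pow, mul_div_cancel₀ _ (pow_ne_zero 2 hx1),
          ← pow_mul, ← pow_mul]
        congr 1
        ring
    have e3 : (xx D d) ^ 2 ^ n * (xx D d) ^ 2 ^ n = (xx D d) ^ 2 ^ (n + 1) := by
      rw [← pow_add]
      congr 1
      ring
    have e4 : D ^ 2 ^ n * D ^ 2 ^ n = D ^ 2 ^ (n + 1) := by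
      rw [← pow_add]
      congr 1
      ring
    rw [mul_pow, mul_pow, ← e3, ← e4] at key
    field_simp
    linear_combination -key

theorem SS_VI (d : ℕ) : SS D [1, 2, 5] d =
    (D ^ 2 * ell D 3)⁻¹ * ((XX D (d - 3)) ^ 8 + br D 3 * (XX D (d - 2)) ^ 8) := by
  induction d with
  | zero =>
    simp only [SS_zero_cons, Nat.zero_sub, XX_zero]
    ring
  | succ d ih =>
    have h1 : SS D [2, 5] d = (D ^ 2 * ell D 3)⁻¹ * esh D 3 (d + 1) := by
      have h := SS_V D hb 1 d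
      norm_num at h ⊢
      exact h
    have h2 := incr D hb 2 d
    have h3 := CharTwo.add_self_eq_zero ((XX D (d - 3)) ^ 8)
    have h4 := CharTwo.add_self_eq_zero ((XX D (d - 2)) ^ 8)
    norm_num at h2
    rw [SS_succ, ih, ps_one, h1]
    have e1 : d + 1 - 3 = d - 2 := by omega
    have e2 : d + 1 - 2 = d - 1 := by omega
    rw [e1, e2] at h2
    rw [e1, e2]
    linear_combination (D ^ 2 * ell D 3)⁻¹ * (h2 + h3 + br D 3 * h4)

end Pool.Agent.ZL
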