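import Pool.Agent.Work.MP_b19acb_nt.MzvSum
import Pool.Agent.Work.MP_b19acb_nt.MDefs

/-!
# KinfS (M): the completion at infinity as a setting

`Kinf` is valued in `ℤᵐ⁰`; `rankOneK`: `Valued.v` on `Kinf` has rank one (value group `exp ℤ`; e.g.
`Valuation.RankOne` from the embedding `WithZeroMulInt.toNNReal` with base 2, see
`Mathlib/RingTheory/Valuation/RankOne.lean` and the instances for adic completions; nontrivial since
`v (θ) = exp 1`).  `open scoped Valued` gives the `NormedField` structure `Valued.toNormedField` with the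
same uniform structure (its field `toUniformSpace` is `Valued.toUniformSpace`), completeness is that of
`UniformSpace.Completion`, ultrametric: instance in `Mathlib/Topology/Algebra/Valued/NormedValued`.
Characteristic 2: `Kinf` is an algebra over `RatFunc (ZMod 2)` (`charP_of_injective_algebraMap`).
`theSetup`: `φ = algebraMap`, `O` = range of `algebraMap (ZMod 2)[X] (RatFunc (ZMod 2))`, `θ = RatFunc.X`.
`norm_ge`: for a nonzero polynomial `p` the valuation is `exp (natDegree p) ≥ 1`
(`RatFunc.inftyValuation.polynomial`, the valuation of the completion restricts to it: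
`Valued.valuedCompletion_apply`), so the norm is `≥ 1` (`Valued.toNormedField.one_le_norm_iff`); `hθ`:
`one_lt_norm_iff`.  `frac`: `RatFunc` is the fraction field (`e = denom`).
`mzv_eq`: `hasSum_zeta` with `ψ = algebraMap (ZMod 2)[X] (RatFunc (ZMod 2))`, the topologies agree
definitionally (`HasSum.tsum_eq`; if needed `show` / `convert`).
-/

namespace Pool.Agent.ZL

open Polynomial Finset Filter

private theorem ks_alg (x : RatFunc (ZMod 2)) :
    Valued.v (algebraMap (RatFunc (ZMod 2)) Kinf x) = RatFunc.inftyValuationDef (ZMod 2) x := by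
  let _ := RatFunc.inftyValued (ZMod 2)
  exact Valued.valuedCompletion_apply x

private theorem ks_X : Valued.v (algebraMap (RatFunc (ZMod 2)) Kinf RatFunc.X) =
    (WithZero.exp 1 : WithZero (Multiplicative ℤ)) := by
  rw [ks_alg, ← RatFunc.inftyValuation_apply, RatFunc.inftyValuation.X]

private theorem ks_nontriv :
    (Valued.v : Valuation Kinf (WithZero (Multiplicative ℤ))).IsNontrivial := by
  refine ⟨algebraMap (RatFunc (ZMod 2)) Kinf RatFunc.X, ?_, ?_⟩
  · rw [ks_X]
    simp
  · rw [ks_X]
    simp

noncomputable instance rankOneK :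
    Valuation.RankOne (Valued.v : Valuation Kinf (WithZero (Multiplicative ℤ))) := by
  haveI := ks_nontriv
  haveI : MulArchimedean (MonoidWithZeroHom.ValueGroup₀
      (.ofClass (Valued.v : Valuation Kinf (WithZero (Multiplicative ℤ))))) :=
    MulArchimedean.comap (MonoidWithZeroHom.ValueGroup₀.embedding).toMonoidHom
      MonoidWithZeroHom.ValueGroup₀.embedding_strictMono
  exact (Valuation.nonempty_rankOne_iff_mulArchimedean.2 this).some

open scoped Valued

instance charPK : CharP (RatFunc (ZMod 2)) 2 :=
  charP_of_injective_algebraMap (algebraMap (ZMod 2) (RatFunc (ZMod 2))).injective 2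

instance charPKinf : CharP Kinf 2 :=
  charP_of_injective_algebraMap (algebraMap (RatFunc (ZMod 2)) Kinf).injective 2

instance completeKinf : @CompleteSpace Kinf
    (Valued.toNormedField Kinf (WithZero (Multiplicative ℤ))).toMetricSpace.toUniformSpace := by
  let _ := RatFunc.inftyValued (ZMod 2)
  exact UniformSpace.Completion.completeSpace (RatFunc (ZMod 2))

/-- the setting given by `F_2(t)` and its completion at infinity -/
noncomputable def theSetup : Setup (RatFunc (ZMod 2)) Kinf where
  φ := algebraMap (RatFunc (ZMod 2)) Kinf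
  O := (algebraMap (ZMod 2)[X] (RatFunc (ZMod 2))).range
  θ := RatFunc.X
  norm_ge := by
    rintro _ ⟨p, rfl⟩ hp
    have hp0 : p ≠ 0 := by
      intro h
      rw [h, map_zero] at hp
      exact hp rfl
    rw [Valued.toNormedField.one_le_norm_iff, ks_alg, RatFunc.inftyValuation.polynomial _ hp0]
    rw [← WithZero.exp_zero, WithZero.exp_le_exp]
    exact Int.natCast_nonneg _
  frac := by
    intro x
    refine ⟨algebraMap (ZMod 2)[X] (RatFunc (ZMod 2)) x.denom, ⟨_, rfl⟩, ?_, x.num, ?_⟩
    · exact (map_ne_zero_iff _ (IsFractionRing.injective (ZMod 2)[X] (RatFunc (ZMod 2)))).2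
        x.denom_ne_zero
    · have h1 := x.num_div_denom
      have h2 : algebraMap (ZMod 2)[X] (RatFunc (ZMod 2)) x.denom ≠ 0 :=
        (map_ne_zero_iff _ (IsFractionRing.injective (ZMod 2)[X] (RatFunc (ZMod 2)))).2
          x.denom_ne_zero
      rw [div_eq_iff h2] at h1
      rw [h1, mul_comm]
  θ_mem := ⟨X, RatFunc.algebraMap_X⟩
  hθ := by
    rw [Valued.toNormedField.one_lt_norm_iff, ks_X, ← WithZero.exp_zero, WithZero.exp_lt_exp]
    exact zero_lt_one

theorem theSetup_φ : theSetup.φ = algebraMap (RatFunc (ZMod 2)) Kinf := rfl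

theorem theSetup_θ : theSetup.θ = RatFunc.X := rfl

theorem mzv_eq {s : List ℕ} (hs : ∀ a ∈ s, 1 ≤ a) : mzv s = theSetup.zeta s :=
  (theSetup.hasSum_zeta (ψ := algebraMap (ZMod 2)[X] (RatFunc (ZMod 2)))
    RatFunc.algebraMap_X hs).tsum_eq

end Pool.Agent.ZL
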