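import Pool.Agent.Work.MP_b19acb_nt.FamEnd

/-!
# Splice (M-L): splicing inside the families

`h1 : Fam (l₁ ++ [a])` gives `FEnd l₁ a` (`fam_end`); `h2 : Fam (a :: l₂)` by cases.  Write
`|l₁|` for the sum of `l₁`; `W = |l₁| + a + |l₂|`.

Which pairs have the same `a`?  From the left: `2^m` (I, II, III), `3*2^e` (III0), `5*2^e` (IV, VI),
`2^e (3*2^n-1)` (V, odd part `3*2^n - 1 ≥ 5`).  From the right: `2^e' (2^n' - 1)` (I), `2^m` (II, III, V,
VI), `3*2^e'` (IV).  Comparing 2-adic valuations and odd parts: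
`5*2^e` and `2^e (3*2^n-1)` never occur on the right (`2^n' - 1 = 3*2^n - 1` would make 3 divide a power
of 2; `3*2^n - 1 = 3` is impossible; includes `5 = 3*2-1`).
(A) `a = 3*2^e`, left `[2^e, 3*2^e]`: right I with `n' = 2`, `e' = e`: the splice is `Fam.III e k'`;
    right IV: splice `2^e (1,3,5)`, `W = 9*2^e`, which is neither `2^n` (odd part 9) nor `2^n - 1`
    (`9*2^e + 1` is odd `> 1` or, for `e = 0`, 10).
(B) `a = 2^m`.  Left I `(e,n,k)`: `|l₁| = 2^m - 2^e`, `m = e+n+k`, `e < m`; left II, III: `|l₁| = 2^m`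
    (III: `m ≥ 2`).  Right I: `n' = 1`, `a :: l₂ = geo (2^m) (k'+1)` (`k' ≥ 1`): the splice is
    `Fam.I e n (k+k'+1)`.. (respectively II, III) because `geo x k ++ geo (2^k x) k' = geo x (k+k')`.
    (For the indices: left I: `l₁ ++ a :: l₂ = 2^e(2^n-1) :: (geo (2^(e+n)) k ++ geo (2^(e+n+k)) (k'+1))`.)
    Right II (`a + |l₂| = 2^(m+k')`, `k' ≥ 1`), III (`2^(m+k'+2)`), V (`a + |l₂| = 4a - 2^e'`, `e' < m`),
    VI (`8a`), `a = 2^m`:
    - left I (so `a ≥ 2`): right II: `W = a (2^k'+1) - 2^e = 2^e (2^(m-e) (2^k'+1) - 1)`: if it is `2^n` the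
      odd factor `2^(m-e)(2^k'+1) - 1` would be 1, no; if it is `2^n - 1` it is odd, `e = 0` and
      `2^m (2^k'+1) = 2^n`, but `2^k'+1` is odd `> 1`.  Right III: the same with `k'+2`.
      Right VI: `8a < W = 9a - 2^e < 9a`, no power of 2 and no `2^n - 1` (`8a - 1 < W < 16a - 1`).
      Right V: `W = 5a - 2^e - 2^e'`, `4a ≤ W < 5a`: so `W = 4a`, `2^e + 2^e' = 2^m`, `e = e' = m-1`,
      hence `n = 1`, `k = 0` (`m = e+n+k`), `n' = 1`: left `2^e (1,2)`, right `2^e (2,5)`: `Fam.VI e`.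
      (`W = 2^n - 1` is impossible as `4a - 1 < W < 8a - 1`.)
    - left II or III: right II: `W = a (2^k'+1)`: not a power of 2; `W = 2^n - 1` odd: `a = 1`,
      `2^k' + 2 = 2^n`: `k' = 1`, so left II with `e = k = 0`: `l₁ = [1]`, `a = 1`, `l₂ = [1]`: excluded by
      `hne` (left III has `a ≥ 4`).  Right III: `W = a (2^(k'+2)+1)`: not a power of 2; `a = 1` and
      `2^(k'+2) + 2 = 2^n` impossible (`= 2 (2^(k'+1)+1)`).  Right V: `a ≥ 2`, `4a < W = 5a - 2^e' < 5a`.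
      Right VI: `W = 9a`, and `9a + 1` is 10 or odd.
-/

namespace Pool.Agent.ZL

theorem geo_add (x k k' : ℕ) : geo x k ++ geo (2 ^ k * x) k' = geo x (k + k') := by
  induction k generalizing x with
  | zero => simp [geo]
  | succ k ih =>
    rw [geo, List.cons_append, show k + 1 + k' = (k + k') + 1 by omega, geo, ← ih (2 * x)]
    rw [show 2 ^ (k + 1) * x = 2 ^ k * (2 * x) by ring]

private lemma odd_part {a b u v : ℕ} (hu : u % 2 = 1) (hv : v % 2 = 1)
    (h : 2 ^ a * u = 2 ^ b * v) : a = b ∧ u = v := by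
  induction a generalizing b with
  | zero =>
    cases b with
    | zero => exact ⟨rfl, by simpa using h⟩
    | succ b =>
      exfalso
      rw [pow_zero, one_mul, pow_succ] at h
      have : u = 2 * (2 ^ b * v) := by rw [h]; ring
      omega
  | succ a ih =>
    cases b with
    | zero =>
      exfalso
      rw [pow_zero, one_mul, pow_succ] at h
      have : v = 2 * (2 ^ a * u) := by rw [← h]; ring
      omega
    | succ b =>
      have h' : 2 ^ a * u = 2 ^ b * v := by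
        have h1 : 2 * (2 ^ a * u) = 2 * (2 ^ b * v) := by
          rw [pow_succ, pow_succ] at h
          linarith
        omega
      obtain ⟨h1, h2⟩ := ih h'
      exact ⟨by omega, h2⟩

private lemma two_pow_sub_odd {n : ℕ} (hn : 1 ≤ n) : (2 ^ n - 1) % 2 = 1 := by
  obtain ⟨m, rfl⟩ := Nat.exists_eq_succ_of_ne_zero (by omega : n ≠ 0)
  have : 1 ≤ 2 ^ m := Nat.one_le_two_pow
  rw [Nat.succ_eq_add_one, pow_succ]
  omega

private lemma three_pow_sub_odd {n : ℕ} (hn : 1 ≤ n) : (3 * 2 ^ n - 1) % 2 = 1 := by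
  obtain ⟨m, rfl⟩ := Nat.exists_eq_succ_of_ne_zero (by omega : n ≠ 0)
  have : 1 ≤ 2 ^ m := Nat.one_le_two_pow
  rw [Nat.succ_eq_add_one, pow_succ]
  omega

/-- the shape of the right tuple -/
private lemma fam_head {a : ℕ} {l : List ℕ} (h : Fam (a :: l)) :
    (∃ e n k, 1 ≤ n ∧ 1 ≤ k ∧ a = 2 ^ e * (2 ^ n - 1) ∧ l = geo (2 ^ (e + n)) k) ∨
    (∃ e k, 1 ≤ k ∧ a = 2 ^ e ∧ l = geo (2 ^ e) k) ∨
    (∃ e k, a = 2 ^ e ∧ l = (3 * 2 ^ e) :: geo (2 ^ (e + 2)) k) ∨
    (∃ e, a = 2 ^ e * 3 ∧ l = [5 * 2 ^ e]) ∨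
    (∃ e n, 1 ≤ n ∧ a = 2 ^ (e + n) ∧ l = [2 ^ e * (3 * 2 ^ n - 1)]) ∨
    (∃ e, a = 2 ^ e ∧ l = [2 ^ (e + 1), 5 * 2 ^ e]) := by
  cases h with
  | I e n k hn hk => exact Or.inl ⟨e, n, k, hn, hk, rfl, rfl⟩
  | II e k hk => exact Or.inr (Or.inl ⟨e, k, hk, rfl, rfl⟩)
  | III e k => exact Or.inr (Or.inr (Or.inl ⟨e, k, rfl, rfl⟩))
  | IV e => exact Or.inr (Or.inr (Or.inr (Or.inl ⟨e, mul_comm _ _, rfl⟩)))
  | V e n hn => exact Or.inr (Or.inr (Or.inr (Or.inr (Or.inl ⟨e, n, hn, rfl, rfl⟩))))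
  | VI e => exact Or.inr (Or.inr (Or.inr (Or.inr (Or.inr ⟨e, rfl, rfl⟩))))

private lemma no_pow {B W n : ℕ} (b : ℕ) (hB : B = 2 ^ b) (h1 : B < W) (h2 : W + 1 < 2 * B)
    (hw : W = 2 ^ n ∨ W + 1 = 2 ^ n) : False := by
  have key : ∀ V : ℕ, 2 ^ b < V → V < 2 ^ (b + 1) → V ≠ 2 ^ n := by
    intro V hV1 hV2 hV
    rw [hV] at hV1 hV2
    have e1 := (Nat.pow_lt_pow_iff_right (by norm_num : 1 < 2)).1 hV1
    have e2 := (Nat.pow_lt_pow_iff_right (by norm_num : 1 < 2)).1 hV2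
    omega
  rw [hB] at h1 h2
  have h3 : 2 ^ (b + 1) = 2 * 2 ^ b := by ring
  rcases hw with hw | hw
  · exact key W h1 (by omega) hw
  · exact key (W + 1) (by omega) (by omega) hw

/-- right tuple beginning with `2 ^ m` and not of type I: possible values of the sum -/
private lemma right_cases {m : ℕ} {l₂ : List ℕ} (h2 : Fam (2 ^ m :: l₂)) :
    (∃ k, 1 ≤ k ∧ l₂ = geo (2 ^ (m + 1)) k) ∨
    (∃ k, 1 ≤ k ∧ l₂ = geo (2 ^ m) k ∧ 2 ^ m + l₂.sum = 2 ^ (m + k)) ∨
    (∃ j, 2 ≤ j ∧ 2 ^ m + l₂.sum = 2 ^ (m + j)) ∨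
    (∃ e n, 1 ≤ n ∧ m = e + n ∧ l₂ = [2 ^ e * (3 * 2 ^ n - 1)] ∧
      2 ^ m + l₂.sum + 2 ^ e = 4 * 2 ^ m) := by
  rcases fam_head h2 with ⟨e, n, k, hn, hk, ha, hl⟩ | ⟨e, k, hk, ha, hl⟩ | ⟨e, k, ha, hl⟩ |
    ⟨e, ha, hl⟩ | ⟨e, n, hn, ha, hl⟩ | ⟨e, ha, hl⟩
  · left
    obtain ⟨h1, h3⟩ := odd_part (a := m) (b := e) (u := 1) rfl (two_pow_sub_odd hn)
      (by rw [mul_one]; exact ha)
    have h4 : n = 1 := by
      by_contra hne
      have h5 : 2 ^ 2 ≤ 2 ^ n := Nat.pow_le_pow_right (by norm_num) (by omega)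
      omega
    subst h1 h4
    exact ⟨k, hk, hl⟩
  · right; left
    have h1 : m = e := Nat.pow_right_injective (le_refl 2) ha
    subst h1
    refine ⟨k, hk, hl, ?_⟩
    rw [hl, sum_geo, pow_add]
    have : 1 ≤ 2 ^ k := Nat.one_le_two_pow
    obtain ⟨c, hc⟩ := Nat.exists_eq_add_of_le this
    rw [hc]
    simp only [Nat.add_sub_cancel_left]
    ring
  · right; right; left
    have h1 : m = e := Nat.pow_right_injective (le_refl 2) ha
    subst h1
    refine ⟨k + 2, by omega, ?_⟩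
    rw [hl, List.sum_cons, sum_geo, show m + (k + 2) = (m + 2) + k by ring, pow_add 2 (m + 2) k]
    have : 1 ≤ 2 ^ k := Nat.one_le_two_pow
    obtain ⟨c, hc⟩ := Nat.exists_eq_add_of_le this
    rw [hc]
    simp only [Nat.add_sub_cancel_left]
    ring
  · exfalso
    have := odd_part (a := m) (b := e) (u := 1) (v := 3) rfl rfl (by rw [mul_one]; exact ha)
    omega
  · right; right; right
    have h1 : m = e + n := Nat.pow_right_injective (le_refl 2) ha
    refine ⟨e, n, hn, h1, hl, ?_⟩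
    rw [hl, h1, pow_add]
    simp only [List.sum_cons, List.sum_nil, add_zero]
    have : 1 ≤ 2 ^ n := Nat.one_le_two_pow
    obtain ⟨c, hc⟩ := Nat.exists_eq_add_of_le this
    rw [hc]
    have h3 : 3 * (1 + c) - 1 = 2 + 3 * c := by omega
    rw [h3]
    ring
  · right; right; left
    have h1 : m = e := Nat.pow_right_injective (le_refl 2) ha
    subst h1
    refine ⟨3, by norm_num, ?_⟩
    rw [hl]
    simp only [List.sum_cons, List.sum_nil, add_zero]
    ring

theorem splice_fam {l₁ l₂ : List ℕ} {a n : ℕ} (h1 : Fam (l₁ ++ [a])) (h2 : Fam (a :: l₂))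
    (hn : 1 ≤ n)
    (hw : (l₁ ++ a :: l₂).sum = 2 ^ n ∨ (l₁ ++ a :: l₂).sum = 2 ^ n - 1)
    (hne : ¬ (l₁ = [1] ∧ a = 1 ∧ l₂ = [1])) : Fam (l₁ ++ a :: l₂) := by
  have hw' : (l₁.sum + (a + l₂.sum)) = 2 ^ n ∨ (l₁.sum + (a + l₂.sum)) + 1 = 2 ^ n := by
    rw [List.sum_append, List.sum_cons] at hw
    have : 1 ≤ 2 ^ n := Nat.one_le_two_pow
    rcases hw with hw | hw
    · exact Or.inl hw
    · exact Or.inr (by omega)
  clear hw
  have hodd : ∀ e v : ℕ, v % 2 = 1 → v ≠ 1 → v ≠ 3 → (∀ n', 1 ≤ n' → v ≠ 2 ^ n' - 1) →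
      a = 2 ^ e * v → False := by
    intro e v hv hv1 hv3 hvn ha
    rcases fam_head h2 with ⟨e', n', k', hn', hk', ha', hl⟩ | ⟨e', k', hk', ha', hl⟩ |
      ⟨e', k', ha', hl⟩ | ⟨e', ha', hl⟩ | ⟨e', n', hn', ha', hl⟩ | ⟨e', ha', hl⟩
    · exact hvn n' hn' (odd_part hv (two_pow_sub_odd hn') (by rw [← ha, ← ha'])).2
    · exact hv1 (odd_part (b := e') (v := 1) hv rfl (by rw [← ha, mul_one, ← ha'])).2
    · exact hv1 (odd_part (b := e') (v := 1) hv rfl (by rw [← ha, mul_one, ← ha'])).2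
    · exact hv3 (odd_part (b := e') (v := 3) hv rfl (by rw [← ha, ← ha'])).2
    · exact hv1 (odd_part (b := e' + n') (v := 1) hv rfl (by rw [← ha, mul_one, ← ha'])).2
    · exact hv1 (odd_part (b := e') (v := 1) hv rfl (by rw [← ha, mul_one, ← ha'])).2
  have hfive : ∀ e, a = 2 ^ e * 5 → False := by
    intro e ha
    refine hodd e 5 rfl (by norm_num) (by norm_num) ?_ ha
    intro n' hn' h5
    have h6 : 2 ^ n' = 6 := by omega
    rcases Nat.lt_or_ge n' 3 with h7 | h7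
    · interval_cases n' <;> omega
    · have : 2 ^ 3 ≤ 2 ^ n' := Nat.pow_le_pow_right (by norm_num) h7
      omega
  -- the case `a = 2 ^ m` with `l₁.sum = 2 ^ m`
  have hcase2 : ∀ m : ℕ, a = 2 ^ m → l₁.sum = 2 ^ m → (∀ k, 1 ≤ k → l₂ = geo (2 ^ (m + 1)) k →
      Fam (l₁ ++ a :: l₂)) → (m = 0 → l₁ = [1]) → Fam (l₁ ++ a :: l₂) := by
    intro m ha hs hI hm0
    rw [ha] at h2
    rcases right_cases h2 with ⟨k, hk, hl⟩ | ⟨k, hk, hl, hsum⟩ | ⟨j, hj, hsum⟩ |
      ⟨e, n', hn', hm, hl, hsum⟩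
    · exact hI k hk hl
    · exfalso
      rw [ha, hs, hsum] at hw'
      by_cases hmk : m = 0 ∧ k = 1
      · obtain ⟨rfl, rfl⟩ := hmk
        exact hne ⟨hm0 rfl, by simpa using ha, by rw [hl]; rfl⟩
      · have hk2 : 2 ^ m + 1 < 2 ^ (m + k) := by
          rcases Nat.eq_zero_or_pos m with hm | hm
          · subst hm
            have hk2 : 2 ≤ k := by omega
            have : 2 ^ 2 ≤ 2 ^ k := Nat.pow_le_pow_right (by norm_num) hk2
            rw [Nat.zero_add, pow_zero]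
            omega
          · have e1 : 2 ^ (m + 1) ≤ 2 ^ (m + k) := Nat.pow_le_pow_right (by norm_num) (by omega)
            have e2 : 2 ^ 1 ≤ 2 ^ m := Nat.pow_le_pow_right (by norm_num) hm
            rw [pow_succ] at e1
            omega
        have hp : 1 ≤ 2 ^ m := Nat.one_le_two_pow
        exact no_pow (m + k) rfl (by omega) (by omega) hw'
    · exfalso
      rw [ha, hs, hsum] at hw'
      have e1 : 2 ^ (m + 2) ≤ 2 ^ (m + j) := Nat.pow_le_pow_right (by norm_num) (by omega)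
      rw [pow_add] at e1
      have hp : 1 ≤ 2 ^ m := Nat.one_le_two_pow
      exact no_pow (m + j) rfl (by omega) (by omega) hw'
    · exfalso
      rw [ha, hs] at hw'
      have e1 : 2 ^ e < 2 ^ m := Nat.pow_lt_pow_right (by norm_num) (by omega)
      have e2 : 2 ^ (m + 2) = 4 * 2 ^ m := by ring
      have hp : 1 ≤ 2 ^ e := Nat.one_le_two_pow
      exact no_pow (m + 2) rfl (by omega) (by omega) hw'
  cases fam_end h1 with
  | I e n₁ k hn₁ =>
    have hsum : (2 ^ e * (2 ^ n₁ - 1) :: geo (2 ^ (e + n₁)) k).sum + 2 ^ e = 2 ^ (e + n₁ + k) := by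
      rw [sum_I e n₁ k hn₁, show e + n₁ + k = e + (n₁ + k) by ring, pow_add 2 e (n₁ + k)]
      have : 1 ≤ 2 ^ (n₁ + k) := Nat.one_le_two_pow
      obtain ⟨c, hc⟩ := Nat.exists_eq_add_of_le this
      rw [hc]
      simp only [Nat.add_sub_cancel_left]
      ring
    set m := e + n₁ + k with hm
    have hem : 2 ^ e < 2 ^ m := Nat.pow_lt_pow_right (by norm_num) (by omega)
    have hpe : 1 ≤ 2 ^ e := Nat.one_le_two_pow
    rcases right_cases h2 with ⟨k', hk', hl⟩ | ⟨k', hk', hl, hsum'⟩ | ⟨j, hj, hsum'⟩ |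
      ⟨e', n', hn', hm', hl, hsum'⟩
    · have h3 : (2 ^ e * (2 ^ n₁ - 1) :: geo (2 ^ (e + n₁)) k) ++ 2 ^ m :: l₂ =
          2 ^ e * (2 ^ n₁ - 1) :: geo (2 ^ (e + n₁)) (k + (k' + 1)) := by
        rw [List.cons_append, ← geo_add]
        congr 2
        rw [geo, hl, ← pow_add, show k + (e + n₁) = m by omega, pow_succ, mul_comm 2]
      rw [h3]
      exact Fam.I e n₁ _ hn₁ (by omega)
    · exfalso
      rw [hsum'] at hw'
      have e1 : 2 ^ (m + 1) ≤ 2 ^ (m + k') := Nat.pow_le_pow_right (by norm_num) (by omega)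
      rw [pow_succ] at e1
      exact no_pow (m + k') rfl (by omega) (by omega) hw'
    · exfalso
      rw [hsum'] at hw'
      have e1 : 2 ^ (m + 1) ≤ 2 ^ (m + j) := Nat.pow_le_pow_right (by norm_num) (by omega)
      rw [pow_succ] at e1
      exact no_pow (m + j) rfl (by omega) (by omega) hw'
    · have hem' : 2 ^ e' < 2 ^ m := Nat.pow_lt_pow_right (by norm_num) (by omega)
      have hpe' : 1 ≤ 2 ^ e' := Nat.one_le_two_pow
      have e2 : 2 ^ (m + 2) = 4 * 2 ^ m := by ring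
      by_cases hlt : 2 ^ e + 2 ^ e' < 2 ^ m
      · exfalso
        exact no_pow (m + 2) rfl (by omega) (by omega) hw'
      · obtain ⟨m₀, hm₀⟩ := Nat.exists_eq_succ_of_ne_zero (by omega : m ≠ 0)
        have e3 : 2 ^ m = 2 * 2 ^ m₀ := by rw [hm₀, Nat.succ_eq_add_one]; ring
        have e4 : 2 ^ e ≤ 2 ^ m₀ := Nat.pow_le_pow_right (by norm_num) (by omega)
        have e5 : 2 ^ e' ≤ 2 ^ m₀ := Nat.pow_le_pow_right (by norm_num) (by omega)
        have e6 : 2 ^ e = 2 ^ m₀ := by omega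
        have e7 : 2 ^ e' = 2 ^ m₀ := by omega
        have e8 : e = m₀ := Nat.pow_right_injective (le_refl 2) e6
        have e9 : e' = m₀ := Nat.pow_right_injective (le_refl 2) e7
        have hk0 : k = 0 := by omega
        have hn1 : n₁ = 1 := by omega
        have hn1' : n' = 1 := by omega
        have hee : e' = e := by omega
        have hme : m = e + 1 := by omega
        rw [hl, hk0, hn1, hn1', hee, hme]
        have h3 : (2 ^ e * (2 ^ 1 - 1) :: geo (2 ^ (e + 1)) 0) ++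
            2 ^ (e + 1) :: [2 ^ e * (3 * 2 ^ 1 - 1)] = [2 ^ e, 2 ^ (e + 1), 5 * 2 ^ e] := by
          simp [geo, mul_comm]
        rw [h3]
        exact Fam.VI e
  | II e k =>
    refine hcase2 (e + k) rfl ?_ ?_ ?_
    · rw [List.sum_cons, sum_geo, pow_add]
      have : 1 ≤ 2 ^ k := Nat.one_le_two_pow
      obtain ⟨c, hc⟩ := Nat.exists_eq_add_of_le this
      rw [hc]
      simp only [Nat.add_sub_cancel_left]
      ring
    · intro k' hk' hl
      have h3 : (2 ^ e :: geo (2 ^ e) k) ++ 2 ^ (e + k) :: l₂ =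
          2 ^ e :: geo (2 ^ e) (k + (k' + 1)) := by
        rw [List.cons_append, ← geo_add]
        congr 2
        rw [geo, hl, ← pow_add, show k + e = e + k by omega, pow_succ, mul_comm 2]
      rw [h3]
      exact Fam.II e _ (by omega)
    · intro h0
      have he : e = 0 := by omega
      have hk : k = 0 := by omega
      subst he hk
      rfl
  | III0 e =>
    rcases fam_head h2 with ⟨e', n', k', hn', hk', ha', hl⟩ | ⟨e', k', hk', ha', hl⟩ |
      ⟨e', k', ha', hl⟩ | ⟨e', ha', hl⟩ | ⟨e', n', hn', ha', hl⟩ | ⟨e', ha', hl⟩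
    · obtain ⟨h3, h4⟩ := odd_part (a := e) (b := e') (u := 3) rfl (two_pow_sub_odd hn')
        (by rw [mul_comm, ha'])
      have h5 : n' = 2 := by
        have h6 : 2 ^ n' = 2 ^ 2 := by omega
        exact Nat.pow_right_injective (le_refl 2) h6
      subst h3 h5
      rw [hl]
      exact Fam.III e k'
    · have := odd_part (a := e) (b := e') (u := 3) (v := 1) rfl rfl (by rw [mul_comm, ha', mul_one])
      omega
    · have := odd_part (a := e) (b := e') (u := 3) (v := 1) rfl rfl (by rw [mul_comm, ha', mul_one])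
      omega
    · exfalso
      have h3 : e = e' := (odd_part (a := e) (b := e') (u := 3) (v := 3) rfl rfl
        (by rw [mul_comm, ha'])).1
      subst h3
      rw [hl] at hw'
      simp only [List.sum_cons, List.sum_nil, add_zero] at hw'
      have hp : 1 ≤ 2 ^ e := Nat.one_le_two_pow
      have e2 : 2 ^ (e + 3) = 8 * 2 ^ e := by ring
      rcases Nat.eq_zero_or_pos e with he | he
      · subst he
        exact no_pow (B := 8) 3 rfl (W := 2 ^ 0 + (3 * 2 ^ 0 + 5 * 2 ^ 0)) (by norm_num) (by norm_num)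
          hw'
      · exact no_pow (e + 3) rfl (by omega) (by omega) hw'
    · have := odd_part (a := e) (b := e' + n') (u := 3) (v := 1) rfl rfl
        (by rw [mul_comm, ha', mul_one])
      omega
    · have := odd_part (a := e) (b := e') (u := 3) (v := 1) rfl rfl (by rw [mul_comm, ha', mul_one])
      omega
  | III e k =>
    refine hcase2 (e + 2 + k) rfl ?_ ?_ ?_
    · rw [List.sum_cons, List.sum_cons, sum_geo, pow_add 2 (e + 2) k]
      have : 1 ≤ 2 ^ k := Nat.one_le_two_pow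
      obtain ⟨c, hc⟩ := Nat.exists_eq_add_of_le this
      rw [hc]
      simp only [Nat.add_sub_cancel_left]
      ring
    · intro k' hk' hl
      have h3 : (2 ^ e :: (3 * 2 ^ e) :: geo (2 ^ (e + 2)) k) ++ 2 ^ (e + 2 + k) :: l₂ =
          2 ^ e :: (3 * 2 ^ e) :: geo (2 ^ (e + 2)) (k + (k' + 1)) := by
        rw [List.cons_append, List.cons_append, ← geo_add]
        congr 3
        rw [geo, hl, ← pow_add, show k + (e + 2) = e + 2 + k by omega, pow_succ 2 (e + 2 + k),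
          mul_comm 2]
      rw [h3]
      exact Fam.III e _
    · intro h0
      omega
  | IV e => exact (hfive e (mul_comm _ _)).elim
  | V e n' hn' =>
    exfalso
    have hp : 2 ^ 1 ≤ 2 ^ n' := Nat.pow_le_pow_right (by norm_num) hn'
    refine hodd e (3 * 2 ^ n' - 1) (three_pow_sub_odd hn') (by omega) (by omega) ?_ rfl
    intro n'' hn'' h3
    have h4 : 2 ^ n' * 3 = 2 ^ n'' * 1 := by
      have : 1 ≤ 2 ^ n'' := Nat.one_le_two_pow
      omega
    have := (odd_part (u := 3) (v := 1) rfl rfl h4).2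
    omega
  | VI e => exact (hfive e (mul_comm _ _)).elim

end Pool.Agent.ZL
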