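import Pool.Agent.Work.MP_b19acb_nt.MainT
import Pool.Agent.Work.MP_b19acb_nt.KinfS
import Pool.Agent.Work.MP_b19acb_nt.Splice

/-!
# Final (S-M): the classification of the zeta-like tuples and the splicing theorem

`zetaLike_iff`: `mzv_eq` (also for `[s.sum]`, `s.sum ≥ 1`), `theSetup_φ`, `zeta_single_ne`
(`x / y = c ↔ x = c * y`), `zeta_like_iff`, `Fam.two_le`.
`splice`: `s.take k = l₁ ++ [a]`, `s.drop (k-1) = a :: l₂`, with `l₁ = s.take (k-1)`, `a = s[k-1]`,
`l₂ = s.drop k`, `s = l₁ ++ a :: l₂` (`List.take_append_getElem`.., `List.drop_eq_getElem_cons`),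
`zetaLike_iff` for both and for `s`, `splice_fam`.
-/

namespace Pool.Agent.ZL

open Polynomial

open scoped Valued in
theorem zetaLike_iff {s : List ℕ} (hs : ∀ a ∈ s, 1 ≤ a) : ZetaLike s ↔ Fam s := by
  have key : ∀ (_ : 2 ≤ s.length) (c : RatFunc (ZMod 2)),
      mzv s / mzv [s.sum] = algebraMap _ Kinf c ↔
        theSetup.zeta s = theSetup.φ c * theSetup.zeta [s.sum] := by
    intro hl c
    have hsum : 1 ≤ s.sum := by
      rcases s with _ | ⟨a, s⟩
      · simp at hl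
      · have := hs a (by simp)
        rw [List.sum_cons]
        omega
    rw [mzv_eq hs, mzv_eq (s := [s.sum]) (by simpa using hsum), theSetup_φ]
    exact div_eq_iff (theSetup.zeta_single_ne hsum)
  constructor
  · rintro ⟨hl, c, hc⟩
    exact (theSetup.zeta_like_iff hs hl).mp ⟨c, (key hl c).mp hc⟩
  · intro h
    obtain ⟨c, hc⟩ := (theSetup.zeta_like_iff hs h.two_le).mpr h
    exact ⟨h.two_le, c, (key h.two_le c).mpr hc⟩

theorem splice {s : List ℕ} (hs : ∀ a ∈ s, 1 ≤ a) {k : ℕ} (hk : 2 ≤ k) (hk' : k + 1 ≤ s.length)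
    (h1 : ZetaLike (s.take k)) (h2 : ZetaLike (s.drop (k - 1)))
    (hw : ∃ n, 1 ≤ n ∧ (s.sum = 2 ^ n ∨ s.sum = 2 ^ n - 1))
    (hne : ¬ (s.take k = [1, 1] ∧ s.drop (k - 1) = [1, 1])) : ZetaLike s := by
  obtain ⟨m, rfl⟩ : ∃ m, k = m + 1 := ⟨k - 1, by omega⟩
  rw [Nat.add_sub_cancel] at h2 hne
  have hm : m < s.length := by omega
  have e1 : s.take (m + 1) = s.take m ++ [s[m]] := List.take_succ_eq_append_getElem hm
  have e2 : s.drop m = s[m] :: s.drop (m + 1) := List.drop_eq_getElem_cons hm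
  have e3 : s = s.take m ++ s[m] :: s.drop (m + 1) := by
    rw [← e2, List.take_append_drop]
  have f1 : Fam (s.take m ++ [s[m]]) := by
    rw [← e1]
    exact (zetaLike_iff fun a ha => hs a (List.mem_of_mem_take ha)).mp h1
  have f2 : Fam (s[m] :: s.drop (m + 1)) := by
    rw [← e2]
    exact (zetaLike_iff fun a ha => hs a (List.mem_of_mem_drop ha)).mp h2
  obtain ⟨n, hn, hw⟩ := hw
  rw [zetaLike_iff hs, e3]
  refine splice_fam f1 f2 hn ?_ ?_
  · rwa [← e3]
  · rintro ⟨h3, h4, h5⟩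
    exact hne ⟨by rw [e1, h3, h4]; rfl, by rw [e2, h4, h5]⟩

end Pool.Agent.ZL
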