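import Pool.Agent.Work.MP_b19acb_nt.Esh

/-!
# GE (M): the quotient x_{d+j-M}^(2^M)/x_{d+j} as a polynomial in u_d

`[i] = br D i`, `u_i = uu D i = D/[i]^2` (`uu_eq`), `x_d = u_d X_d`.

`esh_poly`: `j < M`, `d ≥ 1`.
If `d < M - j`: `d + j < M`, so `esh D M (d+j) = 0`, and the factor `i = d` of the first product is
`D + [d]^2 u_d = D + D = 0`.
If `M - j ≤ d`: `x_{d+j-M} = x_d ∏_{i < M-j} [d-i]` and `x_{d+j} ∏_{i<j} [d+i+1] = x_d`, so
`esh D M (d+j) = (∏_{i<M-j} [d-i])^(2^M) (∏_{i<j} [d+i+1]) x_d^(2^M-1)`.  Now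
`[d-i]^(2^(i+1)) = ([d-i]^(2^i))^2 = ([d] + [i])^2 = [d]^2 + [i]^2` (`br_add`), `u_d [d]^2 = D`, so
`u_d^(2^(M-1-i)) [d-i]^(2^M) = (D + [i]^2 u_d)^(2^(M-1-i))`; and
`[d+i+1] = [d]^(2^(i+1)) + [i+1]`, `u_d^(2^i) [d+i+1] = D^(2^i) + [i+1] u_d^(2^i)`.  The exponents
`Σ_{i<M-j} 2^(M-1-i) + Σ_{i<j} 2^i = (2^M - 2^j) + (2^j - 1) = 2^M - 1` match `x_d^(2^M-1) =
u_d^(2^M-1) X_d^(2^M-1)`.
(Another way: induction on `j` with `esh_succ`, which reduces to `j = 0`.)
`GE_natDegree`: the factor `i = 0` of the first product is a constant (`[0] = 0`); the sum of the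
other degrees is `Σ_{1≤i<M-j} 2^(M-1-i) + Σ_{i<j} 2^i = (2^(M-1) - 2^j) + (2^j - 1)`.
`GE_dvd`: `C D + C ([i]^2) * X = C ([i]^2) * (X + C u_i)` for `i ≥ 1`.
-/

namespace Pool.Agent.ZL

open Polynomial Finset

/-- the polynomial with `esh D M (d+j) = X_d^(2^M-1) (GE D M j)(u_d)` -/
noncomputable def GE {K : Type*} [Field K] (D : K) (M j : ℕ) : K[X] :=
  (∏ i ∈ range (M - j), (C D + C ((br D i) ^ 2) * X) ^ 2 ^ (M - 1 - i)) *
    ∏ i ∈ range j, (C (D ^ 2 ^ i) + C (br D (i + 1)) * X ^ 2 ^ i)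

variable {K : Type*} [Field K] [CharP K 2] (D : K) (hb : ∀ i, br D (i + 1) ≠ 0)

include hb

omit [CharP K 2] in
private theorem ge_br_ne {d : ℕ} (hd : 1 ≤ d) : br D d ≠ 0 := by
  obtain ⟨e, rfl⟩ : ∃ e, d = e + 1 := ⟨d - 1, by omega⟩
  exact hb e

private theorem ge_u {d : ℕ} (hd : 1 ≤ d) : uu D d * (br D d) ^ 2 = D := by
  rw [uu_eq D hb, div_mul_cancel₀]
  exact pow_ne_zero 2 (ge_br_ne D hb hd)

private theorem ge_Xu {d : ℕ} (hd : 1 ≤ d) : XX D d * uu D d = xx D d := by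
  unfold uu
  rw [mul_comm, div_mul_cancel₀]
  exact XX_ne_zero D hb hd

/-- the case `j = 0` -/
private theorem ge_base (M : ℕ) {d : ℕ} (hd : 1 ≤ d) :
    esh D M d = (XX D d) ^ (2 ^ M - 1) *
      ∏ i ∈ range M, (D + (br D i) ^ 2 * uu D d) ^ 2 ^ (M - 1 - i) := by
  induction M with
  | zero => rw [esh_zero D hb, Finset.prod_range_zero, pow_zero, Nat.sub_self, pow_zero, mul_one]
  | succ M ih =>
    have hX := XX_ne_zero D hb hd
    have hx := xx_ne_zero D hb d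
    have key : XX D d * esh D M d * (D + (br D M) ^ 2 * uu D d) = (D * XX D (d - M)) ^ 2 ^ M := by
      by_cases hM : M ≤ d
      · have h1 : br D d = (br D (d - M)) ^ 2 ^ M + br D M := by
          rw [← br_add, Nat.sub_add_cancel hM]
        have h2 : uu D d * (br D d) ^ 2 = D := ge_u D hb hd
        have h3 : D + (br D M) ^ 2 * uu D d = uu D d * ((br D (d - M)) ^ 2 ^ M) ^ 2 := by
          have h4 : (br D d) ^ 2 = ((br D (d - M)) ^ 2 ^ M) ^ 2 + (br D M) ^ 2 := by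
            rw [h1, CharTwo.add_sq]
          have h5 : (br D M) ^ 2 * uu D d + (br D M) ^ 2 * uu D d = 0 :=
            CharTwo.add_self_eq_zero _
          rw [h4] at h2
          linear_combination (-1 : K) * h2 + h5
        rw [h3, XX_eq D hb, ← mul_assoc, mul_assoc (XX D d), mul_comm (esh D M d), ← mul_assoc,
          ge_Xu D hb hd]
        unfold esh
        rw [if_pos hM, mul_pow, ← pow_mul, ← pow_mul, mul_comm 2 (2 ^ M)]
        field_simp
      · unfold esh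
        rw [if_neg hM, show d - M = 0 by omega, XX_zero, mul_zero, mul_zero, zero_mul,
          zero_pow (pow_ne_zero _ two_ne_zero)]
    have h1 : esh D (M + 1) d = esh D M d * (D * XX D (d - M)) ^ 2 ^ M := by
      rw [esh_prod D hb, Finset.prod_range_succ, ← esh_prod D hb]
    have h2 : 2 ^ (M + 1) - 1 = (2 ^ M - 1) + (2 ^ M - 1) + 1 := by
      have := Nat.one_le_two_pow (n := M)
      rw [pow_succ]
      omega
    have h3 : ∏ i ∈ range M, (D + (br D i) ^ 2 * uu D d) ^ 2 ^ (M + 1 - 1 - i) =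
        (∏ i ∈ range M, (D + (br D i) ^ 2 * uu D d) ^ 2 ^ (M - 1 - i)) ^ 2 := by
      rw [← Finset.prod_pow]
      refine Finset.prod_congr rfl fun i hi => ?_
      have hi' := Finset.mem_range.1 hi
      rw [← pow_mul, ← pow_succ, show M + 1 - 1 - i = M - 1 - i + 1 by omega]
    rw [h1, ← key, Finset.prod_range_succ, h3, h2, pow_add, pow_add, pow_one,
      show M + 1 - 1 - M = 0 by omega, pow_zero, pow_one, ih]
    ring

/-- the second product -/
private theorem ge_prod {d : ℕ} (hd : 1 ≤ d) (j : ℕ) :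
    ∏ i ∈ range j, (D ^ 2 ^ i + br D (i + 1) * (uu D d) ^ 2 ^ i) =
      (uu D d) ^ (2 ^ j - 1) * ∏ i ∈ range j, br D (d + i + 1) := by
  induction j with
  | zero => simp
  | succ j ih =>
    have h1 : D ^ 2 ^ j = (uu D d) ^ 2 ^ j * (br D d) ^ 2 ^ (j + 1) := by
      conv_lhs => rw [← ge_u D hb hd]
      rw [mul_pow, ← pow_mul, ← pow_succ']
    have h2 : br D (d + j + 1) = (br D d) ^ 2 ^ (j + 1) + br D (j + 1) := by
      rw [add_assoc, br_add]
    have h3 : 2 ^ (j + 1) - 1 = (2 ^ j - 1) + 2 ^ j := by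
      have := Nat.one_le_two_pow (n := j)
      rw [pow_succ]
      omega
    rw [Finset.prod_range_succ, Finset.prod_range_succ, ih, h1, h2, h3, pow_add]
    ring

private theorem ge_xx {d : ℕ} (j : ℕ) :
    xx D (d + j) * ∏ i ∈ range j, br D (d + i + 1) = xx D d := by
  induction j with
  | zero => simp
  | succ j ih =>
    rw [Finset.prod_range_succ, mul_comm (∏ i ∈ range j, br D (d + i + 1)), ← mul_assoc,
      show d + (j + 1) = d + j + 1 by ring, xx_succ_mul D hb, ih]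

private theorem ge_step {d : ℕ} (hd : 1 ≤ d) (j : ℕ) :
    D * XX D (d + j + 1) * (∏ i ∈ range j, (D ^ 2 ^ i + br D (i + 1) * (uu D d) ^ 2 ^ i)) ^ 2 =
      XX D d * ∏ i ∈ range (j + 1), (D ^ 2 ^ i + br D (i + 1) * (uu D d) ^ 2 ^ i) := by
  rw [ge_prod D hb hd, ge_prod D hb hd]
  refine mul_left_cancel₀ (xx_ne_zero D hb (d + j + 1)) ?_
  have h1 := D_mul_xx_XX D hb (d + j)
  have h2 := ge_xx D hb (d := d) j
  have h3 := xx_succ_mul D hb (d + j)
  have h4 := ge_Xu D hb hd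
  have h5 : 2 ^ (j + 1) - 1 = (2 ^ j - 1) * 2 + 1 := by
    have := Nat.one_le_two_pow (n := j)
    rw [pow_succ]
    omega
  rw [Finset.prod_range_succ, h5, pow_succ (uu D d) ((2 ^ j - 1) * 2), pow_mul (uu D d)]
  set P := ∏ i ∈ range j, br D (d + i + 1)
  set U := uu D d ^ (2 ^ j - 1)
  have e1 : xx D (d + j + 1) * (D * XX D (d + j + 1) * (U * P) ^ 2) =
      (D * xx D (d + j + 1) * XX D (d + j + 1)) * (U * P) ^ 2 := by ring
  have e2 : xx D (d + j + 1) * (XX D d * (U ^ 2 * uu D d * (P * br D (d + j + 1)))) =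
      U ^ 2 * (XX D d * uu D d) * (xx D (d + j + 1) * br D (d + j + 1) * P) := by ring
  rw [e1, e2, h1, h3, h4, h2]
  have e3 : xx D (d + j) ^ 2 * (U * P) ^ 2 = U ^ 2 * (xx D (d + j) * P) ^ 2 := by ring
  rw [e3, h2]
  ring

omit [CharP K 2] hb in
private theorem ge_eval (M j : ℕ) (u : K) : (GE D M j).eval u =
    (∏ i ∈ range (M - j), (D + (br D i) ^ 2 * u) ^ 2 ^ (M - 1 - i)) *
      ∏ i ∈ range j, (D ^ 2 ^ i + br D (i + 1) * u ^ 2 ^ i) := by
  unfold GE
  simp only [eval_mul, eval_prod, eval_pow, eval_add, eval_C, eval_X]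

theorem esh_poly {M j d : ℕ} (hj : j < M) (hd : 1 ≤ d) :
    esh D M (d + j) = (XX D d) ^ (2 ^ M - 1) * (GE D M j).eval (uu D d) := by
  rw [ge_eval]
  induction j generalizing M with
  | zero =>
    rw [Nat.add_zero, Nat.sub_zero, Finset.prod_range_zero, mul_one]
    exact ge_base D hb M hd
  | succ j ih =>
    obtain ⟨M, rfl⟩ : ∃ m, M = m + 1 := ⟨M - 1, by omega⟩
    have h1 := ge_step D hb hd j
    have h2 : 2 ^ (M + 1) - 1 = (2 ^ M - 1) * 2 + 1 := by
      have := Nat.one_le_two_pow (n := M)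
      rw [pow_succ]
      omega
    have h3 : ∏ i ∈ range (M + 1 - (j + 1)), (D + (br D i) ^ 2 * uu D d) ^ 2 ^ (M + 1 - 1 - i) =
        (∏ i ∈ range (M - j), (D + (br D i) ^ 2 * uu D d) ^ 2 ^ (M - 1 - i)) ^ 2 := by
      rw [← Finset.prod_pow, show M + 1 - (j + 1) = M - j by omega]
      refine Finset.prod_congr rfl fun i hi => ?_
      have hi' := Finset.mem_range.1 hi
      rw [← pow_mul, ← pow_succ, show M + 1 - 1 - i = M - 1 - i + 1 by omega]
    rw [show d + (j + 1) = d + j + 1 by ring, esh_succ D hb, ih (by omega), h3, h2,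
      pow_succ (XX D d) ((2 ^ M - 1) * 2), pow_mul (XX D d)]
    linear_combination (XX D d ^ (2 ^ M - 1)) ^ 2 *
      (∏ i ∈ range (M - j), (D + (br D i) ^ 2 * uu D d) ^ 2 ^ (M - 1 - i)) ^ 2 * h1

theorem GE_natDegree {M j : ℕ} (hj : j < M) : (GE D M j).natDegree ≤ 2 ^ (M - 1) - 1 := by
  have h1 : ∀ r, 1 ≤ r → r ≤ M →
      (∏ i ∈ range r, (C D + C ((br D i) ^ 2) * X) ^ 2 ^ (M - 1 - i)).natDegree + 2 ^ (M - r) ≤
        2 ^ (M - 1) := by
    intro r hr
    induction r, hr using Nat.le_induction with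
    | base =>
      intro _
      have h : (∏ i ∈ range 1, (C D + C ((br D i) ^ 2) * X) ^ 2 ^ (M - 1 - i)).natDegree = 0 := by
        rw [Finset.prod_range_one, br_zero, zero_pow two_ne_zero, C_0, zero_mul, add_zero, ← C_pow,
          natDegree_C]
      rw [h, zero_add]
    | succ r hr ih =>
      intro hrM
      have h2 := ih (by omega)
      have h3 : ((C D + C ((br D r) ^ 2) * X) ^ 2 ^ (M - 1 - r)).natDegree ≤ 2 ^ (M - 1 - r) := by
        refine natDegree_pow_le.trans ?_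
        have h4 : (C D + C ((br D r) ^ 2) * X : K[X]).natDegree ≤ 1 := by compute_degree
        calc _ ≤ 2 ^ (M - 1 - r) * 1 := Nat.mul_le_mul_left _ h4
          _ = _ := mul_one _
      have h4 := natDegree_mul_le (p := ∏ i ∈ range r, (C D + C ((br D i) ^ 2) * X) ^ 2 ^ (M - 1 - i))
        (q := (C D + C ((br D r) ^ 2) * X) ^ 2 ^ (M - 1 - r))
      rw [Finset.prod_range_succ]
      have h5 : 2 ^ (M - r) = 2 ^ (M - 1 - r) + 2 ^ (M - (r + 1)) := by
        rw [show M - r = (M - 1 - r) + 1 by omega, show M - (r + 1) = M - 1 - r by omega, pow_succ]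
        ring
      omega
  have h2 : ∀ j, (∏ i ∈ range j, (C (D ^ 2 ^ i) + C (br D (i + 1)) * X ^ 2 ^ i)).natDegree + 1 ≤
      2 ^ j := by
    intro j
    induction j with
    | zero => simp
    | succ j ih =>
      have h3 : (C (D ^ 2 ^ j) + C (br D (j + 1)) * X ^ 2 ^ j : K[X]).natDegree ≤ 2 ^ j := by
        refine (natDegree_add_le _ _).trans (max_le ?_ (natDegree_C_mul_X_pow_le _ _))
        rw [natDegree_C]
        exact Nat.zero_le _
      have h4 := natDegree_mul_le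
        (p := ∏ i ∈ range j, (C (D ^ 2 ^ i) + C (br D (i + 1)) * X ^ 2 ^ i))
        (q := C (D ^ 2 ^ j) + C (br D (j + 1)) * X ^ 2 ^ j)
      rw [Finset.prod_range_succ, pow_succ]
      omega
  have h3 := h1 (M - j) (by omega) (by omega)
  have h4 := h2 j
  rw [show M - (M - j) = j by omega] at h3
  unfold GE
  have h5 := natDegree_mul_le
    (p := ∏ i ∈ range (M - j), (C D + C ((br D i) ^ 2) * X) ^ 2 ^ (M - 1 - i))
    (q := ∏ i ∈ range j, (C (D ^ 2 ^ i) + C (br D (i + 1)) * X ^ 2 ^ i))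
  omega

theorem GE_dvd {M j i : ℕ} (hi : 1 ≤ i) (hij : i < M - j) :
    (X + C (uu D i)) ^ 2 ^ (M - 1 - i) ∣ GE D M j := by
  have h1 : (C D + C ((br D i) ^ 2) * X : K[X]) = C ((br D i) ^ 2) * (X + C (uu D i)) := by
    rw [mul_add, ← C_mul, mul_comm ((br D i) ^ 2) (uu D i), ge_u D hb hi, add_comm]
  have h2 : (X + C (uu D i)) ^ 2 ^ (M - 1 - i) ∣
      (C D + C ((br D i) ^ 2) * X) ^ 2 ^ (M - 1 - i) := by
    rw [h1]
    exact pow_dvd_pow_of_dvd (dvd_mul_left _ _) _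
  unfold GE
  refine Dvd.dvd.mul_right (h2.trans ?_) _
  exact Finset.dvd_prod_of_mem (fun i => (C D + C ((br D i) ^ 2) * X) ^ 2 ^ (M - 1 - i))
    (Finset.mem_range.2 hij)

end Pool.Agent.ZL
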