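import Pool.Agent.Work.MP_b19acb_nt.RepB
import Pool.Agent.Work.MP_b19acb_nt.XU

/-!
# USer (S-M): u_d as a rational function of t_d

`br_theta`: `[d] = θ^(2^d) + θ`, so `[d]^2 = θ^(2^(d+1)) + θ^2 = 1/t_d + θ^2` (`br_sq`).
`u_d = D/[d]^2` (`uu_eq`), and `t_d [d]^2 = 1 + θ^2 t_d = Ee(t_d)`, which is `≠ 0` for `d ≥ 1`.
`one_add_uu_t`: `Ee(t_d) + D t_d = 1 + (θ^2 + D) t_d = 1 + θ t_d` (characteristic 2).
`vv_t`: `D_vv`.
`UU = C D * X * Ee⁻¹` as a power series; `rep_UU`: `rep_poly`, `rep_inv` (constant coefficient of `Ee`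
is 1), `rep_mul`, and `rep_congr` with `uu_t`.
-/

namespace Pool.Agent.ZL

open Polynomial Finset Filter

variable {k L : Type*} [Field k] [CharP k 2] [NormedField L] [CompleteSpace L]
  [IsUltrametricDist L] [CharP L 2] (S : Setup k L)

namespace Setup

/-- `1 + θ^2 X` -/
noncomputable def Ee : k[X] := 1 + C (S.θ ^ 2) * X

/-- `1 + θ X` -/
noncomputable def Ff : k[X] := 1 + C S.θ * X

/-- the power series of `u_d` -/
noncomputable def UU : PowerSeries k :=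
  ((C S.D * X : k[X]) : PowerSeries k) * ((S.Ee : k[X]) : PowerSeries k)⁻¹

private theorem us_two (x : k) : x + x = 0 := CharTwo.add_self_eq_zero x

private theorem us_br (d : ℕ) : br S.D d = S.θ ^ 2 ^ d + S.θ := by
  induction d with
  | zero =>
    rw [br, Finset.range_zero, Finset.sum_empty, pow_zero, pow_one, us_two]
  | succ d ih =>
    have h1 : br S.D (d + 1) = br S.D d + S.D ^ 2 ^ d := Finset.sum_range_succ _ _
    have h2 : S.D ^ 2 ^ d = S.θ ^ 2 ^ (d + 1) + S.θ ^ 2 ^ d := by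
      unfold D
      rw [add_pow_char_pow, ← pow_mul, ← pow_succ']
    rw [h1, ih, h2]
    linear_combination us_two (S.θ ^ 2 ^ d)

theorem br_sq (d : ℕ) : (br S.D d) ^ 2 = (S.t d)⁻¹ + S.θ ^ 2 := by
  rw [us_br, CharTwo.add_sq, t, inv_inv, ← pow_mul, ← pow_succ]

private theorem us_Ee (d : ℕ) : S.Ee.eval (S.t d) = S.t d * (br S.D d) ^ 2 := by
  have h := S.t_ne d
  rw [br_sq, mul_add, mul_inv_cancel₀ h, Ee]
  simp only [eval_add, eval_one, eval_mul, eval_C, eval_X]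
  ring

theorem Ee_ne {d : ℕ} (hd : 1 ≤ d) : S.Ee.eval (S.t d) ≠ 0 := by
  obtain ⟨e, rfl⟩ : ∃ e, d = e + 1 := ⟨d - 1, by omega⟩
  rw [us_Ee]
  exact mul_ne_zero (S.t_ne _) (pow_ne_zero _ (S.br_ne' e))

theorem uu_t {d : ℕ} (hd : 1 ≤ d) : uu S.D d * S.Ee.eval (S.t d) = S.D * S.t d := by
  obtain ⟨e, rfl⟩ : ∃ e, d = e + 1 := ⟨d - 1, by omega⟩
  have h := S.br_ne' e
  rw [us_Ee, uu_eq S.D S.br_ne' (e + 1)]
  field_simp

theorem one_add_uu_t {d : ℕ} (hd : 1 ≤ d) :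
    (1 + uu S.D d) * S.Ee.eval (S.t d) = S.Ff.eval (S.t d) := by
  rw [add_mul, one_mul, S.uu_t hd, Ee, Ff]
  simp only [eval_add, eval_one, eval_mul, eval_C, eval_X, D]
  linear_combination us_two (S.θ ^ 2 * S.t d)

theorem Ff_ne {d : ℕ} (hd : 1 ≤ d) : S.Ff.eval (S.t d) ≠ 0 := by
  rw [← S.one_add_uu_t hd]
  exact mul_ne_zero (one_add_uu_ne S.D S.br_ne' hd) (S.Ee_ne hd)

theorem vv_t (d : ℕ) : S.D * vv S.D d = (S.t d)⁻¹ + S.θ ^ 2 := by
  rw [D_vv S.D S.br_ne', br_sq]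

private theorem us_const : PowerSeries.constantCoeff ((S.Ee : k[X]) : PowerSeries k) = 1 := by
  rw [← PowerSeries.coeff_zero_eq_constantCoeff_apply, Polynomial.coeff_coe, Ee]
  simp

theorem UU_mul : S.UU * ((S.Ee : k[X]) : PowerSeries k) = ((C S.D * X : k[X]) : PowerSeries k) := by
  rw [UU, mul_assoc, PowerSeries.inv_mul_cancel, mul_one]
  rw [us_const]
  exact one_ne_zero

theorem one_add_UU_mul :
    (1 + S.UU) * ((S.Ee : k[X]) : PowerSeries k) = ((S.Ff : k[X]) : PowerSeries k) := by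
  rw [add_mul, one_mul, UU_mul, ← Polynomial.coe_add]
  congr 1
  rw [Ee, Ff, D, C_add]
  have h : (C (S.θ ^ 2) * X : k[X]) + C (S.θ ^ 2) * X = 0 := CharTwo.add_self_eq_zero _
  linear_combination h

theorem UU_const : PowerSeries.constantCoeff S.UU = 0 := by
  rw [UU, map_mul, ← PowerSeries.coeff_zero_eq_constantCoeff_apply, Polynomial.coeff_coe]
  simp

theorem rep_UU : S.Rep (fun d => S.φ (uu S.D d)) S.UU := by
  have h1 := S.rep_mul (S.rep_poly (C S.D * X))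
    (S.rep_inv (S.rep_poly S.Ee) (by rw [us_const]; exact one_ne_zero))
  refine S.rep_congr h1 ?_
  filter_upwards [eventually_ge_atTop 1] with d hd
  rw [← map_inv₀, ← map_mul]
  congr 1
  have h2 := S.uu_t hd
  have h3 := S.Ee_ne hd
  rw [eval_mul, eval_C, eval_X, ← h2]
  field_simp

end Setup

end Pool.Agent.ZL
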