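import Pool.Agent.Work.MP_b19acb_nt.Zg
import Pool.Agent.Work.MP_b19acb_nt.USer
import Pool.Agent.Work.MP_b19acb_nt.RepRec

/-!
# Gam (M): the power series of the normalised tails

`γ_l d = zg l d / φ(X_d)^(l.sum)`, `X_d = XX S.D d`, `u_d = uu S.D d`, `‖φ X_d‖ = 1` for `d ≥ 1`.
For `d ≥ 1`, from `zg_succ`, `X_{d+1} = X_d (1 + u_d)` (`XX_succ_eq`), `ps D d n = X_d^n A_n(u_d)`
(`ps_eq`, `map_ps` or directly over `k`):
(*) `γ_{n::l} d = (1+u_d)^(n + l.sum) γ_{n::l} (d+1) + A_n(u_d) (1+u_d)^(l.sum) γ_l (d+1)`.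
`exists_gam`: induction on `l`; `[]`: constant 1, `G = 1`.  Step: `rep_rec` with
`β d = φ (1+u_d)^(n+l.sum)`, `B = (1+UU)^(n+l.sum)` (constant coefficient 1), `η d` the second term,
`H = aeval UU (AA D n) * (1+UU)^(l.sum) * sq2 G_l` (`rep_shift`), constant coefficient 0 because
`(AA D n).coeff 0 = 0`; `γ_{n::l} → 0` by `norm_zg`.
`rep_aeval`: for `P ∈ k[X]`, `φ (P(u_d))` is represented by `aeval UU P` (`rep_add`, `rep_mul`,
induction on `P`).
`gam_rec`: both sides represent `γ_{n::l}` by (*); `rep_unique`.  `gam_nil`: `rep_unique`.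
-/

namespace Pool.Agent.ZL

open Polynomial Finset Filter

variable {k L : Type*} [Field k] [CharP k 2] [NormedField L] [CompleteSpace L]
  [IsUltrametricDist L] [CharP L 2] (S : Setup k L)

namespace Setup

private theorem gm_XX {d : ℕ} (hd : 1 ≤ d) : S.φ (XX S.D d) ≠ 0 := by
  intro h
  have h1 := norm_XX (S.φ S.D) S.one_lt_D hd
  rw [← S.map_XX, h, norm_zero] at h1
  exact zero_ne_one h1

private theorem gm_rec {n : ℕ} {l : List ℕ} (hn : 1 ≤ n) (hl : ∀ a ∈ l, 1 ≤ a) {d : ℕ}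
    (hd : 1 ≤ d) :
    S.zg (n :: l) d / S.φ (XX S.D d) ^ (n :: l).sum =
      S.φ (((1 + X) ^ (n + l.sum) : k[X]).eval (uu S.D d)) *
        (S.zg (n :: l) (d + 1) / S.φ (XX S.D (d + 1)) ^ (n :: l).sum) +
      S.φ ((AA S.D n * (1 + X) ^ l.sum : k[X]).eval (uu S.D d)) *
        (S.zg l (d + 1) / S.φ (XX S.D (d + 1)) ^ l.sum) := by
  have h1 := S.gm_XX hd
  have h2 := S.gm_XX (Nat.le_succ_of_le hd)
  have h3 : XX S.D (d + 1) = XX S.D d * (1 + uu S.D d) := XX_succ_eq S.D S.br_ne' hd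
  have h4 : S.φ (XX S.D (d + 1)) = S.φ (XX S.D d) * (1 + S.φ (uu S.D d)) := by
    rw [h3, map_mul, map_add, map_one]
  have h5 : 1 + S.φ (uu S.D d) ≠ 0 := by
    intro h
    rw [Nat.succ_eq_add_one, h4, h, mul_zero] at h2
    exact h2 rfl
  rw [S.zg_succ hn hl d, ps_eq S.D S.br_ne' hd hn, List.sum_cons, h4]
  simp only [eval_mul, eval_pow, eval_add, eval_one, eval_X, map_mul, map_pow, map_add, map_one]
  generalize 1 + S.φ (uu S.D d) = w at h5
  generalize S.φ (XX S.D d) = x at h1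
  generalize S.φ (eval (uu S.D d) (AA S.D n)) = A
  generalize S.zg (n :: l) (d + 1) = zn
  generalize S.zg l (d + 1) = zl
  rw [mul_pow, mul_pow, pow_add, pow_add]
  field_simp
  ring

private theorem gm_tend {l : List ℕ} (hl : ∀ a ∈ l, 1 ≤ a) (hne : l ≠ []) (m : ℕ) :
    Tendsto (fun d => S.zg l d / S.φ (XX S.D d) ^ m) atTop (nhds 0) := by
  rw [tendsto_zero_iff_norm_tendsto_zero]
  refine (tendsto_zero_iff_norm_tendsto_zero.1 (S.zg_tendsto hl hne)).congr' ?_
  filter_upwards [eventually_ge_atTop 1] with d hd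
  rw [norm_div, norm_pow, S.map_XX, norm_XX (S.φ S.D) S.one_lt_D hd, one_pow, div_one]

private theorem gm_aeval (P : k[X]) : S.Rep (fun d => S.φ (P.eval (uu S.D d))) (aeval S.UU P) := by
  induction P using Polynomial.induction_on' with
  | add P Q hP hQ =>
    rw [map_add]
    refine S.rep_congr (S.rep_add hP hQ) (Eventually.of_forall fun d => ?_)
    rw [eval_add, map_add]
  | monomial n a =>
    rw [aeval_monomial]
    refine S.rep_congr (S.rep_mul (S.rep_C a) (S.rep_pow S.rep_UU n))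
      (Eventually.of_forall fun d => ?_)
    rw [eval_monomial, map_mul, map_pow]

private theorem gm_one : S.Rep (fun _ => (1 : L)) 1 := by
  have h := S.rep_C 1
  rw [map_one, map_one] at h
  exact h

private theorem gm_nil : S.Rep (fun d => S.zg [] d / S.φ (XX S.D d) ^ ([] : List ℕ).sum) 1 := by
  refine S.rep_congr S.gm_one (Eventually.of_forall fun d => ?_)
  rw [zg, List.sum_nil, pow_zero, div_one]

private theorem gm_eta {n : ℕ} {l : List ℕ} {G : PowerSeries k}
    (hG : S.Rep (fun d => S.zg l d / S.φ (XX S.D d) ^ l.sum) G) :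
    S.Rep (fun d => S.φ ((AA S.D n * (1 + X) ^ l.sum : k[X]).eval (uu S.D d)) *
        (S.zg l (d + 1) / S.φ (XX S.D (d + 1)) ^ l.sum))
      (aeval S.UU (AA S.D n) * (1 + S.UU) ^ l.sum * sq2 G) := by
  have h := S.rep_mul (S.gm_aeval (AA S.D n * (1 + X) ^ l.sum)) (S.rep_shift hG)
  rw [map_mul, map_pow, map_add, map_one, aeval_X] at h
  exact h

private theorem gm_AA (n : ℕ) : PowerSeries.constantCoeff (aeval S.UU (AA S.D n)) = 0 := by
  rw [AA, map_mul, aeval_X, map_mul, UU_const, zero_mul]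

theorem exists_gam {l : List ℕ} (hl : ∀ a ∈ l, 1 ≤ a) :
    ∃ G : PowerSeries k, S.Rep (fun d => S.zg l d / S.φ (XX S.D d) ^ l.sum) G := by
  induction l with
  | nil => exact ⟨1, S.gm_nil⟩
  | cons n l ih =>
    have hn := hl n List.mem_cons_self
    have hl' : ∀ a ∈ l, 1 ≤ a := fun b hb => hl b (List.mem_cons_of_mem n hb)
    obtain ⟨G, hG⟩ := ih hl'
    have hB := S.gm_aeval ((1 + X) ^ (n + l.sum))
    obtain ⟨G', hG', -⟩ := S.rep_rec hB (S.gm_eta (n := n) hG)
      (by rw [map_pow, map_add, map_one, aeval_X, map_pow, map_add, map_one, UU_const, add_zero,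
        one_pow])
      (by rw [map_mul, map_mul, S.gm_AA, zero_mul, zero_mul])
      (α := fun d => S.zg (n :: l) d / S.φ (XX S.D d) ^ (n :: l).sum)
      (by
        filter_upwards [eventually_ge_atTop 1] with d hd
        exact S.gm_rec hn hl' hd)
      (S.gm_tend hl (List.cons_ne_nil n l) _)
    exact ⟨G', hG'⟩

open Classical in
/-- the power series of `zg l d / X_d^(l.sum)` -/
noncomputable def Gam (l : List ℕ) : PowerSeries k :=
  if h : ∃ G : PowerSeries k, S.Rep (fun d => S.zg l d / S.φ (XX S.D d) ^ l.sum) G then h.choose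
  else 0

theorem gam_rep {l : List ℕ} (hl : ∀ a ∈ l, 1 ≤ a) :
    S.Rep (fun d => S.zg l d / S.φ (XX S.D d) ^ l.sum) (S.Gam l) := by
  have h := S.exists_gam hl
  unfold Gam
  rw [dif_pos h]
  exact h.choose_spec

theorem gam_nil : S.Gam [] = 1 :=
  S.rep_unique (S.gam_rep fun b hb => absurd hb List.not_mem_nil) S.gm_nil

theorem rep_aeval (P : k[X]) : S.Rep (fun d => S.φ (P.eval (uu S.D d))) (aeval S.UU P) :=
  S.gm_aeval P

theorem gam_rec {n : ℕ} {l : List ℕ} (hn : 1 ≤ n) (hl : ∀ a ∈ l, 1 ≤ a) :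
    S.Gam (n :: l) = (1 + S.UU) ^ (n + l.sum) * sq2 (S.Gam (n :: l)) +
      aeval S.UU (AA S.D n) * (1 + S.UU) ^ l.sum * sq2 (S.Gam l) := by
  have hnl : ∀ a ∈ n :: l, 1 ≤ a := fun b hb => by
    rcases List.mem_cons.1 hb with rfl | hb
    · exact hn
    · exact hl b hb
  have hB := S.gm_aeval ((1 + X) ^ (n + l.sum))
  rw [map_pow, map_add, map_one, aeval_X] at hB
  have h1 := S.rep_add (S.rep_mul hB (S.rep_shift (S.gam_rep hnl)))
    (S.gm_eta (n := n) (S.gam_rep hl))
  refine S.rep_unique (S.gam_rep hnl) (S.rep_congr h1 ?_)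
  filter_upwards [eventually_ge_atTop 1] with d hd
  exact (S.gm_rec hn hl hd).symm

/-- the power series of `X_∞ / X_d` -/
theorem rep_Xi : S.Rep (fun d => S.zeta [1] / S.φ (XX S.D d)) (1 + S.Gam [1]) := by
  have h1 : ∀ a ∈ [1], 1 ≤ a := fun a ha => by rw [List.mem_singleton.1 ha]
  have h2 := S.rep_add S.gm_one (S.gam_rep h1)
  refine S.rep_congr h2 ?_
  filter_upwards [eventually_ge_atTop 1] with d hd
  have h3 := S.split h1 d
  have h4 : SS S.D [1] d = XX S.D d := by
    rw [SS, XX]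
    refine Finset.sum_congr rfl fun i _ => ?_
    rw [ps, SS, mul_one, Nat.sub_self, gg_zero, mul_one]
  have h5 : S.zg [] d = 1 := by rw [zg]
  simp only [List.length_singleton, Finset.sum_range_succ, Finset.sum_range_zero, zero_add,
    List.take_zero, List.reverse_nil, List.drop_zero, h5, one_mul, h4, List.take_succ_cons,
    List.take_nil, List.drop_succ_cons, List.drop_nil, SS_nil, map_one, mul_one,
    List.reverse_singleton] at h3
  rw [← h3, List.sum_singleton, pow_one, add_div, div_self (S.gm_XX hd)]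

end Setup

end Pool.Agent.ZL
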