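import Pool.Agent.Work.MP_b19acb_nt.GG

/-!
# HH (M): coefficients of 1/(1 + c_1 z + c_2 z^3 + c_3 z^7 + ...)

Let `Q = serQ c`; constant coefficient `c 0 = 1` (`0+1 = 2^0`), `H = PowerSeries.invOfUnit Q 1`,
`Q * H = 1`, `hh c n = coeff n H`.

`hh_rec`: coefficient of `z^n`, `n ≥ 1`, in `Q * H = 1` (the exponents of `Q` are `2^i - 1`;
`-x = x`).  `hh_map`, `hh_scale`: as in module `GG` (strong induction with `hh_rec`;
`a^(2^(i+1)-1) * a^(n-(2^(i+1)-1)) = a^n`; for `hh_map` note that no characteristic is assumed: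
use uniqueness of the inverse).
`hh_even`, `hh_odd`: `H = Q * H^2`; `H^2` only has even powers, with coefficients `h_n^2`
(`coeff_sq_even`, `coeff_sq_odd`); in `Q` the only even power is `z^0` (coefficient 1), the odd
powers are `z^(2^(i+1)-1)`, coefficient `c (i+1)`, and
`2n+1-(2^(i+1)-1) = 2(n+1-2^i)` when `2^i ≤ n+1`.
`X_mul_serQ`: compare coefficients.
-/

namespace Pool.Agent.ZL

open Polynomial Finset

variable {R : Type*} [CommRing R]

theorem X_mul_serQ (c : ℕ → R) : PowerSeries.X * serQ c = ser c := by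
  ext n
  cases n with
  | zero =>
    rw [PowerSeries.coeff_zero_X_mul, coeff_ser]
    simp
  | succ n =>
    rw [PowerSeries.coeff_succ_X_mul, coeff_ser]
    exact PowerSeries.coeff_mk _ _

/-- coefficients of a product with `serQ c` -/
theorem coeff_serQ_mul (c : ℕ → R) (F : PowerSeries R) (n : ℕ) :
    PowerSeries.coeff n (serQ c * F) = ∑ i ∈ range (n + 2),
      if 2 ^ i ≤ n + 1 then c i * PowerSeries.coeff (n + 1 - 2 ^ i) F else 0 := by
  rw [← PowerSeries.coeff_succ_X_mul, ← mul_assoc, X_mul_serQ, coeff_ser_mul]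

private theorem hh_const (c : ℕ → R) (hc : c 0 = 1) :
    PowerSeries.constantCoeff (serQ c) = ((1 : Rˣ) : R) := by
  rw [← PowerSeries.coeff_zero_eq_constantCoeff_apply, Units.val_one]
  have h : PowerSeries.coeff 0 (serQ c) =
      if 0 + 1 = 2 ^ Nat.log 2 (0 + 1) then c (Nat.log 2 (0 + 1)) else 0 :=
    PowerSeries.coeff_mk _ _
  rw [h]
  simp [hc]

private theorem hh_mk (c : ℕ → R) : (PowerSeries.mk fun n => hh c n) =
    PowerSeries.invOfUnit (serQ c) 1 := by
  ext n
  rw [PowerSeries.coeff_mk]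
  rfl

theorem hh_zero (c : ℕ → R) : hh c 0 = 1 := by
  unfold hh
  rw [PowerSeries.coeff_zero_eq_constantCoeff_apply, PowerSeries.constantCoeff_invOfUnit]
  simp

theorem hh_inv (c : ℕ → R) (hc : c 0 = 1) :
    serQ c * (PowerSeries.mk fun n => hh c n) = (1 : PowerSeries R) := by
  rw [hh_mk]
  exact PowerSeries.mul_invOfUnit _ _ (hh_const c hc)

theorem hh_map {S : Type*} [CommRing S] (f : R →+* S) (c : ℕ → R) (hc : c 0 = 1) (n : ℕ) :
    f (hh c n) = hh (fun i => f (c i)) n := by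
  have h1 : PowerSeries.map f (serQ c) = serQ (fun i => f (c i)) := by
    ext n
    rw [PowerSeries.coeff_map]
    have e1 : PowerSeries.coeff n (serQ c) =
      if n + 1 = 2 ^ Nat.log 2 (n + 1) then c (Nat.log 2 (n + 1)) else 0 :=
      PowerSeries.coeff_mk _ _
    have e2 : PowerSeries.coeff n (serQ fun i => f (c i)) =
      if n + 1 = 2 ^ Nat.log 2 (n + 1) then f (c (Nat.log 2 (n + 1))) else 0 :=
      PowerSeries.coeff_mk _ _
    rw [e1, e2]
    split_ifs
    · rfl
    · rw [map_zero]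
  have h2 : serQ (fun i => f (c i)) * PowerSeries.map f (PowerSeries.mk fun n => hh c n) =
      1 := by
    rw [← h1, ← map_mul, hh_inv c hc, map_one]
  have h3 := ser_inv_unique h2 (hh_inv (fun i => f (c i)) (by
    show f (c 0) = 1
    rw [hc, map_one]))
  have h4 := congrArg (PowerSeries.coeff n) h3
  rw [PowerSeries.coeff_map, PowerSeries.coeff_mk, PowerSeries.coeff_mk] at h4
  exact h4

variable [CharP R 2]

theorem hh_rec (c : ℕ → R) (hc : c 0 = 1) {n : ℕ} (hn : 1 ≤ n) :
    hh c n = ∑ i ∈ range (n + 1),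
      if 2 ^ (i + 1) - 1 ≤ n then c (i + 1) * hh c (n - (2 ^ (i + 1) - 1)) else 0 := by
  have h1 := congrArg (PowerSeries.coeff n) (hh_inv c hc)
  rw [coeff_serQ_mul, PowerSeries.coeff_one, if_neg (by omega), Finset.sum_range_succ', pow_zero,
    if_pos (by omega), hc, one_mul, Nat.add_sub_cancel, PowerSeries.coeff_mk,
    CharTwo.add_eq_zero] at h1
  rw [← h1]
  refine Finset.sum_congr rfl fun i _ => ?_
  have hp : 1 ≤ 2 ^ (i + 1) := Nat.one_le_two_pow
  by_cases h : 2 ^ (i + 1) ≤ n + 1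
  · rw [if_pos h, if_pos (by omega), PowerSeries.coeff_mk]
    congr 2
    omega
  · rw [if_neg h, if_neg (by omega)]

theorem hh_scale (c : ℕ → R) (hc : c 0 = 1) (a : R) (n : ℕ) :
    hh (fun i => a ^ (2 ^ i - 1) * c i) n = a ^ n * hh c n := by
  have hc' : (fun i => a ^ (2 ^ i - 1) * c i) 0 = 1 := by
    show a ^ (2 ^ 0 - 1) * c 0 = 1
    rw [hc, mul_one, pow_zero, Nat.sub_self, pow_zero]
  induction n using Nat.strong_induction_on with
  | _ n ih =>
    rcases Nat.eq_zero_or_pos n with rfl | hn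
    · rw [hh_zero, hh_zero, pow_zero, one_mul]
    · rw [hh_rec _ hc' hn, hh_rec c hc hn, Finset.mul_sum]
      refine Finset.sum_congr rfl fun i _ => ?_
      have hp : 2 ≤ 2 ^ (i + 1) := by
        rw [pow_succ]
        have := Nat.one_le_two_pow (n := i)
        omega
      by_cases h : 2 ^ (i + 1) - 1 ≤ n
      · rw [if_pos h, if_pos h, ih (n - (2 ^ (i + 1) - 1)) (by omega)]
        have e : a ^ n = a ^ (2 ^ (i + 1) - 1) * a ^ (n - (2 ^ (i + 1) - 1)) := by
          rw [← pow_add, Nat.add_sub_cancel' h]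
        rw [e]
        ring
      · rw [if_neg h, if_neg h, mul_zero]

private theorem hh_eq_sq (c : ℕ → R) (hc : c 0 = 1) : (PowerSeries.mk fun n => hh c n) =
    serQ c * (PowerSeries.mk fun n => hh c n) ^ 2 := by
  calc (PowerSeries.mk fun n => hh c n) =
      (serQ c * (PowerSeries.mk fun n => hh c n)) * (PowerSeries.mk fun n => hh c n) := by
        rw [hh_inv c hc, one_mul]
    _ = _ := by ring

theorem hh_even (c : ℕ → R) (hc : c 0 = 1) (n : ℕ) : hh c (2 * n) = (hh c n) ^ 2 := by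
  have h := congrArg (PowerSeries.coeff (2 * n)) (hh_eq_sq c hc)
  rw [PowerSeries.coeff_mk, coeff_serQ_mul] at h
  rw [h, Finset.sum_eq_single 0]
  · rw [pow_zero, if_pos (by omega), Nat.add_sub_cancel, coeff_sq_even, PowerSeries.coeff_mk, hc,
      one_mul]
  · intro i _ hi
    split_ifs with h2
    · obtain ⟨j, rfl⟩ := Nat.exists_eq_succ_of_ne_zero hi
      have e : 2 * n + 1 - 2 ^ (j + 1) = 2 * (n - 2 ^ j) + 1 := by
        rw [Nat.succ_eq_add_one, pow_succ] at h2
        rw [pow_succ]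
        omega
      rw [Nat.succ_eq_add_one, e, coeff_sq_odd, mul_zero]
    · rfl
  · intro h0
    exact absurd (Finset.mem_range.2 (by omega)) h0

theorem hh_odd (c : ℕ → R) (hc : c 0 = 1) (n : ℕ) :
    hh c (2 * n + 1) =
      ∑ i ∈ range (n + 1), if 2 ^ i ≤ n + 1 then c (i + 1) * (hh c (n + 1 - 2 ^ i)) ^ 2 else 0 := by
  have h := congrArg (PowerSeries.coeff (2 * n + 1)) (hh_eq_sq c hc)
  rw [PowerSeries.coeff_mk, coeff_serQ_mul, Finset.sum_range_succ', pow_zero,
    if_pos (by omega), Nat.add_sub_cancel, coeff_sq_odd, mul_zero, add_zero] at h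
  rw [h]
  have h2 : ∀ i, (if 2 ^ (i + 1) ≤ 2 * n + 1 + 1 then c (i + 1) *
      PowerSeries.coeff (2 * n + 1 + 1 - 2 ^ (i + 1)) ((PowerSeries.mk fun n => hh c n) ^ 2)
      else 0) =
      if 2 ^ i ≤ n + 1 then c (i + 1) * (hh c (n + 1 - 2 ^ i)) ^ 2 else 0 := by
    intro i
    by_cases h3 : 2 ^ i ≤ n + 1
    · have e : 2 * n + 1 + 1 - 2 ^ (i + 1) = 2 * (n + 1 - 2 ^ i) := by
        rw [pow_succ]
        omega
      rw [if_pos h3, if_pos (by rw [pow_succ]; omega), e, coeff_sq_even, PowerSeries.coeff_mk]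
    · rw [if_neg h3, if_neg (by rw [pow_succ]; omega)]
  rw [Finset.sum_congr rfl fun i _ => h2 i]
  symm
  refine Finset.sum_subset (Finset.range_mono (by omega)) fun i _ hi => ?_
  rw [if_neg]
  rw [Finset.mem_range] at hi
  have := Nat.lt_two_pow_self (n := i)
  omega

end Pool.Agent.ZL
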