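import Pool.Agent.Work.MP_b19acb_nt.RepB
import Pool.Agent.Work.MP_b19acb_nt.USer
import Pool.Agent.Work.MP_b19acb_nt.TelPhi
import Pool.Agent.Work.MP_b19acb_nt.Scale

/-!
# RatPoly (L): rational solutions of the difference equation are polynomial

`D = S.D`, `hb := S.br_ne'`, `hinj := S.vv_inj'`; `v_d = vv D d`, `v_{d+1} = D (v_d+1)^2`,
`x_d = x_{d+1} D (v_d+1)` for all `d ≥ 0` (`vv_succ`, `xx_eq_succ`).

`ps_vv_all`: like `ps_vv`, but also for `d = 0`.  `G(0)` is the coefficient of `X^k` of `AA D k`, i.e. 1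
(`AA_monic`; the polynomial `G = (AA D k).reverse` or `Σ_{1≤i≤k} (AA D k)_i X^(k-i)`), and
`ps D 0 k = gg (ee D 0) (k-1) = 1`: `ee D 0 = 1, 0, 0, ...` and by `gg_rec` `gg c n = gg c (n-1)`.

`t_to_v`: `t_d = (D v_d + θ^2)⁻¹` (`vv_t`); for `n ≥ natDegree Q` let
`R = Σ_{i ≤ n} Q_i (C D * X + C (θ^2))^(n-i)`; `R(v_d) = t_d^(-n) Q(t_d)`, which is `≠ 0` for large `d` if
`Q ≠ 0` (`poly_ne`).

`rat_tel`: by `t_to_v` (common `n`) we get `M₁ ≠ 0`, `N₁` with
`Z d M₁(v_d) = x_d^W N₁(v_d)` for large `d`, `W = a + s.sum`.  Divide by the gcd (its value at `v_d` is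
`≠ 0` for large `d` as the `v_d` are distinct): we may assume `IsCoprime N₁ M₁`.  Let `P = C D * (X+1)^2`,
`Φ'` from `Tel D s`, `G` from `ps_vv_all`.  For large `d` (`M₁(v_d) ≠ 0`, `M₁(v_{d+1}) ≠ 0`), from the
recursion and `x_d = x_{d+1} D (v_d+1)`:
`N₁(v_{d+1}) M₁(v_d) = M₁(v_{d+1}) (D (v_d+1))^W (N₁(v_d) + G(v_d) Φ'(v_d) M₁(v_d))`, so
`N₁.comp P * M₁ = M₁.comp P * (C D * (X+1))^W * (N₁ + G * Φ' * M₁)`.
`IsCoprime (N₁.comp P) (M₁.comp P)` (compose the Bezout identity), so `M₁.comp P ∣ M₁`, and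
`natDegree (M₁.comp P) = 2 natDegree M₁`, so `M₁` is a nonzero constant; let `Φ = N₁/M₁`.  Then
(1) `Φ.comp P = (C D * (X+1))^W * (Φ + G * Φ')`; evaluating at `X = 1`: `Φ(0) = 0` (characteristic 2,
`W ≥ a ≥ 1`).  Let `Z* d = x_d^W Φ(v_d)` for all `d ≥ 0`: `Z* 0 = Φ(0) = 0` (`vv_zero`) and by (1)
`Z* (d+1) = Z* d + ps D d a * SS D s d` for all `d ≥ 0`.  So `Z* = SS D (a::s)` by induction
(`SS_succ`), hence `Tel D (a::s)`, and `Z d = Z* d` for large `d`.
-/

namespace Pool.Agent.ZL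

open Polynomial Finset Filter

variable {k L : Type*} [Field k] [CharP k 2] [NormedField L] [CompleteSpace L]
  [IsUltrametricDist L] [CharP L 2] (S : Setup k L)

namespace Setup

private theorem rp_ee0 (D : k) : (fun i => xx D 0 * ee D 0 i) = fun i => if i = 0 then 1 else 0 := by
  funext i
  cases i with
  | zero => simp [xx_zero, ee]
  | succ i => simp [ee]

private theorem rp_gg0 (n : ℕ) : gg (fun i => if i = 0 then (1 : k) else 0) n = 1 := by
  induction n with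
  | zero => exact gg_zero _
  | succ n ih =>
    rw [gg_rec _ (Nat.succ_le_succ (Nat.zero_le n)), Finset.sum_eq_single 0]
    · rw [pow_zero, if_pos (by omega), if_pos rfl, one_mul, Nat.succ_sub_one, ih]
    · intro i _ hi
      rw [if_neg hi, zero_mul, ite_self]
    · intro h
      exact absurd (Finset.mem_range.2 (by omega)) h

theorem ps_vv_all {n : ℕ} (hn : 1 ≤ n) : ∃ G : k[X],
    ∀ d, ps S.D d n = (xx S.D d) ^ n * G.eval (vv S.D d) := by
  refine ⟨∑ i ∈ range n, C ((AA S.D n).coeff (i + 1)) * X ^ (n - (i + 1)), ?_⟩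
  intro d
  rcases Nat.eq_zero_or_pos d with rfl | hd
  · rw [vv_zero S.D S.br_ne', xx_zero, one_pow, one_mul, eval_finsetSum, Finset.sum_eq_single (n - 1)]
    · rw [show n - 1 + 1 = n by omega, Nat.sub_self, pow_zero, mul_one, eval_C]
      have h1 : (AA S.D n).coeff n = 1 := by
        have := AA_monic S.D hn
        rw [Monic, leadingCoeff, AA_natDegree S.D hn] at this
        exact this
      rw [h1, ps, rp_ee0, rp_gg0, xx_zero, one_mul]
    · intro i hi hne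
      rw [Finset.mem_range] at hi
      rw [eval_mul, eval_pow, eval_X, zero_pow (by omega), mul_zero]
    · intro h
      exact absurd (Finset.mem_range.2 (by omega)) h
  · rw [ps_eq S.D S.br_ne' hd hn]
    have hXX : XX S.D d = xx S.D d * vv S.D d := by
      unfold vv
      rw [mul_div_cancel₀ _ (xx_ne_zero S.D S.br_ne' d)]
    have huv := uu_mul_vv S.D S.br_ne' hd
    rw [hXX, mul_pow, mul_assoc]
    congr 1
    have hdeg : (AA S.D n).natDegree < n + 1 := by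
      rw [AA_natDegree S.D hn]
      exact Nat.lt_succ_self n
    rw [eval_eq_sum_range' hdeg, sum_range_succ', AA_coeff_zero, zero_mul, add_zero, mul_sum,
      eval_finsetSum]
    refine sum_congr rfl fun i hi => ?_
    have hik : i + 1 ≤ n := by
      have := mem_range.1 hi
      omega
    rw [eval_mul, eval_C, eval_pow, eval_X]
    have e : (vv S.D d) ^ n = (vv S.D d) ^ (n - (i + 1)) * (vv S.D d) ^ (i + 1) := by
      rw [← pow_add, Nat.sub_add_cancel hik]
    rw [e]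
    have e2 : (vv S.D d) ^ (i + 1) * (uu S.D d) ^ (i + 1) = 1 := by
      rw [← mul_pow, mul_comm, huv, one_pow]
    linear_combination (AA S.D n).coeff (i + 1) * (vv S.D d) ^ (n - (i + 1)) * e2

theorem t_to_v (Q : k[X]) {n : ℕ} (hn : Q.natDegree ≤ n) : ∃ R : k[X],
    (∀ d, R.eval (vv S.D d) = ((S.t d)⁻¹) ^ n * Q.eval (S.t d)) ∧ (Q ≠ 0 → R ≠ 0) := by
  set R : k[X] := ∑ i ∈ range (n + 1), C (Q.coeff i) * (C S.D * X + C (S.θ ^ 2)) ^ (n - i) with hR
  have hev : ∀ d, R.eval (vv S.D d) = ((S.t d)⁻¹) ^ n * Q.eval (S.t d) := by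
    intro d
    have h1 : S.D * vv S.D d + S.θ ^ 2 = (S.t d)⁻¹ := by
      rw [S.vv_t, add_assoc, CharTwo.add_self_eq_zero, add_zero]
    rw [hR, eval_finsetSum, eval_eq_sum_range' (Nat.lt_succ_of_le hn), Finset.mul_sum]
    refine Finset.sum_congr rfl fun i hi => ?_
    rw [eval_mul, eval_C, eval_pow, eval_add, eval_mul, eval_C, eval_C, eval_X, h1]
    have hi' : i ≤ n := by
      rw [Finset.mem_range] at hi
      omega
    have h2 : ((S.t d)⁻¹) ^ n = ((S.t d)⁻¹) ^ (n - i) * ((S.t d)⁻¹) ^ i := by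
      rw [← pow_add, Nat.sub_add_cancel hi']
    have h3 : ((S.t d)⁻¹) ^ i * (S.t d) ^ i = 1 := by
      rw [← mul_pow, inv_mul_cancel₀ (S.t_ne d), one_pow]
    rw [h2]
    linear_combination (-1) * Q.coeff i * ((S.t d)⁻¹) ^ (n - i) * h3
  refine ⟨R, hev, fun hQ hR0 => ?_⟩
  obtain ⟨d, hd⟩ := (S.poly_ne hQ).exists
  have h1 := hev d
  rw [hR0, eval_zero] at h1
  exact mul_ne_zero (pow_ne_zero _ (inv_ne_zero (S.t_ne d))) hd h1.symm

private theorem rp_ne {P : k[X]} (hP : P ≠ 0) : ∀ᶠ d in atTop, P.eval (vv S.D d) ≠ 0 := by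
  classical
  have h1 : {d : ℕ | P.eval (vv S.D d) = 0}.Finite := by
    have h2 : {d : ℕ | P.eval (vv S.D d) = 0} = vv S.D ⁻¹' (↑P.roots.toFinset : Set k) := by
      ext d
      simp [hP]
    rw [h2]
    exact (Finset.finite_toSet _).preimage S.vv_inj'.injOn
  have h2 := h1.compl_mem_cofinite
  rw [Nat.cofinite_eq_atTop] at h2
  exact h2

private theorem rp_eq {P Q : k[X]} (h : ∀ᶠ d in atTop, P.eval (vv S.D d) = Q.eval (vv S.D d)) :
    P = Q := by
  by_contra hne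
  have h1 := S.rp_ne (sub_ne_zero.2 hne)
  obtain ⟨d, h2, h3⟩ := (h.and h1).exists
  rw [eval_sub, h2, sub_self] at h3
  exact h3 rfl

private theorem rp_coprime {M N : k[X]} (hM : M ≠ 0) : ∃ g M' N' : k[X], g ≠ 0 ∧ M = g * M' ∧
    N = g * N' ∧ IsCoprime N' M' := by
  classical
  set g := EuclideanDomain.gcd M N with hg
  obtain ⟨M', hM'⟩ := EuclideanDomain.gcd_dvd_left M N
  obtain ⟨N', hN'⟩ := EuclideanDomain.gcd_dvd_right M N
  have hg0 : g ≠ 0 := by
    intro h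
    rw [← hg, h, zero_mul] at hM'
    exact hM hM'
  refine ⟨g, M', N', hg0, hM', hN', ?_⟩
  have h1 := EuclideanDomain.gcd_eq_gcd_ab M N
  refine ⟨EuclideanDomain.gcdB M N, EuclideanDomain.gcdA M N, ?_⟩
  apply mul_left_cancel₀ hg0
  have h2 : g = g * M' * EuclideanDomain.gcdA M N + g * N' * EuclideanDomain.gcdB M N := by
    conv_lhs => rw [hg, h1]
    rw [← hM', ← hN']
  calc g * (EuclideanDomain.gcdB M N * N' + EuclideanDomain.gcdA M N * M') =
      g * M' * EuclideanDomain.gcdA M N + g * N' * EuclideanDomain.gcdB M N := by ring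
    _ = g := h2.symm
    _ = g * 1 := (mul_one g).symm

theorem rat_tel {a : ℕ} {s : List ℕ} (ha : 1 ≤ a) (hT : Tel S.D s) {Z : ℕ → k} {M N : k[X]}
    (hM : M ≠ 0)
    (h1 : ∀ᶠ d in atTop, Z d * M.eval (S.t d) = (xx S.D d) ^ (a + s.sum) * N.eval (S.t d))
    (h2 : ∀ᶠ d in atTop, Z (d + 1) = Z d + ps S.D d a * SS S.D s d) :
    Tel S.D (a :: s) ∧ ∀ᶠ d in atTop, Z d = SS S.D (a :: s) d := by
  have hxx : ∀ d, xx S.D d ≠ 0 := fun d => xx_ne_zero S.D S.br_ne' d
  have hDne : S.D ≠ 0 := by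
    have := S.br_ne' 0
    rwa [zero_add, br_one] at this
  obtain ⟨M₁, hM₁, hM₁0⟩ := S.t_to_v M (le_max_left M.natDegree N.natDegree)
  obtain ⟨N₁, hN₁, -⟩ := S.t_to_v N (le_max_right M.natDegree N.natDegree)
  obtain ⟨g, M₂, N₂, hg, hgM, hgN, hcop⟩ := rp_coprime (N := N₁) (hM₁0 hM)
  have hM₂0 : M₂ ≠ 0 := by
    rintro rfl
    rw [mul_zero] at hgM
    exact hM₁0 hM hgM
  have h3 : ∀ᶠ d in atTop, Z d * M₂.eval (vv S.D d) =
      (xx S.D d) ^ (a + s.sum) * N₂.eval (vv S.D d) := by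
    filter_upwards [h1, S.rp_ne hg] with d hd hgd
    have e1 : Z d * M₁.eval (vv S.D d) = (xx S.D d) ^ (a + s.sum) * N₁.eval (vv S.D d) := by
      rw [hM₁, hN₁]
      linear_combination ((S.t d)⁻¹) ^ (max M.natDegree N.natDegree) * hd
    rw [hgM, hgN, eval_mul, eval_mul] at e1
    apply mul_left_cancel₀ hgd
    linear_combination e1
  obtain ⟨Φ', hΦ'⟩ := hT
  obtain ⟨G, hG⟩ := S.ps_vv_all ha
  set P : k[X] := C S.D * (X + 1) ^ 2 with hP
  have hPv : ∀ d, P.eval (vv S.D d) = vv S.D (d + 1) := by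
    intro d
    rw [vv_succ S.D S.br_ne', hP, eval_mul, eval_C, eval_pow, eval_add, eval_X, eval_one]
  set W := a + s.sum with hW
  have hstep : ∀ d, (xx S.D d) ^ W = (xx S.D (d + 1)) ^ W * (S.D * (vv S.D d + 1)) ^ W := by
    intro d
    rw [← mul_pow, ← xx_eq_succ S.D S.br_ne']
  have hpsSS : ∀ d, ps S.D d a * SS S.D s d =
      (xx S.D d) ^ W * (G.eval (vv S.D d) * Φ'.eval (vv S.D d)) := by
    intro d
    rw [hG, hΦ', hW, pow_add]
    ring
  have hid : M₂.comp P * (C S.D * (X + 1)) ^ W * (N₂ + G * Φ' * M₂) = N₂.comp P * M₂ := by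
    apply S.rp_eq
    have h3' := (tendsto_add_atTop_nat 1).eventually h3
    filter_upwards [h3, h3', h2] with d hd hd' hd2
    simp only [eval_mul, eval_comp, hPv, eval_pow, eval_C, eval_add, eval_X, eval_one]
    rw [hpsSS] at hd2
    have hx := pow_ne_zero W (hxx (d + 1))
    apply mul_left_cancel₀ hx
    have e1 := hstep d
    have e2 : Z (d + 1) * M₂.eval (vv S.D d) = (xx S.D d) ^ W *
        (N₂.eval (vv S.D d) + G.eval (vv S.D d) * Φ'.eval (vv S.D d) * M₂.eval (vv S.D d)) := by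
      rw [hd2]
      linear_combination hd
    calc (xx S.D (d + 1)) ^ W * (M₂.eval (vv S.D (d + 1)) * (S.D * (vv S.D d + 1)) ^ W *
          (N₂.eval (vv S.D d) + G.eval (vv S.D d) * Φ'.eval (vv S.D d) * M₂.eval (vv S.D d))) =
          M₂.eval (vv S.D (d + 1)) * ((xx S.D (d + 1)) ^ W * (S.D * (vv S.D d + 1)) ^ W *
          (N₂.eval (vv S.D d) + G.eval (vv S.D d) * Φ'.eval (vv S.D d) * M₂.eval (vv S.D d))) := by
          ring
      _ = M₂.eval (vv S.D (d + 1)) * (Z (d + 1) * M₂.eval (vv S.D d)) := by rw [← e1, ← e2]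
      _ = (Z (d + 1) * M₂.eval (vv S.D (d + 1))) * M₂.eval (vv S.D d) := by ring
      _ = _ := by rw [hd']; ring
  have hcop2 : IsCoprime (N₂.comp P) (M₂.comp P) := by
    obtain ⟨u, v, huv⟩ := hcop
    refine ⟨u.comp P, v.comp P, ?_⟩
    rw [← mul_comp, ← mul_comp, ← add_comp, huv, one_comp]
  have hdvd : M₂.comp P ∣ M₂ := by
    refine hcop2.symm.dvd_of_dvd_mul_left ?_
    rw [← hid, mul_assoc]
    exact dvd_mul_right _ _
  have hPdeg : P.natDegree = 2 := by
    rw [hP, natDegree_C_mul hDne, natDegree_pow, show (1 : k[X]) = C 1 from C_1.symm,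
      natDegree_X_add_C]
  have hM₂deg : M₂.natDegree = 0 := by
    have e1 := natDegree_le_of_dvd hdvd hM₂0
    rw [natDegree_comp, hPdeg] at e1
    omega
  obtain ⟨m, hm⟩ : ∃ m, M₂ = C m := ⟨M₂.coeff 0, eq_C_of_natDegree_eq_zero hM₂deg⟩
  have hm0 : m ≠ 0 := by
    rintro rfl
    rw [C_0] at hm
    exact hM₂0 hm
  obtain ⟨Φ, hΦ⟩ : ∃ Φ : k[X], Φ = C m⁻¹ * N₂ := ⟨_, rfl⟩
  have hN₂ : N₂ = C m * Φ := by
    rw [hΦ, ← mul_assoc, ← C_mul, mul_inv_cancel₀ hm0, C_1, one_mul]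
  have hid2 : Φ.comp P = (C S.D * (X + 1)) ^ W * (Φ + G * Φ') := by
    have hCm : (C m : k[X]) ≠ 0 := by rwa [Ne, C_eq_zero]
    rw [hm, hN₂, C_comp, mul_comp, C_comp] at hid
    apply mul_left_cancel₀ (mul_ne_zero hCm hCm)
    linear_combination (-1 : k[X]) * hid
  have hΦ0 : Φ.eval 0 = 0 := by
    have e1 := congrArg (Polynomial.eval 1) hid2
    rw [eval_comp] at e1
    have e2 : P.eval 1 = 0 := by
      rw [hP, eval_mul, eval_pow, eval_add, eval_X, eval_one, CharTwo.add_self_eq_zero,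
        zero_pow (by norm_num), mul_zero]
    rw [e2, eval_mul, eval_pow, eval_mul, eval_add, eval_X, eval_one, CharTwo.add_self_eq_zero,
      mul_zero, zero_pow (by omega), zero_mul] at e1
    exact e1
  have hSS : ∀ d, SS S.D (a :: s) d = (xx S.D d) ^ W * Φ.eval (vv S.D d) := by
    intro d
    induction d with
    | zero => rw [SS_zero_cons, vv_zero S.D S.br_ne', hΦ0, mul_zero]
    | succ d ih =>
      rw [SS_succ, ih, hpsSS, ← hPv d, ← eval_comp, hid2, eval_mul, eval_pow, eval_mul, eval_add,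
        eval_add, eval_C, eval_X, eval_one, eval_mul]
      linear_combination (Φ.eval (vv S.D d) + G.eval (vv S.D d) * Φ'.eval (vv S.D d)) * hstep d
  refine ⟨⟨Φ, fun d => ?_⟩, ?_⟩
  · rw [hSS, List.sum_cons]
  · filter_upwards [h3] with d hd
    rw [hSS]
    rw [hm, hN₂, eval_mul, eval_C] at hd
    apply mul_right_cancel₀ hm0
    linear_combination hd

end Setup

end Pool.Agent.ZL
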