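import Pool.Agent.Work.MP_b19acb_nt.RepB

/-!
# RelRec (M): a relation satisfies the transposed functional equation

`sq2_indep`: write `b_j = expand 2 (b'_j) + X * expand 2 (b''_j)` (even and odd part).  All exponents of
`sq2 (Γ j)` are even, so the even part of `Σ b_j sq2 (Γ_j) = 0` is `Σ sq2 (b'_j Γ_j) = 0`, the odd part
`X Σ sq2 (b''_j Γ_j) = 0` (`sq2_mul`, `sq2_coe`); `sq2` is injective, so `Σ b'_j Γ_j = 0 =
Σ b''_j Γ_j` and `b'_j = b''_j = 0`.

`rel_rec`: multiply `Σ_{j≤r} Q_j Γ_j = 0` by `E^(σ r)` and insert (for `j ≥ 1`) `hfe`, (for `j = 0`)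
`Γ_0 = 1 = sq2 Γ_0` and `σ 0 = 0`: `Σ_{j≤r} c_j sq2 Γ_j = 0` with `c_r = Q_r F^(σ r)` and
`c_j = F^(σ j) (Q_j E^(σ r - σ j) + Q_{j+1} E^(σ r - σ (j+1)) A_{j+1})` for `j < r`.  Applying `sq2` to
the relation: `Σ_{j≤r} expand 2 (Q_j) sq2 Γ_j = 0`.  Multiply the first by `expand 2 Q_r`, the second by
`c_r`, subtract: only `j < r` remain, so by `sq2_indep` `expand 2 Q_r * c_j = c_r * expand 2 Q_j`.
-/

namespace Pool.Agent.ZL

open Polynomial Finset

variable {k : Type*} [Field k]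

/-- even part -/
private noncomputable def rr_ev (P : k[X]) : k[X] :=
  ∑ i ∈ range (P.natDegree + 1), C (P.coeff (2 * i)) * X ^ i

/-- odd part -/
private noncomputable def rr_od (P : k[X]) : k[X] :=
  ∑ i ∈ range (P.natDegree + 1), C (P.coeff (2 * i + 1)) * X ^ i

private theorem rr_ev_coeff (P : k[X]) (n : ℕ) : (rr_ev P).coeff n = P.coeff (2 * n) := by
  unfold rr_ev
  rw [finsetSum_coeff]
  simp only [coeff_C_mul, coeff_X_pow, mul_ite, mul_one, mul_zero]
  rw [Finset.sum_ite_eq]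
  split_ifs with h
  · rfl
  · rw [Finset.mem_range] at h
    exact (coeff_eq_zero_of_natDegree_lt (by omega)).symm

private theorem rr_od_coeff (P : k[X]) (n : ℕ) : (rr_od P).coeff n = P.coeff (2 * n + 1) := by
  unfold rr_od
  rw [finsetSum_coeff]
  simp only [coeff_C_mul, coeff_X_pow, mul_ite, mul_one, mul_zero]
  rw [Finset.sum_ite_eq]
  split_ifs with h
  · rfl
  · rw [Finset.mem_range] at h
    exact (coeff_eq_zero_of_natDegree_lt (by omega)).symm

private theorem rr_split (P : k[X]) : P = expand k 2 (rr_ev P) + X * expand k 2 (rr_od P) := by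
  ext n
  rw [coeff_add, coeff_expand (by norm_num)]
  rcases Nat.even_or_odd' n with ⟨m, rfl | rfl⟩
  · rw [if_pos (Dvd.intro _ rfl), Nat.mul_div_cancel_left _ (by norm_num), rr_ev_coeff]
    rcases Nat.eq_zero_or_pos m with rfl | hm
    · rw [mul_zero, coeff_X_mul_zero, add_zero]
    · obtain ⟨m', rfl⟩ : ∃ m', m = m' + 1 := ⟨m - 1, by omega⟩
      rw [show 2 * (m' + 1) = (2 * m' + 1) + 1 by ring, coeff_X_mul, coeff_expand (by norm_num),
        if_neg (by omega), add_zero]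
  · rw [if_neg (by omega), coeff_X_mul, coeff_expand (by norm_num), if_pos (Dvd.intro _ rfl),
      Nat.mul_div_cancel_left _ (by norm_num), rr_od_coeff, zero_add]

private theorem rr_coeff_even (G : PowerSeries k) (m : ℕ) :
    PowerSeries.coeff (2 * m) (sq2 G) = PowerSeries.coeff m G := by
  unfold sq2
  rw [PowerSeries.coeff_mk, if_pos (Dvd.intro _ rfl), Nat.mul_div_cancel_left _ (by norm_num)]

private theorem rr_coeff_odd (G : PowerSeries k) (m : ℕ) :
    PowerSeries.coeff (2 * m + 1) (sq2 G) = 0 := by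
  unfold sq2
  rw [PowerSeries.coeff_mk, if_neg (by omega)]

private theorem rr_zero {U V : PowerSeries k} (h : sq2 U + PowerSeries.X * sq2 V = 0) :
    U = 0 ∧ V = 0 := by
  constructor
  · ext m
    have h1 := congrArg (PowerSeries.coeff (2 * m)) h
    rw [map_add, rr_coeff_even, map_zero] at h1
    rw [map_zero]
    rcases Nat.eq_zero_or_pos m with rfl | hm
    · rw [mul_zero, PowerSeries.coeff_zero_X_mul, add_zero] at h1
      exact h1
    · obtain ⟨m', rfl⟩ : ∃ m', m = m' + 1 := ⟨m - 1, by omega⟩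
      rw [show 2 * (m' + 1) = (2 * m' + 1) + 1 by ring, PowerSeries.coeff_succ_X_mul,
        rr_coeff_odd, add_zero] at h1
      exact h1
  · ext m
    have h1 := congrArg (PowerSeries.coeff (2 * m + 1)) h
    rw [map_add, rr_coeff_odd, PowerSeries.coeff_succ_X_mul, rr_coeff_even, zero_add] at h1
    exact h1

theorem sq2_indep {r : ℕ} {Γ : ℕ → PowerSeries k}
    (h : ∀ Q : ℕ → k[X], ∑ j ∈ range r, (Q j : PowerSeries k) * Γ j = 0 → ∀ j < r, Q j = 0)
    (b : ℕ → k[X]) (hb : ∑ j ∈ range r, (b j : PowerSeries k) * sq2 (Γ j) = 0) :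
    ∀ j < r, b j = 0 := by
  have h1 : sq2 (∑ j ∈ range r, ((rr_ev (b j) : k[X]) : PowerSeries k) * Γ j) +
      PowerSeries.X * sq2 (∑ j ∈ range r, ((rr_od (b j) : k[X]) : PowerSeries k) * Γ j) = 0 := by
    rw [sq2_sum, sq2_sum, Finset.mul_sum, ← Finset.sum_add_distrib, ← hb]
    refine Finset.sum_congr rfl fun j _ => ?_
    rw [sq2_mul, sq2_mul, sq2_coe, sq2_coe]
    conv_rhs => rw [rr_split (b j)]
    rw [Polynomial.coe_add, Polynomial.coe_mul, Polynomial.coe_X]
    ring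
  obtain ⟨hU, hV⟩ := rr_zero h1
  have h2 := h (fun j => rr_ev (b j)) hU
  have h3 := h (fun j => rr_od (b j)) hV
  intro j hj
  rw [rr_split (b j), h2 j hj, h3 j hj, map_zero, mul_zero, add_zero]

theorem rel_rec {r : ℕ} {Γ : ℕ → PowerSeries k} {E F : k[X]} {A : ℕ → k[X]} {σ : ℕ → ℕ}
    (hσ0 : σ 0 = 0) (hσ : Monotone σ) (hΓ0 : Γ 0 = 1)
    (hfe : ∀ j < r, ((E ^ σ (j + 1) : k[X]) : PowerSeries k) * Γ (j + 1) =
      ((F ^ σ (j + 1) : k[X]) : PowerSeries k) * sq2 (Γ (j + 1)) +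
        ((A (j + 1) * F ^ σ j : k[X]) : PowerSeries k) * sq2 (Γ j))
    (h : ∀ Q : ℕ → k[X], ∑ j ∈ range r, (Q j : PowerSeries k) * Γ j = 0 → ∀ j < r, Q j = 0)
    (Q : ℕ → k[X]) (hQ : ∑ j ∈ range (r + 1), (Q j : PowerSeries k) * Γ j = 0) {j : ℕ}
    (hj : j < r) :
    expand k 2 (Q r) * (F ^ σ j * (Q j * E ^ (σ r - σ j) + Q (j + 1) * E ^ (σ r - σ (j + 1)) *
      A (j + 1))) = Q r * F ^ σ r * expand k 2 (Q j) := by
  -- first relation
  have h1 : ∑ i ∈ range r, (((F ^ σ i * (Q i * E ^ (σ r - σ i) + Q (i + 1) *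
      E ^ (σ r - σ (i + 1)) * A (i + 1)) : k[X]) : PowerSeries k)) * sq2 (Γ i) +
      ((Q r * F ^ σ r : k[X]) : PowerSeries k) * sq2 (Γ r) = 0 := by
    have e1 : ∑ i ∈ range (r + 1), ((E ^ σ r : k[X]) : PowerSeries k) *
        ((Q i : PowerSeries k) * Γ i) = 0 := by
      rw [← Finset.mul_sum, hQ, mul_zero]
    have e2 : ∑ i ∈ range (r + 1), ((E ^ σ r : k[X]) : PowerSeries k) *
        ((Q i : PowerSeries k) * Γ i) =
        ∑ i ∈ range (r + 1), ((Q i * E ^ (σ r - σ i) * F ^ σ i : k[X]) : PowerSeries k) *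
          sq2 (Γ i) +
        ∑ i ∈ range r, ((Q (i + 1) * E ^ (σ r - σ (i + 1)) * (A (i + 1) * F ^ σ i) : k[X]) :
          PowerSeries k) * sq2 (Γ i) := by
      rw [Finset.sum_range_succ', Finset.sum_range_succ' (fun i =>
        ((Q i * E ^ (σ r - σ i) * F ^ σ i : k[X]) : PowerSeries k) * sq2 (Γ i)), add_right_comm,
        ← Finset.sum_add_distrib]
      congr 1
      · refine Finset.sum_congr rfl fun i hi => ?_
        have hi' := Finset.mem_range.1 hi
        have hle : σ (i + 1) ≤ σ r := hσ (by omega)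
        have e3 : (E ^ σ r : k[X]) = E ^ (σ r - σ (i + 1)) * E ^ σ (i + 1) := by
          rw [← pow_add]
          congr 1
          omega
        rw [e3]
        have e4 := hfe i hi'
        simp only [Polynomial.coe_mul] at e4 ⊢
        linear_combination ((Q (i + 1) : k[X]) : PowerSeries k) *
          ((E ^ (σ r - σ (i + 1)) : k[X]) : PowerSeries k) * e4
      · rw [hσ0, hΓ0, sq2_one, Nat.sub_zero, pow_zero, mul_one, mul_one, mul_one,
          Polynomial.coe_mul]
        ring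
    rw [e2, Finset.sum_range_succ, Nat.sub_self, pow_zero, mul_one, add_right_comm,
      ← Finset.sum_add_distrib] at e1
    rw [← e1]
    congr 1
    refine Finset.sum_congr rfl fun i _ => ?_
    simp only [Polynomial.coe_mul, Polynomial.coe_add]
    ring
  -- second relation
  have h2 : ∑ i ∈ range r, ((expand k 2 (Q i) : k[X]) : PowerSeries k) * sq2 (Γ i) +
      ((expand k 2 (Q r) : k[X]) : PowerSeries k) * sq2 (Γ r) = 0 := by
    have e1 := congrArg sq2 hQ
    rw [sq2_sum, sq2_zero, Finset.sum_range_succ, sq2_mul, sq2_coe] at e1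
    rw [← e1]
    congr 1
    refine Finset.sum_congr rfl fun i _ => ?_
    rw [sq2_mul, sq2_coe]
  -- combination
  have h3 : ∑ i ∈ range r, (((expand k 2 (Q r) * (F ^ σ i * (Q i * E ^ (σ r - σ i) + Q (i + 1) *
      E ^ (σ r - σ (i + 1)) * A (i + 1))) - Q r * F ^ σ r * expand k 2 (Q i) : k[X]) :
      PowerSeries k)) * sq2 (Γ i) = 0 := by
    have e1 : ∑ i ∈ range r, (((expand k 2 (Q r) * (F ^ σ i * (Q i * E ^ (σ r - σ i) +
        Q (i + 1) * E ^ (σ r - σ (i + 1)) * A (i + 1))) - Q r * F ^ σ r * expand k 2 (Q i) :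
        k[X]) : PowerSeries k)) * sq2 (Γ i) =
        ((expand k 2 (Q r) : k[X]) : PowerSeries k) * ∑ i ∈ range r, (((F ^ σ i * (Q i *
          E ^ (σ r - σ i) + Q (i + 1) * E ^ (σ r - σ (i + 1)) * A (i + 1)) : k[X]) :
          PowerSeries k)) * sq2 (Γ i) -
        ((Q r * F ^ σ r : k[X]) : PowerSeries k) *
          ∑ i ∈ range r, ((expand k 2 (Q i) : k[X]) : PowerSeries k) * sq2 (Γ i) := by
      rw [Finset.mul_sum, Finset.mul_sum, ← Finset.sum_sub_distrib]
      refine Finset.sum_congr rfl fun i _ => ?_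
      simp only [Polynomial.coe_sub, Polynomial.coe_mul]
      ring
    rw [e1]
    linear_combination ((expand k 2 (Q r) : k[X]) : PowerSeries k) * h1 -
      ((Q r * F ^ σ r : k[X]) : PowerSeries k) * h2
  have h4 := sq2_indep h (fun i => expand k 2 (Q r) * (F ^ σ i * (Q i * E ^ (σ r - σ i) +
    Q (i + 1) * E ^ (σ r - σ (i + 1)) * A (i + 1))) - Q r * F ^ σ r * expand k 2 (Q i)) h3 j hj
  exact sub_eq_zero.1 h4

end Pool.Agent.ZL
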