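import Pool.Agent.Work.MP_b19acb_nt.Zg
import Pool.Agent.Work.MP_b19acb_nt.FamV
import Pool.Agent.Work.MP_b19acb_nt.Fpos
import Pool.Agent.Work.MP_b19acb_nt.BBJ

/-!
# ZLim (M): the values of the families

`X_∞ = zeta [1]` is the limit of `φ (XX D d)` (`tendsto_SS`, `SS D [1] d = XX D d` as `ps D i 1 = x_i`), so
`‖X_∞‖ = 1` (`norm_XX`).
`zeta_single`: `φ (SS D [n] d) = φ (XX D d)^n φ(B_n(u_d))` (`SSk_eq` over `k`), `φ (u_d) → 0`
(`norm_uu`), so the limit is `X_∞^n φ(B_n(0))`; `‖φ (B_n(0))‖ = 1` (`BB_norm_zero` for `φ D`, and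
`φ ((BB D n).coeff 0) = (BB (φ D) n).coeff 0`, or redo: `BB_rec`).
`fam_lim`: each family is a base tuple `s₀` mapped by `2^e * ·` (`geo_two_pow`), so
`zeta s = (zeta s₀)^(2^e)` (`SS_two_pow`, limits are unique) and `s.sum = 2^e s₀.sum`.
Base tuples: `esh D M (d+j) = ∏_{i<M} (D XX(d+j-i))^(2^i)` (`esh_prod`) tends to
`(D X_∞)^(2^M-1)` (under `φ`).  I: `SS_I`, `C = (..)⁻¹ D^(2^M-1)`, `M = n+k`, `s₀.sum = M`-value
`2^(n+k)-1`; V: `SS_V`, `M = n+2`, `s₀.sum = 2^(n+2)-1`; II: `SS_II`: `C = (DD k)⁻¹`, `s₀.sum = 2^k`;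
III: `SS_III`: `C = (..)⁻¹ (1 + [k+2])`, `s₀.sum = 2^(k+2)`; IV: `C = (..)⁻¹ (1 + [2]^2)`, 8;
VI: `C = (..)⁻¹ (1 + [3])`, 8.  `C ≠ 0`: `‖φ [i]‖ > 1` for `i ≥ 1` (`norm_br`), so `1 + [i] ≠ 0`.
-/

namespace Pool.Agent.ZL

open Polynomial Finset Filter

variable {k L : Type*} [Field k] [CharP k 2] [NormedField L] [CompleteSpace L]
  [IsUltrametricDist L] [CharP L 2] (S : Setup k L)

namespace Setup

private theorem zl_one (D : k) (d : ℕ) : SS D [1] d = XX D d := by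
  rw [SS, XX]
  refine Finset.sum_congr rfl fun i _ => ?_
  rw [ps_one, SS_nil, mul_one]

theorem tendsto_XX : Tendsto (fun d => S.φ (XX S.D d)) atTop (nhds (S.zeta [1])) := by
  have h := S.tendsto_SS (s := [1]) (by simp)
  refine h.congr fun d => ?_
  rw [zl_one]

theorem norm_zeta_one : ‖S.zeta [1]‖ = 1 := by
  have h1 := S.tendsto_XX.norm
  have h2 : Tendsto (fun d => ‖S.φ (XX S.D d)‖) atTop (nhds 1) := by
    refine tendsto_const_nhds.congr' ?_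
    filter_upwards [eventually_ge_atTop 1] with d hd
    rw [S.map_XX, norm_XX (S.φ S.D) S.one_lt_D hd]
  exact tendsto_nhds_unique h1 h2

private theorem zeta_one_ne : S.zeta [1] ≠ 0 := by
  intro h
  have := S.norm_zeta_one
  rw [h, norm_zero] at this
  exact zero_ne_one this

private theorem tendsto_uu : Tendsto (fun d => S.φ (uu S.D d)) atTop (nhds 0) := by
  rw [tendsto_zero_iff_norm_tendsto_zero]
  have hq0 : 0 ≤ ‖S.φ S.D‖⁻¹ := inv_nonneg.2 (norm_nonneg _)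
  have hq1 : ‖S.φ S.D‖⁻¹ < 1 := inv_lt_one_of_one_lt₀ S.one_lt_D
  have h1 := tendsto_pow_atTop_nhds_zero_of_lt_one hq0 hq1
  have h2 : Tendsto (fun d : ℕ => ‖S.φ S.D‖⁻¹ ^ (2 ^ d - 1)) atTop (nhds 0) := by
    refine h1.comp (tendsto_atTop_mono (f := fun d : ℕ => d) (fun d => ?_) tendsto_id)
    exact Nat.le_sub_one_of_lt (Nat.lt_two_pow_self)
  refine h2.congr' ?_
  filter_upwards [eventually_ge_atTop 1] with d hd
  rw [S.map_uu, norm_uu (S.φ S.D) S.one_lt_D hd]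

private theorem tendsto_eval (P : L[X]) :
    Tendsto (fun d => P.eval (S.φ (uu S.D d))) atTop (nhds (P.coeff 0)) := by
  have h := (P.continuous.tendsto 0).comp S.tendsto_uu
  rw [← P.coeff_zero_eq_eval_zero] at h
  exact h

theorem zeta_single {n : ℕ} (hn : 1 ≤ n) :
    ∃ c : k, c ≠ 0 ∧ S.zeta [n] = S.φ c * S.zeta [1] ^ n := by
  have h0 := S.tendsto_SS (s := [n]) (by simpa using hn)
  have hX := S.tendsto_XX.pow n
  have h1 : S.zeta [n] = S.zeta [1] ^ n * ((BB S.D n).map S.φ).coeff 0 := by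
    refine tendsto_nhds_unique h0 ((hX.mul (S.tendsto_eval ((BB S.D n).map S.φ))).congr' ?_)
    filter_upwards [eventually_ge_atTop 1] with d hd
    rw [SSk_eq S.D S.br_ne' hd hn, map_mul, map_pow, eval_map_apply]
  have h2 : S.zeta [n] = S.zeta [1] ^ n * (BB (S.φ S.D) n).coeff 0 := by
    refine tendsto_nhds_unique h0 ((hX.mul (S.tendsto_eval (BB (S.φ S.D) n))).congr' ?_)
    filter_upwards [eventually_ge_atTop 1] with d hd
    rw [S.map_SS, SSk_eq (S.φ S.D) (br_ne (S.φ S.D) S.one_lt_D) hd hn, S.map_XX, S.map_uu]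
  have hx : S.zeta [1] ^ n ≠ 0 := pow_ne_zero _ S.zeta_one_ne
  have h3 : ((BB S.D n).map S.φ).coeff 0 = (BB (S.φ S.D) n).coeff 0 := by
    rw [h1] at h2
    exact mul_left_cancel₀ hx h2
  rw [coeff_map] at h3 h1
  refine ⟨(BB S.D n).coeff 0, ?_, ?_⟩
  · intro h
    rw [h, map_zero] at h3
    have h4 := BB_norm_zero (S.φ S.D) S.one_lt_D n
    rw [← h3, norm_zero] at h4
    exact zero_ne_one h4
  · rw [h1, mul_comm]

private def GoodT (s : List ℕ) : Prop :=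
  (∀ a ∈ s, 1 ≤ a) ∧ ∃ c : k, c ≠ 0 ∧ S.zeta s = S.φ c * S.zeta [1] ^ s.sum

private theorem good_map {s : List ℕ} (h : S.GoodT s) (e : ℕ) :
    S.GoodT (s.map (fun x => 2 ^ e * x)) := by
  obtain ⟨hs, c, hc, hz⟩ := h
  have hs' : ∀ a ∈ s.map (fun x => 2 ^ e * x), 1 ≤ a := by
    intro a ha
    obtain ⟨b, hb, rfl⟩ := List.mem_map.1 ha
    exact Nat.mul_pos (by positivity) (hs b hb)
  refine ⟨hs', c ^ 2 ^ e, pow_ne_zero _ hc, ?_⟩
  have h1 := S.tendsto_SS hs'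
  have h2 := (S.tendsto_SS hs).pow (2 ^ e)
  have h3 : S.zeta (s.map (fun x => 2 ^ e * x)) = S.zeta s ^ 2 ^ e := by
    refine tendsto_nhds_unique h1 (h2.congr fun d => ?_)
    rw [SS_two_pow S.D hs, map_pow]
  rw [h3, hz, mul_pow, map_pow, ← pow_mul]
  congr 2
  rw [List.sum_map_mul_left]
  simp [mul_comm]

private theorem D_ne : S.D ≠ 0 := by
  have := S.br_ne' 0
  rwa [zero_add, br_one] at this

private theorem zl_ell_ne (n : ℕ) : ell S.D n ≠ 0 :=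
  Finset.prod_ne_zero_iff.2 fun i _ => S.br_ne' i

private theorem zl_DD_ne (n : ℕ) : DD S.D n ≠ 0 := by
  induction n with
  | zero => exact one_ne_zero
  | succ n ih => exact mul_ne_zero (S.br_ne' n) (pow_ne_zero _ ih)

private theorem zl_br_ne {n : ℕ} (hn : 1 ≤ n) : br S.D n ≠ 0 := by
  obtain ⟨m, rfl⟩ := Nat.exists_eq_succ_of_ne_zero (by omega : n ≠ 0)
  exact S.br_ne' m

private theorem zl_norm_br (i : ℕ) : 1 < ‖S.φ (br S.D (i + 1))‖ := by
  rw [S.map_br, norm_br (S.φ S.D) S.one_lt_D]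
  exact one_lt_pow₀ S.one_lt_D (by positivity)

private theorem zl_one_add (x : k) (hx : 1 < ‖S.φ x‖) : 1 + x ≠ 0 := by
  intro h
  have h1 : x = -1 := by linear_combination h
  rw [h1, map_neg, map_one, norm_neg, norm_one] at hx
  exact lt_irrefl _ hx

private theorem zl_prod {R : Type*} [CommMonoid R] (z : R) (M : ℕ) :
    ∏ i ∈ range M, z ^ 2 ^ i = z ^ (2 ^ M - 1) := by
  induction M with
  | zero => simp
  | succ M ih =>
    rw [Finset.prod_range_succ, ih, ← pow_add]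
    congr 1
    have : 1 ≤ 2 ^ M := Nat.one_le_two_pow
    rw [pow_succ]
    omega

private theorem tendsto_XX_comp {f : ℕ → ℕ} (hf : Tendsto f atTop atTop) :
    Tendsto (fun d => S.φ (XX S.D (f d))) atTop (nhds (S.zeta [1])) := S.tendsto_XX.comp hf

private theorem tendsto_esh {f : ℕ → ℕ} (hf : Tendsto f atTop atTop) (M : ℕ) :
    Tendsto (fun d => S.φ (esh S.D M (f d))) atTop
      (nhds (S.φ (S.D ^ (2 ^ M - 1)) * S.zeta [1] ^ (2 ^ M - 1))) := by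
  have h1 : Tendsto (fun d => ∏ i ∈ range M, (S.φ S.D * S.φ (XX S.D (f d - i))) ^ 2 ^ i) atTop
      (nhds (∏ i ∈ range M, (S.φ S.D * S.zeta [1]) ^ 2 ^ i)) := by
    refine tendsto_finsetProd _ fun i _ => ?_
    refine Tendsto.pow (tendsto_const_nhds.mul (S.tendsto_XX_comp ?_)) _
    exact (tendsto_sub_atTop_nat i).comp hf
  rw [zl_prod, mul_pow, ← map_pow] at h1
  refine h1.congr fun d => ?_
  rw [esh_prod S.D S.br_ne', map_prod]
  refine Finset.prod_congr rfl fun i _ => ?_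
  rw [map_pow, map_mul]

private theorem good_of_tendsto {s : List ℕ} (hs : ∀ a ∈ s, 1 ≤ a) {c : k} (hc : c ≠ 0)
    (h : Tendsto (fun d => S.φ (SS S.D s d)) atTop (nhds (S.φ c * S.zeta [1] ^ s.sum))) :
    S.GoodT s := ⟨hs, c, hc, tendsto_nhds_unique (S.tendsto_SS hs) h⟩

private theorem zl_map_I (e n k : ℕ) : (2 ^ e * (2 ^ n - 1) :: geo (2 ^ (e + n)) k) =
    ((2 ^ n - 1) :: geo (2 ^ n) k).map (fun x => 2 ^ e * x) := by
  rw [List.map_cons, ← geo_two_pow, ← pow_add]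

private theorem zl_map_II (e k : ℕ) : (2 ^ e :: geo (2 ^ e) k) =
    (1 :: geo 1 k).map (fun x => 2 ^ e * x) := by
  rw [List.map_cons, ← geo_two_pow, mul_one]

private theorem zl_map_III (e k : ℕ) : (2 ^ e :: (3 * 2 ^ e) :: geo (2 ^ (e + 2)) k) =
    (1 :: 3 :: geo 4 k).map (fun x => 2 ^ e * x) := by
  rw [List.map_cons, List.map_cons, ← geo_two_pow, mul_one, mul_comm 3, pow_add]
  norm_num

private theorem zl_map_IV (e : ℕ) : [3 * 2 ^ e, 5 * 2 ^ e] =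
    [3, 5].map (fun x => 2 ^ e * x) := by
  simp [mul_comm]

private theorem zl_map_V (e n : ℕ) : [2 ^ (e + n), 2 ^ e * (3 * 2 ^ n - 1)] =
    [2 ^ n, 3 * 2 ^ n - 1].map (fun x => 2 ^ e * x) := by
  simp [pow_add]

private theorem zl_map_VI (e : ℕ) : [2 ^ e, 2 ^ (e + 1), 5 * 2 ^ e] =
    [1, 2, 5].map (fun x => 2 ^ e * x) := by
  simp [mul_comm, pow_succ]

private theorem fpos0 {s : List ℕ} {s' : List ℕ} (h : Fam s') (e : ℕ)
    (hs : s' = s.map (fun x => 2 ^ e * x)) : ∀ a ∈ s, 1 ≤ a := by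
  intro a ha
  have h1 := h.pos (2 ^ e * a) (by rw [hs]; exact List.mem_map.2 ⟨a, ha, rfl⟩)
  exact Nat.pos_of_mul_pos_left h1

private theorem good_I {n : ℕ} (hn : 1 ≤ n) (j : ℕ) (hj : 1 ≤ j) :
    S.GoodT ((2 ^ n - 1) :: geo (2 ^ n) j) := by
  have hsum : ((2 ^ n - 1) :: geo (2 ^ n) j).sum = 2 ^ (n + j) - 1 := by
    have := sum_I 0 n j hn
    simpa using this
  refine S.good_of_tendsto (fpos0 (Fam.I 0 n j hn hj) 0 (zl_map_I 0 n j))
    (c := (DD S.D j ^ 2 ^ n * br S.D (n + j) * ell S.D (n - 1))⁻¹ * S.D ^ (2 ^ (n + j) - 1)) ?_ ?_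
  · exact mul_ne_zero (inv_ne_zero (mul_ne_zero (mul_ne_zero (pow_ne_zero _ (S.zl_DD_ne j))
      (S.zl_br_ne (by omega))) (S.zl_ell_ne _))) (pow_ne_zero _ S.D_ne)
  · rw [hsum, map_mul, mul_assoc]
    have h1 := S.tendsto_esh (f := fun d => d + n - 1) (by
      have : (fun d => d + n - 1) = fun d => d + (n - 1) := by funext d; omega
      rw [this]
      exact tendsto_add_atTop_nat (n - 1)) (n + j)
    refine (h1.const_mul (S.φ ((DD S.D j ^ 2 ^ n * br S.D (n + j) * ell S.D (n - 1))⁻¹))).congr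
      fun d => ?_
    rw [SS_I S.D S.br_ne' hn, map_mul]

private theorem good_II (j : ℕ) (hj : 1 ≤ j) : S.GoodT (1 :: geo 1 j) := by
  have hsum : (1 :: geo 1 j).sum = 2 ^ j := by
    rw [List.sum_cons, sum_geo]
    have : 1 ≤ 2 ^ j := Nat.one_le_two_pow
    omega
  refine S.good_of_tendsto (fpos0 (Fam.II 0 j hj) 0 (zl_map_II 0 j)) (c := (DD S.D j)⁻¹)
    (inv_ne_zero (S.zl_DD_ne j)) ?_
  rw [hsum]
  have h1 := (S.tendsto_XX_comp (tendsto_sub_atTop_nat j)).pow (2 ^ j)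
  refine (h1.const_mul (S.φ ((DD S.D j)⁻¹))).congr fun d => ?_
  rw [SS_II S.D S.br_ne', map_mul, map_pow]

private theorem good_III (j : ℕ) : S.GoodT (1 :: 3 :: geo 4 j) := by
  have hsum : (1 :: 3 :: geo 4 j).sum = 2 ^ (j + 2) := by
    rw [List.sum_cons, List.sum_cons, sum_geo, pow_add]
    have : 1 ≤ 2 ^ j := Nat.one_le_two_pow
    omega
  refine S.good_of_tendsto (fpos0 (Fam.III 0 j) 0 (zl_map_III 0 j))
    (c := ((DD S.D j) ^ 4 * br S.D (j + 2) * ell S.D 1)⁻¹ * (1 + br S.D (j + 2))) ?_ ?_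
  · exact mul_ne_zero (inv_ne_zero (mul_ne_zero (mul_ne_zero (pow_ne_zero _ (S.zl_DD_ne j))
      (S.zl_br_ne (by omega))) (S.zl_ell_ne _))) (S.zl_one_add _ (S.zl_norm_br (j + 1)))
  · rw [hsum]
    have h1 := (S.tendsto_XX_comp ((tendsto_sub_atTop_nat 2).comp
      (tendsto_sub_atTop_nat j))).pow (2 ^ (j + 2))
    have h2 := (S.tendsto_XX_comp ((tendsto_sub_atTop_nat 1).comp
      (tendsto_sub_atTop_nat j))).pow (2 ^ (j + 2))
    have h3 := (h1.add (h2.const_mul (S.φ (br S.D (j + 2))))).const_mul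
      (S.φ (((DD S.D j) ^ 4 * br S.D (j + 2) * ell S.D 1)⁻¹))
    have h4 : S.φ (((DD S.D j) ^ 4 * br S.D (j + 2) * ell S.D 1)⁻¹) *
        (S.zeta [1] ^ 2 ^ (j + 2) + S.φ (br S.D (j + 2)) * S.zeta [1] ^ 2 ^ (j + 2)) =
        S.φ (((DD S.D j) ^ 4 * br S.D (j + 2) * ell S.D 1)⁻¹ * (1 + br S.D (j + 2))) *
          S.zeta [1] ^ 2 ^ (j + 2) := by
      rw [map_mul, map_add, map_one]
      ring
    rw [h4] at h3
    refine h3.congr fun d => ?_
    rw [SS_III S.D S.br_ne']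
    simp only [map_mul, map_add, map_pow, Function.comp_apply]

private theorem good_IV : S.GoodT [3, 5] := by
  refine S.good_of_tendsto (fpos0 (Fam.IV 0) 0 (zl_map_IV 0))
    (c := (S.D ^ 3 * ell S.D 2)⁻¹ * (1 + br S.D 2 ^ 2)) ?_ ?_
  · refine mul_ne_zero (inv_ne_zero (mul_ne_zero (pow_ne_zero _ S.D_ne) (S.zl_ell_ne _)))
      (S.zl_one_add _ ?_)
    rw [map_pow, norm_pow]
    exact one_lt_pow₀ (S.zl_norm_br 1) (by norm_num)
  · have hsum : [3, 5].sum = 8 := rfl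
    rw [hsum]
    have h1 := (S.tendsto_XX_comp (tendsto_sub_atTop_nat 2)).pow 8
    have h2 := (S.tendsto_XX_comp (tendsto_sub_atTop_nat 1)).pow 8
    have h3 := (h1.add (h2.const_mul (S.φ (br S.D 2 ^ 2)))).const_mul
      (S.φ ((S.D ^ 3 * ell S.D 2)⁻¹))
    have h4 : S.φ ((S.D ^ 3 * ell S.D 2)⁻¹) *
        (S.zeta [1] ^ 8 + S.φ (br S.D 2 ^ 2) * S.zeta [1] ^ 8) =
        S.φ ((S.D ^ 3 * ell S.D 2)⁻¹ * (1 + br S.D 2 ^ 2)) * S.zeta [1] ^ 8 := by
      rw [map_mul, map_add, map_one]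
      ring
    rw [h4] at h3
    refine h3.congr fun d => ?_
    rw [SS_IV S.D S.br_ne']
    simp only [map_mul, map_add, map_pow]

private theorem good_V {n : ℕ} (hn : 1 ≤ n) : S.GoodT [2 ^ n, 3 * 2 ^ n - 1] := by
  have hsum : [2 ^ n, 3 * 2 ^ n - 1].sum = 2 ^ (n + 2) - 1 := by
    have := sum_V 0 n
    simpa using this
  refine S.good_of_tendsto (fpos0 (Fam.V 0 n hn) 0 (zl_map_V 0 n))
    (c := (S.D ^ 2 ^ n * ell S.D (n + 2))⁻¹ * S.D ^ (2 ^ (n + 2) - 1)) ?_ ?_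
  · exact mul_ne_zero (inv_ne_zero (mul_ne_zero (pow_ne_zero _ S.D_ne) (S.zl_ell_ne _)))
      (pow_ne_zero _ S.D_ne)
  · rw [hsum, map_mul, mul_assoc]
    have h1 := S.tendsto_esh (f := fun d => d + n) (tendsto_add_atTop_nat n) (n + 2)
    refine (h1.const_mul (S.φ ((S.D ^ 2 ^ n * ell S.D (n + 2))⁻¹))).congr
      fun d => ?_
    rw [SS_V S.D S.br_ne', map_mul]

private theorem good_VI : S.GoodT [1, 2, 5] := by
  refine S.good_of_tendsto (fpos0 (Fam.VI 0) 0 (zl_map_VI 0))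
    (c := (S.D ^ 2 * ell S.D 3)⁻¹ * (1 + br S.D 3)) ?_ ?_
  · exact mul_ne_zero (inv_ne_zero (mul_ne_zero (pow_ne_zero _ S.D_ne) (S.zl_ell_ne _)))
      (S.zl_one_add _ (S.zl_norm_br 2))
  · have hsum : [1, 2, 5].sum = 8 := rfl
    rw [hsum]
    have h1 := (S.tendsto_XX_comp (tendsto_sub_atTop_nat 3)).pow 8
    have h2 := (S.tendsto_XX_comp (tendsto_sub_atTop_nat 2)).pow 8
    have h3 := (h1.add (h2.const_mul (S.φ (br S.D 3)))).const_mul
      (S.φ ((S.D ^ 2 * ell S.D 3)⁻¹))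
    have h4 : S.φ ((S.D ^ 2 * ell S.D 3)⁻¹) *
        (S.zeta [1] ^ 8 + S.φ (br S.D 3) * S.zeta [1] ^ 8) =
        S.φ ((S.D ^ 2 * ell S.D 3)⁻¹ * (1 + br S.D 3)) * S.zeta [1] ^ 8 := by
      rw [map_mul, map_add, map_one]
      ring
    rw [h4] at h3
    refine h3.congr fun d => ?_
    rw [SS_VI S.D S.br_ne']
    simp only [map_mul, map_add, map_pow]

theorem fam_lim {s : List ℕ} (h : Fam s) :
    ∃ c : k, c ≠ 0 ∧ S.zeta s = S.φ c * S.zeta [1] ^ s.sum := by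
  cases h with
  | I e n j hn hj => rw [zl_map_I]; exact (S.good_map (S.good_I hn j hj) e).2
  | II e j hj => rw [zl_map_II]; exact (S.good_map (S.good_II j hj) e).2
  | III e j => rw [zl_map_III]; exact (S.good_map (S.good_III j) e).2
  | IV e => rw [zl_map_IV]; exact (S.good_map S.good_IV e).2
  | V e n hn => rw [zl_map_V]; exact (S.good_map (S.good_V hn) e).2
  | VI e => rw [zl_map_VI]; exact (S.good_map S.good_VI e).2

end Setup

end Pool.Agent.ZL
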