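import Pool.Agent.Work.MP_b19acb_nt.Gam
import Pool.Agent.Work.MP_b19acb_nt.RelRec
import Pool.Agent.Work.MP_b19acb_nt.RatPoly
import Pool.Agent.Work.MP_b19acb_nt.ZLim
import Pool.Agent.Work.MP_b19acb_nt.Class

/-!
# Indep (L): the power series of the tails are linearly independent over k[X]

`tel_map`: `Tel (φ D) s` from `Tel D s` (`Φ.map φ`, `map_SS`, `map_xx`, `map_vv`).

`hat`: `Ah n = Σ_{i ≤ n} (AA D n)_i D^i X^i Ee^(n-i)` is the polynomial with
`Ah n = Ee^n * aeval UU (AA D n)` in power series (`UU_mul`), and `Ah n (t_d) = Ee(t_d)^n A_n(u_d)` for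
`d ≥ 1` (`uu_t`).

`indep`: induction on `r = s.length`.  `r = 0`: `Gam [] = 1`.  `r ≥ 1`: let `Γ j = Gam (s.take j).reverse`,
`σ j = (s.take j).sum`, `r' = r-1`.  By induction for `s.take (r-1)` the `Γ j`, `j < r`, are
independent.  Assume `Q r ≠ 0` (otherwise done by induction).
(1) `rel_rec` with `E = Ee`, `F = Ff`, `A (j+1) = Ah s_j`: the functional equation is `gam_rec` times
`Ee^(σ (j+1))` (`one_add_UU_mul`, `(s.take (j+1)).reverse = s_j :: (s.take j).reverse`).
(2) Evaluate at `t_d` for large `d` (`Q_r(t_d) ≠ 0`, `Q_r(t_{d+1}) ≠ 0`, `expand 2 Q (t_d) = Q(t_d^2) =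
Q(t_{d+1})`), with `R_j d = Q_j(t_d)/Q_r(t_d)`, divide by `Ee^(σ r-σ j) Ff^(σ j) Q_r(t_d) Q_r(t_{d+1})`:
`R_j d + A_{s_j}(u_d) R_{j+1} d = (1+u_d)^(σ r - σ j) R_j (d+1)` for `j < r`.
So `Z_j d = X_d^(σ r - σ j) R_j d` satisfies `Z_j (d+1) = Z_j d + ps D d s_j Z_{j+1} d` (`ps_eq`,
`XX_succ_eq`), `Z_r = 1`.
(3) Downward induction on `j`: `Tel D (s.drop j)` and `Z_j d = SS D (s.drop j) d` for large `d`:
`rat_tel` with `a = s_j`; `X_d = x_d v_d`, `v_d D t_d = Ee(t_d)` (`vv_t`), so
`Z_j d * (Q_r * (C D * X)^W)(t_d) = x_d^W (Q_j * Ee^W)(t_d)`, `W = σ r - σ j = (s.drop j).sum`.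
(4) `Σ_j Q_j(t_d) γ_j d` is `Small` (represented by `Σ Q_j Γ_j = 0`); divide by `Q_r(t_d)`
(`poly_lower`: only a power of `t_d` is lost) and multiply by `X_d^(σ r)` (norm 1): for large `d` the
result is `Σ_j Z_j d zg_j d = Σ_j SS (s.drop j) d * zg (s.take j).reverse d = zeta s` (`split`).  A
constant which is `Small` is 0: `zeta s = 0`.
(5) But `zeta s ≠ 0`: `r = 1`: `zeta_single`; `r ≥ 2`: `classification` for `φ D` (`tel_map`, (3)) gives
`Fam s`, and `fam_lim`, `norm_zeta_one`.  Contradiction.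
-/


namespace Pool.Agent.ZL

open Polynomial Finset Filter

variable {k L : Type*} [Field k] [CharP k 2] [NormedField L] [CompleteSpace L]
  [IsUltrametricDist L] [CharP L 2] (S : Setup k L)

namespace Setup

theorem tel_map {s : List ℕ} (h : Tel S.D s) : Tel (S.φ S.D) s := by
  obtain ⟨Φ, hΦ⟩ := h
  refine ⟨Φ.map S.φ, fun d => ?_⟩
  rw [← S.map_SS, ← S.map_xx, ← S.map_vv, hΦ d, map_mul, map_pow, Polynomial.eval_map,
    Polynomial.eval₂_at_apply]

/-- `Ee^n A_n(UU)` as a polynomial -/
noncomputable def Ah (n : ℕ) : k[X] :=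
  ∑ i ∈ range (n + 1), C ((AA S.D n).coeff i * S.D ^ i) * X ^ i * S.Ee ^ (n - i)

theorem Ah_coe {n : ℕ} (hn : 1 ≤ n) : ((S.Ah n : k[X]) : PowerSeries k) =
    ((S.Ee ^ n : k[X]) : PowerSeries k) * aeval S.UU (AA S.D n) := by
  rw [Polynomial.aeval_eq_sum_range' (n := n + 1) (by rw [AA_natDegree _ hn]; omega), Ah,
    Finset.mul_sum]
  rw [show ((∑ i ∈ range (n + 1), C ((AA S.D n).coeff i * S.D ^ i) * X ^ i * S.Ee ^ (n - i) :
    k[X]) : PowerSeries k) = ∑ i ∈ range (n + 1), ((C ((AA S.D n).coeff i * S.D ^ i) * X ^ i *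
      S.Ee ^ (n - i) : k[X]) : PowerSeries k) from by
      simpa only [Polynomial.coeToPowerSeries.ringHom_apply] using
        map_sum (Polynomial.coeToPowerSeries.ringHom (R := k)) _ _]
  refine Finset.sum_congr rfl fun i hi => ?_
  have hi' : i ≤ n := by rw [Finset.mem_range] at hi; omega
  have h1 : ((S.Ee ^ n : k[X]) : PowerSeries k) = ((S.Ee : k[X]) : PowerSeries k) ^ (n - i) *
      ((S.Ee : k[X]) : PowerSeries k) ^ i := by
    rw [← pow_add, Nat.sub_add_cancel hi', Polynomial.coe_pow]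
  have h2 : S.UU ^ i * ((S.Ee : k[X]) : PowerSeries k) ^ i =
      ((C S.D * X : k[X]) : PowerSeries k) ^ i := by
    rw [← mul_pow, S.UU_mul]
  rw [h1, PowerSeries.smul_eq_C_mul]
  calc ((C ((AA S.D n).coeff i * S.D ^ i) * X ^ i * S.Ee ^ (n - i) : k[X]) : PowerSeries k)
      = PowerSeries.C ((AA S.D n).coeff i) * ((C S.D * X : k[X]) : PowerSeries k) ^ i *
        ((S.Ee : k[X]) : PowerSeries k) ^ (n - i) := by
        push_cast
        rw [map_mul, map_pow]
        ring
    _ = _ := by
        rw [← h2]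
        ring

theorem Ah_eval {n d : ℕ} (hn : 1 ≤ n) (hd : 1 ≤ d) :
    (S.Ah n).eval (S.t d) = S.Ee.eval (S.t d) ^ n * (AA S.D n).eval (uu S.D d) := by
  rw [Polynomial.eval_eq_sum_range' (p := AA S.D n) (n := n + 1)
    (by rw [AA_natDegree _ hn]; omega), Ah, Finset.mul_sum, Polynomial.eval_finsetSum]
  refine Finset.sum_congr rfl fun i hi => ?_
  have hi' : i ≤ n := by rw [Finset.mem_range] at hi; omega
  have h1 : S.Ee.eval (S.t d) ^ n = S.Ee.eval (S.t d) ^ (n - i) * S.Ee.eval (S.t d) ^ i := by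
    rw [← pow_add, Nat.sub_add_cancel hi']
  have h2 : uu S.D d ^ i * S.Ee.eval (S.t d) ^ i = S.D ^ i * S.t d ^ i := by
    rw [← mul_pow, S.uu_t hd, mul_pow]
  simp only [eval_mul, eval_C, eval_pow, eval_X]
  rw [h1]
  linear_combination (-(AA S.D n).coeff i * S.Ee.eval (S.t d) ^ (n - i)) * h2

theorem sigma_mono (s : List ℕ) : Monotone fun j => (s.take j).sum := by
  refine monotone_nat_of_le_succ fun j => ?_
  by_cases hj : j < s.length
  · rw [List.take_succ_eq_append_getElem hj, List.sum_append]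
    omega
  · rw [List.take_of_length_le (by omega), List.take_of_length_le (by omega)]

theorem rev_take (s : List ℕ) {j : ℕ} (hj : j < s.length) :
    (s.take (j + 1)).reverse = s[j] :: (s.take j).reverse := by
  rw [List.take_succ_eq_append_getElem hj, List.reverse_append]
  rfl

theorem gam_fe {s : List ℕ} (hs : ∀ a ∈ s, 1 ≤ a) {j : ℕ} (hj : j < s.length) :
    ((S.Ee ^ (s.take (j + 1)).sum : k[X]) : PowerSeries k) * S.Gam (s.take (j + 1)).reverse =
      ((S.Ff ^ (s.take (j + 1)).sum : k[X]) : PowerSeries k) *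
        sq2 (S.Gam (s.take (j + 1)).reverse) +
        ((S.Ah s[j] * S.Ff ^ (s.take j).sum : k[X]) : PowerSeries k) *
          sq2 (S.Gam (s.take j).reverse) := by
  have hpos : ∀ a ∈ (s.take j).reverse, 1 ≤ a := by
    intro a ha
    exact hs a (List.mem_of_mem_take (List.mem_reverse.mp ha))
  have hn : 1 ≤ s[j] := hs _ (List.getElem_mem hj)
  have hsum : (s.take (j + 1)).sum = s[j] + (s.take j).reverse.sum := by
    rw [List.sum_reverse, List.take_succ_eq_append_getElem hj, List.sum_append]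
    simp [add_comm]
  have h1 := S.gam_rec hn hpos
  rw [← rev_take s hj] at h1
  rw [h1, mul_add]
  congr 1
  · rw [← h1, hsum]
    push_cast
    rw [← mul_assoc, ← mul_pow, mul_comm _ (1 + S.UU), S.one_add_UU_mul]
  · rw [hsum]
    push_cast
    have h2 := S.Ah_coe hn
    push_cast at h2
    rw [h2, List.sum_reverse, pow_add, ← S.one_add_UU_mul, mul_pow]
    ring

variable {S} in
theorem rel_eval {s : List ℕ} (hs : ∀ a ∈ s, 1 ≤ a) {Q : ℕ → k[X]} {r : ℕ} (hr : r = s.length)
    {j : ℕ} (hj : j < r)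
    (h : expand k 2 (Q r) * (S.Ff ^ (s.take j).sum * (Q j * S.Ee ^ ((s.take r).sum -
      (s.take j).sum) + Q (j + 1) * S.Ee ^ ((s.take r).sum - (s.take (j + 1)).sum) *
      S.Ah (s[j]'(by omega)))) = Q r * S.Ff ^ (s.take r).sum * expand k 2 (Q j)) {d : ℕ}
    (hd : 1 ≤ d) (h1 : (Q r).eval (S.t d) ≠ 0) (h2 : (Q r).eval (S.t (d + 1)) ≠ 0) :
    XX S.D (d + 1) ^ (s.drop j).sum * ((Q j).eval (S.t (d + 1)) / (Q r).eval (S.t (d + 1))) =
      XX S.D d ^ (s.drop j).sum * ((Q j).eval (S.t d) / (Q r).eval (S.t d)) +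
        ps S.D d (s[j]'(by omega)) * (XX S.D d ^ (s.drop (j + 1)).sum *
          ((Q (j + 1)).eval (S.t d) / (Q r).eval (S.t d))) := by
  have hjl : j < s.length := by omega
  have hn : 1 ≤ s[j] := hs _ (List.getElem_mem hjl)
  have hW : (s.drop j).sum = s[j] + (s.drop (j + 1)).sum := by
    rw [List.drop_eq_getElem_cons hjl, List.sum_cons]
  have hs1 : (s.take j).sum + (s.drop j).sum = (s.take r).sum := by
    rw [← List.sum_append, List.take_append_drop, List.take_of_length_le (by omega)]
  have hs2 : (s.take (j + 1)).sum + (s.drop (j + 1)).sum = (s.take r).sum := by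
    rw [← List.sum_append, List.take_append_drop, List.take_of_length_le (by omega)]
  have e1 : (s.take r).sum - (s.take j).sum = s[j] + (s.drop (j + 1)).sum := by omega
  have e2 : (s.take r).sum - (s.take (j + 1)).sum = (s.drop (j + 1)).sum := by omega
  have e3 : (s.take r).sum = (s.take j).sum + (s[j] + (s.drop (j + 1)).sum) := by omega
  rw [e1, e2] at h
  rw [e3] at h
  have hev := congrArg (Polynomial.eval (S.t d)) h
  simp only [eval_mul, eval_add, eval_pow, Polynomial.expand_eval, ← S.t_succ] at hev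
  rw [S.Ah_eval hn hd, ← S.one_add_uu_t hd] at hev
  have hE := S.Ee_ne hd
  have hF := S.Ff_ne hd
  rw [← S.one_add_uu_t hd] at hF
  have hu : 1 + uu S.D d ≠ 0 := left_ne_zero_of_mul hF
  rw [hW, ps_eq S.D S.br_ne' hd hn, XX_succ_eq S.D S.br_ne' hd]
  set E := S.Ee.eval (S.t d)
  set u := uu S.D d
  set X0 := XX S.D d
  set A := (AA S.D s[j]).eval u
  set q := (Q r).eval (S.t d)
  set q' := (Q r).eval (S.t (d + 1))
  set a := (Q j).eval (S.t d)
  set a' := (Q j).eval (S.t (d + 1))
  set b := (Q (j + 1)).eval (S.t d)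
  set n := s[j]
  set W := (s.drop (j + 1)).sum
  have h3 : q' * (a + b * A) = q * (1 + u) ^ (n + W) * a' := by
    have h4 : ((1 + u) * E) ^ (s.take j).sum * E ^ (n + W) * (q' * (a + b * A)) =
        ((1 + u) * E) ^ (s.take j).sum * E ^ (n + W) * (q * (1 + u) ^ (n + W) * a') := by
      calc ((1 + u) * E) ^ (s.take j).sum * E ^ (n + W) * (q' * (a + b * A))
          = q' * (((1 + u) * E) ^ (s.take j).sum * (a * E ^ (n + W) + b * E ^ W * (E ^ n * A))) := by
            rw [pow_add]; ring
        _ = q * ((1 + u) * E) ^ ((s.take j).sum + (n + W)) * a' := hev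
        _ = _ := by rw [pow_add, mul_pow (1 + u) E (n + W)]; ring
    exact mul_left_cancel₀ (mul_ne_zero (pow_ne_zero _ hF) (pow_ne_zero _ hE)) h4
  rw [mul_pow]
  field_simp
  rw [pow_add] at h3 ⊢
  linear_combination (-(X0 ^ n * X0 ^ W)) * h3

theorem D_ne : S.D ≠ 0 := by
  intro h0
  have := S.one_lt_D
  rw [h0, map_zero, norm_zero] at this
  linarith

/-- a constant which is small is zero -/
theorem eq_zero_of_small {P : k[X]} (hP : P ≠ 0) {z : L}
    (h : S.Small fun d => S.φ (P.eval (S.t d)) * z) : z = 0 := by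
  obtain ⟨n, c, hc, hlow⟩ := S.poly_lower hP
  obtain ⟨C, hC⟩ := h (n + 1)
  by_contra hz
  have hz' : 0 < ‖z‖ := norm_pos_iff.mpr hz
  have h1 : ∀ᶠ d in atTop, c * ‖z‖ ≤ C * ‖S.φ (S.t d)‖ := by
    filter_upwards [hlow, hC] with d h2 h3
    rw [norm_mul] at h3
    have h4 := S.norm_t_pos d
    have h5 : c * ‖S.φ (S.t d)‖ ^ n * ‖z‖ ≤ C * ‖S.φ (S.t d)‖ ^ (n + 1) :=
      (mul_le_mul_of_nonneg_right h2 hz'.le).trans h3
    have h6 : 0 < ‖S.φ (S.t d)‖ ^ n := pow_pos h4 n
    rw [pow_succ] at h5
    have h7 : (c * ‖z‖) * ‖S.φ (S.t d)‖ ^ n ≤ (C * ‖S.φ (S.t d)‖) * ‖S.φ (S.t d)‖ ^ n := by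
      linarith
    exact le_of_mul_le_mul_right h7 h6
  have h2 : Tendsto (fun d => C * ‖S.φ (S.t d)‖) atTop (nhds (C * 0)) :=
    S.tendsto_t.const_mul C
  rw [mul_zero] at h2
  have h3 := ge_of_tendsto h2 h1
  have h4 := mul_pos hc hz'
  linarith

theorem indep_aux : ∀ (r : ℕ) (s : List ℕ), s.length = r → (∀ a ∈ s, 1 ≤ a) → ∀ Q : ℕ → k[X],
    ∑ j ∈ range (r + 1), (Q j : PowerSeries k) * S.Gam (s.take j).reverse = 0 →
    ∀ j < r + 1, Q j = 0 := by
  intro r
  induction r with
  | zero =>
    intro s hr hs Q h j hj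
    have hj0 : j = 0 := by omega
    subst hj0
    rw [zero_add, Finset.sum_range_one, List.take_zero, List.reverse_nil, S.gam_nil,
      mul_one] at h
    exact Polynomial.coe_eq_zero_iff.mp h
  | succ r ih =>
    intro s hr hs Q h
    have hind : ∀ Q : ℕ → k[X], ∑ j ∈ range (r + 1), (Q j : PowerSeries k) *
        S.Gam (s.take j).reverse = 0 → ∀ j < r + 1, Q j = 0 := by
      intro Q hQ
      refine ih (s.take r) (by rw [List.length_take]; omega)
        (fun a ha => hs a (List.mem_of_mem_take ha)) Q ?_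
      rw [← hQ]
      refine Finset.sum_congr rfl fun j hj => ?_
      rw [List.take_take, min_eq_left (by rw [Finset.mem_range] at hj; omega)]
    by_cases hQr : Q (r + 1) = 0
    · rw [Finset.sum_range_succ, hQr, Polynomial.coe_zero, zero_mul, add_zero] at h
      intro j hj
      rcases Nat.lt_succ_iff_lt_or_eq.mp hj with h1 | h1
      · exact hind Q h j h1
      · rw [h1]; exact hQr
    exfalso
    -- the transposed recursion
    have hrr := fun (j : ℕ) (hj : j < r + 1) => rel_rec (r := r + 1)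
      (Γ := fun j => S.Gam (s.take j).reverse) (E := S.Ee) (F := S.Ff)
      (A := fun m => S.Ah (s.getD (m - 1) 0)) (σ := fun j => (s.take j).sum)
      (by simp) (sigma_mono s) (by simp only [List.take_zero, List.reverse_nil, S.gam_nil])
      (by
        intro j hj
        have hj' : j < s.length := by omega
        have := S.gam_fe hs hj'
        simp only [Nat.add_sub_cancel]
        rw [List.getD_eq_getElem _ _ hj']
        exact this)
      hind Q h hj
    set Z : ℕ → ℕ → k := fun j d => XX S.D d ^ (s.drop j).sum *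
      ((Q j).eval (S.t d) / (Q (r + 1)).eval (S.t d)) with hZ
    have hne := S.poly_ne hQr
    have hne' : ∀ᶠ d in atTop, (Q (r + 1)).eval (S.t (d + 1)) ≠ 0 :=
      (tendsto_add_atTop_nat 1).eventually hne
    have hrec : ∀ (j : ℕ) (hj : j < r + 1), ∀ᶠ d in atTop,
        Z j (d + 1) = Z j d + ps S.D d (s[j]'(by omega)) * Z (j + 1) d := by
      intro j hj
      filter_upwards [hne, hne', eventually_ge_atTop 1] with d h1 h2 h3
      refine rel_eval hs (Q := Q) (r := r + 1) (by omega) hj ?_ h3 h1 h2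
      have := hrr j hj
      simp only [Nat.add_sub_cancel] at this
      rwa [List.getD_eq_getElem _ _ (show j < s.length by omega)] at this
    have hXt : ∀ d, XX S.D d * (S.D * S.t d) = xx S.D d * S.Ee.eval (S.t d) := by
      intro d
      have h1 := S.vv_t d
      have hx := xx_ne_zero S.D S.br_ne' d
      have ht := S.t_ne d
      rw [vv] at h1
      have h2 : S.Ee.eval (S.t d) = 1 + S.θ ^ 2 * S.t d := by
        simp [Ee]
      rw [h2]
      field_simp at h1
      linear_combination h1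
    have hdown : ∀ m ≤ r + 1, Tel S.D (s.drop (r + 1 - m)) ∧
        ∀ᶠ d in atTop, Z (r + 1 - m) d = SS S.D (s.drop (r + 1 - m)) d := by
      intro m
      induction m with
      | zero =>
        intro _
        have hd0 : s.drop (r + 1) = [] := List.drop_eq_nil_of_le (by omega)
        rw [Nat.sub_zero, hd0]
        refine ⟨⟨1, fun d => by simp [SS]⟩, ?_⟩
        filter_upwards [hne] with d h1
        simp only [hZ, hd0, List.sum_nil, pow_zero, one_mul, SS]
        exact div_self h1
      | succ m ihm =>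
        intro hm
        obtain ⟨ih1, ih2⟩ := ihm (by omega)
        set j := r + 1 - (m + 1) with hjdef
        have hj1 : r + 1 - m = j + 1 := by omega
        rw [hj1] at ih1 ih2
        have hj : j < r + 1 := by omega
        have hjl : j < s.length := by omega
        have hdrop : s.drop j = s[j] :: s.drop (j + 1) := List.drop_eq_getElem_cons hjl
        have hW : (s.drop j).sum = s[j] + (s.drop (j + 1)).sum := by
          rw [hdrop, List.sum_cons]
        rw [hdrop]
        refine S.rat_tel (hs _ (List.getElem_mem hjl)) ih1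
          (M := Q (r + 1) * (C S.D * X) ^ (s.drop j).sum) (N := Q j * S.Ee ^ (s.drop j).sum)
          (mul_ne_zero hQr (pow_ne_zero _ (mul_ne_zero (by rw [Ne, C_eq_zero]; exact S.D_ne)
            X_ne_zero))) ?_ ?_
        · filter_upwards [hne] with d h1
          simp only [hZ, eval_mul, eval_pow, eval_C, eval_X]
          rw [← hW]
          have h2 : XX S.D d ^ (s.drop j).sum * (S.D * S.t d) ^ (s.drop j).sum =
              xx S.D d ^ (s.drop j).sum * S.Ee.eval (S.t d) ^ (s.drop j).sum := by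
            rw [← mul_pow, hXt, mul_pow]
          calc XX S.D d ^ (s.drop j).sum * ((Q j).eval (S.t d) / (Q (r + 1)).eval (S.t d)) *
              ((Q (r + 1)).eval (S.t d) * (S.D * S.t d) ^ (s.drop j).sum)
              = (XX S.D d ^ (s.drop j).sum * (S.D * S.t d) ^ (s.drop j).sum) *
                (Q j).eval (S.t d) * ((Q (r + 1)).eval (S.t d) / (Q (r + 1)).eval (S.t d)) := by
                ring
            _ = _ := by rw [h2, div_self h1]; ring
        · filter_upwards [hrec j hj, ih2] with d h1 h2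
          rw [h1, h2]
    have htel : ∀ j, Tel S.D (s.drop j) := by
      intro j
      by_cases hj : j ≤ r + 1
      · have := (hdown (r + 1 - j) (by omega)).1
        rwa [show r + 1 - (r + 1 - j) = j by omega] at this
      · rw [List.drop_eq_nil_of_le (by omega)]
        exact ⟨1, fun d => by simp [SS]⟩
    have hZS : ∀ j ≤ r + 1, ∀ᶠ d in atTop, Z j d = SS S.D (s.drop j) d := by
      intro j hj
      have := (hdown (r + 1 - j) (by omega)).2
      rwa [show r + 1 - (r + 1 - j) = j by omega] at this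
    -- the value is zero
    have hzero : S.zeta s = 0 := by
      have hsm : S.Small fun d => ∑ j ∈ range (r + 2), S.φ ((Q j).eval (S.t d)) *
          (S.zg (s.take j).reverse d / S.φ (XX S.D d) ^ (s.take j).reverse.sum) := by
        rw [← S.rep_small, ← h]
        refine S.rep_sum _ fun j _ => S.rep_mul (S.rep_poly _) (S.gam_rep ?_)
        intro a ha
        exact hs a (List.mem_of_mem_take (List.mem_reverse.mp ha))
      have hsm2 : S.Small fun d => S.φ (XX S.D d) ^ s.sum *
          ∑ j ∈ range (r + 2), S.φ ((Q j).eval (S.t d)) *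
          (S.zg (s.take j).reverse d / S.φ (XX S.D d) ^ (s.take j).reverse.sum) := by
        refine S.small_mul hsm ⟨1, ?_⟩
        filter_upwards [eventually_ge_atTop 1] with d hd
        rw [norm_pow, S.map_XX, norm_XX _ S.one_lt_D hd, one_pow]
      refine S.eq_zero_of_small hQr ?_
      intro M
      obtain ⟨C, hC⟩ := hsm2 M
      refine ⟨C, ?_⟩
      have hall : ∀ᶠ d in atTop, ∀ j ∈ range (r + 2), Z j d = SS S.D (s.drop j) d := by
        rw [Filter.eventually_all_finset]
        intro j hj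
        exact hZS j (by rw [Finset.mem_range] at hj; omega)
      filter_upwards [hC, hall, hne, eventually_ge_atTop 1] with d h1 h2 h3 h4
      refine le_trans (le_of_eq ?_) h1
      congr 1
      rw [← S.split hs d, Finset.mul_sum, Finset.mul_sum, hr]
      refine Finset.sum_congr rfl fun j hj => ?_
      have hX : S.φ (XX S.D d) ≠ 0 := by
        rw [_root_.map_ne_zero]
        exact XX_ne_zero _ S.br_ne' h4
      have hsum : s.sum = (s.take j).reverse.sum + (s.drop j).sum := by
        rw [List.sum_reverse, ← List.sum_append, List.take_append_drop]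
      have h3' : S.φ ((Q (r + 1)).eval (S.t d)) ≠ 0 := by rwa [_root_.map_ne_zero]
      rw [← h2 j hj, hZ, hsum, pow_add]
      simp only [map_mul, map_pow, map_div₀]
      field_simp
    -- but it is not
    have hone : S.zeta [1] ≠ 0 := by
      intro h0
      have := S.norm_zeta_one
      rw [h0, norm_zero] at this
      exact zero_ne_one this
    rcases Nat.eq_zero_or_pos r with h0 | h0
    · subst h0
      obtain ⟨a, rfl⟩ := List.length_eq_one_iff.mp hr
      obtain ⟨c, hc, hc'⟩ := S.zeta_single (hs a (by simp))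
      rw [hzero] at hc'
      exact (mul_ne_zero ((_root_.map_ne_zero _).mpr hc) (pow_ne_zero _ hone)) hc'.symm
    · have hfam := classification (S.φ S.D) S.one_lt_D hs (by omega) fun j => S.tel_map (htel j)
      obtain ⟨c, hc, hc'⟩ := S.fam_lim hfam
      rw [hzero] at hc'
      exact (mul_ne_zero ((_root_.map_ne_zero _).mpr hc) (pow_ne_zero _ hone)) hc'.symm

theorem indep {s : List ℕ} (hs : ∀ a ∈ s, 1 ≤ a) (Q : ℕ → k[X])
    (h : ∑ j ∈ range (s.length + 1), (Q j : PowerSeries k) * S.Gam (s.take j).reverse = 0) :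
    ∀ j ≤ s.length, Q j = 0 := fun j hj =>
  S.indep_aux s.length s rfl hs Q h j (by omega)

end Setup

end Pool.Agent.ZL
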