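import Pool.Agent.Work.MP_b19acb_nt.Defs
import Pool.Agent.Work.MP_b19acb_nt.GG

/-!
# LeadSer (M): the leading forms

`R` a commutative ring of characteristic 2, `u d : R`.  Let `E n = 2^(Nat.log 2 (n+1))`, the largest
power of 2 that is `≤ n+1`, and `a n = u^(E n) * d^(n+1-E n)`.  Then for `n ≥ 1`
`a n = u * a (n-1) + Σ_{k ≥ 0, 2^(k+1) ≤ n} (u^2+u d)^(2^k) * a (n - 2^(k+1))`.

Proof by generating functions in `R⟦Z⟧`: let `A = Σ a n Z^n` and
`Y = u Z + Σ_{k≥0} (u^2+ud)^(2^k) Z^(2^(k+1))` (a power series of the form `ser`).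
(1) `Z (1 + d Z) A = Y`: the coefficient of `Z^(n+1)` of the left side is `a n + d a (n-1)` for
`n ≥ 1` and `a 0 = u` for `n = 0`.  If `E n = E (n-1)` then `a n = d a (n-1)` and the sum vanishes
(char 2).  If `E n ≠ E (n-1)` then `n+1 = 2^(k+1)`, `E n = 2^(k+1)`, `E (n-1) = 2^k`,
`a n + d a (n-1) = u^(2^(k+1)) + u^(2^k) d^(2^k) = (u^2+ud)^(2^k)`.
(2) `Y^2 + Y = u Z (1 + d Z)`: `Y^2 = u^2 Z^2 + Σ_{k≥1} (u^2+ud)^(2^k) Z^(2^(k+1))` (Frobenius), so
`Y^2 + Y = u^2 Z^2 + u Z + (u^2+ud) Z^2 = u Z + u d Z^2`.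
(3) so `Z (1+dZ) (A (1 + Y) - u) = Y (1+Y) - u Z (1+dZ) = 0` and `Z (1+dZ)` is not a zero divisor
(`Z` is regular, `1 + dZ` is a unit), hence `A (1+Y) = u`; the coefficient of `Z^n`, `n ≥ 1`.
(A direct proof by cases on `n` is also possible.)
-/

namespace Pool.Agent.ZL

open Polynomial Finset

private noncomputable def lsc {R : Type*} [CommRing R] (u d : R) (i : ℕ) : R :=
  if i = 0 then u else (u ^ 2 + u * d) ^ 2 ^ (i - 1)

private noncomputable def lsa {R : Type*} [CommRing R] (u d : R) (n : ℕ) : R :=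
  u ^ 2 ^ Nat.log 2 (n + 1) * d ^ (n + 1 - 2 ^ Nat.log 2 (n + 1))

private theorem log_facts (n : ℕ) (hn : 2 ≤ n) :
    (n = 2 ^ Nat.log 2 n ∧ 1 ≤ Nat.log 2 n ∧ Nat.log 2 (n - 1) = Nat.log 2 n - 1) ∨
    (n ≠ 2 ^ Nat.log 2 n ∧ 2 ^ Nat.log 2 n ≤ n - 1 ∧ Nat.log 2 (n - 1) = Nat.log 2 n) := by
  have h1 : 2 ^ Nat.log 2 n ≤ n := Nat.pow_log_le_self 2 (by omega)
  have h2 : n < 2 ^ (Nat.log 2 n + 1) := Nat.lt_pow_succ_log_self (by norm_num) n
  have h3 : 1 ≤ Nat.log 2 n := Nat.log_pos (by norm_num) hn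
  by_cases h : n = 2 ^ Nat.log 2 n
  · left
    refine ⟨h, h3, ?_⟩
    obtain ⟨k, hk⟩ : ∃ k, Nat.log 2 n = k + 1 := ⟨Nat.log 2 n - 1, by omega⟩
    rw [hk] at h ⊢
    rw [Nat.add_sub_cancel]
    have h4 : 1 ≤ 2 ^ k := Nat.one_le_two_pow
    rw [pow_succ] at h
    refine Nat.log_eq_of_pow_le_of_lt_pow (by omega) ?_
    rw [pow_succ]
    omega
  · right
    refine ⟨h, by omega, ?_⟩
    refine Nat.log_eq_of_pow_le_of_lt_pow (by omega) (by omega)

private theorem step1 {R : Type*} [CommRing R] [CharP R 2] (u d : R) :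
    PowerSeries.X * ((1 + PowerSeries.C d * PowerSeries.X) * (PowerSeries.mk (lsa u d))) =
      ser (lsc u d) := by
  have hE : ((1 + PowerSeries.C d * PowerSeries.X) * (PowerSeries.mk (lsa u d))) =
      PowerSeries.mk (lsa u d) + PowerSeries.C d * (PowerSeries.X * PowerSeries.mk (lsa u d)) := by
    ring
  rw [hE]
  ext n
  rw [coeff_ser]
  rcases n with _ | _ | m
  · rw [PowerSeries.coeff_zero_X_mul]
    simp
  · rw [PowerSeries.coeff_succ_X_mul, map_add, PowerSeries.coeff_C_mul,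
      PowerSeries.coeff_zero_X_mul, PowerSeries.coeff_mk]
    simp [lsa, lsc]
  · rw [PowerSeries.coeff_succ_X_mul, map_add, PowerSeries.coeff_C_mul,
      PowerSeries.coeff_succ_X_mul, PowerSeries.coeff_mk, PowerSeries.coeff_mk]
    unfold lsa lsc
    rcases log_facts (m + 1 + 1) (by omega) with ⟨h1, h2, h3⟩ | ⟨h1, h2, h3⟩
    · rw [if_pos h1]
      rw [Nat.add_sub_cancel] at h3
      obtain ⟨k, hk⟩ : ∃ k, Nat.log 2 (m + 1 + 1) = k + 1 := ⟨Nat.log 2 (m + 1 + 1) - 1, by omega⟩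
      rw [h3, hk, if_neg (by omega), Nat.add_sub_cancel]
      rw [hk] at h1
      have e1 : m + 1 + 1 - 2 ^ (k + 1) = 0 := by omega
      have h4 : 1 ≤ 2 ^ k := Nat.one_le_two_pow
      have e2 : m + 1 - 2 ^ k + 1 = 2 ^ k := by
        rw [pow_succ] at h1
        omega
      have e3 : d * (u ^ 2 ^ k * d ^ (m + 1 - 2 ^ k)) = u ^ 2 ^ k * d ^ (m + 1 - 2 ^ k + 1) := by
        rw [pow_succ]
        ring
      rw [e1, pow_zero, mul_one, e3, e2]
      have : Fact (Nat.Prime 2) := ⟨Nat.prime_two⟩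
      rw [add_pow_char_pow, ← pow_mul, ← mul_pow, ← pow_succ' 2 k]
    · rw [if_neg h1]
      rw [Nat.add_sub_cancel] at h2 h3
      rw [h3]
      have e2 : m + 1 + 1 - 2 ^ Nat.log 2 (m + 1 + 1) =
          m + 1 - 2 ^ Nat.log 2 (m + 1 + 1) + 1 := by omega
      rw [e2, pow_succ]
      have e3 : ∀ x y : R, x * (y * d) + d * (x * y) = (x * y * d) + (x * y * d) := by
        intro x y
        ring
      rw [e3, CharTwo.add_self_eq_zero]

private theorem step2 {R : Type*} [CommRing R] [CharP R 2] (u d : R) :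
    (ser (lsc u d)) ^ 2 + ser (lsc u d) =
      PowerSeries.C u * (PowerSeries.X * (1 + PowerSeries.C d * PowerSeries.X)) := by
  have hE : PowerSeries.C u * (PowerSeries.X * (1 + PowerSeries.C d * PowerSeries.X)) =
      PowerSeries.C u * PowerSeries.X + PowerSeries.C (u * d) * PowerSeries.X ^ 2 := by
    rw [map_mul]
    ring
  rw [hE]
  ext n
  rw [map_add, map_add, PowerSeries.coeff_C_mul, PowerSeries.coeff_C_mul, PowerSeries.coeff_X,
    PowerSeries.coeff_X_pow]
  obtain ⟨m, rfl | rfl⟩ := Nat.even_or_odd' n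
  · rw [coeff_sq_even, coeff_ser, coeff_ser]
    rw [if_neg (by omega : ¬ 2 * m = 1), mul_zero, zero_add]
    rcases Nat.eq_zero_or_pos m with rfl | hm
    · simp
    · have hl : Nat.log 2 (2 * m) = Nat.log 2 m + 1 := by
        rw [mul_comm]
        exact Nat.log_mul_base (by norm_num) (by omega)
      rw [hl]
      have hiff : (2 * m = 2 ^ (Nat.log 2 m + 1)) ↔ m = 2 ^ Nat.log 2 m := by
        rw [pow_succ]
        omega
      rw [show (if 2 * m = 2 ^ (Nat.log 2 m + 1) then lsc u d (Nat.log 2 m + 1) else 0) =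
        if m = 2 ^ Nat.log 2 m then lsc u d (Nat.log 2 m + 1) else 0 from if_congr hiff rfl rfl]
      by_cases h : m = 2 ^ Nat.log 2 m
      · rw [if_pos h, if_pos h]
        rcases Nat.eq_zero_or_pos (Nat.log 2 m) with h0 | h0
        · rw [h0, pow_zero] at h
          rw [h0, if_pos (by omega), mul_one]
          unfold lsc
          rw [if_pos rfl, if_neg (by omega)]
          have e : u ^ 2 + (u ^ 2 + u * d) ^ 2 ^ (0 + 1 - 1) = (u ^ 2 + u ^ 2) + u * d := by
            rw [Nat.add_sub_cancel, pow_zero, pow_one]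
            ring
          rw [e, CharTwo.add_self_eq_zero, zero_add]
        · have hm2 : m ≠ 1 := by
            rintro rfl
            simp at h0
          rw [if_neg (by omega), mul_zero]
          unfold lsc
          rw [if_neg (by omega), if_neg (by omega), ← pow_mul, Nat.add_sub_cancel]
          have e : 2 ^ (Nat.log 2 m - 1) * 2 = 2 ^ Nat.log 2 m := by
            rw [← pow_succ]
            congr 1
            omega
          rw [e, CharTwo.add_self_eq_zero]
      · rw [if_neg h, if_neg h, if_neg, mul_zero, zero_pow two_ne_zero, zero_add]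
        intro h1
        apply h
        have : m = 1 := by omega
        rw [this]
        simp
  · rw [coeff_sq_odd, coeff_ser, zero_add, if_neg (by omega : ¬ 2 * m + 1 = 2), mul_zero, add_zero]
    rcases Nat.eq_zero_or_pos m with rfl | hm
    · simp [lsc]
    · rw [if_neg, if_neg (by omega), mul_zero]
      intro h
      have h1 : 1 ≤ Nat.log 2 (2 * m + 1) := Nat.log_pos (by norm_num) (by omega)
      obtain ⟨k, hk⟩ : ∃ k, Nat.log 2 (2 * m + 1) = k + 1 := ⟨Nat.log 2 (2 * m + 1) - 1, by omega⟩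
      rw [hk, pow_succ] at h
      omega

private theorem step3 {R : Type*} [CommRing R] [CharP R 2] (u d : R) :
    (1 + ser (lsc u d)) * PowerSeries.mk (lsa u d) = PowerSeries.C u := by
  set V : PowerSeries R := 1 + PowerSeries.C d * PowerSeries.X with hV
  set A : PowerSeries R := PowerSeries.mk (lsa u d) with hA
  have h1 : PowerSeries.X * (V * A) = ser (lsc u d) := step1 u d
  have h2 : (ser (lsc u d)) ^ 2 + ser (lsc u d) = PowerSeries.C u * (PowerSeries.X * V) :=
    step2 u d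
  have h3 : PowerSeries.X * (V * ((1 + ser (lsc u d)) * A - PowerSeries.C u)) = 0 := by
    have e : PowerSeries.X * (V * ((1 + ser (lsc u d)) * A - PowerSeries.C u)) =
        (1 + ser (lsc u d)) * (PowerSeries.X * (V * A)) -
          PowerSeries.C u * (PowerSeries.X * V) := by ring
    rw [e, h1, ← h2]
    ring
  have h4 : V * ((1 + ser (lsc u d)) * A - PowerSeries.C u) = 0 := by
    ext n
    rw [← PowerSeries.coeff_succ_X_mul, h3, map_zero, map_zero]
  have h5 : V * PowerSeries.invOfUnit V 1 = 1 := by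
    refine PowerSeries.mul_invOfUnit _ _ ?_
    rw [hV]
    simp
  have h6 : (1 + ser (lsc u d)) * A - PowerSeries.C u = 0 := by
    calc (1 + ser (lsc u d)) * A - PowerSeries.C u =
        (V * PowerSeries.invOfUnit V 1) * ((1 + ser (lsc u d)) * A - PowerSeries.C u) := by
          rw [h5, one_mul]
      _ = PowerSeries.invOfUnit V 1 * (V * ((1 + ser (lsc u d)) * A - PowerSeries.C u)) := by
          ring
      _ = 0 := by rw [h4, mul_zero]
  exact sub_eq_zero.1 h6

theorem lead_rec {R : Type*} [CommRing R] [CharP R 2] (u d : R) {n : ℕ} (hn : 1 ≤ n) :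
    u ^ 2 ^ Nat.log 2 (n + 1) * d ^ (n + 1 - 2 ^ Nat.log 2 (n + 1)) =
      u * (u ^ 2 ^ Nat.log 2 n * d ^ (n - 2 ^ Nat.log 2 n)) +
      ∑ k ∈ range n, if 2 ^ (k + 1) ≤ n then
        (u ^ 2 + u * d) ^ 2 ^ k * (u ^ 2 ^ Nat.log 2 (n - 2 ^ (k + 1) + 1) *
          d ^ (n - 2 ^ (k + 1) + 1 - 2 ^ Nat.log 2 (n - 2 ^ (k + 1) + 1))) else 0 := by
  have h := congrArg (PowerSeries.coeff n) (step3 u d)
  rw [add_mul, one_mul, map_add, PowerSeries.coeff_mk, coeff_ser_mul, PowerSeries.coeff_C,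
    if_neg (by omega), CharTwo.add_eq_zero, Finset.sum_range_succ'] at h
  have e0 : (if 2 ^ 0 ≤ n then lsc u d 0 * PowerSeries.coeff (n - 2 ^ 0)
      (PowerSeries.mk (lsa u d)) else 0) =
      u * (u ^ 2 ^ Nat.log 2 n * d ^ (n - 2 ^ Nat.log 2 n)) := by
    rw [pow_zero, if_pos hn, PowerSeries.coeff_mk]
    unfold lsc lsa
    rw [if_pos rfl, Nat.sub_add_cancel hn]
  rw [e0, add_comm] at h
  refine (show _ = lsa u d n from rfl).trans (h.trans ?_)
  congr 1
  refine Finset.sum_congr rfl fun k _ => ?_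
  split_ifs with h1
  · rw [PowerSeries.coeff_mk]
    unfold lsc lsa
    rw [if_neg (by omega), Nat.add_sub_cancel]
  · rfl

end Pool.Agent.ZL
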