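import Pool.Agent.Work.MP_b19acb_nt.EpsJ
import Pool.Agent.Work.MP_b19acb_nt.LeadSer
import Pool.Agent.Work.MP_b19acb_nt.ABdeg

/-!
# LeadA (M): A_a modulo powers of (u, δ)

`q = ‖D‖⁻¹`, `δ = D⁻¹`.  Claim for all `n`:
(odd) `AA (2n+1) - C δ^(n+1-E) X^E ∈ J_{n+2}`, `E = 2^(Nat.log 2 (n+1))`,
(even) `AA (2n+2) ∈ J_{n+2}`.
In particular `AA (2n+1) ∈ J_{n+1}`.

Strong induction with `AA_rec`.  Note `X * eps i ∈ J_{2^(i-1)}` for `i ≥ 1` (`eps_J`), `X * eps 0 = X ∈ J_1`.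
Even index `a = 2n+2`: `i = 0`: `X * AA (2n+1) ∈ J_{1+(n+1)}`.  `i ≥ 1`, `2^i < a`:
`a - 2^i = 2(n - 2^(i-1)) + 2` is even, `AA (a-2^i) ∈ J_{n-2^(i-1)+2}`, product in `J_{n+2}`.
Odd index `a = 2n+1`, `n ≥ 1` (`n = 0`: `AA 1 = X`): `i = 0`: `X * AA (2n) ∈ J_{1+(n-1)+2} = J_{n+2}`, negligible.
`i ≥ 1`, `2^i < a` iff `2^(i-1) ≤ n`: `a - 2^i = 2(n-2^(i-1))+1`.  Modulo `J_{n+2}` we may replace
`X eps i` by its leading form `L_i` (`L_1 = X`; `L_{i+2} = (X (X + C δ))^(2^i)`, error of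
`X eps (i+2)` in `J_{2^(i+1)+1}` by `eps_lead`), and `AA (a - 2^i)` by its leading form.  The sum of
the products of the leading forms is the leading form of index `n` by `lead_rec` in `K[X]` with
`u = X`, `d = C δ` (the terms: `i = 1` gives `u * a(n-1)`, `i = k+2` gives
`(u^2+ud)^(2^k) a(n-2^(k+1))`).
-/

namespace Pool.Agent.ZL

open Polynomial Finset

variable {K : Type*} [NormedField K] [IsUltrametricDist K] [CharP K 2] (D : K)

private noncomputable def lf (D : K) (n : ℕ) : K[X] :=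
  C (D⁻¹ ^ (n + 1 - 2 ^ Nat.log 2 (n + 1))) * X ^ 2 ^ Nat.log 2 (n + 1)

private noncomputable def lk (D : K) (k : ℕ) : K[X] :=
  if k = 0 then X else (X ^ 2 + X * C D⁻¹) ^ 2 ^ (k - 1)

private theorem lf_zero : lf D 0 = X := by
  unfold lf
  simp

private theorem lf_eq (m : ℕ) :
    X ^ 2 ^ Nat.log 2 (m + 1) * C D⁻¹ ^ (m + 1 - 2 ^ Nat.log 2 (m + 1)) = lf D m := by
  unfold lf
  rw [C_pow]
  exact mul_comm _ _

private theorem lf_rec0 (m : ℕ) :
    lf D (m + 1) = X * lf D m + ∑ k ∈ range (m + 1), if 2 ^ (k + 1) ≤ m + 1 then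
        (X ^ 2 + X * C D⁻¹) ^ 2 ^ k * lf D (m + 1 - 2 ^ (k + 1)) else 0 := by
  have h := lead_rec (R := K[X]) X (C D⁻¹) (n := m + 1) (by omega)
  rw [lf_eq, lf_eq] at h
  refine h.trans (congrArg (fun t => X * lf D m + t) ?_)
  refine Finset.sum_congr rfl fun k _ => ?_
  by_cases h1 : 2 ^ (k + 1) ≤ m + 1
  · rw [if_pos h1, if_pos h1, lf_eq]
  · rw [if_neg h1, if_neg h1]

private theorem lk_zero : lk D 0 = X := by
  unfold lk
  rw [if_pos rfl]

private theorem lk_succ (k : ℕ) : lk D (k + 1) = (X ^ 2 + X * C D⁻¹) ^ 2 ^ k := by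
  unfold lk
  rw [if_neg (Nat.succ_ne_zero k), Nat.add_sub_cancel]

private theorem lf_rec1 (m N : ℕ) (hN : m + 1 ≤ N) :
    lf D (m + 1) = (∑ k ∈ range N, if 2 ^ (k + 1) ≤ m + 1 then
        lk D (k + 1) * lf D (m + 1 - 2 ^ (k + 1)) else 0) + X * lf D m := by
  rw [lf_rec0, add_comm]
  refine congrArg (fun t => t + X * lf D m) ?_
  have hs : ∑ k ∈ range (m + 1), (if 2 ^ (k + 1) ≤ m + 1 then
        lk D (k + 1) * lf D (m + 1 - 2 ^ (k + 1)) else 0) =
      ∑ k ∈ range N, (if 2 ^ (k + 1) ≤ m + 1 then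
        lk D (k + 1) * lf D (m + 1 - 2 ^ (k + 1)) else 0) := by
    refine Finset.sum_subset (Finset.range_mono hN) fun k _ hk => ?_
    rw [Finset.mem_range] at hk
    have := Nat.lt_two_pow_self (n := k + 1)
    exact if_neg (by omega)
  refine Eq.trans ?_ hs
  refine Finset.sum_congr rfl fun k _ => ?_
  by_cases h1 : 2 ^ (k + 1) ≤ m + 1
  · rw [if_pos h1, if_pos h1, lk_succ]
  · rw [if_neg h1, if_neg h1]

private theorem lf_rec {n : ℕ} (hn : 1 ≤ n) :
    lf D n = ∑ k ∈ range (2 * n), if 2 ^ k ≤ n then lk D k * lf D (n - 2 ^ k) else 0 := by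
  obtain ⟨m, rfl⟩ : ∃ m, n = m + 1 := ⟨n - 1, by omega⟩
  have h0 : 2 * (m + 1) = (2 * m + 1) + 1 := by ring
  rw [h0, Finset.sum_range_succ' _ (2 * m + 1), lf_rec1 D m (2 * m + 1) (by omega)]
  refine congrArg (fun t => _ + t) ?_
  have h1 : (2 : ℕ) ^ 0 ≤ m + 1 := by
    rw [pow_zero]
    omega
  rw [if_pos h1, lk_zero, pow_zero, Nat.add_sub_cancel]

variable (hD : 1 < ‖D‖)

include hD

private theorem q0 : 0 ≤ ‖D‖⁻¹ := inv_nonneg.2 (norm_nonneg _)

private theorem q1 : ‖D‖⁻¹ ≤ 1 := (inv_lt_one_of_one_lt₀ hD).le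

private theorem Jn_Cd (m : ℕ) : Jn ‖D‖⁻¹ m (C (D⁻¹ ^ m)) :=
  Jn_C (q0 D hD) (by rw [norm_pow, norm_inv])

private theorem lf_J (n : ℕ) : Jn ‖D‖⁻¹ (n + 1) (lf D n) := by
  have h := Jn_mul (q0 D hD) (q1 D hD) (Jn_Cd D hD (n + 1 - 2 ^ Nat.log 2 (n + 1)))
    (Jn_X_pow (K := K) (q0 D hD) (q1 D hD) (2 ^ Nat.log 2 (n + 1)))
  have h1 : 2 ^ Nat.log 2 (n + 1) ≤ n + 1 := Nat.pow_log_le_self 2 (by omega)
  rwa [Nat.sub_add_cancel h1] at h

private theorem lk_J (k : ℕ) : Jn ‖D‖⁻¹ (2 ^ k) (lk D k) := by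
  unfold lk
  split_ifs with h
  · rw [h, pow_zero]
    exact Jn_X (q0 D hD)
  · have h1 : Jn ‖D‖⁻¹ 2 (X ^ 2 + X * C D⁻¹ : K[X]) := by
      refine Jn_add (q0 D hD) (Jn_X_pow (q0 D hD) (q1 D hD) 2) ?_
      have h2 := Jn_mul (q0 D hD) (q1 D hD) (Jn_X (K := K) (q0 D hD)) (Jn_Cd D hD 1)
      rwa [pow_one] at h2
    have h2 := Jn_pow (q0 D hD) (q1 D hD) h1 (2 ^ (k - 1))
    have e : 2 * 2 ^ (k - 1) = 2 ^ k := by
      rw [← pow_succ']
      congr 1
      omega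
    rwa [e] at h2

private theorem lk_sub (k : ℕ) : Jn ‖D‖⁻¹ (2 ^ k + 1) (X * eps D (k + 1) - lk D k) := by
  unfold lk
  split_ifs with h
  · have hD0 : D ≠ 0 := by
      rintro rfl
      rw [norm_zero] at hD
      exact absurd hD (by norm_num)
    have h1 : eps D (k + 1) = 1 := by
      subst h
      have hb0 : br D 0 = 0 := by simp [br]
      have hb1 : br D 1 = D := by simp [br]
      simp [eps, hb0, hb1, hD0]
    rw [h1, mul_one, sub_self]
    exact Jn_zero_poly (q0 D hD) _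
  · obtain ⟨i, rfl⟩ : ∃ i, k = i + 1 := ⟨k - 1, by omega⟩
    have h1 := Jn_mul (q0 D hD) (q1 D hD) (Jn_X (K := K) (q0 D hD)) (eps_lead D hD i)
    have e : X * (eps D (i + 2) - (X + C D⁻¹) ^ 2 ^ i * X ^ (2 ^ i - 1)) =
        X * eps D (i + 1 + 1) - (X ^ 2 + X * C D⁻¹) ^ 2 ^ (i + 1 - 1) := by
      rw [Nat.add_sub_cancel, mul_sub]
      congr 1
      have h3 : 2 ^ i - 1 + 1 = 2 ^ i := Nat.sub_add_cancel Nat.one_le_two_pow
      calc X * ((X + C D⁻¹) ^ 2 ^ i * X ^ (2 ^ i - 1)) =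
          (X + C D⁻¹) ^ 2 ^ i * X ^ (2 ^ i - 1 + 1) := by
            rw [pow_succ]
            ring
        _ = (X ^ 2 + X * C D⁻¹) ^ 2 ^ i := by
            rw [h3, ← mul_pow]
            congr 1
            ring
    rw [e, add_comm 1] at h1
    exact h1

private theorem Xeps_J (k : ℕ) : Jn ‖D‖⁻¹ (2 ^ k) (X * eps D (k + 1)) := by
  have h1 := Jn_mono (q0 D hD) (q1 D hD) (Nat.le_succ (2 ^ k)) (lk_sub D hD k)
  have h2 := Jn_add (q0 D hD) h1 (lk_J D hD k)
  rwa [sub_add_cancel] at h2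

private theorem leadA_both (n : ℕ) :
    Jn ‖D‖⁻¹ (n + 2) (AA D (2 * n + 1) - lf D n) ∧ Jn ‖D‖⁻¹ (n + 2) (AA D (2 * n + 2)) := by
  induction n using Nat.strong_induction_on with
  | _ n ih =>
    have hodd : Jn ‖D‖⁻¹ (n + 2) (AA D (2 * n + 1) - lf D n) := by
      rcases Nat.eq_zero_or_pos n with rfl | hn
      · rw [mul_zero, zero_add, AA_one, lf_zero, sub_self]
        exact Jn_zero_poly (q0 D hD) _
      · rw [AA_rec D (by omega : 2 ≤ 2 * n + 1), lf_rec D hn, sum_range_succ']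
        have e : ∀ a b c : K[X], a + b - c = (a - c) + b := by
          intro a b c
          ring
        rw [e, ← Finset.sum_sub_distrib]
        refine Jn_add (q0 D hD) (Jn_sum (q0 D hD) _ fun k _ => ?_) ?_
        · by_cases hk : 2 ^ k ≤ n
          · have hk1 : 2 ^ (k + 1) < 2 * n + 1 := by
              rw [pow_succ]
              omega
            have hk2 : 2 * n + 1 - 2 ^ (k + 1) = 2 * (n - 2 ^ k) + 1 := by
              rw [pow_succ] at hk1 ⊢
              omega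
            rw [if_pos hk1, if_pos hk, hk2]
            have h1k : 1 ≤ 2 ^ k := Nat.one_le_two_pow
            have hI := (ih (n - 2 ^ k) (by omega)).1
            have hA : Jn ‖D‖⁻¹ (n - 2 ^ k + 1) (AA D (2 * (n - 2 ^ k) + 1)) := by
              have h2 := Jn_add (q0 D hD) (Jn_mono (q0 D hD) (q1 D hD) (Nat.le_succ _) hI)
                (lf_J D hD (n - 2 ^ k))
              rwa [sub_add_cancel] at h2
            have e2 : X * eps D (k + 1) * AA D (2 * (n - 2 ^ k) + 1) -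
                lk D k * lf D (n - 2 ^ k) =
                (X * eps D (k + 1) - lk D k) * AA D (2 * (n - 2 ^ k) + 1) +
                  lk D k * (AA D (2 * (n - 2 ^ k) + 1) - lf D (n - 2 ^ k)) := by ring
            rw [e2]
            refine Jn_add (q0 D hD) ?_ ?_
            · have h3 := Jn_mul (q0 D hD) (q1 D hD) (lk_sub D hD k) hA
              rwa [show 2 ^ k + 1 + (n - 2 ^ k + 1) = n + 2 by omega] at h3
            · have h3 := Jn_mul (q0 D hD) (q1 D hD) (lk_J D hD k) hI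
              rwa [show 2 ^ k + (n - 2 ^ k + 2) = n + 2 by omega] at h3
          · rw [if_neg hk, if_neg, sub_zero]
            · exact Jn_zero_poly (q0 D hD) _
            · rw [pow_succ]
              omega
        · rw [pow_zero, if_pos (by omega), eps_zero, mul_one]
          have hI := (ih (n - 1) (by omega)).2
          rw [show 2 * n + 1 - 1 = 2 * (n - 1) + 2 by omega]
          have h3 := Jn_mul (q0 D hD) (q1 D hD) (Jn_X (K := K) (q0 D hD)) hI
          rwa [show 1 + (n - 1 + 2) = n + 2 by omega] at h3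
    refine ⟨hodd, ?_⟩
    rw [AA_rec D (by omega : 2 ≤ 2 * n + 2), sum_range_succ']
    refine Jn_add (q0 D hD) (Jn_sum (q0 D hD) _ fun k _ => ?_) ?_
    · by_cases hk : 2 ^ k ≤ n
      · have hk1 : 2 ^ (k + 1) < 2 * n + 2 := by
          rw [pow_succ]
          omega
        have hk2 : 2 * n + 2 - 2 ^ (k + 1) = 2 * (n - 2 ^ k) + 2 := by
          rw [pow_succ] at hk1 ⊢
          omega
        rw [if_pos hk1, hk2]
        have h1k : 1 ≤ 2 ^ k := Nat.one_le_two_pow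
        have hI := (ih (n - 2 ^ k) (by omega)).2
        have h3 := Jn_mul (q0 D hD) (q1 D hD) (Xeps_J D hD k) hI
        rwa [show 2 ^ k + (n - 2 ^ k + 2) = n + 2 by omega] at h3
      · rw [if_neg]
        · exact Jn_zero_poly (q0 D hD) _
        · rw [pow_succ]
          omega
    · rw [pow_zero, if_pos (by omega), eps_zero, mul_one]
      rw [show 2 * n + 2 - 1 = 2 * n + 1 by omega]
      have hA : Jn ‖D‖⁻¹ (n + 1) (AA D (2 * n + 1)) := by
        have h2 := Jn_add (q0 D hD) (Jn_mono (q0 D hD) (q1 D hD) (Nat.le_succ _) hodd)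
          (lf_J D hD n)
        rwa [sub_add_cancel] at h2
      have h3 := Jn_mul (q0 D hD) (q1 D hD) (Jn_X (K := K) (q0 D hD)) hA
      rwa [show 1 + (n + 1) = n + 2 by omega] at h3

theorem leadA_odd (n : ℕ) :
    Jn ‖D‖⁻¹ (n + 2) (AA D (2 * n + 1) -
      C (D⁻¹ ^ (n + 1 - 2 ^ Nat.log 2 (n + 1))) * X ^ 2 ^ Nat.log 2 (n + 1)) :=
  (leadA_both D hD n).1

theorem leadA_even (n : ℕ) : Jn ‖D‖⁻¹ (n + 2) (AA D (2 * n + 2)) := (leadA_both D hD n).2

end Pool.Agent.ZL
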