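import Pool.Agent.Work.MP_b19acb_nt.Defs

/-!
# Pade (M): simultaneous Padé approximation

`T` a finite set of indices, `i₁ ∈ T`, `C : ℕ`.  Let `N = T.card * C`.  The `k`-linear map which sends
the coefficients of `(P_i)_{i ∈ T}`, `deg P_i ≤ N` (dimension `T.card * (N+1)`) to the coefficients of
index `< N + C` of `P_i G_{i₁} - P_{i₁} G_i` for `i ∈ T.erase i₁` (dimension `(T.card - 1) (N+C)`)
is not injective because
`T.card (N+1) - (T.card-1)(N+C) = N + T.card - (T.card-1) C > 0` (`N = T.card * C`):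
`LinearMap.ker_ne_bot_of_finrank_lt` (domain e.g. `T → Fin (N+1) → k` or
`T → Polynomial.degreeLT k (N+1)`, codomain `{i // i ∈ T.erase i₁} → Fin (N+C) → k`).  A nonzero
element of the kernel, extended by `P_i = 0` outside `T`; for `i = i₁` the difference is 0.
`X^m ∣ F` iff the coefficients below `m` vanish (`PowerSeries.X_pow_dvd_iff`).
-/

namespace Pool.Agent.ZL

open Polynomial Finset

theorem pade {k ι : Type*} [Field k] [DecidableEq ι] (T : Finset ι) (G : ι → PowerSeries k)
    {i₁ : ι} (hi₁ : i₁ ∈ T) (C : ℕ) : ∃ (N : ℕ) (P : ι → k[X]), (∃ i ∈ T, P i ≠ 0) ∧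
      (∀ i ∈ T, (P i).natDegree ≤ N) ∧
      ∀ i ∈ T, PowerSeries.X ^ (N + C) ∣
        ((P i : PowerSeries k) * G i₁ - (P i₁ : PowerSeries k) * G i) := by
  let N : ℕ := T.card * C
  let Φ : (T → degreeLT k (N + 1)) →ₗ[k] ({i // i ∈ T.erase i₁} → Fin (N + C) → k) :=
    { toFun := fun P i j => PowerSeries.coeff (j : ℕ)
        (((P ⟨i.1, Finset.mem_of_mem_erase i.2⟩).1 : PowerSeries k) * G i₁ -
          ((P ⟨i₁, hi₁⟩).1 : PowerSeries k) * G i.1)
      map_add' := fun P Q => by
        funext i j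
        simp only [Pi.add_apply, Submodule.coe_add, Polynomial.coe_add, add_mul, map_sub, map_add]
        ring
      map_smul' := fun c P => by
        funext i j
        simp only [Pi.smul_apply, Submodule.coe_smul, Polynomial.coe_smul, smul_mul_assoc, map_sub,
          map_smul, RingHom.id_apply, smul_sub] }
  have hfin : ∀ n, Module.finrank k (degreeLT k n) = n := by
    intro n
    rw [(degreeLTEquiv k n).finrank_eq, Module.finrank_fin_fun]
  have : ∀ n, Module.Finite k (degreeLT k n) := fun n =>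
    Module.Finite.equiv (degreeLTEquiv k n).symm
  have hlt : Module.finrank k ({i // i ∈ T.erase i₁} → Fin (N + C) → k) <
      Module.finrank k (T → degreeLT k (N + 1)) := by
    have e1 : Module.finrank k ({i // i ∈ T.erase i₁} → Fin (N + C) → k) =
        (T.card - 1) * (T.card * C + C) := by
      rw [Module.finrank_pi_fintype k]
      simp only [Module.finrank_fin_fun, Finset.sum_const, Finset.card_univ, smul_eq_mul,
        Fintype.card_coe, Finset.card_erase_of_mem hi₁]
      rfl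
    have e2 : Module.finrank k (T → degreeLT k (N + 1)) = T.card * (T.card * C + 1) := by
      rw [Module.finrank_pi_fintype k]
      simp only [hfin, Finset.sum_const, Finset.card_univ, smul_eq_mul, Fintype.card_coe]
      rfl
    rw [e1, e2]
    obtain ⟨m, hm⟩ : ∃ m, T.card = m + 1 :=
      ⟨T.card - 1, by have := Finset.card_pos.2 ⟨i₁, hi₁⟩; omega⟩
    rw [hm, Nat.add_sub_cancel]
    nlinarith
  obtain ⟨v, hv, hv0⟩ := Submodule.exists_mem_ne_zero_of_ne_bot
    (LinearMap.ker_ne_bot_of_finrank_lt (f := Φ) hlt)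
  rw [LinearMap.mem_ker] at hv
  refine ⟨N, fun i => if h : i ∈ T then (v ⟨i, h⟩).1 else 0, ?_, ?_, ?_⟩
  · obtain ⟨i, hi⟩ := Function.ne_iff.1 hv0
    refine ⟨i.1, i.2, ?_⟩
    show (if h : i.1 ∈ T then (v ⟨i.1, h⟩).1 else 0) ≠ 0
    rw [dif_pos i.2]
    intro h
    exact hi (Subtype.ext h)
  · intro i hi
    show (if h : i ∈ T then (v ⟨i, h⟩).1 else 0).natDegree ≤ N
    rw [dif_pos hi]
    have h1 := mem_degreeLT.1 (v ⟨i, hi⟩).2
    by_cases h0 : (v ⟨i, hi⟩).1 = 0
    · rw [h0, natDegree_zero]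
      exact Nat.zero_le _
    · exact Nat.lt_succ_iff.1 ((natDegree_lt_iff_degree_lt h0).2 h1)
  · intro i hi
    by_cases hii : i = i₁
    · subst hii
      rw [sub_self]
      exact dvd_zero _
    · show PowerSeries.X ^ (N + C) ∣
        (((if h : i ∈ T then (v ⟨i, h⟩).1 else 0 : k[X]) : PowerSeries k) * G i₁ -
          ((if h : i₁ ∈ T then (v ⟨i₁, h⟩).1 else 0 : k[X]) : PowerSeries k) * G i)
      rw [dif_pos hi, dif_pos hi₁, PowerSeries.X_pow_dvd_iff]
      intro m hm
      exact congrFun (congrFun hv ⟨i, Finset.mem_erase.2 ⟨hii, hi⟩⟩) ⟨m, hm⟩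

end Pool.Agent.ZL
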