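import Pool.Agent.Work.MP_b19acb_nt.Tbase

/-!
# RepA (M): sequences represented by power series, first rules

`Rep α G`: for every `M`, `α d = trunc_M G (t_d) + O(‖t_d‖^M)`.  Coefficients are fixed, `‖φ t_d‖ ≤ 1`, so
`‖φ (P.eval (t_d))‖` is bounded for a fixed polynomial `P` (`poly_bdd`), and if `X^M ∣ P` it is
`O(‖t_d‖^M)` (`poly_small`).
`rep_poly`: `trunc M P - P` is divisible by `X^M`.
`rep_add`: `trunc` is additive, ultrametric (or triangle) inequality.
`rep_mul`: `αβ - tr_M(GH)(t) = α (β - tr_M H (t)) + (α - tr_M G(t)) tr_M H(t) +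
(tr_M G tr_M H - tr_M (G H))(t)`, the last polynomial is divisible by `X^M` (`PowerSeries.coeff` of the
products agree below `M`), `α` is bounded (`rep_bdd`).
`rep_congr`: only the values for large `d` matter.  `rep_small`: `Rep α 0` iff `Small α`.
`rep_dvd`: if `X^M ∣ G` then `trunc M G = 0`.
-/

namespace Pool.Agent.ZL

open Polynomial Finset Filter

variable {k L : Type*} [Field k] [CharP k 2] [NormedField L] [CompleteSpace L]
  [IsUltrametricDist L] [CharP L 2] (S : Setup k L)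

namespace Setup

theorem poly_bdd (P : k[X]) : ∃ C : ℝ, ∀ d, ‖S.φ (P.eval (S.t d))‖ ≤ C := by
  refine ⟨∑ i ∈ range (P.natDegree + 1), ‖S.φ (P.coeff i)‖, fun d => ?_⟩
  rw [eval_eq_sum_range, map_sum]
  refine (norm_sum_le _ _).trans (Finset.sum_le_sum fun i _ => ?_)
  rw [map_mul, map_pow, norm_mul, norm_pow]
  exact mul_le_of_le_one_right (norm_nonneg _) (pow_le_one₀ (norm_nonneg _) (S.norm_t_lt d).le)

theorem poly_small {P : k[X]} {M : ℕ} (h : X ^ M ∣ P) :
    ∃ C : ℝ, ∀ d, ‖S.φ (P.eval (S.t d))‖ ≤ C * ‖S.φ (S.t d)‖ ^ M := by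
  obtain ⟨Q, rfl⟩ := h
  obtain ⟨C, hC⟩ := S.poly_bdd Q
  refine ⟨C, fun d => ?_⟩
  rw [eval_mul, eval_pow, eval_X, map_mul, map_pow, norm_mul, norm_pow, mul_comm]
  exact mul_le_mul_of_nonneg_right (hC d) (pow_nonneg (norm_nonneg _) _)

private theorem ra_trunc_dvd (P : k[X]) (M : ℕ) :
    X ^ M ∣ P - PowerSeries.trunc M (P : PowerSeries k) := by
  rw [X_pow_dvd_iff]
  intro d hd
  rw [coeff_sub, PowerSeries.coeff_trunc, if_pos hd, Polynomial.coeff_coe, sub_self]

theorem rep_poly (P : k[X]) : S.Rep (fun d => S.φ (P.eval (S.t d))) (P : PowerSeries k) := by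
  intro M
  obtain ⟨C, hC⟩ := S.poly_small (ra_trunc_dvd P M)
  refine ⟨C, Eventually.of_forall fun d => ?_⟩
  have h := hC d
  rwa [eval_sub, map_sub] at h

theorem rep_C (c : k) : S.Rep (fun _ => S.φ c) (PowerSeries.C c) := by
  have h := S.rep_poly (C c)
  simpa using h

theorem rep_t : S.Rep (fun d => S.φ (S.t d)) PowerSeries.X := by
  have h := S.rep_poly X
  simpa using h

theorem rep_bdd {α : ℕ → L} {G : PowerSeries k} (h : S.Rep α G) :
    ∃ C : ℝ, ∀ᶠ d in atTop, ‖α d‖ ≤ C := by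
  obtain ⟨C, hC⟩ := h 0
  refine ⟨C, hC.mono fun d hd => ?_⟩
  have h0 : PowerSeries.trunc 0 G = 0 := by
    ext n
    simp
  rwa [h0, eval_zero, map_zero, sub_zero, pow_zero, mul_one] at hd

theorem rep_congr {α β : ℕ → L} {G : PowerSeries k} (h : S.Rep α G)
    (he : ∀ᶠ d in atTop, α d = β d) : S.Rep β G := by
  intro M
  obtain ⟨C, hC⟩ := h M
  refine ⟨C, (hC.and he).mono fun d hd => ?_⟩
  rw [← hd.2]
  exact hd.1

theorem rep_add {α β : ℕ → L} {G H : PowerSeries k} (h : S.Rep α G) (h' : S.Rep β H) :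
    S.Rep (fun d => α d + β d) (G + H) := by
  intro M
  obtain ⟨C, hC⟩ := h M
  obtain ⟨C', hC'⟩ := h' M
  refine ⟨C + C', (hC.and hC').mono fun d hd => ?_⟩
  have e : PowerSeries.trunc M (G + H) = PowerSeries.trunc M G + PowerSeries.trunc M H := by
    ext n
    simp only [map_add]
  have e2 : α d + β d - S.φ ((PowerSeries.trunc M (G + H)).eval (S.t d)) =
      (α d - S.φ ((PowerSeries.trunc M G).eval (S.t d))) +
      (β d - S.φ ((PowerSeries.trunc M H).eval (S.t d))) := by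
    rw [e, eval_add, map_add]
    ring
  rw [e2, add_mul]
  exact (norm_add_le _ _).trans (add_le_add hd.1 hd.2)

theorem rep_mul {α β : ℕ → L} {G H : PowerSeries k} (h : S.Rep α G) (h' : S.Rep β H) :
    S.Rep (fun d => α d * β d) (G * H) := by
  intro M
  obtain ⟨C, hC⟩ := h M
  obtain ⟨C', hC'⟩ := h' M
  obtain ⟨C1, hC1⟩ := S.rep_bdd h
  obtain ⟨C2, hC2⟩ := S.poly_bdd (PowerSeries.trunc M H)
  have hdvd : X ^ M ∣ PowerSeries.trunc M G * PowerSeries.trunc M H -
      PowerSeries.trunc M (G * H) := by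
    rw [X_pow_dvd_iff]
    intro n hn
    rw [coeff_sub, PowerSeries.coeff_trunc, if_pos hn, sub_eq_zero,
      PowerSeries.coeff_mul_eq_coeff_trunc_mul_trunc G H hn, ← Polynomial.coe_mul,
      Polynomial.coeff_coe]
  obtain ⟨C3, hC3⟩ := S.poly_small hdvd
  refine ⟨C1 * C' + C * C2 + C3, (hC.and (hC'.and hC1)).mono fun d hd => ?_⟩
  obtain ⟨h1, h2, h3⟩ := hd
  have ht : 0 ≤ ‖S.φ (S.t d)‖ ^ M := pow_nonneg (norm_nonneg _) _
  have e : α d * β d - S.φ ((PowerSeries.trunc M (G * H)).eval (S.t d)) =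
      α d * (β d - S.φ ((PowerSeries.trunc M H).eval (S.t d))) +
      (α d - S.φ ((PowerSeries.trunc M G).eval (S.t d))) *
        S.φ ((PowerSeries.trunc M H).eval (S.t d)) +
      S.φ ((PowerSeries.trunc M G * PowerSeries.trunc M H -
        PowerSeries.trunc M (G * H)).eval (S.t d)) := by
    rw [eval_sub, eval_mul, RingHom.map_sub, RingHom.map_mul]
    ring
  rw [e]
  have i1 : ‖α d * (β d - S.φ ((PowerSeries.trunc M H).eval (S.t d)))‖ ≤
      C1 * C' * ‖S.φ (S.t d)‖ ^ M := by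
    rw [norm_mul, mul_assoc]
    exact mul_le_mul h3 h2 (norm_nonneg _) ((norm_nonneg _).trans h3)
  have i2 : ‖(α d - S.φ ((PowerSeries.trunc M G).eval (S.t d))) *
      S.φ ((PowerSeries.trunc M H).eval (S.t d))‖ ≤ C * C2 * ‖S.φ (S.t d)‖ ^ M := by
    rw [norm_mul]
    calc _ ≤ (C * ‖S.φ (S.t d)‖ ^ M) * C2 :=
          mul_le_mul h1 (hC2 d) (norm_nonneg _) ((norm_nonneg _).trans h1)
      _ = _ := by ring
  calc _ ≤ _ := norm_add_le _ _
    _ ≤ (C1 * C' * ‖S.φ (S.t d)‖ ^ M + C * C2 * ‖S.φ (S.t d)‖ ^ M) +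
        C3 * ‖S.φ (S.t d)‖ ^ M :=
        add_le_add ((norm_add_le _ _).trans (add_le_add i1 i2)) (hC3 d)
    _ = _ := by ring

theorem rep_pow {α : ℕ → L} {G : PowerSeries k} (h : S.Rep α G) (n : ℕ) :
    S.Rep (fun d => α d ^ n) (G ^ n) := by
  induction n with
  | zero =>
    have h1 := S.rep_C (1 : k)
    simpa using h1
  | succ n ih =>
    have h1 := S.rep_mul ih h
    simpa only [pow_succ] using h1

theorem rep_sum {ι : Type*} (T : Finset ι) {α : ι → ℕ → L} {G : ι → PowerSeries k}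
    (h : ∀ i ∈ T, S.Rep (α i) (G i)) :
    S.Rep (fun d => ∑ i ∈ T, α i d) (∑ i ∈ T, G i) := by
  classical
  induction T using Finset.induction_on with
  | empty =>
    have h1 := S.rep_C (0 : k)
    simpa using h1
  | insert a T ha ih =>
    have h1 := S.rep_add (h a (mem_insert_self a T)) (ih fun i hi => h i (mem_insert_of_mem hi))
    simpa only [Finset.sum_insert ha] using h1

theorem rep_small {α : ℕ → L} : S.Rep α 0 ↔ S.Small α := by
  have h0 : ∀ M, PowerSeries.trunc M (0 : PowerSeries k) = 0 := by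
    intro M
    ext n
    simp
  constructor
  · intro h M
    obtain ⟨C, hC⟩ := h M
    refine ⟨C, hC.mono fun d hd => ?_⟩
    rwa [h0, eval_zero, map_zero, sub_zero] at hd
  · intro h M
    obtain ⟨C, hC⟩ := h M
    refine ⟨C, hC.mono fun d hd => ?_⟩
    rwa [h0, eval_zero, map_zero, sub_zero]

theorem rep_dvd {α : ℕ → L} {G : PowerSeries k} (h : S.Rep α G) {M : ℕ}
    (hM : PowerSeries.X ^ M ∣ G) : ∃ C : ℝ, ∀ᶠ d in atTop, ‖α d‖ ≤ C * ‖S.φ (S.t d)‖ ^ M := by
  have h0 : PowerSeries.trunc M G = 0 := by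
    ext n
    rw [PowerSeries.coeff_trunc, coeff_zero]
    split_ifs with hn
    · exact PowerSeries.X_pow_dvd_iff.1 hM n hn
    · rfl
  obtain ⟨C, hC⟩ := h M
  refine ⟨C, hC.mono fun d hd => ?_⟩
  rwa [h0, eval_zero, map_zero, sub_zero] at hd

theorem small_add {α β : ℕ → L} (h : S.Small α) (h' : S.Small β) :
    S.Small fun d => α d + β d := by
  intro M
  obtain ⟨C, hC⟩ := h M
  obtain ⟨C', hC'⟩ := h' M
  refine ⟨C + C', (hC.and hC').mono fun d hd => ?_⟩
  rw [add_mul]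
  exact (norm_add_le _ _).trans (add_le_add hd.1 hd.2)

theorem small_mul {α β : ℕ → L} (h : S.Small α) (h' : ∃ C : ℝ, ∀ᶠ d in atTop, ‖β d‖ ≤ C) :
    S.Small fun d => β d * α d := by
  intro M
  obtain ⟨C, hC⟩ := h M
  obtain ⟨C', hC'⟩ := h'
  refine ⟨C' * C, (hC.and hC').mono fun d hd => ?_⟩
  show ‖β d * α d‖ ≤ _
  rw [norm_mul, mul_assoc]
  exact mul_le_mul hd.2 hd.1 (norm_nonneg _) ((norm_nonneg _).trans hd.2)

end Setup

end Pool.Agent.ZL
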