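import Pool.Agent.Work.MP_b19acb_nt.Esh

/-!
# RootE (M): the zeros of E_d

`k` a field of characteristic 2, `ψ : F_2[X] → k` a ring homomorphism, `θ = ψ X`, `D = θ^2 + θ`;
`br D i = θ^(2^i) + θ` (`br_theta`).
`Ez d z = Σ_{i ≤ d} e_{d,i} z^(2^i)`; `ee_gt`: `e_{d,i} = 0` for `i > d` (induction on `d`, `ee_succ`).
`Ez_succ`: `Σ_{i≤d+1} e_{d+1,i} z^(2^i) = z + Σ_{i≤d} (e_{d,i+1} + x_d e_{d,i}^2) z^(2^(i+1))` and the
square of a sum (characteristic 2).  `Ez_add`: Frobenius.
`Ez_theta`: `Σ_i e_{d+1,i} (θ^(2^i) + θ) z^(2^i)`: `θ^(2^i) + θ = br D i`, `br D 0 = 0`, and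
`br D (i+1) e_{d+1,i+1} = D X_{d+1} e_{d,i}^2` (`ee_carl`: by `carlitz` and `esh_succ`
`D_{i+1} e_{d+1,i+1} = D X_{d+1} D_i^2 e_{d,i}^2`, `D_{i+1} = br D (i+1) D_i^2`, cancel `D_i^2 ≠ 0`).
`Ez_low`, `Ez_mon` together by induction on `d`.  `d = 0`: `Ez 0 z = z`; `a = 0`; the monic
polynomial of degree 0 is 1, `x_0 = 1`.  Step: if `deg a < d+1` then `deg a < d`, or `a` is monic of
degree `d` (over `F_2` nonzero means monic); `Ez_succ` gives 0 in both cases
(`1/x_d + x_d (1/x_d)^2 = 0`).  If `n` is monic of degree `d+1`, `n = X * m + C c` with `m` monic of degree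
`d` (`Polynomial.divX_mul_X_add`), `Ez (d+1) (ψ (C c)) = 0` by the first part (`deg C c < d+1`), and
`Ez (d+1) (θ ψ m) = θ Ez (d+1) (ψ m) + D X_{d+1} (Ez d (ψ m))^2 = 0 + D X_{d+1}/x_d^2 = 1/x_{d+1}`
(`Ez_theta`, first part, induction, `D_mul_xx_XX`).
-/

namespace Pool.Agent.ZL

open Polynomial Finset

/-- the additive polynomial `E_d` -/
noncomputable def Ez {K : Type*} [Field K] (D : K) (d : ℕ) (z : K) : K :=
  ∑ i ∈ range (d + 1), ee D d i * z ^ 2 ^ i

variable {K : Type*} [Field K] [CharP K 2] (D : K)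

theorem ee_gt {d i : ℕ} (h : d < i) : ee D d i = 0 := by
  induction d generalizing i with
  | zero =>
    obtain ⟨j, rfl⟩ : ∃ j, i = j + 1 := ⟨i - 1, by omega⟩
    simp [ee]
  | succ d ih =>
    obtain ⟨j, rfl⟩ : ∃ j, i = j + 1 := ⟨i - 1, by omega⟩
    rw [ee_succ, ih (by omega), ih (by omega)]
    ring

private theorem re_sq (d : ℕ) (z : K) :
    (Ez D d z) ^ 2 = ∑ i ∈ range (d + 1), (ee D d i) ^ 2 * z ^ 2 ^ (i + 1) := by
  unfold Ez
  rw [CharTwo.sum_sq]
  refine Finset.sum_congr rfl fun i _ => ?_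
  rw [mul_pow, ← pow_mul, ← pow_succ]

private theorem re_tail (d : ℕ) (z : K) :
    Ez D d z = z + ∑ i ∈ range (d + 1), ee D d (i + 1) * z ^ 2 ^ (i + 1) := by
  unfold Ez
  rw [Finset.sum_range_succ', Finset.sum_range_succ _ d, ee_zero, ee_gt D (Nat.lt_succ_self d),
    pow_zero, pow_one, one_mul, zero_mul, add_zero, add_comm]

theorem Ez_succ (d : ℕ) (z : K) : Ez D (d + 1) z = Ez D d z + xx D d * (Ez D d z) ^ 2 := by
  rw [re_sq, re_tail D d z, Ez, Finset.sum_range_succ', ee_zero, pow_zero, pow_one, one_mul,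
    Finset.mul_sum, add_assoc, ← Finset.sum_add_distrib, add_comm]
  congr 1
  refine Finset.sum_congr rfl fun i _ => ?_
  rw [ee_succ]
  ring

theorem Ez_add (d : ℕ) (z w : K) : Ez D d (z + w) = Ez D d z + Ez D d w := by
  unfold Ez
  rw [← Finset.sum_add_distrib]
  refine Finset.sum_congr rfl fun i _ => ?_
  rw [add_pow_char_pow, mul_add]

private theorem re_zero (d : ℕ) : Ez D d 0 = 0 := by
  unfold Ez
  refine Finset.sum_eq_zero fun i _ => ?_
  rw [zero_pow (pow_ne_zero _ two_ne_zero), mul_zero]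

variable (hb : ∀ i, br D (i + 1) ≠ 0)

include hb

theorem ee_carl (d i : ℕ) :
    br D (i + 1) * ee D (d + 1) (i + 1) = D * XX D (d + 1) * (ee D d i) ^ 2 := by
  have h1 := carlitz D hb (i + 1) (d + 1)
  have h2 := carlitz D hb i d
  rw [esh_succ D hb, ← h2, DD] at h1
  have h3 : (DD D i) ^ 2 ≠ 0 := pow_ne_zero _ (DD_ne D hb i)
  apply mul_left_cancel₀ h3
  linear_combination h1

theorem Ez_theta {θ : K} (hθ : θ ^ 2 + θ = D) (d : ℕ) (z : K) :
    Ez D (d + 1) (θ * z) = θ * Ez D (d + 1) z + D * XX D (d + 1) * (Ez D d z) ^ 2 := by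
  rw [re_sq, Ez, Ez, Finset.sum_range_succ', Finset.sum_range_succ' _ (d + 1), ee_zero, pow_zero,
    pow_one, pow_one, one_mul, one_mul, mul_add, Finset.mul_sum, Finset.mul_sum,
    add_right_comm, ← Finset.sum_add_distrib]
  congr 1
  refine Finset.sum_congr rfl fun i _ => ?_
  have h1 := ee_carl D hb d i
  have h2 : br D (i + 1) = θ ^ 2 ^ (i + 1) + θ := by rw [← hθ, br_theta]
  have h3 : (2 : K) = 0 := CharTwo.two_eq_zero
  rw [h2] at h1
  rw [mul_pow]
  linear_combination (z ^ 2 ^ (i + 1)) * h1 - θ * ee D (d + 1) (i + 1) * z ^ 2 ^ (i + 1) * h3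

variable {ψ : (ZMod 2)[X] →+* K} (hψ : ψ X ^ 2 + ψ X = D)

include hψ

private theorem re_main (d : ℕ) :
    (∀ a : (ZMod 2)[X], a.degree < d → Ez D d (ψ a) = 0) ∧
      ∀ n : (ZMod 2)[X], n.Monic → n.natDegree = d → Ez D d (ψ n) = (xx D d)⁻¹ := by
  induction d with
  | zero =>
    refine ⟨fun a ha => ?_, fun n hn hd => ?_⟩
    · have h : a = 0 := by
        rw [← Polynomial.degree_eq_bot]
        rw [Nat.cast_zero, Nat.WithBot.lt_zero_iff] at ha
        exact ha
      rw [h, map_zero, re_zero]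
    · rw [hn.natDegree_eq_zero.1 hd, map_one, xx_zero, inv_one, Ez]
      simp [ee]
  | succ d ih =>
    have hx := xx_ne_zero D hb d
    have hlow : ∀ a : (ZMod 2)[X], a.degree < ((d + 1 : ℕ) : WithBot ℕ) →
        Ez D (d + 1) (ψ a) = 0 := by
      intro a ha
      rw [Ez_succ]
      by_cases h : a.degree < d
      · rw [ih.1 a h]
        ring
      · have hd : a.degree = d := by
          refine le_antisymm ?_ (not_lt.1 h)
          by_cases h0 : a = 0
          · rw [h0, degree_zero]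
            exact bot_le
          · rw [degree_eq_natDegree h0] at ha ⊢
            have := WithBot.coe_lt_coe.1 ha
            exact WithBot.coe_le_coe.2 (by simpa using Nat.lt_succ_iff.1 this)
        have hnd : a.natDegree = d := natDegree_eq_of_degree_eq_some hd
        have ha0 : a ≠ 0 := by
          intro h0
          rw [h0, degree_zero] at hd
          exact absurd hd.symm (WithBot.coe_ne_bot)
        have hm : a.Monic := by
          have h1 : a.leadingCoeff ≠ 0 := leadingCoeff_ne_zero.2 ha0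
          have h2 : ∀ x : ZMod 2, x ≠ 0 → x = 1 := by decide
          exact h2 _ h1
        rw [ih.2 a hm hnd, pow_two, mul_inv_cancel_left₀ hx, CharTwo.add_self_eq_zero]
    refine ⟨hlow, fun n hn hd => ?_⟩
    have hc : n.divX.coeff d = 1 := by
      rw [coeff_divX, ← hd]
      exact hn
    have hnd : n.divX.natDegree = d := by
      rw [natDegree_divX_eq_natDegree_tsub_one, hd, Nat.add_sub_cancel]
    have hm : n.divX.Monic := by
      rw [Monic, leadingCoeff, hnd, hc]
    have e : n = X * n.divX + C (n.coeff 0) := by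
      rw [X_mul]
      exact (divX_mul_X_add n).symm
    have h1 := hlow (C (n.coeff 0)) (lt_of_le_of_lt degree_C_le (by
      rw [← Nat.cast_zero]
      exact WithBot.coe_lt_coe.2 (Nat.succ_pos d)))
    have h2 := hlow n.divX (by
      rw [degree_eq_natDegree hm.ne_zero, hnd]
      exact WithBot.coe_lt_coe.2 (Nat.lt_succ_self d))
    have h3 := ih.2 n.divX hm hnd
    have h4 := D_mul_xx_XX D hb d
    have hx1 := xx_ne_zero D hb (d + 1)
    rw [e, map_add, map_mul, Ez_add, h1, add_zero, Ez_theta D hb hψ, h2, mul_zero, zero_add, h3]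
    field_simp
    linear_combination h4

theorem Ez_low {d : ℕ} {a : (ZMod 2)[X]} (ha : a.degree < d) : Ez D d (ψ a) = 0 :=
  (re_main D hb hψ d).1 a ha

theorem Ez_mon {d : ℕ} {n : (ZMod 2)[X]} (hn : n.Monic) (hd : n.natDegree = d) :
    Ez D d (ψ n) = (xx D d)⁻¹ :=
  (re_main D hb hψ d).2 n hn hd

end Pool.Agent.ZL
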