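import Pool.Agent.Work.MP_b19acb_nt.Defs

/-!
# RootMax (M): roots of norm ρ move the maximum of ‖F_j‖ ρ^j

`root_max`: write `F = (X + C a)^f * G`, `G ≠ 0`.  Let `M = max_j ‖G_j‖ ρ^j > 0` and `j₀` the LARGEST
index where it is attained.  The coefficients of `(X + C a)^f` are `C(f,i) a^(f-i)`, so
`‖·‖ ρ^i ≤ ρ^f` for all `i`, with equality at `i = f` (coefficient 1), and they vanish for `i > f`.
Hence `‖F_i‖ ρ^i ≤ ρ^f M` for all `i`, and the coefficient of index `f + j₀` is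
`G_{j₀} + Σ_{i<f} (..)_i G_{f+j₀-i}` where the terms `i < f` have `f+j₀-i > j₀`, so have weighted norm
`< ρ^f M`: the weighted norm at `f + j₀` is exactly `ρ^f M`.
(Or by induction on `f` with a statement about the largest index where the maximum is attained.)
-/

namespace Pool.Agent.ZL

open Polynomial Finset

variable {K : Type*} [NormedField K] [IsUltrametricDist K]

/-- `j` is the largest index where the weighted norm is maximal. -/
private def RMmax (F : K[X]) (ρ : ℝ) (j : ℕ) : Prop :=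
  (∀ i, ‖F.coeff i‖ * ρ ^ i ≤ ‖F.coeff j‖ * ρ ^ j) ∧
    ∀ i, j < i → ‖F.coeff i‖ * ρ ^ i < ‖F.coeff j‖ * ρ ^ j

omit [IsUltrametricDist K] in
private theorem RM_exists {F : K[X]} (hF : F ≠ 0) {ρ : ℝ} (hρ : 0 < ρ) : ∃ j, RMmax F ρ j := by
  classical
  obtain ⟨m, hm, hmax⟩ := Finset.exists_max_image (range (F.natDegree + 1))
    (fun i => ‖F.coeff i‖ * ρ ^ i) ⟨0, by simp⟩
  -- the largest index of the maximum
  obtain ⟨j, hj, hjmax⟩ := Finset.exists_max_image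
    ((range (F.natDegree + 1)).filter fun i => ‖F.coeff i‖ * ρ ^ i = ‖F.coeff m‖ * ρ ^ m)
    (fun i => i) ⟨m, mem_filter.2 ⟨hm, rfl⟩⟩
  obtain ⟨hj1, hj2⟩ := mem_filter.1 hj
  have hpos : 0 < ‖F.coeff m‖ * ρ ^ m := by
    have h1 : 0 < ‖F.coeff F.natDegree‖ * ρ ^ F.natDegree := by
      have h2 : F.coeff F.natDegree ≠ 0 := by
        rw [coeff_natDegree]
        exact leadingCoeff_ne_zero.2 hF
      exact mul_pos (norm_pos_iff.2 h2) (pow_pos hρ _)
    exact h1.trans_le (hmax _ (by simp))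
  have hall : ∀ i, ‖F.coeff i‖ * ρ ^ i ≤ ‖F.coeff j‖ * ρ ^ j := by
    intro i
    rw [hj2]
    by_cases hi : i ∈ range (F.natDegree + 1)
    · exact hmax i hi
    · have h1 : F.natDegree < i := by
        rw [mem_range] at hi
        omega
      rw [coeff_eq_zero_of_natDegree_lt h1, norm_zero, zero_mul]
      exact hpos.le
  refine ⟨j, hall, fun i hi => lt_of_le_of_ne (hall i) fun heq => ?_⟩
  by_cases hi' : i ∈ range (F.natDegree + 1)
  · have h1 := hjmax i (mem_filter.2 ⟨hi', by rw [heq, hj2]⟩)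
    omega
  · have h1 : F.natDegree < i := by
      rw [mem_range] at hi'
      omega
    rw [coeff_eq_zero_of_natDegree_lt h1, norm_zero, zero_mul, hj2] at heq
    exact hpos.ne heq

private theorem RM_step {F : K[X]} {a : K} {ρ : ℝ} (hρ : 0 < ρ) (ha : ‖a‖ = ρ) {j : ℕ}
    (h : RMmax F ρ j) : RMmax ((X + C a) * F) ρ (j + 1) := by
  obtain ⟨h1, h2⟩ := h
  set M : ℝ := ‖F.coeff j‖ * ρ ^ j with hM
  have hM0 : 0 ≤ M := by positivity
  have hc : ∀ i, ((X + C a) * F).coeff (i + 1) = F.coeff i + a * F.coeff (i + 1) := by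
    intro i
    rw [add_mul, coeff_add, coeff_X_mul, coeff_C_mul]
  have hA : ∀ i, ‖F.coeff i‖ * ρ ^ (i + 1) = ρ * (‖F.coeff i‖ * ρ ^ i) := by
    intro i
    ring
  have hB : ∀ i, ‖a * F.coeff (i + 1)‖ * ρ ^ (i + 1) = ρ * (‖F.coeff (i + 1)‖ * ρ ^ (i + 1)) := by
    intro i
    rw [norm_mul, ha]
    ring
  have hval : ‖((X + C a) * F).coeff (j + 1)‖ * ρ ^ (j + 1) = ρ * M := by
    rw [hc]
    have h3 : ‖a * F.coeff (j + 1)‖ < ‖F.coeff j‖ := by
      have h4 : ‖a * F.coeff (j + 1)‖ * ρ ^ (j + 1) < ‖F.coeff j‖ * ρ ^ (j + 1) := by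
        rw [hA, hB]
        exact mul_lt_mul_of_pos_left (h2 _ (Nat.lt_succ_self j)) hρ
      exact lt_of_mul_lt_mul_right h4 (pow_pos hρ _).le
    rw [IsUltrametricDist.norm_add_eq_max_of_norm_ne_norm h3.ne', max_eq_left h3.le, hA]
  have hle : ∀ i, ‖((X + C a) * F).coeff i‖ * ρ ^ i ≤ ρ * M ∧
      (j + 1 < i → ‖((X + C a) * F).coeff i‖ * ρ ^ i < ρ * M) := by
    intro i
    rcases Nat.eq_zero_or_pos i with rfl | hi
    · refine ⟨?_, fun h => absurd h (by omega)⟩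
      rw [mul_coeff_zero, coeff_add, coeff_X_zero, coeff_C_zero, zero_add, norm_mul, ha]
      have h3 := mul_le_mul_of_nonneg_left (h1 0) hρ.le
      rw [pow_zero, mul_one] at h3 ⊢
      exact h3
    · obtain ⟨i, rfl⟩ : ∃ k, i = k + 1 := ⟨i - 1, by omega⟩
      have hmax : ‖((X + C a) * F).coeff (i + 1)‖ * ρ ^ (i + 1) ≤
          max (ρ * (‖F.coeff i‖ * ρ ^ i)) (ρ * (‖F.coeff (i + 1)‖ * ρ ^ (i + 1))) := by
        rw [hc, ← hA, ← hB, ← max_mul_of_nonneg _ _ (pow_pos hρ (i + 1)).le]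
        exact mul_le_mul_of_nonneg_right (IsUltrametricDist.norm_add_le_max _ _) (pow_pos hρ _).le
      refine ⟨hmax.trans (max_le (mul_le_mul_of_nonneg_left (h1 _) hρ.le)
        (mul_le_mul_of_nonneg_left (h1 _) hρ.le)), fun hji => ?_⟩
      exact hmax.trans_lt (max_lt (mul_lt_mul_of_pos_left (h2 _ (by omega)) hρ)
        (mul_lt_mul_of_pos_left (h2 _ (by omega)) hρ))
  refine ⟨fun i => ?_, fun i hi => ?_⟩
  · rw [hval]
    exact (hle i).1
  · rw [hval]
    exact (hle i).2 hi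

theorem root_max {F : K[X]} (hF : F ≠ 0) {a : K} {ρ : ℝ} (hρ : 0 < ρ) (ha : ‖a‖ = ρ) {f : ℕ}
    (h : (X + C a) ^ f ∣ F) :
    ∃ j, f ≤ j ∧ ∀ i, ‖F.coeff i‖ * ρ ^ i ≤ ‖F.coeff j‖ * ρ ^ j := by
  obtain ⟨G, rfl⟩ := h
  have hG : G ≠ 0 := right_ne_zero_of_mul hF
  obtain ⟨j, hj⟩ := RM_exists hG hρ
  have key : ∀ f : ℕ, RMmax ((X + C a) ^ f * G) ρ (j + f) := by
    intro f
    induction f with
    | zero => simpa using hj
    | succ f ih =>
      have := RM_step hρ ha ih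
      rw [pow_succ', mul_assoc]
      exact this
  exact ⟨j + f, by omega, (key f).1⟩

end Pool.Agent.ZL
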