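import Pool.Agent.Work.MP_b19acb_nt.Uid
import Pool.Agent.Work.MP_b19acb_nt.GG

/-!
# Sig (M): the power sums S_d(2^(n+1)-1)

`ps D d k = x * gg c (k-1)`, `x = xx D d`, `c i = x * ee D d i`, `c 0 = x`.
`ps_two`: `gg_odd` with `n = k-1`: `2k-1 = 2(k-1)+1`.  `ps_one`: `gg_zero`.
`ps_pow`: `ps D d (2^n) = x^(2^n)`, induction.

`sig_rec`: `S_d(2^(n+1)-1) = x^(2^(n+1)-1) + Σ_{i<n} e_{d,i+1} S_d(2^(n-i)-1)^(2^(i+1))`:
`gg_even` with `m = 2^n - 1` (`2 m = 2^(n+1) - 2`):
`gg c (2m) = (gg c m)^2 + Σ_{2^i ≤ m} c (i+1) (gg c (m - 2^i))^2`; `x gg c m = ps D d (2^n) = x^(2^n)`,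
so `x (gg c m)^2 = x^(2^(n+1)-1)`; `m - 2^i = 2^i (2^(n-i) - 1) - 1` for `i < n`, so
`x gg c (m - 2^i) = ps D d (2^i (2^(n-i)-1)) = (ps D d (2^(n-i)-1))^(2^i)`; `2^i ≤ 2^n - 1` iff `i < n`.

`sig_eq`: strong induction on `n`.  Put `σ_m = ps D d (2^m - 1)`; for `m = n-i ≤ n` the induction
hypothesis is `ℓ_{n-i-1} x_{d+n-i-1} σ_{n-i} = x^(2^(n-i))`.  With
`e_{d,i} = x_{d-i}^(2^i)/(x D_i)` for `i ≤ d` and 0 for `i > d` (`carlitz`), the claim
`σ_{n+1} = x^(2^(n+1))/(ℓ_n x_{d+n})` becomes, after multiplication with `x^(1-2^(n+1))`,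
`x_d/(ℓ_n x_{d+n}) = 1 + Σ_{i=1}^{min(d,n)} (x_{d-i}/(ℓ_{n-i} x_{d+n-i}))^(2^i)/D_i`,
which is `U_id` (`x = 1/ℓ`, `D_0 = 1`, characteristic 2).
-/

namespace Pool.Agent.ZL

open Polynomial Finset

variable {K : Type*} [Field K] [CharP K 2] (D : K)

theorem ps_one (d : ℕ) : ps D d 1 = xx D d := by
  unfold ps
  rw [Nat.sub_self, gg_zero, mul_one]

theorem ps_two (d : ℕ) {k : ℕ} (hk : 1 ≤ k) : ps D d (2 * k) = (ps D d k) ^ 2 := by
  unfold ps
  have e : 2 * k - 1 = 2 * (k - 1) + 1 := by omega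
  rw [e, gg_odd, ee_zero, mul_one]
  ring

theorem ps_two_pow (d e : ℕ) {k : ℕ} (hk : 1 ≤ k) : ps D d (2 ^ e * k) = (ps D d k) ^ 2 ^ e := by
  induction e with
  | zero => rw [pow_zero, one_mul, pow_one]
  | succ e ih =>
    have h1 : 1 ≤ 2 ^ e * k := Nat.mul_pos (pow_pos two_pos e) hk
    rw [pow_succ, mul_comm (2 ^ e) 2, mul_assoc, ps_two D d h1, ih, ← pow_mul, mul_comm 2 (2 ^ e)]

theorem ps_pow (d n : ℕ) : ps D d (2 ^ n) = (xx D d) ^ 2 ^ n := by
  have h := ps_two_pow D d n (le_refl 1)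
  rwa [mul_one, ps_one] at h

private theorem ps_of_xx_zero {d : ℕ} (h : xx D d = 0) (k : ℕ) : ps D d k = 0 := by
  unfold ps
  rw [h, zero_mul]

theorem sig_rec (d n : ℕ) : ps D d (2 ^ (n + 1) - 1) = (xx D d) ^ (2 ^ (n + 1) - 1) +
    ∑ i ∈ range n, ee D d (i + 1) * (ps D d (2 ^ (n - i) - 1)) ^ 2 ^ (i + 1) := by
  have hpos : 1 ≤ 2 ^ n := Nat.one_le_two_pow
  have hsucc : 2 ^ (n + 1) = 2 ^ n * 2 := pow_succ _ _
  by_cases hx : xx D d = 0
  · rw [ps_of_xx_zero D hx, hx, zero_pow (by omega), zero_add]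
    symm
    refine Finset.sum_eq_zero fun i _ => ?_
    rw [ps_of_xx_zero D hx, zero_pow (pow_ne_zero _ two_ne_zero), mul_zero]
  have e1 : 2 ^ (n + 1) - 1 - 1 = 2 * (2 ^ n - 1) := by omega
  have h1 : ps D d (2 ^ (n + 1) - 1) =
      xx D d * gg (fun i => xx D d * ee D d i) (2 * (2 ^ n - 1)) := by
    unfold ps
    rw [e1]
  have h2 : xx D d * gg (fun i => xx D d * ee D d i) (2 ^ n - 1) = (xx D d) ^ 2 ^ n :=
    ps_pow D d n
  rw [h1, gg_even, mul_add, Finset.mul_sum]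
  congr 1
  · refine mul_left_cancel₀ hx ?_
    calc xx D d * (xx D d * gg (fun i => xx D d * ee D d i) (2 ^ n - 1) ^ 2) =
        (xx D d * gg (fun i => xx D d * ee D d i) (2 ^ n - 1)) ^ 2 := by ring
      _ = (xx D d) ^ 2 ^ (n + 1) := by rw [h2, ← pow_mul, hsucc]
      _ = xx D d * (xx D d) ^ (2 ^ (n + 1) - 1) := by
        rw [← pow_succ', Nat.sub_add_cancel (by omega)]
  · have hsub : range n ⊆ range (2 ^ n - 1 + 1) := by
      apply Finset.range_mono
      have := Nat.lt_two_pow_self (n := n)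
      omega
    rw [← Finset.sum_subset hsub]
    · refine Finset.sum_congr rfl fun i hi => ?_
      have hin : i < n := Finset.mem_range.1 hi
      have h3 : 2 ^ i < 2 ^ n := Nat.pow_lt_pow_right (by norm_num) hin
      rw [if_pos (by omega)]
      have h5 : 2 ^ i * (2 ^ (n - i) - 1) = 2 ^ n - 2 ^ i := by
        rw [Nat.mul_sub, ← pow_add, Nat.add_sub_cancel' hin.le, mul_one]
      have h6 : 1 ≤ 2 ^ (n - i) - 1 := by
        have : 2 ^ 1 ≤ 2 ^ (n - i) := Nat.pow_le_pow_right (by norm_num) (by omega)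
        omega
      have h4 : xx D d * gg (fun i => xx D d * ee D d i) (2 ^ n - 1 - 2 ^ i) =
          (ps D d (2 ^ (n - i) - 1)) ^ 2 ^ i := by
        rw [← ps_two_pow D d i h6, h5]
        unfold ps
        rw [show 2 ^ n - 2 ^ i - 1 = 2 ^ n - 1 - 2 ^ i by omega]
      calc xx D d * (xx D d * ee D d (i + 1) *
            gg (fun i => xx D d * ee D d i) (2 ^ n - 1 - 2 ^ i) ^ 2) =
          ee D d (i + 1) *
            (xx D d * gg (fun i => xx D d * ee D d i) (2 ^ n - 1 - 2 ^ i)) ^ 2 := by ring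
        _ = _ := by rw [h4, ← pow_mul, ← pow_succ]
    · intro i _ hi
      rw [Finset.mem_range, not_lt] at hi
      have h3 : 2 ^ n ≤ 2 ^ i := Nat.pow_le_pow_right (by norm_num) hi
      rw [if_neg (by omega), mul_zero]

theorem sig_eq (hb : ∀ i, br D (i + 1) ≠ 0) (d n : ℕ) :
    ps D d (2 ^ (n + 1) - 1) = (xx D d) ^ 2 ^ (n + 1) / (ell D n * xx D (d + n)) := by
  induction n using Nat.strong_induction_on with
  | _ n ih =>
    have hl : ∀ m, ell D m ≠ 0 := ell_ne_zero D hb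
    have hx : ∀ m, xx D m ≠ 0 := xx_ne_zero D hb
    have hxl : ∀ m, xx D m = (ell D m)⁻¹ := fun m => rfl
    have hDD : ∀ i, DD D i ≠ 0 := DD_ne D hb
    have hpos : 1 ≤ 2 ^ (n + 1) := Nat.one_le_two_pow
    rw [sig_rec]
    have hterm : ∀ i ∈ range n, ee D d (i + 1) * (ps D d (2 ^ (n - i) - 1)) ^ 2 ^ (i + 1) =
        if i < d then (xx D d) ^ (2 ^ (n + 1) - 1) *
          ((ell D (d + n - (i + 1)) / (ell D (d - (i + 1)) * ell D (n - (i + 1)))) ^ 2 ^ (i + 1) /
            DD D (i + 1)) else 0 := by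
      intro i hi
      have hin : i < n := Finset.mem_range.1 hi
      have h1 : ee D d (i + 1) = esh D (i + 1) d / DD D (i + 1) := by
        rw [← carlitz D hb]
        field_simp [hDD (i + 1)]
      rw [h1]
      unfold esh
      by_cases hid : i < d
      · rw [if_pos (by omega : i + 1 ≤ d), if_pos hid]
        have h2 := ih (n - (i + 1)) (by omega)
        rw [show n - (i + 1) + 1 = n - i by omega] at h2
        rw [h2, show d + (n - (i + 1)) = d + n - (i + 1) by omega, div_pow, ← pow_mul, ← pow_add,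
          show n - i + (i + 1) = n + 1 by omega, hxl (d - (i + 1)), hxl (d + n - (i + 1))]
        have h3 : (xx D d) ^ 2 ^ (n + 1) = xx D d * (xx D d) ^ (2 ^ (n + 1) - 1) := by
          rw [← pow_succ', Nat.sub_add_cancel hpos]
        rw [h3, inv_pow, div_pow, mul_pow, mul_pow, inv_pow]
        have h4 := pow_ne_zero (2 ^ (i + 1)) (hl (d + n - (i + 1)))
        have h5 := pow_ne_zero (2 ^ (i + 1)) (hl (d - (i + 1)))
        have h6 := pow_ne_zero (2 ^ (i + 1)) (hl (n - (i + 1)))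
        have h7 := hDD (i + 1)
        have h8 := hx d
        field_simp
      · rw [if_neg (by omega : ¬ i + 1 ≤ d), if_neg hid, zero_div, zero_mul]
    rw [Finset.sum_congr rfl hterm]
    have hsub : range (min d n) ⊆ range n := Finset.range_mono (min_le_right _ _)
    rw [← Finset.sum_subset hsub (fun i hi hi2 => by
      rw [Finset.mem_range] at hi hi2
      rw [if_neg (by omega)])]
    have hcongr : ∀ i ∈ range (min d n), (if i < d then (xx D d) ^ (2 ^ (n + 1) - 1) *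
          ((ell D (d + n - (i + 1)) / (ell D (d - (i + 1)) * ell D (n - (i + 1)))) ^ 2 ^ (i + 1) /
            DD D (i + 1)) else 0) = (xx D d) ^ (2 ^ (n + 1) - 1) *
          ((ell D (d + n - (i + 1)) / (ell D (d - (i + 1)) * ell D (n - (i + 1)))) ^ 2 ^ (i + 1) /
            DD D (i + 1)) := by
      intro i hi
      rw [Finset.mem_range] at hi
      rw [if_pos (by omega)]
    rw [Finset.sum_congr rfl hcongr, ← Finset.mul_sum]
    have hU := U_id D hb d n
    rw [Finset.sum_range_succ'] at hU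
    have hU2 : ∑ i ∈ range (min d n),
        ((ell D (d + n - (i + 1)) / (ell D (d - (i + 1)) * ell D (n - (i + 1)))) ^ 2 ^ (i + 1) /
            DD D (i + 1)) = 1 + ell D (d + n) / (ell D d * ell D n) := by
      have h0 : (ell D (d + n - 0) / (ell D (d - 0) * ell D (n - 0))) ^ 2 ^ 0 / DD D 0 =
          ell D (d + n) / (ell D d * ell D n) := by
        simp [DD]
      rw [h0] at hU
      rw [← hU, add_assoc, CharTwo.add_self_eq_zero, add_zero]
    rw [hU2, mul_add, mul_one, ← add_assoc, CharTwo.add_self_eq_zero, zero_add]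
    have h3 : (xx D d) ^ 2 ^ (n + 1) = xx D d * (xx D d) ^ (2 ^ (n + 1) - 1) := by
      rw [← pow_succ', Nat.sub_add_cancel hpos]
    rw [h3, hxl (d + n), ← one_div_mul_eq_div (ell D d * ell D n)]
    have h4 := hl d
    have h5 := hl n
    have h6 := hl (d + n)
    have h7 : xx D d = 1 / ell D d := by rw [hxl, one_div]
    rw [h7]
    field_simp

end Pool.Agent.ZL
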