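import Pool.Agent.Work.MP_b19acb_nt.Defs

/-!
# TDefs: the setting of the transcendence part

`k` (which is `F_2(θ)` in the application) with its ring of integers `O` (`F_2[θ]`), embedded in a
complete nonarchimedean field `L`.  `t_d = θ^(-2^(d+1))`, `‖t_d‖ → 0`, `t_{d+1} = t_d^2`.
-/

namespace Pool.Agent.ZL

open Polynomial Finset Filter

/-- The setting of the transcendence part. -/
structure Setup (k L : Type*) [Field k] [CharP k 2] [NormedField L] [CompleteSpace L]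
    [IsUltrametricDist L] [CharP L 2] where
  φ : k →+* L
  O : Subring k
  θ : k
  norm_ge : ∀ x ∈ O, x ≠ 0 → 1 ≤ ‖φ x‖
  frac : ∀ x : k, ∃ e ∈ O, e ≠ 0 ∧ e * x ∈ O
  θ_mem : θ ∈ O
  hθ : 1 < ‖φ θ‖

namespace Setup

variable {k L : Type*} [Field k] [CharP k 2] [NormedField L] [CompleteSpace L]
  [IsUltrametricDist L] [CharP L 2] (S : Setup k L)

/-- `D = θ^2 + θ` -/
def D : k := S.θ ^ 2 + S.θ

/-- `t_d = θ^(-2^(d+1))` -/
def t (d : ℕ) : k := (S.θ ^ 2 ^ (d + 1))⁻¹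

/-- the sequence `α` is represented by the power series `G` at the points `t_d` -/
def Rep (α : ℕ → L) (G : PowerSeries k) : Prop :=
  ∀ M : ℕ, ∃ C : ℝ, ∀ᶠ d in atTop,
    ‖α d - S.φ ((PowerSeries.trunc M G).eval (S.t d))‖ ≤ C * ‖S.φ (S.t d)‖ ^ M

/-- `α d` is smaller than every power of `t_d` -/
def Small (α : ℕ → L) : Prop :=
  ∀ M : ℕ, ∃ C : ℝ, ∀ᶠ d in atTop, ‖α d‖ ≤ C * ‖S.φ (S.t d)‖ ^ M

/-- bounded denominators -/
def Den (ρ : ℕ → k) : Prop := ∃ e ∈ S.O, e ≠ 0 ∧ ∀ d, e * ρ d ∈ S.O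

/-- moderate growth -/
def Gro (ρ : ℕ → k) : Prop :=
  ∃ (n : ℕ) (C : ℝ), ∀ᶠ d in atTop, ‖S.φ (ρ d)‖ * ‖S.φ (S.t d)‖ ^ n ≤ C

/-- `zg (s_j, ..., s_1) d` is the sum over all `d_1 > ... > d_j ≥ d` of the products of the power
sums `S_{d_i}(s_i)` (the prefix is reversed) -/
noncomputable def zg : List ℕ → ℕ → L
  | [], _ => 1
  | n :: l, d => ∑' e : ℕ, S.φ (ps S.D (d + e) n) * zg l (d + e + 1)

/-- the limit of the multiple power sums -/
noncomputable def zeta (s : List ℕ) : L := S.zg s.reverse 0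

end Setup

/-- `G(X^2)` -/
noncomputable def sq2 {k : Type*} [Field k] (G : PowerSeries k) : PowerSeries k :=
  PowerSeries.mk fun n => if 2 ∣ n then PowerSeries.coeff (n / 2) G else 0

end Pool.Agent.ZL
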