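import Pool.Agent.Work.MP_b19acb_nt.TTeval

/-!
# TTnorm (M): a solution of T_w F = F + p is close to p

`q = ‖D‖⁻¹ < 1`, `δ = D⁻¹`, `T_w F = Σ_{j ≤ w/2} δ^j f_j X^(2j) (1+X)^(w-2j)`.  The coefficients of
`X^(2j) (1+X)^(w-2j)` are images of natural numbers (binomial coefficients), so have norm `≤ 1`
(`IsUltrametricDist.norm_natCast_le_one`, or: in characteristic 2 they are 0 or 1).

`TT_norm`: let `μ = max_j ‖f_j‖` (finite; e.g. `Finset.exists_max_image` over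
`range (natDegree+1)`).  The coefficient of `X^w` of `F + p` vanishes (`natDegree F ≤ w/2 < w`,
`natDegree p < w`), so `F.eval δ = 0` (`TT_coeff_top`), i.e. `f_0 = - Σ_{j≥1} f_j δ^j`, so
`‖f_0‖ ≤ q μ`.  Hence every coefficient of `T_w F` has norm `≤ q μ` (the terms `j ≥ 1` have the
factor `δ^j`).  As `f_j = (T_w F)_j - p_j`: `μ ≤ max (q μ) 1`, so `μ ≤ 1`, and
`‖f_j - p_j‖ = ‖f_j + p_j‖ ≤ q μ ≤ q` (characteristic 2: `-p_j = p_j`).

`TT_eval_zero` records `F.eval δ = 0`.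
-/

namespace Pool.Agent.ZL

open Polynomial Finset

variable {K : Type*} [NormedField K] [IsUltrametricDist K] [CharP K 2] (D : K) (hD : 1 < ‖D‖)

include hD

theorem TT_eval_zero {w : ℕ} (hw : 1 ≤ w) {F p : K[X]} (hF : 2 * F.natDegree ≤ w)
    (hp : p.natDegree < w) (h : TT D w F = F + p) : F.eval D⁻¹ = 0 := by
  have h1 : F.natDegree < w := by omega
  rw [← TT_coeff_top D hF, h, coeff_add, coeff_eq_zero_of_natDegree_lt h1,
    coeff_eq_zero_of_natDegree_lt hp, add_zero]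

omit [CharP K 2] hD in
/-- the coefficients of `T_w F` are bounded by `max_j q^j ‖f_j‖` -/
theorem TT_coeff_le {w : ℕ} {F : K[X]} {r : ℝ} (hr : 0 ≤ r)
    (h : ∀ j, ‖D‖⁻¹ ^ j * ‖F.coeff j‖ ≤ r) (i : ℕ) : ‖(TT D w F).coeff i‖ ≤ r := by
  unfold TT
  rw [finsetSum_coeff]
  refine IsUltrametricDist.norm_sum_le_of_forall_le_of_nonneg hr fun j _ => ?_
  rw [mul_assoc, coeff_C_mul, norm_mul, norm_mul, norm_pow, norm_inv, coeff_X_pow_mul']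
  have h1 : ‖(if 2 * j ≤ i then ((1 + X : K[X]) ^ (w - 2 * j)).coeff (i - 2 * j) else 0)‖ ≤ 1 := by
    split_ifs
    · rw [coeff_one_add_X_pow]
      exact IsUltrametricDist.norm_natCast_le_one _ _
    · rw [norm_zero]
      exact zero_le_one
  calc ‖D‖⁻¹ ^ j * ‖F.coeff j‖ *
        ‖(if 2 * j ≤ i then ((1 + X : K[X]) ^ (w - 2 * j)).coeff (i - 2 * j) else 0)‖
      ≤ r * 1 := mul_le_mul (h j) h1 (norm_nonneg _) hr
    _ = r := mul_one r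

omit [CharP K 2] hD in
/-- if `F(δ) = 0` and `q^j ‖f_j‖ ≤ r` for `j ≥ 1` then `‖f_0‖ ≤ r` -/
theorem coeff_zero_le_of_eval {F : K[X]} (h0 : F.eval D⁻¹ = 0) {r : ℝ} (hr : 0 ≤ r)
    (h : ∀ j, 1 ≤ j → ‖D‖⁻¹ ^ j * ‖F.coeff j‖ ≤ r) : ‖F.coeff 0‖ ≤ r := by
  rw [eval_eq_sum_range, Finset.sum_range_succ', pow_zero, mul_one] at h0
  rw [← neg_eq_of_add_eq_zero_right h0, norm_neg]
  refine IsUltrametricDist.norm_sum_le_of_forall_le_of_nonneg hr fun j _ => ?_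
  rw [norm_mul, norm_pow, norm_inv, mul_comm]
  exact h (j + 1) (by omega)

theorem TT_norm {w : ℕ} (hw : 1 ≤ w) {F p : K[X]} (hF : 2 * F.natDegree ≤ w)
    (hp : p.natDegree < w) (h : TT D w F = F + p) (hpn : ∀ j, ‖p.coeff j‖ ≤ 1) (j : ℕ) :
    ‖F.coeff j‖ ≤ 1 ∧ ‖F.coeff j - p.coeff j‖ ≤ ‖D‖⁻¹ := by
  have h0 := TT_eval_zero D hD hw hF hp h
  have hq0 : 0 ≤ ‖D‖⁻¹ := inv_nonneg.2 (norm_nonneg _)
  have hq1 : ‖D‖⁻¹ < 1 := inv_lt_one_of_one_lt₀ hD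
  obtain ⟨j0, -, hj0⟩ := Finset.exists_max_image (range (F.natDegree + 1))
    (fun j => ‖F.coeff j‖) ⟨0, by simp⟩
  have hmax : ∀ i, ‖F.coeff i‖ ≤ ‖F.coeff j0‖ := by
    intro i
    by_cases hi : i < F.natDegree + 1
    · exact hj0 i (Finset.mem_range.2 hi)
    · rw [coeff_eq_zero_of_natDegree_lt (by omega), norm_zero]
      exact norm_nonneg _
  have hterm : ∀ i, 1 ≤ i → ‖D‖⁻¹ ^ i * ‖F.coeff i‖ ≤ ‖D‖⁻¹ * ‖F.coeff j0‖ := by
    intro i hi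
    refine mul_le_mul ?_ (hmax i) (norm_nonneg _) hq0
    calc ‖D‖⁻¹ ^ i ≤ ‖D‖⁻¹ ^ 1 := pow_le_pow_of_le_one hq0 hq1.le hi
      _ = ‖D‖⁻¹ := pow_one _
  have hqm : 0 ≤ ‖D‖⁻¹ * ‖F.coeff j0‖ := mul_nonneg hq0 (norm_nonneg _)
  have hz := coeff_zero_le_of_eval D h0 hqm hterm
  have hT : ∀ i, ‖(TT D w F).coeff i‖ ≤ ‖D‖⁻¹ * ‖F.coeff j0‖ := by
    refine TT_coeff_le D hqm fun i => ?_
    rcases Nat.eq_zero_or_pos i with rfl | hi
    · rw [pow_zero, one_mul]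
      exact hz
    · exact hterm i hi
  have hf : ∀ i, F.coeff i = (TT D w F).coeff i - p.coeff i := by
    intro i
    rw [h, coeff_add, add_sub_cancel_right]
  have hmu : ‖F.coeff j0‖ ≤ 1 := by
    by_contra hc
    have hc' : 1 < ‖F.coeff j0‖ := not_le.1 hc
    have h1 : ‖F.coeff j0‖ ≤ max (‖D‖⁻¹ * ‖F.coeff j0‖) 1 := by
      conv_lhs => rw [hf j0, sub_eq_add_neg]
      refine (IsUltrametricDist.norm_add_le_max _ _).trans (max_le_max (hT j0) ?_)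
      rw [norm_neg]
      exact hpn j0
    rcases le_max_iff.1 h1 with h2 | h2
    · nlinarith
    · exact hc h2
  refine ⟨(hmax j).trans hmu, ?_⟩
  have h3 : F.coeff j - p.coeff j = (TT D w F).coeff j := by
    rw [h, coeff_add, CharTwo.sub_eq_add]
  rw [h3]
  calc ‖(TT D w F).coeff j‖ ≤ ‖D‖⁻¹ * ‖F.coeff j0‖ := hT j
    _ ≤ ‖D‖⁻¹ * 1 := mul_le_mul_of_nonneg_left hmu hq0
    _ = ‖D‖⁻¹ := mul_one _

end Pool.Agent.ZL
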