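import Pool.Agent.Work.MP_b19acb_nt.TTeval

/-!
# TTroot (M): zeros of T_w F

Characteristic 2, `δ = D⁻¹`.

`TT_root` by strong induction on `n` (for all `w`, `F`): `n = 0`: `(0+1)/2 = 0`, trivial.
If `n ≥ 1`: evaluate at `a`: `(X + C a)` vanishes at `a` (char 2), so
`0 = (TT D w F).eval a = (1+a)^w F.eval b`, `b = D⁻¹ a^2/(1+a)^2` (`TT_eval`), so `F.eval b = 0`, so
`F = (X + C b) * F₁`.  If `F = 0` the claim is trivial; otherwise
`natDegree F₁ = natDegree F - 1`, `w ≥ 2`, `2 natDegree F₁ ≤ w - 2`, and by `TT_lin`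
`TT D w F = (C δ X^2 + C b (1+X)^2) TT D (w-2) F₁ = C (δ/(1+a)^2) (X + C a)^2 TT D (w-2) F₁`,
because `δ + b = δ/(1+a)^2` and `b = δ a^2/(1+a)^2` and `(1+X)^2 = 1 + X^2`, `(X+C a)^2 = X^2+C a^2`
in characteristic 2.  If `n ≥ 2`, `(X + C a)^(n-2) ∣ TT D (w-2) F₁` (cancel, the constant
`δ/(1+a)^2` is nonzero), so `(X + C b)^((n-1)/2) ∣ F₁` and `(X + C b)^((n-1)/2+1) ∣ F` with
`(n-1)/2 + 1 = (n+1)/2`.  If `n = 1`, `(1+1)/2 = 1` and `(X + C b) ∣ F` is enough.

`TT_top` in the same way: `n ≥ 1`: the coefficient of `X^w` of `TT D w F` is `F.eval δ`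
(`TT_coeff_top`) and vanishes because `natDegree + 1 ≤ w`; so `F = (X + C δ) F₁`, and `TT_lin` with
`b = δ`: `C δ X^2 + C δ (1+X)^2 = C δ`, so `TT D w F = C δ * TT D (w-2) F₁` and
`natDegree (TT D (w-2) F₁) + (n-2) ≤ w-2` if `n ≥ 2`.
-/

namespace Pool.Agent.ZL

open Polynomial Finset

variable {K : Type*} [Field K] [CharP K 2] (D : K) (hD : D ≠ 0)

private theorem ttr_sub (a : K) : (X + C a : K[X]) = X - C a := by
  have h : (C a : K[X]) = - C a := by
    rw [← C_neg]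
    congr 1
    exact (CharTwo.neg_eq a).symm
  rw [sub_eq_add_neg, ← h]

private theorem ttr_dvd {F : K[X]} {b : K} (h : F.eval b = 0) : (X + C b) ∣ F := by
  rw [ttr_sub, dvd_iff_isRoot]
  exact h

private theorem ttr_eval {F : K[X]} {b : K} {n : ℕ} (h : (X + C b) ^ (n + 1) ∣ F) :
    F.eval b = 0 := by
  have h1 : (X + C b) ∣ F := (dvd_pow_self _ (Nat.succ_ne_zero n)).trans h
  rw [ttr_sub, dvd_iff_isRoot] at h1
  exact h1

private theorem ttr_deg {F : K[X]} {b : K} (hF : (X + C b) * F ≠ 0) :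
    ((X + C b) * F).natDegree = F.natDegree + 1 := by
  have h1 : F ≠ 0 := fun h => hF (by rw [h, mul_zero])
  rw [(monic_X_add_C b).natDegree_mul' h1, natDegree_X_add_C, add_comm]

include hD

theorem TT_root {w : ℕ} {F : K[X]} (hF : 2 * F.natDegree ≤ w) {a : K} (ha : 1 + a ≠ 0) {n : ℕ}
    (h : (X + C a) ^ n ∣ TT D w F) :
    (X + C (D⁻¹ * a ^ 2 / (1 + a) ^ 2)) ^ ((n + 1) / 2) ∣ F := by
  have h2 : (2 : K) = 0 := CharTwo.two_eq_zero
  have h2' : (2 : K[X]) = 0 := CharTwo.two_eq_zero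
  induction n using Nat.strong_induction_on generalizing w F with
  | _ n ih =>
    rcases Nat.eq_zero_or_pos n with hn | hn
    · subst hn
      exact one_dvd _
    obtain ⟨m, rfl⟩ : ∃ m, n = m + 1 := ⟨n - 1, by omega⟩
    set b : K := D⁻¹ * a ^ 2 / (1 + a) ^ 2 with hb
    have hev : F.eval b = 0 := by
      have h1 := ttr_eval h
      rw [TT_eval D hF a ha] at h1
      exact (mul_eq_zero.1 h1).resolve_left (pow_ne_zero _ ha)
    obtain ⟨F₁, hF₁⟩ := ttr_dvd hev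
    rcases Nat.eq_zero_or_pos m with hm | hm
    · subst hm
      rw [hF₁]
      have h3 : (0 + 1 + 1) / 2 = 1 := by norm_num
      rw [h3, pow_one]
      exact dvd_mul_right _ _
    obtain ⟨k, rfl⟩ : ∃ k, m = k + 1 := ⟨m - 1, by omega⟩
    by_cases hF0 : F = 0
    · rw [hF0]
      exact dvd_zero _
    have hdeg : F.natDegree = F₁.natDegree + 1 := by
      rw [hF₁] at hF0 ⊢
      exact ttr_deg hF0
    have hw : 2 ≤ w := by omega
    have hF₁d : 2 * F₁.natDegree ≤ w - 2 := by omega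
    have hlin := TT_lin D hw hF₁d b
    rw [← hF₁] at hlin
    have hfac : (C D⁻¹ * X ^ 2 + C b * (1 + X) ^ 2 : K[X]) =
        C (D⁻¹ / (1 + a) ^ 2) * (X + C a) ^ 2 := by
      have e1 : D⁻¹ + b = D⁻¹ / (1 + a) ^ 2 := by
        rw [hb]
        field_simp
        linear_combination (a + a ^ 2) * h2
      have e2 : b = D⁻¹ / (1 + a) ^ 2 * a ^ 2 := by
        rw [hb]
        ring
      have e3 : (C b : K[X]) = C (D⁻¹ / (1 + a) ^ 2) * C a ^ 2 := by
        rw [← C_pow, ← C_mul, ← e2]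
      have e4 : (C D⁻¹ : K[X]) + C b = C (D⁻¹ / (1 + a) ^ 2) := by
        rw [← C_add, e1]
      linear_combination X ^ 2 * e4 + e3 + (C b * X - C (D⁻¹ / (1 + a) ^ 2) * C a * X) * h2'
    rw [hfac] at hlin
    have hc : D⁻¹ / (1 + a) ^ 2 ≠ 0 := div_ne_zero (inv_ne_zero hD) (pow_ne_zero 2 ha)
    have hXa : (X + C a : K[X]) ^ 2 ≠ 0 := pow_ne_zero 2 (monic_X_add_C a).ne_zero
    have h5 : (X + C a) ^ k ∣ TT D (w - 2) F₁ := by
      have h6 : (X + C a) ^ 2 * (X + C a) ^ k ∣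
          (X + C a) ^ 2 * (C (D⁻¹ / (1 + a) ^ 2) * TT D (w - 2) F₁) := by
        rw [← pow_add]
        have h7 : (X + C a) ^ 2 * (C (D⁻¹ / (1 + a) ^ 2) * TT D (w - 2) F₁) = TT D w F := by
          rw [hlin]
          ring
        rw [h7]
        have h8 : 2 + k = k + 1 + 1 := by ring
        rw [h8]
        exact h
      have h9 := (mul_dvd_mul_iff_left hXa).1 h6
      have h10 : IsUnit (C (D⁻¹ / (1 + a) ^ 2) : K[X]) := isUnit_C.2 (isUnit_iff_ne_zero.2 hc)
      exact (h10.dvd_mul_left).1 h9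
    have h11 := ih k (by omega) hF₁d h5
    have h12 : (k + 1 + 1 + 1) / 2 = (k + 1) / 2 + 1 := by omega
    rw [h12, hF₁, pow_succ']
    exact mul_dvd_mul_left _ h11

theorem TT_top {w : ℕ} {F : K[X]} (hF : 2 * F.natDegree ≤ w) {n : ℕ}
    (h : (TT D w F).natDegree + n ≤ w) :
    (X + C D⁻¹) ^ ((n + 1) / 2) ∣ F := by
  have h2' : (2 : K[X]) = 0 := CharTwo.two_eq_zero
  induction n using Nat.strong_induction_on generalizing w F with
  | _ n ih =>
    rcases Nat.eq_zero_or_pos n with hn | hn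
    · subst hn
      exact one_dvd _
    have hev : F.eval D⁻¹ = 0 := by
      rw [← TT_coeff_top D hF]
      exact coeff_eq_zero_of_natDegree_lt (by omega)
    obtain ⟨F₁, hF₁⟩ := ttr_dvd hev
    by_cases hn1 : n = 1
    · subst hn1
      have h3 : (1 + 1) / 2 = 1 := by norm_num
      rw [h3, pow_one, hF₁]
      exact dvd_mul_right _ _
    obtain ⟨k, rfl⟩ : ∃ k, n = k + 2 := ⟨n - 2, by omega⟩
    by_cases hF0 : F = 0
    · rw [hF0]
      exact dvd_zero _
    have hdeg : F.natDegree = F₁.natDegree + 1 := by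
      rw [hF₁] at hF0 ⊢
      exact ttr_deg hF0
    have hw : 2 ≤ w := by omega
    have hF₁d : 2 * F₁.natDegree ≤ w - 2 := by omega
    have hlin := TT_lin D hw hF₁d D⁻¹
    rw [← hF₁] at hlin
    have hfac : (C D⁻¹ * X ^ 2 + C D⁻¹ * (1 + X) ^ 2 : K[X]) = C D⁻¹ := by
      linear_combination (C D⁻¹ * X + C D⁻¹ * X ^ 2) * h2'
    rw [hfac] at hlin
    have h4 : (TT D w F).natDegree = (TT D (w - 2) F₁).natDegree := by
      rw [hlin]
      exact natDegree_C_mul (inv_ne_zero hD)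
    have h11 := ih k (by omega) hF₁d (by omega)
    have h12 : (k + 2 + 1) / 2 = (k + 1) / 2 + 1 := by omega
    rw [h12, hF₁, pow_succ']
    exact mul_dvd_mul_left _ h11

end Pool.Agent.ZL
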