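import Pool.Agent.Work.MP_b19acb_nt.GE
import Pool.Agent.Work.MP_b19acb_nt.CcFam
import Pool.Agent.Work.MP_b19acb_nt.FamV

/-!
# TailF (S-M): telescoping polynomials of the families I and V

`tail_esh`: kind I: `t = (2^n-1 :: geo (2^n) k).map (2^e * ·)` (`geo_two_pow`, `2^(e+n) = 2^e 2^n`), so
by `SS_two_pow` and `SS_I`: `SS D t d = (C₀ esh (n+k) (d+n-1))^(2^e)`,
`C₀ = (D_k^(2^n) [n+k] ℓ_{n-1})⁻¹ ≠ 0`, `c = C₀^(2^e)`, `d + n - 1 = d + (n-1)`.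
Kind V: `t = [2^n, 3*2^n-1].map (2^e * ·)`, `SS_V`.
`tail_telF`: for `d ≥ 1` by `esh_poly`
`SS D t d = c (X_d^(2^M-1) GE(u_d))^(2^e) = X_d^(2^e (2^M-1)) (C c * GE^(2^e))(u_d)`;
`2 natDegree ≤ 2 * 2^e (2^(M-1) - 1) ≤ 2^e (2^M - 1)` (`TailT.lt`).
-/

namespace Pool.Agent.ZL

open Polynomial Finset

variable {K : Type*} [Field K] [CharP K 2] (D : K) (hb : ∀ i, br D (i + 1) ≠ 0)

include hb

theorem tail_esh {t : List ℕ} {e M j : ℕ} (h : TailT t e M j) :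
    ∃ c : K, c ≠ 0 ∧ ∀ d, SS D t d = c * (esh D M (d + j)) ^ 2 ^ e := by
  cases h with
  | I _ n k hn hk =>
    have h2n : 2 ≤ 2 ^ n := by
      calc 2 = 2 ^ 1 := (pow_one 2).symm
        _ ≤ 2 ^ n := Nat.pow_le_pow_right (by norm_num) hn
    have hne : ((DD D k) ^ 2 ^ n * br D (n + k) * ell D (n - 1))⁻¹ ≠ 0 := by
      refine inv_ne_zero (mul_ne_zero (mul_ne_zero (pow_ne_zero _ (DD_ne D hb k)) ?_)
        (ell_ne_zero D hb _))
      have h1 := hb (n + k - 1)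
      rwa [Nat.sub_add_cancel (by omega)] at h1
    refine ⟨(((DD D k) ^ 2 ^ n * br D (n + k) * ell D (n - 1))⁻¹) ^ 2 ^ e, pow_ne_zero _ hne,
      fun d => ?_⟩
    have h1 : (2 ^ e * (2 ^ n - 1) :: geo (2 ^ (e + n)) k) =
        ((2 ^ n - 1) :: geo (2 ^ n) k).map (2 ^ e * ·) := by
      rw [List.map_cons, ← geo_two_pow, pow_add]
    have h2 : ∀ a ∈ ((2 ^ n - 1) :: geo (2 ^ n) k), 1 ≤ a := by
      intro a ha
      rcases List.mem_cons.1 ha with rfl | ha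
      · omega
      · exact mem_geo ha (by omega)
    rw [h1, SS_two_pow D h2, SS_I D hb hn, mul_pow, show d + (n - 1) = d + n - 1 by omega]
  | V _ _ hn =>
    have hD : D ≠ 0 := D_ne_zero D hb
    have hne : (D ^ 2 ^ j * ell D (j + 2))⁻¹ ≠ 0 :=
      inv_ne_zero (mul_ne_zero (pow_ne_zero _ hD) (ell_ne_zero D hb _))
    refine ⟨((D ^ 2 ^ j * ell D (j + 2))⁻¹) ^ 2 ^ e, pow_ne_zero _ hne, fun d => ?_⟩
    have h1 : [2 ^ (e + j), 2 ^ e * (3 * 2 ^ j - 1)] =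
        [2 ^ j, 3 * 2 ^ j - 1].map (2 ^ e * ·) := by
      rw [List.map_cons, List.map_cons, List.map_nil, pow_add]
    have h3 : 1 ≤ 2 ^ j := Nat.one_le_two_pow
    have h2 : ∀ a ∈ [2 ^ j, 3 * 2 ^ j - 1], 1 ≤ a := by
      intro a ha
      rcases List.mem_cons.1 ha with rfl | ha
      · exact h3
      · rw [List.mem_singleton] at ha
        omega
    rw [h1, SS_two_pow D h2, SS_V D hb, mul_pow]

theorem tail_telF {t : List ℕ} {e M j : ℕ} (h : TailT t e M j) :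
    ∃ c : K, c ≠ 0 ∧ TelF D t (C c * (GE D M j) ^ 2 ^ e) := by
  obtain ⟨c, hc, hS⟩ := tail_esh D hb h
  obtain ⟨hj, hsum⟩ := h.lt
  refine ⟨c, hc, ?_, fun d hd => ?_⟩
  · have h1 : (C c * (GE D M j) ^ 2 ^ e).natDegree ≤ 2 ^ e * (2 ^ (M - 1) - 1) := by
      refine (natDegree_C_mul_le _ _).trans ((natDegree_pow_le).trans ?_)
      exact Nat.mul_le_mul_left _ (GE_natDegree D hb hj)
    have h2 : 2 ^ M = 2 ^ (M - 1) * 2 := by
      rw [← pow_succ, Nat.sub_add_cancel (by omega)]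
    have h3 : 2 * (2 ^ e * (2 ^ (M - 1) - 1)) ≤ 2 ^ e * (2 ^ M - 1) := by
      calc 2 * (2 ^ e * (2 ^ (M - 1) - 1)) = 2 ^ e * (2 * (2 ^ (M - 1) - 1)) := by ring
        _ ≤ 2 ^ e * (2 ^ M - 1) := Nat.mul_le_mul_left _ (by omega)
    rw [hsum]
    exact (Nat.mul_le_mul_left 2 h1).trans h3
  · rw [hS d, esh_poly D hb hj hd, eval_mul, eval_C, eval_pow, hsum, mul_pow, ← pow_mul,
      mul_comm (2 ^ M - 1) (2 ^ e)]
    ring

end Pool.Agent.ZL
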