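import Pool.Agent.Work.MP_b19acb_nt.TDefs
import Pool.Agent.Work.MP_b19acb_nt.Norms
import Pool.Agent.Work.MP_b19acb_nt.GG

/-!
# Tbase (S): first properties of the setting

`t_d = (θ^(2^(d+1)))⁻¹`; `t_succ`: `2^(d+2) = 2^(d+1) * 2`.  `norm_t`, `norm_t_lt`: `‖φ t_d‖ =
‖φ θ‖⁻¹^(2^(d+1)) < 1`; `tendsto_t`: squeeze with a geometric sequence (`2^(d+1) ≥ d`).
`norm_D`: `‖φ D‖ = ‖φ θ‖^2` (`θ^2` dominates `θ`), so `1 < ‖φ D‖`.
`map_br` etc.: `φ` commutes with all the definitions (`map_sum`, `map_pow`, `map_prod`, `map_inv₀`;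
for `ps`: `gg_map` and `map_ee` by induction on `d`; for `SS` induction on the list).
`br_ne'`: `φ (br D (i+1)) = br (φ D) (i+1) ≠ 0` (`br_ne`).
`vv_inj'`: `φ (vv S.D d) = vv (φ S.D) d` and `vv_inj`.
-/

namespace Pool.Agent.ZL

open Polynomial Finset Filter

variable {k L : Type*} [Field k] [CharP k 2] [NormedField L] [CompleteSpace L]
  [IsUltrametricDist L] [CharP L 2] (S : Setup k L)

namespace Setup

theorem θ_ne : S.θ ≠ 0 := by
  intro h
  have h1 := S.hθ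
  rw [h, map_zero, norm_zero] at h1
  exact absurd h1 (not_lt.2 zero_le_one)

theorem t_ne (d : ℕ) : S.t d ≠ 0 := inv_ne_zero (pow_ne_zero _ S.θ_ne)

theorem t_succ (d : ℕ) : S.t (d + 1) = S.t d ^ 2 := by
  unfold t
  rw [pow_succ 2 (d + 1), pow_mul, inv_pow]

theorem norm_t (d : ℕ) : ‖S.φ (S.t d)‖ = ‖S.φ S.θ‖⁻¹ ^ 2 ^ (d + 1) := by
  unfold t
  rw [map_inv₀, map_pow, norm_inv, norm_pow, inv_pow]

private theorem tb_q : 0 < ‖S.φ S.θ‖⁻¹ ∧ ‖S.φ S.θ‖⁻¹ < 1 :=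
  ⟨inv_pos.2 (zero_lt_one.trans S.hθ), inv_lt_one_of_one_lt₀ S.hθ⟩

theorem norm_t_pos (d : ℕ) : 0 < ‖S.φ (S.t d)‖ := by
  rw [norm_t]
  exact pow_pos S.tb_q.1 _

theorem norm_t_lt (d : ℕ) : ‖S.φ (S.t d)‖ < 1 := by
  rw [norm_t]
  exact pow_lt_one₀ S.tb_q.1.le S.tb_q.2 (pow_ne_zero _ two_ne_zero)

theorem norm_t_succ_le (d : ℕ) : ‖S.φ (S.t (d + 1))‖ ≤ ‖S.φ (S.t d)‖ := by
  rw [t_succ, map_pow, norm_pow]
  exact pow_le_of_le_one (norm_nonneg _) (S.norm_t_lt d).le two_ne_zero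

theorem tendsto_t : Tendsto (fun d => ‖S.φ (S.t d)‖) atTop (nhds 0) := by
  refine squeeze_zero (fun d => norm_nonneg _) (fun d => ?_)
    (tendsto_pow_atTop_nhds_zero_of_lt_one S.tb_q.1.le S.tb_q.2)
  rw [norm_t]
  exact pow_le_pow_of_le_one S.tb_q.1.le S.tb_q.2.le
    ((Nat.le_succ d).trans Nat.lt_two_pow_self.le)

theorem norm_D : ‖S.φ S.D‖ = ‖S.φ S.θ‖ ^ 2 := by
  have h1 : ‖S.φ S.θ‖ < ‖S.φ S.θ‖ ^ 2 := by
    have h := S.hθ
    rw [pow_two]
    exact lt_mul_of_one_lt_left (zero_lt_one.trans h) h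
  unfold D
  rw [map_add, map_pow, IsUltrametricDist.norm_add_eq_max_of_norm_ne_norm, norm_pow,
    max_eq_left h1.le]
  rw [norm_pow]
  exact h1.ne'

theorem one_lt_D : 1 < ‖S.φ S.D‖ := by
  rw [norm_D]
  exact one_lt_pow₀ S.hθ two_ne_zero

theorem map_br (D : k) (i : ℕ) : S.φ (br D i) = br (S.φ D) i := by
  unfold br
  rw [map_sum]
  exact Finset.sum_congr rfl fun l _ => map_pow _ _ _

theorem map_ell (D : k) (i : ℕ) : S.φ (ell D i) = ell (S.φ D) i := by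
  unfold ell
  rw [map_prod]
  exact Finset.prod_congr rfl fun l _ => S.map_br _ _

theorem map_xx (D : k) (d : ℕ) : S.φ (xx D d) = xx (S.φ D) d := by
  unfold xx
  rw [map_inv₀, map_ell]

theorem map_XX (D : k) (d : ℕ) : S.φ (XX D d) = XX (S.φ D) d := by
  unfold XX
  rw [map_sum]
  exact Finset.sum_congr rfl fun l _ => S.map_xx _ _

theorem map_uu (D : k) (d : ℕ) : S.φ (uu D d) = uu (S.φ D) d := by
  unfold uu
  rw [map_div₀, map_xx, map_XX]

theorem map_vv (D : k) (d : ℕ) : S.φ (vv D d) = vv (S.φ D) d := by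
  unfold vv
  rw [map_div₀, map_xx, map_XX]

theorem map_ee (D : k) (d i : ℕ) : S.φ (ee D d i) = ee (S.φ D) d i := by
  induction d generalizing i with
  | zero =>
    cases i with
    | zero => simp [ee]
    | succ i => simp [ee]
  | succ d ih =>
    cases i with
    | zero => simp [ee]
    | succ i => rw [ee, ee, map_add, map_mul, map_pow, ih, ih, map_xx]

theorem map_ps (D : k) (d n : ℕ) : S.φ (ps D d n) = ps (S.φ D) d n := by
  unfold ps
  rw [map_mul, map_xx, gg_map S.φ]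
  congr 2
  funext i
  rw [map_mul, map_xx, map_ee]

theorem map_SS (D : k) (s : List ℕ) (d : ℕ) : S.φ (SS D s d) = SS (S.φ D) s d := by
  induction s generalizing d with
  | nil => rw [SS, SS, map_one]
  | cons a s ih =>
    rw [SS, SS, map_sum]
    refine Finset.sum_congr rfl fun i _ => ?_
    rw [map_mul, map_ps, ih]

theorem br_ne' (i : ℕ) : br S.D (i + 1) ≠ 0 := by
  intro h
  have h1 := br_ne (S.φ S.D) S.one_lt_D i
  rw [← map_br, h, map_zero] at h1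
  exact h1 rfl

theorem vv_inj' : Function.Injective (vv S.D) := by
  intro d e h
  apply vv_inj (S.φ S.D) S.one_lt_D
  rw [← map_vv, ← map_vv, h]

theorem uu_inj' : Function.Injective fun d : ℕ => uu S.D (d + 1) := by
  intro d e h
  apply uu_inj (S.φ S.D) S.one_lt_D
  simp only
  rw [← map_uu, ← map_uu]
  exact congrArg S.φ h

end Setup

end Pool.Agent.ZL
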