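import Pool.Agent.Work.MP_b19acb_nt.PowS
import Pool.Agent.Work.MP_b19acb_nt.Scale

/-!
# Tup (M): finite multiple power sums over tuples of monic polynomials

`tup r d`: the finite set of all `a : Fin r → F_2[X]` with monic entries of strictly decreasing degrees
`< d`, defined by recursion: the first entry has degree `i < d`, the others form an element of
`tup r i`.  `mem_tup`: induction on `r` (`Fin.cons`, `Fin.cases`; `StrictAnti` on `Fin (r+1)` in terms of
the tail: `Fin.strictAnti_iff_succ_lt` or `Fin.forall_fin_succ`).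
`sum_tup`: induction on `s`: the sum over the biUnion (disjoint for different `i`: the degree of the
first entry) and the image (injective: `Fin.cons` is) is
`Σ_{i<d} Σ_{n ∈ mon i} ((ψ n)⁻¹)^(s.head) Σ_{b ∈ tup r i} ∏ ..` = `Σ_{i<d} ps D i k * SS D s i`
(`Fin.prod_univ_succ`, `ps_eq_sum`).
-/

namespace Pool.Agent.ZL

open Polynomial Finset

open Classical in
/-- tuples of monic polynomials of strictly decreasing degrees `< d` -/
noncomputable def tup : (r : ℕ) → ℕ → Finset (Fin r → (ZMod 2)[X])
  | 0, _ => {fun i => i.elim0}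
  | r + 1, d => (range d).biUnion fun i =>
      (mon i ×ˢ tup r i).image fun p => (Fin.cons p.1 p.2 : Fin (r + 1) → (ZMod 2)[X])

theorem mem_tup {r d : ℕ} {a : Fin r → (ZMod 2)[X]} : a ∈ tup r d ↔
    (∀ i, (a i).Monic) ∧ StrictAnti (fun i => (a i).natDegree) ∧ ∀ i, (a i).natDegree < d := by
  induction r generalizing d with
  | zero =>
    rw [tup, Finset.mem_singleton]
    exact ⟨fun _ => ⟨fun i => i.elim0, fun i => i.elim0, fun i => i.elim0⟩,
      fun _ => funext fun i => i.elim0⟩
  | succ r ih =>
    rw [tup]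
    simp only [Finset.mem_biUnion, Finset.mem_range, Finset.mem_image, Finset.mem_product]
    constructor
    · rintro ⟨i, hi, ⟨n, b⟩, ⟨hn, hb⟩, rfl⟩
      obtain ⟨hn1, hn2⟩ := mem_mon.1 hn
      obtain ⟨hb1, hb2, hb3⟩ := ih.1 hb
      simp only at hn1 hn2 hb1 hb2 hb3 ⊢
      refine ⟨fun j => ?_, fun j j' hjj' => ?_, fun j => ?_⟩
      · refine Fin.cases ?_ (fun j => ?_) j
        · rw [Fin.cons_zero]
          exact hn1
        · rw [Fin.cons_succ]
          exact hb1 j
      · revert hjj'
        refine Fin.cases ?_ (fun j' => ?_) j'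
        · intro h
          exact absurd h (Fin.not_lt_zero j)
        · refine Fin.cases ?_ (fun j => ?_) j
          · intro _
            simp only [Fin.cons_succ, Fin.cons_zero]
            rw [hn2]
            exact hb3 j'
          · intro h
            simp only [Fin.cons_succ]
            exact hb2 (Fin.succ_lt_succ_iff.1 h)
      · refine Fin.cases ?_ (fun j => ?_) j
        · rw [Fin.cons_zero, hn2]
          exact hi
        · rw [Fin.cons_succ]
          exact (hb3 j).trans hi
    · rintro ⟨h1, h2, h3⟩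
      refine ⟨(a 0).natDegree, h3 0, (a 0, Fin.tail a), ⟨mem_mon.2 ⟨h1 0, rfl⟩, ih.2
        ⟨fun j => h1 j.succ, fun j j' hjj' => ?_, fun j => ?_⟩⟩, Fin.cons_self_tail a⟩
      · exact h2 (Fin.succ_lt_succ_iff.2 hjj')
      · exact h2 (Fin.succ_pos j)

variable {K : Type*} [Field K] [CharP K 2] (D : K) (hb : ∀ i, br D (i + 1) ≠ 0)
  {ψ : (ZMod 2)[X] →+* K} (hψ : ψ X ^ 2 + ψ X = D) (hinj : Function.Injective ψ)

include hb hψ hinj

theorem sum_tup {s : List ℕ} (hs : ∀ a ∈ s, 1 ≤ a) (d : ℕ) :
    ∑ a ∈ tup s.length d, ∏ i, ((ψ (a i))⁻¹) ^ s.get i = SS D s d := by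
  classical
  induction s generalizing d with
  | nil =>
    show ∑ a ∈ tup 0 d, ∏ i : Fin 0, ((ψ (a i))⁻¹) ^ (([] : List ℕ).get i) = 1
    rw [tup, Finset.sum_singleton]
    rfl
  | cons k s ih =>
    show ∑ a ∈ tup (s.length + 1) d, ∏ i : Fin (s.length + 1), ((ψ (a i))⁻¹) ^ ((k :: s).get i) =
      ∑ i ∈ range d, ps D i k * SS D s i
    rw [tup, Finset.sum_biUnion]
    · refine Finset.sum_congr rfl fun i _ => ?_
      rw [Finset.sum_image, Finset.sum_product, ← ps_eq_sum D hb hψ hinj i
        (hs k List.mem_cons_self), ← ih (fun a ha => hs a (List.mem_cons_of_mem k ha)) i,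
        Finset.sum_mul_sum]
      · refine Finset.sum_congr rfl fun n _ => Finset.sum_congr rfl fun b _ => ?_
        rw [Fin.prod_univ_succ]
        simp only [Fin.cons_zero, Fin.cons_succ, List.get_cons_zero]
        rfl
      · rintro ⟨n, b⟩ _ ⟨n', b'⟩ _ h
        have h' : (Fin.cons n b : Fin (s.length + 1) → (ZMod 2)[X]) = Fin.cons n' b' := h
        have h1 := congrFun h' 0
        rw [Fin.cons_zero, Fin.cons_zero] at h1
        have h2 : b = b' := by
          funext j
          have := congrFun h' j.succ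
          rwa [Fin.cons_succ, Fin.cons_succ] at this
        rw [h1, h2]
    · intro i _ i' _ hii'
      refine Finset.disjoint_left.2 fun a ha ha' => hii' ?_
      obtain ⟨⟨n, b⟩, hp, rfl⟩ := Finset.mem_image.1 ha
      obtain ⟨⟨n', b'⟩, hp', he⟩ := Finset.mem_image.1 ha'
      have h1 := congrFun he 0
      simp only [Fin.cons_zero] at h1
      have h2 := (mem_mon.1 (Finset.mem_product.1 hp).1).2
      have h3 := (mem_mon.1 (Finset.mem_product.1 hp').1).2
      simp only at h2 h3
      rw [← h2, ← h3, h1]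

end Pool.Agent.ZL
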