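import Pool.Agent.Work.MP_b19acb_nt.Esh

/-!
# Uid (M): two identities between brackets

For `i ≤ min d n` let `a_i(d,n) = (ℓ_{d+n-i}/(ℓ_{d-i} ℓ_{n-i}))^(2^i)/D_i`; `ℓ = ell D`, `D_i = DD D i`,
`[i] = br D i`, `ell_succ`: `ℓ_{m+1} = ℓ_m [m+1]`.
`U(d,n) = Σ_{i ≤ min d n} a_i(d,n)`, `V(d,n) = Σ_{i ≤ min d n} [i] a_i(d,n)`.

(R1) `[d] U(d,n) + V(d,n) = [d+n] U(d-1,n) + V(d-1,n)` for `d ≥ 1`: for `i ≤ d`
`[d] + [i] = [d-i]^(2^i)` (`br_add`, characteristic 2) and
`[d-i]^(2^i) a_i(d,n) = (ℓ_{d+n-i}/(ℓ_{d-1-i} ℓ_{n-i}))^(2^i)/D_i = [d+n-i]^(2^i) a_i(d-1,n)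
 = ([d+n]+[i]) a_i(d-1,n)` for `i < d`, and it is 0 for `i = d`.
(R2) `V(d,n) = ([d+n-1] U(d-1,n-1) + V(d-1,n-1))^2` for `d, n ≥ 1`: `[0] = 0` and
`[i+1]/D_{i+1} = 1/D_i^2`, so `V(d,n) = Σ_{i ≤ min(d-1,n-1)} ((ℓ_{d+n-1-i}/(ℓ_{d-1-i} ℓ_{n-1-i}))^(2^i)/D_i)^2`, take
the square out (characteristic 2), and
`(ℓ_{d+n-1-i}/(..))^(2^i)/D_i = [d+n-1-i]^(2^i) a_i(d-1,n-1) = ([d+n-1] + [i]) a_i(d-1,n-1)`.
`V(d,0) = V(0,n) = 0`.
Claim, by induction on `d` for all `n`: `U(d,n) = 1` and `V(d,n) = Σ_{l=1}^{d} [n]^(2^l)`.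
`U(0,n) = 1`.  Step for `V` (`n ≥ 1`; for `n = 0` both sides are 0):
`V(d,n) = [d+n-1]^2 + Σ_{l=2}^{d} [n-1]^(2^l)`, and this equals `Σ_{l=1}^d [n]^(2^l)`:
`[n] = [n-1] + D^(2^(n-1))`, so
`Σ_{l=1}^d [n]^(2^l) = Σ_{l=1}^d [n-1]^(2^l) + Σ_{l=1}^d D^(2^(n-1+l))`, and
`[d+n-1]^2 = Σ_{m=1}^{d+n-1} D^(2^m) = [n-1]^2 + Σ_{l=1}^{d} D^(2^(n-1+l))`.
Step for `U`: by (R1) `[d] U(d,n) = [d+n] + V(d-1,n) + V(d,n) = [d+n] + [n]^(2^d) = [d]`
(`br_add n d`), and `[d] ≠ 0`.

Second identity (`U'`), `d, n ≥ 1`: `a'_i = (ℓ_{d+n-1-i}/(ℓ_{d-i} ℓ_{n-i}))^(2^i)/D_i`,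
`U' = Σ a'_i = 0`: `([d]+[i]) a'_i = [d-i]^(2^i) a'_i = a_i(d-1,n)` (0 for `i = d`), so
`[d] U' + V' = U(d-1,n) = 1` with `V' = Σ [i] a'_i = (Σ_i (ℓ_{d+n-2-i}/(ℓ_{d-1-i} ℓ_{n-1-i}))^(2^i)/D_i)^2
 = U(d-1,n-1)^2 = 1`.  So `[d] U' = 0`.
-/

namespace Pool.Agent.ZL

open Polynomial Finset

variable {K : Type*} [Field K] [CharP K 2] (D : K) (hb : ∀ i, br D (i + 1) ≠ 0)

/-- the term of the first sum, 0 outside the range -/
private noncomputable def ua (d n i : ℕ) : K :=
  if i ≤ d ∧ i ≤ n then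
    (ell D (d + n - i) / (ell D (d - i) * ell D (n - i))) ^ 2 ^ i / DD D i else 0

private theorem ua_br_add (i j : ℕ) : br D (i + j) + br D i = (br D j) ^ 2 ^ i := by
  rw [add_comm i j, br_add D j i, add_assoc, CharTwo.add_self_eq_zero, add_zero]

include hb

private theorem ua_r1 (e n i : ℕ) :
    (br D (e + 1) + br D i) * ua D (e + 1) n i = (br D (e + 1 + n) + br D i) * ua D e n i := by
  unfold ua
  by_cases hin : i ≤ n
  · rcases lt_trichotomy i (e + 1) with h | h | h
    · obtain ⟨j, rfl⟩ : ∃ j, e = i + j := ⟨e - i, by omega⟩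
      obtain ⟨m, rfl⟩ : ∃ m, n = i + m := ⟨n - i, by omega⟩
      rw [if_pos ⟨by omega, hin⟩, if_pos ⟨by omega, hin⟩]
      have e1 : br D (i + j + 1) + br D i = (br D (j + 1)) ^ 2 ^ i := by
        rw [add_assoc]
        exact ua_br_add D i (j + 1)
      have e2 : br D (i + j + 1 + (i + m)) + br D i = (br D (i + j + m + 1)) ^ 2 ^ i := by
        have h2 : i + j + 1 + (i + m) = i + (i + j + m + 1) := by ring
        rw [h2]
        exact ua_br_add D i (i + j + m + 1)
      have h3 : i + j + 1 + (i + m) - i = (i + j + m) + 1 := by omega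
      have h4 : i + j + 1 - i = j + 1 := by omega
      have h5 : i + m - i = m := by omega
      have h6 : i + j + (i + m) - i = i + j + m := by omega
      have h7 : i + j - i = j := by omega
      rw [e1, e2, h3, h4, h5, h6, h7, ell_succ, ell_succ]
      have h8 := hb j
      have h9 := ell_ne_zero D hb j
      have h10 := ell_ne_zero D hb m
      have h11 : br D (j + 1) * (ell D (i + j + m) * br D (i + j + m + 1) /
          (ell D j * br D (j + 1) * ell D m)) =
          br D (i + j + m + 1) * (ell D (i + j + m) / (ell D j * ell D m)) := by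
        field_simp
      rw [← mul_div_assoc, ← mul_pow, h11, mul_pow, mul_div_assoc]
    · subst h
      rw [CharTwo.add_self_eq_zero, zero_mul, if_neg (fun h => by omega), mul_zero]
    · rw [if_neg (fun h => by omega), if_neg (fun h => by omega), mul_zero, mul_zero]
  · rw [if_neg (fun h => hin h.2), if_neg (fun h => hin h.2), mul_zero, mul_zero]

private theorem ua_r2 (e m i : ℕ) :
    br D (i + 1) * ua D (e + 1) (m + 1) (i + 1) =
      ((br D (e + m + 1) + br D i) * ua D e m i) ^ 2 := by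
  unfold ua
  by_cases h : i ≤ e ∧ i ≤ m
  · obtain ⟨h1, h2⟩ := h
    rw [if_pos ⟨by omega, by omega⟩, if_pos ⟨h1, h2⟩]
    obtain ⟨j, rfl⟩ : ∃ j, e = i + j := ⟨e - i, by omega⟩
    obtain ⟨k, rfl⟩ : ∃ k, m = i + k := ⟨m - i, by omega⟩
    have e2 : br D (i + j + (i + k) + 1) + br D i = (br D (i + j + k + 1)) ^ 2 ^ i := by
      have h2 : i + j + (i + k) + 1 = i + (i + j + k + 1) := by ring
      rw [h2]
      exact ua_br_add D i (i + j + k + 1)
    have h3 : i + j + 1 + (i + k + 1) - (i + 1) = (i + j + k) + 1 := by omega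
    have h4 : i + j + 1 - (i + 1) = j := by omega
    have h5 : i + k + 1 - (i + 1) = k := by omega
    have h6 : i + j + (i + k) - i = i + j + k := by omega
    have h7 : i + j - i = j := by omega
    have h8 : i + k - i = k := by omega
    have hDD : DD D (i + 1) = br D (i + 1) * (DD D i) ^ 2 := rfl
    have h10 : (ell D (i + j + k) * br D (i + j + k + 1) / (ell D j * ell D k)) =
        br D (i + j + k + 1) * (ell D (i + j + k) / (ell D j * ell D k)) := by
      ring
    rw [e2, h3, h4, h5, h6, h7, h8, ell_succ, hDD, h10]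
    generalize ell D (i + j + k) / (ell D j * ell D k) = Z
    rw [pow_succ 2 i, pow_mul, mul_pow]
    have h9 := hb i
    have h11 := DD_ne D hb i
    field_simp
  · rw [if_neg (fun h' => h ⟨by omega, by omega⟩), if_neg h, mul_zero, mul_zero,
      zero_pow two_ne_zero]

private theorem ua_main (d : ℕ) : ∀ n N : ℕ, min d n < N →
    ∑ i ∈ range N, ua D d n i = 1 ∧
      ∑ i ∈ range N, br D i * ua D d n i = ∑ l ∈ range d, (br D n) ^ 2 ^ (l + 1) := by
  induction d with
  | zero =>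
    intro n N hN
    have hN0 : 0 < N := by omega
    have h0 : ∀ i, i ≠ 0 → ua D 0 n i = 0 := fun i hi => if_neg (fun h => by omega)
    refine ⟨?_, ?_⟩
    · rw [Finset.sum_eq_single 0 (fun i _ hi => h0 i hi)
        (fun h => absurd (Finset.mem_range.2 hN0) h)]
      unfold ua
      rw [if_pos ⟨le_refl _, Nat.zero_le _⟩, pow_zero, pow_one, Nat.sub_zero, Nat.sub_zero,
        Nat.zero_add, Nat.sub_zero]
      have h1 : ell D 0 = 1 := Finset.prod_range_zero _
      have h2 : DD D 0 = 1 := rfl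
      rw [h1, h2, one_mul, div_one, div_self (ell_ne_zero D hb n)]
    · rw [Finset.range_zero, Finset.sum_empty]
      refine Finset.sum_eq_zero fun i _ => ?_
      by_cases hi : i = 0
      · rw [hi, br_zero, zero_mul]
      · rw [h0 i hi, mul_zero]
  | succ e ih =>
    intro n N hN
    have hV : ∑ i ∈ range N, br D i * ua D (e + 1) n i =
        ∑ l ∈ range (e + 1), (br D n) ^ 2 ^ (l + 1) := by
      rcases Nat.eq_zero_or_pos n with rfl | hn
      · have h1 : ∑ l ∈ range (e + 1), (br D 0) ^ 2 ^ (l + 1) = 0 := by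
          refine Finset.sum_eq_zero fun l _ => ?_
          rw [br_zero, zero_pow (by positivity)]
        rw [h1]
        refine Finset.sum_eq_zero fun i _ => ?_
        by_cases hi : i = 0
        · rw [hi, br_zero, zero_mul]
        · have h2 : ua D (e + 1) 0 i = 0 := if_neg (fun h => by omega)
          rw [h2, mul_zero]
      · obtain ⟨m, rfl⟩ : ∃ m, n = m + 1 := ⟨n - 1, by omega⟩
        obtain ⟨M, rfl⟩ : ∃ M, N = M + 1 := ⟨N - 1, by omega⟩
        obtain ⟨h1, h2⟩ := ih m M (by omega)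
        rw [Finset.sum_range_succ', br_zero, zero_mul, add_zero]
        have h3 : ∑ i ∈ range M, br D (i + 1) * ua D (e + 1) (m + 1) (i + 1) =
            (br D (e + m + 1) + ∑ l ∈ range e, (br D m) ^ 2 ^ (l + 1)) ^ 2 := by
          rw [← h2, ← mul_one (br D (e + m + 1)), ← h1, Finset.mul_sum,
            ← Finset.sum_add_distrib, CharTwo.sum_sq]
          refine Finset.sum_congr rfl fun i _ => ?_
          rw [ua_r2 D hb, add_mul]
        rw [h3, CharTwo.add_sq, CharTwo.sum_sq]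
        have h4 : ∀ l, (br D (m + 1)) ^ 2 ^ (l + 1) =
            ((br D m) ^ 2 ^ (l + 1)) ^ 2 + (D ^ 2 ^ l) ^ 2 := by
          intro l
          rw [br_succ, add_pow_char_pow, ← pow_mul, ← pow_mul, ← pow_mul, pow_succ 2 l,
            mul_comm 2 (2 ^ l * 2)]
        have h5 : ∑ l ∈ range (e + 1), (br D (m + 1)) ^ 2 ^ (l + 1) =
            ∑ l ∈ range (e + 1), ((br D m) ^ 2 ^ (l + 1)) ^ 2 + (br D (e + 1)) ^ 2 := by
          rw [Finset.sum_congr rfl fun l _ => h4 l, Finset.sum_add_distrib, ← CharTwo.sum_sq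
            (range (e + 1)) (fun l => D ^ 2 ^ l)]
          rfl
        have h6 : br D (e + m + 1) = (br D m) ^ 2 ^ (e + 1) + br D (e + 1) := by
          rw [← br_add D m (e + 1)]
          congr 1
          ring
        rw [h5, Finset.sum_range_succ, h6, CharTwo.add_sq]
        ring
    refine ⟨?_, hV⟩
    obtain ⟨h1, h2⟩ := ih n N (by omega)
    have h3 : br D (e + 1) * ∑ i ∈ range N, ua D (e + 1) n i +
        ∑ i ∈ range N, br D i * ua D (e + 1) n i =
        br D (e + 1 + n) * ∑ i ∈ range N, ua D e n i + ∑ i ∈ range N, br D i * ua D e n i := by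
      rw [Finset.mul_sum, Finset.mul_sum, ← Finset.sum_add_distrib, ← Finset.sum_add_distrib]
      refine Finset.sum_congr rfl fun i _ => ?_
      have h4 := ua_r1 D hb e n i
      linear_combination h4
    rw [hV, h1, h2, mul_one, Finset.sum_range_succ] at h3
    have h5 := br_add D n (e + 1)
    have h6 : n + (e + 1) = e + 1 + n := by ring
    rw [h6] at h5
    have h7 : br D (e + 1) * ∑ i ∈ range N, ua D (e + 1) n i = br D (e + 1) * 1 := by
      have h8 : (2 : K) = 0 := CharTwo.two_eq_zero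
      linear_combination h3 + h5
    exact mul_left_cancel₀ (hb e) h7

theorem U_id (d n : ℕ) :
    ∑ i ∈ range (min d n + 1),
      (ell D (d + n - i) / (ell D (d - i) * ell D (n - i))) ^ 2 ^ i / DD D i = 1 := by
  rw [← (ua_main D hb d n (min d n + 1) (Nat.lt_succ_self _)).1]
  refine Finset.sum_congr rfl fun i hi => ?_
  have h := Finset.mem_range.1 hi
  unfold ua
  rw [if_pos ⟨by omega, by omega⟩]

/-- the term of the second sum, 0 outside the range -/
private noncomputable def ub (d n i : ℕ) : K :=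
  if i ≤ d ∧ i ≤ n then
    (ell D (d + n - 1 - i) / (ell D (d - i) * ell D (n - i))) ^ 2 ^ i / DD D i else 0

private theorem ub_r1 (e m i : ℕ) :
    (br D (e + 1) + br D i) * ub D (e + 1) (m + 1) i = ua D e (m + 1) i := by
  unfold ub ua
  by_cases hin : i ≤ m + 1
  · rcases lt_trichotomy i (e + 1) with h | h | h
    · obtain ⟨j, rfl⟩ : ∃ j, e = i + j := ⟨e - i, by omega⟩
      rw [if_pos ⟨by omega, hin⟩, if_pos ⟨by omega, hin⟩]
      have e1 : br D (i + j + 1) + br D i = (br D (j + 1)) ^ 2 ^ i := by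
        rw [add_assoc]
        exact ua_br_add D i (j + 1)
      have h3 : i + j + 1 + (m + 1) - 1 - i = j + (m + 1) := by omega
      have h4 : i + j + 1 - i = j + 1 := by omega
      have h6 : i + j + (m + 1) - i = j + (m + 1) := by omega
      have h7 : i + j - i = j := by omega
      rw [e1, h3, h4, h6, h7, ell_succ]
      have h8 := hb j
      have h9 := ell_ne_zero D hb j
      have h10 := ell_ne_zero D hb (m + 1 - i)
      have h11 : br D (j + 1) * (ell D (j + (m + 1)) /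
          (ell D j * br D (j + 1) * ell D (m + 1 - i))) =
          ell D (j + (m + 1)) / (ell D j * ell D (m + 1 - i)) := by
        field_simp
      rw [← mul_div_assoc, ← mul_pow, h11]
    · subst h
      rw [CharTwo.add_self_eq_zero, zero_mul, if_neg (fun h => by omega)]
    · rw [if_neg (fun h => by omega), if_neg (fun h => by omega), mul_zero]
  · rw [if_neg (fun h => hin h.2), if_neg (fun h => hin h.2), mul_zero]

private theorem ub_r2 (e m i : ℕ) :
    br D (i + 1) * ub D (e + 1) (m + 1) (i + 1) = (ua D e m i) ^ 2 := by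
  unfold ub ua
  by_cases h : i ≤ e ∧ i ≤ m
  · obtain ⟨h1, h2⟩ := h
    rw [if_pos ⟨by omega, by omega⟩, if_pos ⟨h1, h2⟩]
    have h3 : e + 1 + (m + 1) - 1 - (i + 1) = e + m - i := by omega
    have h4 : e + 1 - (i + 1) = e - i := by omega
    have h5 : m + 1 - (i + 1) = m - i := by omega
    have hDD : DD D (i + 1) = br D (i + 1) * (DD D i) ^ 2 := rfl
    rw [h3, h4, h5, hDD, div_pow _ (DD D i), pow_succ 2 i, pow_mul]
    have h9 := hb i
    have h11 := DD_ne D hb i
    field_simp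
  · rw [if_neg (fun h' => h ⟨by omega, by omega⟩), if_neg h, mul_zero, zero_pow two_ne_zero]

theorem U_id' {d n : ℕ} (hd : 1 ≤ d) (hn : 1 ≤ n) :
    ∑ i ∈ range (min d n + 1),
      (ell D (d + n - 1 - i) / (ell D (d - i) * ell D (n - i))) ^ 2 ^ i / DD D i = 0 := by
  obtain ⟨e, rfl⟩ : ∃ e, d = e + 1 := ⟨d - 1, by omega⟩
  obtain ⟨m, rfl⟩ : ∃ m, n = m + 1 := ⟨n - 1, by omega⟩
  have h1 : ∑ i ∈ range (min (e + 1) (m + 1) + 1),
      (ell D (e + 1 + (m + 1) - 1 - i) / (ell D (e + 1 - i) * ell D (m + 1 - i))) ^ 2 ^ i /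
        DD D i = ∑ i ∈ range (min (e + 1) (m + 1) + 1), ub D (e + 1) (m + 1) i := by
    refine Finset.sum_congr rfl fun i hi => ?_
    have h := Finset.mem_range.1 hi
    unfold ub
    rw [if_pos ⟨by omega, by omega⟩]
  rw [h1]
  have h2 : br D (e + 1) * ∑ i ∈ range (min (e + 1) (m + 1) + 1), ub D (e + 1) (m + 1) i +
      ∑ i ∈ range (min (e + 1) (m + 1) + 1), br D i * ub D (e + 1) (m + 1) i = 1 := by
    rw [← (ua_main D hb e (m + 1) (min (e + 1) (m + 1) + 1) (by omega)).1, Finset.mul_sum,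
      ← Finset.sum_add_distrib]
    refine Finset.sum_congr rfl fun i _ => ?_
    have h4 := ub_r1 D hb e m i
    linear_combination h4
  have h3 : ∑ i ∈ range (min (e + 1) (m + 1) + 1), br D i * ub D (e + 1) (m + 1) i = 1 := by
    rw [Finset.sum_range_succ', br_zero, zero_mul, add_zero]
    have h5 := (ua_main D hb e m (min (e + 1) (m + 1)) (by omega)).1
    have h6 : (1 : K) = (∑ i ∈ range (min (e + 1) (m + 1)), ua D e m i) ^ 2 := by
      rw [h5, one_pow]
    rw [h6, CharTwo.sum_sq]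
    exact Finset.sum_congr rfl fun i _ => ub_r2 D hb e m i
  rw [h3] at h2
  have h4 : br D (e + 1) * ∑ i ∈ range (min (e + 1) (m + 1) + 1), ub D (e + 1) (m + 1) i = 0 := by
    linear_combination h2
  exact (mul_eq_zero.1 h4).resolve_left (hb e)

end Pool.Agent.ZL
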